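import Mathlib

/-!
# Competition between an explosive and a non-explosive spread on the configuration model:
# definitions (problem MP_dcd9d4_pr)
-/

set_option autoImplicit false

namespace Pool.Agent.Helper98.Comp

open MeasureTheory Filter Set
open scoped ENNReal NNReal Topology

/-! ## The degree law -/

/-- `L` is slowly varying at infinity. -/
def SlowlyVarying (L : ℝ → ℝ) : Prop :=
  (∀ᶠ x in atTop, 0 < L x) ∧
    ∀ c : ℝ, 0 < c → Tendsto (fun x => L (c * x) / L x) atTop (𝓝 1)

/-- `μ` is the law of a random variable `D` with values in `{2, 3, ...}` and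
`P(D > x) = L(x) x^{-(τ-1)}`, where `L` is slowly varying. -/
structure IsDegreeLaw (μ : Measure ℕ) (τ : ℝ) : Prop where
  prob : IsProbabilityMeasure μ
  two_le : μ {k | k < 2} = 0
  tail : ∃ L : ℝ → ℝ, SlowlyVarying L ∧
    ∀ x : ℝ, 0 < x → μ {k : ℕ | x < (k : ℝ)} = ENNReal.ofReal (L x * x ^ (-(τ - 1)))

/-- The size-biased law: `P(Dstar = k) = (k+1) P(D = k+1) / E D`. -/
noncomputable def sizeBiased (μ : Measure ℕ) : Measure ℕ :=
  Measure.sum fun k : ℕ =>
    (((k : ℝ≥0∞) + 1) * μ {k + 1} / ∫⁻ j, (j : ℝ≥0∞) ∂μ) • Measure.dirac k

/-! ## The underlying branching process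

Individuals are words `u : List ℕ` (Ulam-Harris notation): `[]` is the root, and `i :: u` is the
individual `u` of the subtree of the `i`-th child of the root.  A realisation assigns to every
word a number of children and a weight of the edge to its parent. -/

/-- The labels of the subtree rooted at the `i`-th child of the root. -/
def sub {α : Type*} (f : List ℕ → α) (i : ℕ) : List ℕ → α := fun u => f (i :: u)

/-- `u` belongs to the tree, when `K` gives the numbers of children. -/
def alive : (List ℕ → ℕ) → List ℕ → Prop
  | _, [] => True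
  | K, i :: u => i < K [] ∧ alive (sub K i) u

/-- Birth time of `u`: the total weight of its path to the root. -/
noncomputable def dist : (List ℕ → ℝ≥0) → List ℕ → ℝ≥0
  | _, [] => 0
  | X, i :: u => X [i] + dist (sub X i) u

/-- Galton-Watson tree with edge weights: the root has offspring law `α`, the other individuals
have offspring law `ν`, the edges have weights of law `I`, everything independent. -/
noncomputable def treeLaw {W : Type*} [MeasurableSpace W] (α ν : Measure ℕ) (I : Measure W) :
    Measure (List ℕ → ℕ × W) :=
  Measure.infinitePi fun u : List ℕ => (if u = [] then α else ν).prod I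

/-- The underlying branching process is explosive: with positive probability infinitely many
individuals are born before some finite time. -/
def Explosive (μ : Measure ℕ) (I : Measure ℝ≥0) : Prop :=
  0 < treeLaw μ (sizeBiased μ) I
    {ω | ∃ t : ℝ≥0, {u : List ℕ | alive (fun v => (ω v).1) u ∧
      dist (fun v => (ω v).2) u ≤ t}.Infinite}

/-! ## The configuration model -/

/-- The half-edges of a degree sequence. -/
abbrev HE {n : ℕ} (d : Fin n → ℕ) : Type := Σ v : Fin n, Fin (d v)

/-- The pairings of the half-edges. -/
def Pairing {n : ℕ} (d : Fin n → ℕ) : Type :=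
  {σ : Equiv.Perm (HE d) // (∀ h, σ (σ h) = h) ∧ ∀ h, σ h ≠ h}

noncomputable instance {n : ℕ} (d : Fin n → ℕ) : Fintype (Pairing d) := by
  classical
  unfold Pairing
  infer_instance

noncomputable instance {n : ℕ} (d : Fin n → ℕ) : DecidableEq (Pairing d) := Classical.decEq _

instance {n : ℕ} (d : Fin n → ℕ) : CoeFun (Pairing d) fun _ => HE d → HE d :=
  ⟨fun σ => σ.1⟩

/-- If the sum of the degrees is odd, add `1` to the last degree. -/
def fixParity {n : ℕ} (D : Fin (n + 2) → ℕ) : Fin (n + 2) → ℕ :=
  if Even (∑ v, D v) then D else Function.update D (Fin.last (n + 1)) (D (Fin.last (n + 1)) + 1)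

/-! ## The competition -/

/-- The passage time of the colour `c` (`true` is red, `false` is blue). -/
def wt (c : Bool) (p : ℝ≥0 × ℝ≥0) : ℝ≥0 := if c then p.1 else p.2

/-- `T` and `c` are the times and the colours of a possible evolution of the competition with
the sources `ur` (red) and `ub` (blue): every vertex is painted at the time when the first
colour reaches it, and its colour is one of the colours which reach it at that time;
`T w = ⊤` means that `w` is never painted.  No rule is imposed for simultaneous arrivals; so the
evolution with an independent fair coin is an evolution of this kind, and so is the one with any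
other tie breaking rule. The function `rank` is an order in which the vertices are painted. -/
structure IsOutcome {n : ℕ} {d : Fin n → ℕ} (σ : Pairing d) (x : Sym2 (HE d) → ℝ≥0 × ℝ≥0)
    (ur ub : Fin n) (T : Fin n → ℝ≥0∞) (c : Fin n → Bool) : Prop where
  red_source : T ur = 0 ∧ c ur = true
  blue_source : T ub = 0 ∧ c ub = false
  first : ∀ h : HE d, T (σ h).1 ≤ T h.1 + (wt (c h.1) (x s(h, σ h)) : ℝ≥0∞)
  origin : ∃ rank : Fin n → ℕ, ∀ w, w ≠ ur → w ≠ ub → T w ≠ ⊤ →
    ∃ h : HE d, (σ h).1 = w ∧ c h.1 = c w ∧ rank h.1 < rank w ∧
      T w = T h.1 + (wt (c w) (x s(h, σ h)) : ℝ≥0∞)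

/-- The number of vertices of colour `b`. -/
noncomputable def painted {n : ℕ} (T : Fin n → ℝ≥0∞) (c : Fin n → Bool) (b : Bool) : ℕ :=
  Set.ncard {w | T w ≠ ⊤ ∧ c w = b}

/-- The probability, for the fixed degree sequence `d`, that some possible evolution satisfies
`Bad N_r N_b`: the pairing is uniform, the sources are uniform distinct vertices, the passage times
of the edges are independent of law `Ir` (red) and `Ib` (blue). -/
noncomputable def quenched {n : ℕ} (d : Fin n → ℕ) (Ir Ib : Measure ℝ≥0)
    (Bad : ℕ → ℕ → Prop) : ℝ≥0∞ :=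
  (∑ σ : Pairing d, ∑ p : {p : Fin n × Fin n // p.1 ≠ p.2},
      (Measure.pi fun _ : Sym2 (HE d) => Ir.prod Ib)
        {x | ∃ T c, IsOutcome σ x p.1.1 p.1.2 T c ∧ Bad (painted T c true) (painted T c false)}) /
    ((Fintype.card (Pairing d) : ℝ≥0∞) * Fintype.card {p : Fin n × Fin n // p.1 ≠ p.2})

/-- The probability that some possible evolution on the configuration model with `n + 2` vertices
and independent degrees of law `μ` satisfies `Bad N_r N_b`. -/
noncomputable def annealed (n : ℕ) (μ : Measure ℕ) (Ir Ib : Measure ℝ≥0)
    (Bad : ℕ → ℕ → Prop) : ℝ≥0∞ :=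
  ∫⁻ D : Fin (n + 2) → ℕ, quenched (fixParity D) Ir Ib Bad ∂(Measure.pi fun _ => μ)

end Pool.Agent.Helper98.Comp
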