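import Pool.Agent.Helper98.Comp.Select

/-!
# MODULE Determ: the deterministic part
-/

set_option autoImplicit false

namespace Pool.Agent.Helper98.Comp

open MeasureTheory Filter Set
open scoped ENNReal NNReal Topology

variable {n : ℕ} {d : Fin n → ℕ}

/-! ### Blue vertices are positions of the blue tree -/

/-- The word `u` is followed by blue. -/
structure dt_BW (σ : Pairing d) (x : Sym2 (HE d) → ℝ≥0 × ℝ≥0) (ub : Fin n) (T : Fin n → ℝ≥0∞)
    (c : Fin n → Bool) (rank : Fin n → ℕ) (u : List ℕ) (q : Fin n × Option ℕ) : Prop where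
  al : alive (fK σ ub) u
  ps : pos σ ub u = some q
  blue : c q.1 = false
  time : T q.1 = (dist (fXb σ x ub) u : ℝ≥0∞)
  entry : ∀ w i g, u = w ++ [i] → edge σ ub w i = some g → rank g.1 < rank q.1

theorem dt_halfedge {σ : Pairing d} {v : Fin n} {u : List ℕ} (h : alive (fK σ v) u)
    {q : Fin n × Option ℕ} (hq : pos σ v u = some q) {g : HE d} (hg : g.1 = q.1) :
    (∃ w i g', u = w ++ [i] ∧ edge σ v w i = some g' ∧ σ g' = g) ∨
      ∃ i < fK σ v u, edge σ v u i = some g := by
  have hlt : g.2.val < d q.1 := by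
    rw [← hg]
    exact g.2.isLt
  induction u using List.reverseRecOn with
  | nil =>
    right
    rw [pos_nil, Option.some.injEq] at hq
    subst hq
    refine ⟨g.2.val, ?_, ?_⟩
    · rw [xa_fK (pos_nil σ v)]
      exact hlt
    · rw [xa_edge (pos_nil σ v), xa_slot (show g.2.val < numSlots d (v, none) from hlt),
        Option.some.injEq]
      exact xa_ext hg.symm rfl
  | append_singleton w i _ =>
    obtain ⟨ha1, ha2⟩ := (alive_append _ w [i]).1 h
    obtain ⟨q0, hq0⟩ := exists_pos_of_alive ha1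
    have hi0 : i < fK σ v w := by simpa [alive, subAt] using ha2
    obtain ⟨g', h1, -, -, h2⟩ := xa_child hq0 hi0
    have hq' := hq
    rw [h2, Option.some.injEq] at hq'
    by_cases hj : g.2.val = (σ g').2.val
    · left
      refine ⟨w, i, g', rfl, h1, xa_ext ?_ hj.symm⟩
      rw [hg, ← hq']
    · right
      have hj2 : (σ g').2.val < d q.1 := by
        rw [← hq']
        exact (σ g').2.isLt
      have hns : numSlots d q = d q.1 - 1 := by rw [← hq']; rfl
      have hsk : ∀ k, skip q.2 k = if k < (σ g').2.val then k else k + 1 := by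
        intro k; rw [← hq']; rfl
      rcases lt_or_gt_of_ne hj with hlt2 | hgt
      · have hk : g.2.val < numSlots d q := by omega
        refine ⟨g.2.val, by rw [xa_fK hq]; exact hk, ?_⟩
        rw [xa_edge hq, xa_slot hk, Option.some.injEq]
        refine xa_ext hg.symm ?_
        show skip q.2 g.2.val = g.2.val
        rw [hsk, if_pos hlt2]
      · have hk : g.2.val - 1 < numSlots d q := by omega
        refine ⟨g.2.val - 1, by rw [xa_fK hq]; exact hk, ?_⟩
        rw [xa_edge hq, xa_slot hk, Option.some.injEq]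
        refine xa_ext hg.symm ?_
        show skip q.2 (g.2.val - 1) = g.2.val
        rw [hsk, if_neg (by omega)]
        omega

theorem dt_dist_snoc (X : List ℕ → ℝ≥0) (u : List ℕ) (i : ℕ) :
    dist X (u ++ [i]) = dist X u + X (u ++ [i]) := by
  rw [dist_append]
  congr 1
  show subAt X u [i] + dist (sub (subAt X u) i) [] = _
  show X (u ++ [i]) + 0 = X (u ++ [i])
  rw [add_zero]

theorem dt_fXb_snoc {σ : Pairing d} {x : Sym2 (HE d) → ℝ≥0 × ℝ≥0} {v : Fin n} {u : List ℕ} {i : ℕ}
    {g : HE d} (h : edge σ v u i = some g) : fXb σ x v (u ++ [i]) = (x s(g, σ g)).2 := by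
  unfold fXb
  rw [fX_snoc, h]
  rfl

theorem dt_fXr_snoc {σ : Pairing d} {x : Sym2 (HE d) → ℝ≥0 × ℝ≥0} {v : Fin n} {u : List ℕ} {i : ℕ}
    {g : HE d} (h : edge σ v u i = some g) : fXr σ x v (u ++ [i]) = (x s(g, σ g)).1 := by
  unfold fXr
  rw [fX_snoc, h]
  rfl

theorem dt_words {σ : Pairing d} {x : Sym2 (HE d) → ℝ≥0 × ℝ≥0} {ur ub : Fin n} {T : Fin n → ℝ≥0∞}
    {c : Fin n → Bool} (hT : IsOutcome σ x ur ub T c) :
    ∃ rank : Fin n → ℕ, ∀ w, T w ≠ ⊤ → c w = false →
      ∃ u q, q.1 = w ∧ dt_BW σ x ub T c rank u q ∧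
        ∀ v, v <+: u → ∃ q', dt_BW σ x ub T c rank v q' := by
  obtain ⟨rank, hr⟩ := hT.origin
  refine ⟨rank, ?_⟩
  have key : ∀ k w, rank w = k → T w ≠ ⊤ → c w = false →
      ∃ u q, q.1 = w ∧ dt_BW σ x ub T c rank u q ∧
        ∀ v, v <+: u → ∃ q', dt_BW σ x ub T c rank v q' := by
    intro k
    induction k using Nat.strong_induction_on with
    | _ k ih =>
      intro w hk hw hc
      by_cases hwb : w = ub
      · subst hwb
        have hB : dt_BW σ x w T c rank [] (w, none) := by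
          refine ⟨trivial, rfl, hc, ?_, ?_⟩
          · rw [hT.blue_source.1]
            simp [dist]
          · intro w' i g h1
            exact absurd h1 (by simp)
        refine ⟨[], (w, none), rfl, hB, ?_⟩
        intro v hv
        rw [List.prefix_nil] at hv
        subst hv
        exact ⟨_, hB⟩
      · have hwr : w ≠ ur := by
          rintro rfl
          rw [hT.red_source.2] at hc
          exact absurd hc (by simp)
        obtain ⟨h, h1, h2, h3, h4⟩ := hr w hwr hwb hw
        have h5 : T h.1 ≠ ⊤ := by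
          intro h6
          rw [h6, top_add] at h4
          exact hw h4
        obtain ⟨u, q, hq1, hB, hpre⟩ := ih (rank h.1) (by omega) h.1 rfl h5 (h2.trans hc)
        rcases dt_halfedge hB.al hB.ps hq1.symm with ⟨w0, i, g', e1, e2, e3⟩ | ⟨i, hi, e⟩
        · exfalso
          have h6 := hB.entry w0 i g' e1 e2
          have h7 : σ h = g' := by rw [← e3]; exact σ.2.1 g'
          rw [← h7, h1, hq1] at h6
          omega
        · have hB' : dt_BW σ x ub T c rank (u ++ [i]) ((σ h).1, some (σ h).2.val) := by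
            refine ⟨?_, ?_, ?_, ?_, ?_⟩
            · rw [alive_append]
              exact ⟨hB.al, by simpa [alive, subAt] using hi⟩
            · rw [pos_snoc, e]
              rfl
            · show c (σ h).1 = false
              rw [h1, hc]
            · show T (σ h).1 = _
              rw [h1, h4, hc, dt_dist_snoc, dt_fXb_snoc e, ← hq1, hB.time, ENNReal.coe_add]
              rfl
            · intro w' i' g e1 e2
              have e3 := List.append_inj' e1 rfl
              have e4 : i = i' := by simpa using e3.2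
              rw [← e3.1, ← e4, e, Option.some.injEq] at e2
              rw [← e2]
              show rank h.1 < rank (σ h).1
              rw [h1]
              exact h3
          refine ⟨u ++ [i], _, h1, hB', ?_⟩
          intro v hv
          rw [List.prefix_concat_iff] at hv
          rcases hv with hv | hv
          · rw [hv]; exact ⟨_, hB'⟩
          · exact hpre v hv
  intro w hw hc
  exact key _ w rfl hw hc

/-! ### The deterministic statement -/

/-- Positions of the blue tree of small generation. -/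
def dt_EB (R0 : ℕ) (σ : Pairing d) (ub v : Fin n) : Prop :=
  ∃ u q, alive (fK σ ub) u ∧ u.length < R0 ∧ pos σ ub u = some q ∧ q.1 = v

section
variable {σ : Pairing d} {x : Sym2 (HE d) → ℝ≥0 × ℝ≥0} {ur ub : Fin n} {T : Fin n → ℝ≥0∞}
  {c : Fin n → Bool} {M M0 R R0 J : ℕ} {S : ℝ≥0}

theorem dt_early (hT : IsOutcome σ x ur ub T c)
    (h1 : ∀ u, alive (fK σ ub) u → u.length = R0 → S ≤ dist (fXb σ x ub) u)
    {v : Fin n} (hv : T v < (S : ℝ≥0∞)) (hc : c v = false) : dt_EB R0 σ ub v := by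
  obtain ⟨rank, hr⟩ := dt_words hT
  obtain ⟨u, q, hq, hB, hpre⟩ := hr v hv.ne_top hc
  refine ⟨u, q, hB.al, ?_, hB.ps, hq⟩
  by_contra hlen
  push Not at hlen
  obtain ⟨q', hB'⟩ := hpre (u.take R0) (List.take_prefix _ _)
  have h2 := h1 (u.take R0) hB'.al (by simp [hlen])
  have h3 : dist (fXb σ x ub) (u.take R0) ≤ dist (fXb σ x ub) u := by
    conv_rhs => rw [← List.take_append_drop R0 u, dist_append]
    exact le_self_add
  have h4 := hB.time
  rw [hq] at h4
  rw [h4] at hv
  have h5 : dist (fXb σ x ub) u < S := by exact_mod_cast hv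
  exact absurd (h2.trans h3) (not_le.mpr h5)

theorem dt_step (hT : IsOutcome σ x ur ub T c)
    (h1 : ∀ u, alive (fK σ ub) u → u.length = R0 → S ≤ dist (fXb σ x ub) u)
    {h : HE d} {L : ℝ≥0} (hc : c h.1 = true) (hL : T h.1 ≤ (L : ℝ≥0∞))
    (hS : L + (x s(h, σ h)).1 < S) (hE : ¬ dt_EB R0 σ ub (σ h).1) :
    c (σ h).1 = true ∧ T (σ h).1 ≤ ((L + (x s(h, σ h)).1 : ℝ≥0) : ℝ≥0∞) := by
  have h2 := hT.first h
  rw [hc] at h2
  have h3 : T (σ h).1 ≤ ((L + (x s(h, σ h)).1 : ℝ≥0) : ℝ≥0∞) := by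
    refine h2.trans ?_
    rw [ENNReal.coe_add]
    exact add_le_add hL le_rfl
  refine ⟨?_, h3⟩
  by_contra hcf
  rw [Bool.not_eq_true] at hcf
  refine hE (dt_early hT h1 (h3.trans_lt ?_) hcf)
  exact_mod_cast hS

variable (hT : IsOutcome σ x ur ub T c) (hσ : EmbOK M R σ ur ub)
  (hrelb : ∀ u, alive (fK σ ub) u → u.length ≤ R0 → rel M R (fK σ ub) u ∧ fK σ ub u < M)
  (hR0 : R0 < R)
  (h1 : ∀ u, alive (fK σ ub) u → u.length = R0 → S ≤ dist (fXb σ x ub) u)

include hT hrelb hR0 h1 in
theorem dt_walk {v w : Fin n} {ℓ : ℝ≥0} (hw : FreeWalk σ x (revSet M R σ ur ub)ᶜ v w ℓ) :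
    ∀ {L : ℝ≥0}, c v = true → T v ≤ (L : ℝ≥0∞) → L + ℓ < S →
      c w = true ∧ T w ≤ ((L + ℓ : ℝ≥0) : ℝ≥0∞) := by
  induction hw with
  | nil v ℓ =>
    intro L hc hL _
    refine ⟨hc, hL.trans ?_⟩
    exact_mod_cast le_self_add
  | cons h w ℓ ℓ' hA hA' hw hℓ ih =>
    intro L hc hL hS
    have h2 : L + (x s(h, σ h)).1 + ℓ ≤ L + ℓ' := by
      rw [add_assoc]
      exact add_le_add le_rfl hℓ
    have h3 : L + (x s(h, σ h)).1 < S := lt_of_le_of_lt le_self_add (h2.trans_lt hS)
    have hE : ¬ dt_EB R0 σ ub (σ h).1 := by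
      rintro ⟨u, q, a1, a2, a3, a4⟩
      obtain ⟨a5, a6⟩ := hrelb u a1 a2.le
      exact hA' (internal_revealed (b := false) (M := M) (R := R) (ur := ur) (ub := ub) a5 a6
        (by omega) a3 a4.symm)
    obtain ⟨b1, b2⟩ := dt_step hT h1 hc hL h3 hE
    obtain ⟨b3, b4⟩ := ih b1 b2 (h2.trans_lt hS)
    refine ⟨b3, b4.trans ?_⟩
    exact_mod_cast h2

include hT hσ hrelb h1 in
theorem dt_tree {ℓ : List ℕ} : ∀ {q : Fin n × Option ℕ}, rel M R (fK σ ur) ℓ → pos σ ur ℓ = some q →
    dist (fXr σ x ur) ℓ < S → c q.1 = true ∧ T q.1 ≤ (dist (fXr σ x ur) ℓ : ℝ≥0∞) := by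
  induction ℓ using List.reverseRecOn with
  | nil =>
    intro q _ hq _
    rw [pos_nil, Option.some.injEq] at hq
    subst hq
    refine ⟨hT.red_source.2, ?_⟩
    show T ur ≤ _
    rw [hT.red_source.1]
    exact zero_le
  | append_singleton u i ih =>
    intro q hrel hq hS
    obtain ⟨g, e1, ⟨q0, e2, e3⟩, e4⟩ := exists_edge hrel
    obtain ⟨r1, -, -, -⟩ := rel_snoc.1 hrel
    rw [dt_dist_snoc, dt_fXr_snoc e1] at hS ⊢
    obtain ⟨b1, b2⟩ := ih r1 e2 (lt_of_le_of_lt le_self_add hS)
    rw [e3] at b1 b2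
    rw [e4, Option.some.injEq] at hq
    subst hq
    have hE : ¬ dt_EB R0 σ ub (σ g).1 := by
      rintro ⟨u', q', a1, a2, a3, a4⟩
      obtain ⟨a5, a6⟩ := hrelb u' a1 a2.le
      have := hσ true (u ++ [i]) false u' hrel a5 _ q' e4 a3 a4.symm
      exact absurd this.1 (by simp)
    exact dt_step hT h1 b1 b2 hS hE

include hT hσ hrelb h1 in
theorem dt_back {z : List ℕ} (hz : R0 ≤ z.length) {qz : Fin n × Option ℕ}
    (hqz : pos σ ub z = some qz) {ℓ : List ℕ} : ∀ {q : Fin n × Option ℕ} {L : ℝ≥0},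
    rel M R (fK σ ub) (z ++ ℓ) → pos σ ub (z ++ ℓ) = some q → c q.1 = true →
    T q.1 ≤ (L : ℝ≥0∞) → L + dist (subAt (fXr σ x ub) z) ℓ < S → c qz.1 = true := by
  induction ℓ using List.reverseRecOn with
  | nil =>
    intro q L _ hq hc _ _
    rw [List.append_nil, hqz, Option.some.injEq] at hq
    rw [hq]
    exact hc
  | append_singleton u i ih =>
    intro q L hrel hq hc hL hS
    rw [← List.append_assoc] at hrel hq
    obtain ⟨g, e1, ⟨q0, e2, e3⟩, e4⟩ := exists_edge hrel
    obtain ⟨r1, -, -, -⟩ := rel_snoc.1 hrel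
    have hX : subAt (fXr σ x ub) z (u ++ [i]) = (x s(g, σ g)).1 := by
      show fXr σ x ub (z ++ (u ++ [i])) = _
      rw [← List.append_assoc, dt_fXr_snoc e1]
    rw [dt_dist_snoc, hX] at hS
    rw [e4, Option.some.injEq] at hq
    subst hq
    have hσσ : σ (σ g) = g := σ.2.1 g
    have hxx : x s(σ g, σ (σ g)) = x s(g, σ g) := by rw [hσσ, Sym2.eq_swap]
    have hS2 : L + (x s(g, σ g)).1 + dist (subAt (fXr σ x ub) z) u < S := by
      have : L + (x s(g, σ g)).1 + dist (subAt (fXr σ x ub) z) u =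
          L + (dist (subAt (fXr σ x ub) z) u + (x s(g, σ g)).1) := by ring
      rw [this]
      exact hS
    have hE : ¬ dt_EB R0 σ ub (σ (σ g)).1 := by
      rintro ⟨u', q', a1, a2, a3, a4⟩
      obtain ⟨a5, a6⟩ := hrelb u' a1 a2.le
      have := (hσ false (z ++ u) false u' r1 a5 q0 q' e2 a3 (by rw [e3, a4, hσσ])).2
      rw [← this, List.length_append] at a2
      omega
    obtain ⟨b1, b2⟩ := dt_step hT h1 (h := σ g) hc hL
      (by rw [hxx]; exact lt_of_le_of_lt le_self_add hS2) hE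
    rw [hxx, hσσ] at b2
    rw [hσσ] at b1
    rw [← e3] at b1 b2
    exact ih r1 e2 b1 b2 hS2
end

theorem deterministic {σ : Pairing d} {x : Sym2 (HE d) → ℝ≥0 × ℝ≥0} {ur ub vstar : Fin n}
    {M M0 R R0 J : ℕ} {s0 s1 : ℝ≥0} (hσ : EmbOK M R σ ur ub) (hM : M0 ≤ M) (hR : R0 + J < R)
    (hJ : 0 < J)
    (h1 : ∀ u, alive (fK σ ub) u → u.length = R0 → s1 + 2 + s0 ≤ dist (fXb σ x ub) u)
    (h2 : ∀ u, alive (fK σ ub) u → u.length ≤ R0 + J → fK σ ub u < M0)
    (h3 : Linked M R σ x ur ub true vstar [] s1)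
    (h4 : ∀ z, alive (fK σ ub) z → R0 ≤ z.length → z.length ≤ R0 + J →
      Near M (R - z.length) (subAt (fK σ ub) z) (subAt (fXr σ x ub) z) s0 →
      Linked M R σ x ur ub false vstar z s0)
    (h5 : ¬ ∃ a, rel M R (fK σ ub) a ∧ a.length = R0 + J ∧
        ∀ b, b <+: a → R0 ≤ b.length →
          ¬ Near M (R - b.length) (subAt (fK σ ub) b) (subAt (fXr σ x ub) b) s0)
    (hubs : Finset (Fin n))
    (h6 : ∀ y ∈ hubs, FreeWalk σ x (revSet M R σ ur ub)ᶜ y vstar 1)
    {T : Fin n → ℝ≥0∞} {c : Fin n → Bool} (hT : IsOutcome σ x ur ub T c) :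
    painted T c false ≤ ∑ j ∈ Finset.range (R0 + J), M0 ^ j ∧
      hubs.card ≤ painted T c true := by
  classical
  have hrel : ∀ u, alive (fK σ ub) u → u.length ≤ R0 + J → rel M R (fK σ ub) u := fun u hu hl =>
    rel_of_alive hM hR.le (fun v hv hv2 => h2 v hv hv2.le) hu hl
  have hrelb : ∀ u, alive (fK σ ub) u → u.length ≤ R0 → rel M R (fK σ ub) u ∧ fK σ ub u < M :=
    fun u hu hl => ⟨hrel u hu (by omega), (h2 u hu (by omega)).trans_le hM⟩
  have hR0 : R0 < R := by omega
  -- red reaches `vstar`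
  obtain ⟨ℓ, q, g1, g2, g3, g4⟩ := h3
  rw [List.nil_append] at g1 g3
  have g2' : dist (fXr σ x ur) ℓ < s1 := by exact_mod_cast g2
  set a : ℝ≥0 := dist (fXr σ x ur) ℓ with ha
  obtain ⟨c1, c2⟩ := dt_tree hT hσ hrelb h1 (ℓ := ℓ) (q := q) g1 g3 (by
    calc a < s1 := g2'
      _ ≤ s1 + (2 + s0) := le_self_add
      _ = s1 + 2 + s0 := by ring)
  have e1 : a + 1 < s1 + 2 + s0 := by
    calc a + 1 < s1 + 1 := by gcongr
      _ ≤ s1 + 1 + (1 + s0) := le_self_add
      _ = s1 + 2 + s0 := by ring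
  have e2 : a + 1 + 1 < s1 + 2 + s0 := by
    calc a + 1 + 1 < s1 + 1 + 1 := by gcongr
      _ ≤ s1 + 1 + 1 + s0 := le_self_add
      _ = s1 + 2 + s0 := by ring
  obtain ⟨c3, c4⟩ := dt_walk hT hrelb hR0 h1 g4 c1 c2 e1
  -- everything with a free walk to `vstar` is red
  have hred : ∀ y, FreeWalk σ x (revSet M R σ ur ub)ᶜ y vstar 1 →
      c y = true ∧ T y ≤ ((a + 1 + 1 : ℝ≥0) : ℝ≥0∞) := fun y hy =>
    dt_walk hT hrelb hR0 h1 hy.symm c3 c4 e2
  refine ⟨?_, ?_⟩
  · -- blue is confined
    obtain ⟨rank, hr⟩ := dt_words hT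
    have hlen : ∀ w, T w ≠ ⊤ → c w = false → ∃ u, (alive (fK σ ub) u ∧ u.length < R0 + J) ∧
        ((pos σ ub u).elim ub fun q => q.1) = w := by
      intro w hw hc
      obtain ⟨u, q, hq, hB, hpre⟩ := hr w hw hc
      refine ⟨u, ⟨hB.al, ?_⟩, by rw [hB.ps]; exact hq⟩
      by_contra hlen
      push Not at hlen
      apply h5
      obtain ⟨q', hB'⟩ := hpre (u.take (R0 + J)) (List.take_prefix _ _)
      have hla : (u.take (R0 + J)).length = R0 + J := by simp [hlen]
      refine ⟨u.take (R0 + J), hrel _ hB'.al hla.le, hla, ?_⟩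
      intro b hb hbl hnear
      obtain ⟨qb, hBb⟩ := hpre b (hb.trans (List.take_prefix _ _))
      have hbl2 : b.length ≤ R0 + J := by
        have := hb.length_le
        omega
      obtain ⟨ℓ', q'', f1, f2, f3, f4⟩ := h4 b hBb.al hbl hbl2 hnear
      obtain ⟨d1, d2⟩ := hred _ f4
      have f2' : dist (subAt (fXr σ x ub) b) ℓ' < s0 := by exact_mod_cast f2
      have h7 := dt_back hT hσ hrelb h1 hbl hBb.ps (ℓ := ℓ') f1 f3 d1 d2 (by
        calc a + 1 + 1 + dist (subAt (fXr σ x ub) b) ℓ' < s1 + 1 + 1 + s0 := by gcongr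
          _ = s1 + 2 + s0 := by ring)
      rw [hBb.blue] at h7
      exact absurd h7 (by simp)
    have hcnt := ncard_alive_le (m := M0) (r := R0 + J) (K := fK σ ub)
      (fun u hu hl => h2 u hu hl.le)
    unfold painted
    have hsub : {w | T w ≠ ⊤ ∧ c w = false} ⊆
        (fun u => (pos σ ub u).elim ub fun q => q.1) ''
          {u | alive (fK σ ub) u ∧ u.length < R0 + J} := by
      rintro w ⟨hw, hc⟩
      obtain ⟨u, h7, h8⟩ := hlen w hw hc
      exact ⟨u, h7, h8⟩
    calc _ ≤ _ := Set.ncard_le_ncard hsub (hcnt.1.image _)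
      _ ≤ _ := Set.ncard_image_le hcnt.1
      _ ≤ _ := hcnt.2
  · unfold painted
    rw [← Set.ncard_coe_finset]
    refine Set.ncard_le_ncard ?_ (Set.toFinite _)
    intro y hy
    obtain ⟨d1, d2⟩ := hred y (h6 y hy)
    exact ⟨(d2.trans_lt ENNReal.coe_lt_top).ne, d1⟩

/-! ### Existence of an evolution -/

/-- Partial evolution. -/
structure dt_Inv (σ : Pairing d) (x : Sym2 (HE d) → ℝ≥0 × ℝ≥0) (ur ub : Fin n) (S : Finset (Fin n))
    (T : Fin n → ℝ≥0∞) (c : Fin n → Bool) (rank : Fin n → ℕ) : Prop where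
  hr : ur ∈ S ∧ T ur = 0 ∧ c ur = true
  hb : ub ∈ S ∧ T ub = 0 ∧ c ub = false
  top : ∀ w, w ∉ S → T w = ⊤
  fin : ∀ w ∈ S, T w ≠ ⊤
  inner : ∀ h : HE d, h.1 ∈ S → (σ h).1 ∈ S → T (σ h).1 ≤ T h.1 + (wt (c h.1) (x s(h, σ h)) : ℝ≥0∞)
  outer : ∀ h : HE d, h.1 ∈ S → (σ h).1 ∉ S → ∀ v ∈ S, T v ≤ T h.1 + (wt (c h.1) (x s(h, σ h)) : ℝ≥0∞)
  orig : ∀ w ∈ S, w ≠ ur → w ≠ ub → ∃ h : HE d, (σ h).1 = w ∧ c h.1 = c w ∧ rank h.1 < rank w ∧
      T w = T h.1 + (wt (c w) (x s(h, σ h)) : ℝ≥0∞)

/-- Every configuration has a possible evolution. -/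
theorem exists_outcome (σ : Pairing d) (x : Sym2 (HE d) → ℝ≥0 × ℝ≥0) {ur ub : Fin n}
    (h : ur ≠ ub) : ∃ T c, IsOutcome σ x ur ub T c := by
  classical
  -- the start
  have hstart : ∃ S T c rank, dt_Inv σ x ur ub S T c rank := by
    refine ⟨{ur, ub}, fun w => if w = ur ∨ w = ub then 0 else ⊤, fun w => decide (w = ur),
      fun _ => 0, ?_⟩
    have h0 : ∀ w ∈ ({ur, ub} : Finset (Fin n)),
        (if w = ur ∨ w = ub then (0 : ℝ≥0∞) else ⊤) = 0 := by
      intro w hw
      rw [Finset.mem_insert, Finset.mem_singleton] at hw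
      rw [if_pos hw]
    refine ⟨⟨by simp, by simp, by simp⟩, ⟨by simp, by simp, ?_⟩, ?_, ?_, ?_, ?_, ?_⟩
    · exact decide_eq_false (Ne.symm h)
    · intro w hw
      rw [Finset.mem_insert, Finset.mem_singleton] at hw
      exact if_neg hw
    · intro w hw
      rw [h0 w hw]
      exact ENNReal.zero_ne_top
    · intro g _ hg
      rw [h0 _ hg]
      exact zero_le
    · intro g _ _ v hv
      rw [h0 _ hv]
      exact zero_le
    · intro w hw h1 h2
      rw [Finset.mem_insert, Finset.mem_singleton] at hw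
      rcases hw with hw | hw
      · exact absurd hw h1
      · exact absurd hw h2
  -- a maximal state
  let F : Finset (Finset (Fin n)) := Finset.univ.filter fun S => ∃ T c rank, dt_Inv σ x ur ub S T c rank
  have hF : F.Nonempty := by
    obtain ⟨S, T, c, rank, hI⟩ := hstart
    exact ⟨S, Finset.mem_filter.mpr ⟨Finset.mem_univ _, T, c, rank, hI⟩⟩
  obtain ⟨S, hS, hmax⟩ := Finset.exists_max_image F Finset.card hF
  obtain ⟨-, T, c, rank, hI⟩ := Finset.mem_filter.mp hS
  -- no half-edge leaves `S`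
  have hclosed : ∀ g : HE d, g.1 ∈ S → (σ g).1 ∈ S := by
    by_contra hcon
    push Not at hcon
    obtain ⟨g1, hg1, hg1'⟩ := hcon
    let C : Finset (HE d) := Finset.univ.filter fun g => g.1 ∈ S ∧ (σ g).1 ∉ S
    obtain ⟨g0, hg0, hmin⟩ := Finset.exists_min_image C
      (fun g => T g.1 + (wt (c g.1) (x s(g, σ g)) : ℝ≥0∞))
      ⟨g1, Finset.mem_filter.mpr ⟨Finset.mem_univ _, hg1, hg1'⟩⟩
    obtain ⟨-, hgS, hgS'⟩ := Finset.mem_filter.mp hg0
    have hmin' : ∀ g : HE d, g.1 ∈ S → (σ g).1 ∉ S →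
        T g0.1 + (wt (c g0.1) (x s(g0, σ g0)) : ℝ≥0∞) ≤ T g.1 + (wt (c g.1) (x s(g, σ g)) : ℝ≥0∞) :=
      fun g a b => hmin g (Finset.mem_filter.mpr ⟨Finset.mem_univ _, a, b⟩)
    set w0 := (σ g0).1 with hw0
    set t : ℝ≥0∞ := T g0.1 + (wt (c g0.1) (x s(g0, σ g0)) : ℝ≥0∞) with ht
    have htop : t ≠ ⊤ := ENNReal.add_ne_top.mpr ⟨hI.fin _ hgS, ENNReal.coe_ne_top⟩
    have hne : ∀ v ∈ S, v ≠ w0 := fun v hv e => hgS' (e ▸ hv)
    have hIn : dt_Inv σ x ur ub (insert w0 S) (Function.update T w0 t)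
        (Function.update c w0 (c g0.1))
        (Function.update rank w0 (S.sup rank + 1)) := by
      refine ⟨⟨Finset.mem_insert_of_mem hI.hr.1, ?_, ?_⟩, ⟨Finset.mem_insert_of_mem hI.hb.1, ?_, ?_⟩,
        ?_, ?_, ?_, ?_, ?_⟩
      · rw [Function.update_of_ne (hne _ hI.hr.1)]; exact hI.hr.2.1
      · rw [Function.update_of_ne (hne _ hI.hr.1)]; exact hI.hr.2.2
      · rw [Function.update_of_ne (hne _ hI.hb.1)]; exact hI.hb.2.1
      · rw [Function.update_of_ne (hne _ hI.hb.1)]; exact hI.hb.2.2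
      · intro w hw
        rw [Finset.mem_insert, not_or] at hw
        rw [Function.update_of_ne hw.1]
        exact hI.top w hw.2
      · intro w hw
        rcases Finset.mem_insert.mp hw with hw | hw
        · rw [hw, Function.update_self]; exact htop
        · rw [Function.update_of_ne (hne _ hw)]; exact hI.fin w hw
      · intro g ha hb
        rcases Finset.mem_insert.mp ha with ha | ha
        · rcases Finset.mem_insert.mp hb with hb | hb
          · rw [ha, hb, Function.update_self]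
            exact le_self_add
          · rw [ha, Function.update_self, Function.update_of_ne (hne _ hb)]
            exact (hI.outer g0 hgS hgS' _ hb).trans le_self_add
        · rw [Function.update_of_ne (hne _ ha), Function.update_of_ne (hne _ ha)]
          rcases Finset.mem_insert.mp hb with hb | hb
          · rw [hb, Function.update_self]
            exact hmin' g ha (by rw [hb]; exact hgS')
          · rw [Function.update_of_ne (hne _ hb)]
            exact hI.inner g ha hb
      · intro g ha hb v hv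
        rw [Finset.mem_insert, not_or] at hb
        rcases Finset.mem_insert.mp ha with ha | ha
        · rw [ha, Function.update_self]
          rcases Finset.mem_insert.mp hv with hv | hv
          · rw [hv, Function.update_self]
            exact le_self_add
          · rw [Function.update_of_ne (hne _ hv)]
            exact (hI.outer g0 hgS hgS' _ hv).trans le_self_add
        · rw [Function.update_of_ne (hne _ ha), Function.update_of_ne (hne _ ha)]
          rcases Finset.mem_insert.mp hv with hv | hv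
          · rw [hv, Function.update_self]
            exact hmin' g ha hb.2
          · rw [Function.update_of_ne (hne _ hv)]
            exact hI.outer g ha hb.2 v hv
      · intro w hw h1 h2
        rcases Finset.mem_insert.mp hw with hw | hw
        · refine ⟨g0, hw.symm, ?_, ?_, ?_⟩
          · rw [hw, Function.update_self, Function.update_of_ne (hne _ hgS)]
          · rw [hw, Function.update_self, Function.update_of_ne (hne _ hgS)]
            exact Nat.lt_succ_of_le (Finset.le_sup hgS)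
          · rw [hw, Function.update_self, Function.update_self, Function.update_of_ne (hne _ hgS)]
        · obtain ⟨g, e1, e2, e3, e4⟩ := hI.orig w hw h1 h2
          have hgS : g.1 ∈ S := by
            by_contra hc
            rw [hI.top _ hc, top_add] at e4
            exact hI.fin w hw e4
          refine ⟨g, e1, ?_, ?_, ?_⟩
          · rw [Function.update_of_ne (hne _ hgS), Function.update_of_ne (hne _ hw)]
            exact e2
          · rw [Function.update_of_ne (hne _ hgS), Function.update_of_ne (hne _ hw)]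
            exact e3
          · rw [Function.update_of_ne (hne _ hgS), Function.update_of_ne (hne _ hw),
              Function.update_of_ne (hne _ hw)]
            exact e4
    have hmem : insert w0 S ∈ F := Finset.mem_filter.mpr ⟨Finset.mem_univ _, _, _, _, hIn⟩
    have h1 := hmax _ hmem
    rw [Finset.card_insert_of_notMem hgS'] at h1
    omega
  refine ⟨T, c, ⟨hI.hr.2.1, hI.hr.2.2⟩, ⟨hI.hb.2.1, hI.hb.2.2⟩, ?_, rank, ?_⟩
  · intro g
    by_cases hg : g.1 ∈ S
    · exact hI.inner g hg (hclosed g hg)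
    · rw [hI.top _ hg, top_add]
      exact le_top
  · intro w h1 h2 h3
    have hw : w ∈ S := by
      by_contra hc
      exact h3 (hI.top w hc)
    exact hI.orig w hw h1 h2

end Pool.Agent.Helper98.Comp
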