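import Pool.Agent.Helper98.Comp.Pair

/-!
# MODULE Greedy1: the greedy path to the hubs, abstract form
-/

set_option autoImplicit false

namespace Pool.Agent.Helper98.Comp

open MeasureTheory Filter Set
open scoped ENNReal NNReal Topology

variable {n : ℕ} {d : Fin n → ℕ}

/-- There is a path from `v` to `w` of red length at most `ℓ` all of whose half-edges belong to
`A`. -/
inductive FreeWalk (σ : Pairing d) (x : Sym2 (HE d) → ℝ≥0 × ℝ≥0) (A : Set (HE d)) :
    Fin n → Fin n → ℝ≥0 → Prop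
  | nil (v : Fin n) (ℓ : ℝ≥0) : FreeWalk σ x A v v ℓ
  | cons (h : HE d) (w : Fin n) (ℓ ℓ' : ℝ≥0) (hA : h ∈ A) (hA' : σ h ∈ A)
      (hw : FreeWalk σ x A (σ h).1 w ℓ) (hℓ : (x s(h, σ h)).1 + ℓ ≤ ℓ') :
      FreeWalk σ x A h.1 w ℓ'

/-- The free half-edges of a partial pairing. -/
def freeOf (η : List (HE d × HE d)) : Set (HE d) := {h | h ∉ rev η}

/-- The averaged number of pairings extending `η` for which there is no free path from `v` to
`vstar` of length at most `ℓ`. -/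
noncomputable def failure (Ir Ib : Measure ℝ≥0) (η : List (HE d × HE d)) (v vstar : Fin n)
    (ℓ : ℝ≥0) : ℝ≥0∞ :=
  ∑ σ ∈ Ext η, (Measure.pi fun _ : Sym2 (HE d) => Ir.prod Ib)
    {x | ¬ FreeWalk σ x (freeOf η) v vstar ℓ}

theorem FreeWalk.mono {σ : Pairing d} {x : Sym2 (HE d) → ℝ≥0 × ℝ≥0} {A A' : Set (HE d)}
    (hA : A ⊆ A') {v w : Fin n} {ℓ ℓ' : ℝ≥0} (hℓ : ℓ ≤ ℓ') (h : FreeWalk σ x A v w ℓ) :
    FreeWalk σ x A' v w ℓ' := by
  induction h generalizing ℓ' with
  | nil v ℓ => exact FreeWalk.nil v ℓ'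
  | cons h w ℓ ℓ₁ hA1 hA2 hw hl ih =>
    exact FreeWalk.cons h w ℓ ℓ' (hA hA1) (hA hA2) (ih le_rfl) (hl.trans hℓ)

theorem FreeWalk.trans {σ : Pairing d} {x : Sym2 (HE d) → ℝ≥0 × ℝ≥0} {A : Set (HE d)}
    {u v w : Fin n} {ℓ ℓ' : ℝ≥0} (h : FreeWalk σ x A u v ℓ) (h' : FreeWalk σ x A v w ℓ') :
    FreeWalk σ x A u w (ℓ + ℓ') := by
  induction h with
  | nil v ℓ => exact h'.mono subset_rfl le_add_self
  | cons h w ℓ ℓ₁ hA1 hA2 hw hl ih =>
    refine FreeWalk.cons h _ (ℓ + ℓ') _ hA1 hA2 (ih h') ?_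
    rw [← add_assoc]
    exact add_le_add_left hl ℓ'

theorem FreeWalk.symm {σ : Pairing d} {x : Sym2 (HE d) → ℝ≥0 × ℝ≥0} {A : Set (HE d)}
    {v w : Fin n} {ℓ : ℝ≥0} (h : FreeWalk σ x A v w ℓ) : FreeWalk σ x A w v ℓ := by
  induction h with
  | nil v ℓ => exact FreeWalk.nil v ℓ
  | cons h w ℓ ℓ₁ hA1 hA2 hw hl ih =>
    have h1 : σ (σ h) = h := pr_invol σ h
    have h2 : FreeWalk σ x A (σ h).1 h.1 (x s(h, σ h)).1 := by
      refine FreeWalk.cons (σ h) h.1 0 _ hA2 (by rw [h1]; exact hA1) ?_ ?_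
      · rw [h1]; exact FreeWalk.nil _ _
      · rw [h1, add_zero, Sym2.eq_swap]
    refine (ih.trans h2).mono subset_rfl ?_
    rw [add_comm]
    exact hl

/-- `l` is the list of the half-edges of a walk from `v` to `w`. -/
def gr_chain (σ : Pairing d) (A : Set (HE d)) : List (HE d) → Fin n → Fin n → Prop
  | [], v, w => v = w
  | h :: l, v, w => h.1 = v ∧ h ∈ A ∧ σ h ∈ A ∧ gr_chain σ A l (σ h).1 w

/-- The red length of a list of half-edges. -/
noncomputable def gr_len (σ : Pairing d) (x : Sym2 (HE d) → ℝ≥0 × ℝ≥0) : List (HE d) → ℝ≥0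
  | [] => 0
  | h :: l => (x s(h, σ h)).1 + gr_len σ x l

theorem gr_len_meas (σ : Pairing d) (l : List (HE d)) :
    Measurable fun x : Sym2 (HE d) → ℝ≥0 × ℝ≥0 => gr_len σ x l := by
  induction l with
  | nil => exact measurable_const
  | cons h l ih =>
    exact (measurable_fst.comp (measurable_pi_apply _)).add ih

theorem gr_iff {σ : Pairing d} {x : Sym2 (HE d) → ℝ≥0 × ℝ≥0} {A : Set (HE d)}
    {v w : Fin n} {ℓ : ℝ≥0} :
    FreeWalk σ x A v w ℓ ↔ ∃ l, gr_chain σ A l v w ∧ gr_len σ x l ≤ ℓ := by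
  constructor
  · intro h
    induction h with
    | nil v ℓ => exact ⟨[], rfl, zero_le⟩
    | cons h w ℓ ℓ₁ hA1 hA2 hw hl ih =>
      obtain ⟨l, h1, h2⟩ := ih
      exact ⟨h :: l, ⟨rfl, hA1, hA2, h1⟩, (add_le_add_right h2 _).trans hl⟩
  · rintro ⟨l, h1, h2⟩
    induction l generalizing v ℓ with
    | nil =>
      have : v = w := h1
      subst this
      exact FreeWalk.nil _ _
    | cons h l ih =>
      obtain ⟨rfl, hA1, hA2, h3⟩ := h1
      exact FreeWalk.cons h w (gr_len σ x l) ℓ hA1 hA2 (ih h3 le_rfl) h2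

theorem measurableSet_freeWalk (σ : Pairing d) (A : Set (HE d)) (v w : Fin n) (ℓ : ℝ≥0) :
    MeasurableSet {x : Sym2 (HE d) → ℝ≥0 × ℝ≥0 | FreeWalk σ x A v w ℓ} := by
  have e : {x : Sym2 (HE d) → ℝ≥0 × ℝ≥0 | FreeWalk σ x A v w ℓ} =
      ⋃ l : List (HE d), {x | gr_chain σ A l v w ∧ gr_len σ x l ≤ ℓ} := by
    ext x
    simp only [Set.mem_iUnion]
    exact gr_iff
  rw [e]
  refine MeasurableSet.iUnion fun l => ?_
  by_cases hc : gr_chain σ A l v w
  · have : {x : Sym2 (HE d) → ℝ≥0 × ℝ≥0 | gr_chain σ A l v w ∧ gr_len σ x l ≤ ℓ} =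
        {x | gr_len σ x l ≤ ℓ} := by
      ext x; exact ⟨fun h => h.2, fun h => ⟨hc, h⟩⟩
    rw [this]
    exact measurableSet_le (gr_len_meas σ l) measurable_const
  · have : {x : Sym2 (HE d) → ℝ≥0 × ℝ≥0 | gr_chain σ A l v w ∧ gr_len σ x l ≤ ℓ} = ∅ := by
      ext x; exact ⟨fun h => hc h.1, fun h => h.elim⟩
    rw [this]
    exact MeasurableSet.empty

/-- A free walk only depends on the weights of the pairs of free half-edges. -/
theorem freeWalk_congr {σ : Pairing d} {x x' : Sym2 (HE d) → ℝ≥0 × ℝ≥0} {A : Set (HE d)}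
    (h : ∀ g g' : HE d, g ∈ A → g' ∈ A → x s(g, g') = x' s(g, g')) {v w : Fin n} {ℓ : ℝ≥0} :
    FreeWalk σ x A v w ℓ ↔ FreeWalk σ x' A v w ℓ := by
  constructor
  · intro hw
    induction hw with
    | nil v ℓ => exact FreeWalk.nil v ℓ
    | cons g w ℓ ℓ₁ hA1 hA2 hw hl ih =>
      exact FreeWalk.cons g w ℓ ℓ₁ hA1 hA2 ih (by rw [← h g (σ g) hA1 hA2]; exact hl)
  · intro hw
    induction hw with
    | nil v ℓ => exact FreeWalk.nil v ℓ
    | cons g w ℓ ℓ₁ hA1 hA2 hw hl ih =>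
      exact FreeWalk.cons g w ℓ ℓ₁ hA1 hA2 ih (by rw [h g (σ g) hA1 hA2]; exact hl)

/-- The number of free half-edges of the vertex `v`. -/
noncomputable def fr (η : List (HE d × HE d)) (v : Fin n) : ℕ :=
  Set.ncard {h : HE d | h ∉ rev η ∧ h.1 = v}

/-! ### Auxiliary lemmas for the greedy estimate -/

/-- Independence of one coordinate and of an event which does not depend on it. -/
theorem g1_indep {ι Ω : Type*} [Fintype ι] [MeasurableSpace Ω] (ρ : Measure Ω)
    [IsProbabilityMeasure ρ] (i : ι) {A : Set Ω} (hA : MeasurableSet A) {B : Set (ι → Ω)}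
    (hB : MeasurableSet B)
    (hdep : ∀ x x' : ι → Ω, (∀ j, j ≠ i → x j = x' j) → (x ∈ B ↔ x' ∈ B)) :
    (Measure.pi fun _ : ι => ρ) ({x | x i ∈ A} ∩ B) = ρ A * (Measure.pi fun _ : ι => ρ) B := by
  classical
  have hne : Nonempty Ω := by
    by_contra hno
    rw [not_nonempty_iff] at hno
    have h1 : ρ Set.univ = 0 := by
      rw [Set.univ_eq_empty_iff.2 hno]
      exact measure_empty
    rw [measure_univ] at h1
    exact one_ne_zero h1
  obtain ⟨ω₀⟩ := hne
  have hind : ProbabilityTheory.iIndepFun (fun (j : ι) (x : ι → Ω) => x j)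
      (Measure.pi fun _ : ι => ρ) :=
    ProbabilityTheory.iIndepFun_pi (X := fun (_ : ι) (ω : Ω) => ω)
      (fun j => aemeasurable_id)
  have h2 := hind.indepFun_finset {i} ({i}ᶜ : Finset ι) disjoint_compl_right
    (fun j => measurable_pi_apply j)
  let ext : (({i}ᶜ : Finset ι) → Ω) → ι → Ω := fun y j => if hj : j ∈ ({i}ᶜ : Finset ι) then y ⟨j, hj⟩ else ω₀
  have hext : Measurable ext := by
    refine measurable_pi_lambda _ fun j => ?_
    by_cases hj : j ∈ ({i}ᶜ : Finset ι)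
    · have : (fun y : (({i}ᶜ : Finset ι) → Ω) => ext y j) = fun y => y ⟨j, hj⟩ := by
        funext y
        simp only [ext, dif_pos hj]
      rw [this]
      exact measurable_pi_apply _
    · have : (fun y : (({i}ᶜ : Finset ι) → Ω) => ext y j) = fun _ => ω₀ := by
        funext y
        simp only [ext, dif_neg hj]
      rw [this]
      exact measurable_const
  have hA' : MeasurableSet {y : (({i} : Finset ι) → Ω) | y ⟨i, Finset.mem_singleton_self i⟩ ∈ A} :=
    (measurable_pi_apply _) hA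
  have h3 := h2.measure_inter_preimage_eq_mul _ (ext ⁻¹' B) hA' (hext hB)
  have e1 : (fun (a : ι → Ω) (j : ({i} : Finset ι)) => a j) ⁻¹'
      {y : (({i} : Finset ι) → Ω) | y ⟨i, Finset.mem_singleton_self i⟩ ∈ A} =
      {x | x i ∈ A} := rfl
  have e2 : (fun (a : ι → Ω) (j : ({i}ᶜ : Finset ι)) => a j) ⁻¹' (ext ⁻¹' B) = B := by
    ext x
    simp only [Set.mem_preimage]
    apply hdep
    intro j hj
    have hj' : j ∈ ({i}ᶜ : Finset ι) := by simpa using hj
    simp only [ext, dif_pos hj']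
  rw [e1, e2] at h3
  rw [h3]
  congr 1
  exact (measurePreserving_eval (fun _ : ι => ρ) i).measure_preimage hA.nullMeasurableSet


theorem g1_mem_free_cons {η : List (HE d × HE d)} {h h' g : HE d} :
    g ∈ freeOf ((h, h') :: η) ↔ g ≠ h ∧ g ≠ h' ∧ g ∉ rev η := by
  simp only [freeOf, Set.mem_ofPred_eq, rev_cons, List.mem_cons, not_or]

theorem g1_free_cons_subset (η : List (HE d × HE d)) (h h' : HE d) :
    freeOf ((h, h') :: η) ⊆ freeOf η := by
  intro g hg
  exact (g1_mem_free_cons.1 hg).2.2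

/-- the number of failures, as a real number -/
noncomputable def g1_fail (Ir Ib : Measure ℝ≥0) (η : List (HE d × HE d)) (v vstar : Fin n)
    (ℓ : ℝ≥0) : ℝ :=
  ∑ σ ∈ Ext η, (Measure.pi fun _ : Sym2 (HE d) => Ir.prod Ib).real
    {x | ¬ FreeWalk σ x (freeOf η) v vstar ℓ}

theorem g1_failure_eq (Ir Ib : Measure ℝ≥0) [IsProbabilityMeasure Ir]
    [IsProbabilityMeasure Ib] (η : List (HE d × HE d)) (v vstar : Fin n) (ℓ : ℝ≥0) :
    failure Ir Ib η v vstar ℓ = ENNReal.ofReal (g1_fail Ir Ib η v vstar ℓ) := by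
  unfold failure g1_fail
  rw [ENNReal.ofReal_sum_of_nonneg (fun _ _ => measureReal_nonneg)]
  refine Finset.sum_congr rfl fun σ _ => ?_
  rw [ofReal_measureReal]

theorem g1_fail_le_card (Ir Ib : Measure ℝ≥0) [IsProbabilityMeasure Ir]
    [IsProbabilityMeasure Ib] (η : List (HE d × HE d)) (v vstar : Fin n) (ℓ : ℝ≥0) :
    g1_fail Ir Ib η v vstar ℓ ≤ (Ext η).card := by
  unfold g1_fail
  calc _ ≤ ∑ σ ∈ Ext η, (1 : ℝ) := Finset.sum_le_sum fun σ _ => measureReal_le_one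
    _ = _ := by simp

theorem g1_fail_self (Ir Ib : Measure ℝ≥0) (η : List (HE d × HE d)) (v : Fin n) (ℓ : ℝ≥0) :
    g1_fail Ir Ib η v v ℓ = 0 := by
  unfold g1_fail
  refine Finset.sum_eq_zero fun σ _ => ?_
  have : {x : Sym2 (HE d) → ℝ≥0 × ℝ≥0 | ¬ FreeWalk σ x (freeOf η) v v ℓ} = ∅ := by
    ext x
    simp only [Set.mem_ofPred_eq, Set.mem_empty_iff_false, iff_false, not_not]
    exact FreeWalk.nil v ℓ
  rw [this]
  simp

/-- a step which may fail -/
theorem g1_step_bad (Ir Ib : Measure ℝ≥0) [IsProbabilityMeasure Ir]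
    [IsProbabilityMeasure Ib] (η : List (HE d × HE d)) (h h' : HE d) (v vstar : Fin n)
    (ℓ : ℝ≥0) :
    ∑ σ ∈ Ext ((h, h') :: η), (Measure.pi fun _ : Sym2 (HE d) => Ir.prod Ib).real
      {x | ¬ FreeWalk σ x (freeOf η) v vstar ℓ} ≤ g1_fail Ir Ib ((h, h') :: η) v vstar ℓ := by
  unfold g1_fail
  refine Finset.sum_le_sum fun σ _ => measureReal_mono ?_
  intro x hx hx'
  exact hx (hx'.mono (g1_free_cons_subset η h h') le_rfl)

/-- a step to a vertex of the next level -/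
theorem g1_step_good (Ir Ib : Measure ℝ≥0) [IsProbabilityMeasure Ir]
    [IsProbabilityMeasure Ib] {η : List (HE d × HE d)} {h h' : HE d} (hh : h ∉ rev η)
    (hh' : h' ∉ rev η) (vstar : Fin n) (w ℓ : ℝ≥0) :
    ∑ σ ∈ Ext ((h, h') :: η), (Measure.pi fun _ : Sym2 (HE d) => Ir.prod Ib).real
      {x | ¬ FreeWalk σ x (freeOf η) h.1 vstar (w + ℓ)} ≤
      (Ir (Set.Iic w)).toReal * g1_fail Ir Ib ((h, h') :: η) h'.1 vstar ℓ +
        (1 - (Ir (Set.Iic w)).toReal) *
          g1_fail Ir Ib ((h, h') :: η) h.1 vstar (w + ℓ) := by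
  classical
  unfold g1_fail
  rw [Finset.mul_sum, Finset.mul_sum, ← Finset.sum_add_distrib]
  refine Finset.sum_le_sum fun σ hσ => ?_
  have hσh : σ h = h' := mem_Ext.1 hσ (h, h') List.mem_cons_self
  set P : Measure (Sym2 (HE d) → ℝ≥0 × ℝ≥0) :=
    Measure.pi fun _ : Sym2 (HE d) => Ir.prod Ib with hP
  set A : Set (ℝ≥0 × ℝ≥0) := {y | y.1 ≤ w} with hA
  have hAm : MeasurableSet A := measurableSet_le measurable_fst measurable_const
  have hρA : (Ir.prod Ib) A = Ir (Set.Iic w) := by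
    have : A = Set.Iic w ×ˢ Set.univ := by
      ext y
      simp [hA]
    rw [this, Measure.prod_prod, measure_univ, mul_one]
  have hρAc : (Ir.prod Ib) Aᶜ = 1 - Ir (Set.Iic w) := by
    rw [prob_compl_eq_one_sub hAm, hρA]
  have hdep : ∀ (u : Fin n) (ℓ' : ℝ≥0) (x x' : Sym2 (HE d) → ℝ≥0 × ℝ≥0),
      (∀ j, j ≠ s(h, h') → x j = x' j) →
      (x ∈ {x | ¬ FreeWalk σ x (freeOf ((h, h') :: η)) u vstar ℓ'} ↔
        x' ∈ {x | ¬ FreeWalk σ x (freeOf ((h, h') :: η)) u vstar ℓ'}) := by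
    intro u ℓ' x x' hx
    simp only [Set.mem_ofPred_eq]
    rw [not_iff_not]
    apply freeWalk_congr
    intro g g' hg hg'
    apply hx
    intro he
    rw [g1_mem_free_cons] at hg hg'
    rw [Sym2.eq_iff] at he
    rcases he with he | he
    · exact hg.1 he.1
    · exact hg.2.1 he.1
  have hmeas : ∀ (u : Fin n) (ℓ' : ℝ≥0), MeasurableSet
      {x : Sym2 (HE d) → ℝ≥0 × ℝ≥0 | ¬ FreeWalk σ x (freeOf ((h, h') :: η)) u vstar ℓ'} :=
    fun u ℓ' => (measurableSet_freeWalk σ _ u vstar ℓ').compl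
  have hsub : {x | ¬ FreeWalk σ x (freeOf η) h.1 vstar (w + ℓ)} ⊆
      ({x | x s(h, h') ∈ A} ∩ {x | ¬ FreeWalk σ x (freeOf ((h, h') :: η)) h'.1 vstar ℓ}) ∪
      ({x | x s(h, h') ∈ Aᶜ} ∩
        {x | ¬ FreeWalk σ x (freeOf ((h, h') :: η)) h.1 vstar (w + ℓ)}) := by
    intro x hx
    have h1 : ¬ FreeWalk σ x (freeOf ((h, h') :: η)) h.1 vstar (w + ℓ) := fun h2 =>
      hx (h2.mono (g1_free_cons_subset η h h') le_rfl)
    by_cases hw : x s(h, h') ∈ A
    · left
      refine ⟨hw, fun h2 => hx ?_⟩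
      refine FreeWalk.cons h vstar ℓ (w + ℓ) hh (by rw [hσh]; exact hh') ?_ ?_
      · rw [hσh]
        exact h2.mono (g1_free_cons_subset η h h') le_rfl
      · rw [hσh]
        have : (x s(h, h')).1 ≤ w := hw
        gcongr
    · right
      exact ⟨hw, h1⟩
  have h1 := g1_indep (Ir.prod Ib) s(h, h') hAm (hmeas h'.1 ℓ) (hdep h'.1 ℓ)
  have h2 := g1_indep (Ir.prod Ib) s(h, h') hAm.compl (hmeas h.1 (w + ℓ)) (hdep h.1 (w + ℓ))
  rw [← hP] at h1 h2
  calc P.real {x | ¬ FreeWalk σ x (freeOf η) h.1 vstar (w + ℓ)}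
      ≤ P.real (({x | x s(h, h') ∈ A} ∩
          {x | ¬ FreeWalk σ x (freeOf ((h, h') :: η)) h'.1 vstar ℓ}) ∪
        ({x | x s(h, h') ∈ Aᶜ} ∩
          {x | ¬ FreeWalk σ x (freeOf ((h, h') :: η)) h.1 vstar (w + ℓ)})) :=
        measureReal_mono hsub
    _ ≤ P.real ({x | x s(h, h') ∈ A} ∩
          {x | ¬ FreeWalk σ x (freeOf ((h, h') :: η)) h'.1 vstar ℓ}) +
        P.real ({x | x s(h, h') ∈ Aᶜ} ∩
          {x | ¬ FreeWalk σ x (freeOf ((h, h') :: η)) h.1 vstar (w + ℓ)}) :=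
        measureReal_union_le _ _
    _ = _ := by
        unfold Measure.real
        rw [h1, h2, hρA, hρAc, ENNReal.toReal_mul, ENNReal.toReal_mul,
          ENNReal.toReal_sub_of_le prob_le_one ENNReal.one_ne_top, ENNReal.toReal_one]

theorem g1_rev_append (ζ η : List (HE d × HE d)) : rev (ζ ++ η) = rev ζ ++ rev η := by
  simp [rev]

theorem g1_fr_append (ζ η : List (HE d × HE d)) (v : Fin n) :
    fr η v ≤ fr (ζ ++ η) v + 2 * ζ.length := by
  classical
  have h1 : {h : HE d | h ∉ rev η ∧ h.1 = v} ⊆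
      {h : HE d | h ∉ rev (ζ ++ η) ∧ h.1 = v} ∪ {h | h ∈ rev ζ} := by
    intro h hh
    by_cases h2 : h ∈ rev ζ
    · exact Or.inr h2
    · left
      refine ⟨?_, hh.2⟩
      rw [g1_rev_append, List.mem_append, not_or]
      exact ⟨h2, hh.1⟩
  have h2 : Set.ncard {h : HE d | h ∈ rev ζ} ≤ 2 * ζ.length := by
    have : {h : HE d | h ∈ rev ζ} = ((rev ζ).toFinset : Set (HE d)) := by
      ext h
      simp
    rw [this, Set.ncard_coe_finset, ← length_rev]
    exact List.toFinset_card_le _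
  have h3 := (Set.ncard_le_ncard h1 (Set.toFinite _)).trans (Set.ncard_union_le _ _)
  unfold fr
  omega

/-- the free half-edges of the vertices of a set -/
theorem g1_sum_fr (η : List (HE d × HE d)) (V : Finset (Fin n)) :
    open scoped Classical in
    ∑ v ∈ V, fr η v = (Finset.univ.filter fun h : HE d => h ∉ rev η ∧ h.1 ∈ V).card := by
  classical
  rw [Finset.card_eq_sum_card_fiberwise (s := Finset.univ.filter fun h : HE d => h ∉ rev η ∧ h.1 ∈ V)
    (t := V) (f := fun h : HE d => h.1)]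
  · refine Finset.sum_congr rfl fun v hv => ?_
    unfold fr
    rw [← Set.ncard_coe_finset]
    congr 1
    ext h
    simp only [Set.mem_ofPred_eq, Finset.coe_filter, Finset.mem_filter, Finset.mem_univ, true_and]
    constructor
    · rintro ⟨h1, h2⟩
      exact ⟨⟨h1, by rw [h2]; exact hv⟩, h2⟩
    · rintro ⟨⟨h1, _⟩, h2⟩
      exact ⟨h1, h2⟩
  · intro h hh
    have : h ∈ Finset.univ.filter fun h : HE d => h ∉ rev η ∧ h.1 ∈ V := hh
    rw [Finset.mem_filter] at this
    exact this.2.2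

theorem g1_card_good (ζ η : List (HE d × HE d)) (V : Finset (Fin n)) (h : HE d) :
    open scoped Classical in
    ∑ v ∈ V, fr η v ≤ (Finset.univ.filter fun h' : HE d =>
      (h' ∉ rev (ζ ++ η) ∧ h' ≠ h) ∧ h'.1 ∈ V).card + 2 * ζ.length + 1 := by
  classical
  rw [g1_sum_fr]
  have h1 : (Finset.univ.filter fun h : HE d => h ∉ rev η ∧ h.1 ∈ V) ⊆
      ((Finset.univ.filter fun h' : HE d => (h' ∉ rev (ζ ++ η) ∧ h' ≠ h) ∧ h'.1 ∈ V) ∪
        (rev ζ).toFinset) ∪ {h} := by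
    intro g hg
    rw [Finset.mem_filter] at hg
    simp only [Finset.mem_union, Finset.mem_filter, Finset.mem_univ, true_and,
      List.mem_toFinset, Finset.mem_singleton, g1_rev_append, List.mem_append, not_or]
    by_cases h2 : g ∈ rev ζ
    · exact Or.inl (Or.inr h2)
    · by_cases h3 : g = h
      · exact Or.inr h3
      · exact Or.inl (Or.inl ⟨⟨⟨h2, hg.2.1⟩, h3⟩, hg.2.2⟩)
  have h2 : (rev ζ).toFinset.card ≤ 2 * ζ.length := by
    rw [← length_rev]
    exact List.toFinset_card_le _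
  have h3 := Finset.card_le_card h1
  have h4 := Finset.card_union_le ((Finset.univ.filter fun h' : HE d =>
    (h' ∉ rev (ζ ++ η) ∧ h' ≠ h) ∧ h'.1 ∈ V) ∪ (rev ζ).toFinset) {h}
  have h5 := Finset.card_union_le (Finset.univ.filter fun h' : HE d =>
    (h' ∉ rev (ζ ++ η) ∧ h' ≠ h) ∧ h'.1 ∈ V) (rev ζ).toFinset
  rw [Finset.card_singleton] at h4
  omega

/-- one hop: `t` trials -/
theorem g1_inner (Ir Ib : Measure ℝ≥0) [IsProbabilityMeasure Ir]
    [IsProbabilityMeasure Ib] {η : List (HE d × HE d)} (w ℓ : ℝ≥0) (p Q : ℝ) (hp0 : 0 ≤ p)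
    (hp1 : p ≤ 1) (hQ : 0 ≤ Q) (V : Finset (Fin n)) (vstar : Fin n) (M : ℕ)
    (hp : p * ((∑ v, d v : ℕ) : ℝ) ≤ (Ir (Set.Iic w)).toReal *
      (((∑ v ∈ V, fr η v : ℕ) : ℝ) - (M : ℝ) - 1))
    (hnext : ∀ ζ : List (HE d × HE d), Fresh (ζ ++ η) → 2 * ζ.length ≤ M → ∀ v ∈ V,
      g1_fail Ir Ib (ζ ++ η) v vstar ℓ ≤ (Ext (ζ ++ η)).card * Q)
    (t : ℕ) : ∀ ζ : List (HE d × HE d), Fresh (ζ ++ η) → 2 * ζ.length + 2 * t ≤ M →
      ∀ v, 2 * t ≤ fr (ζ ++ η) v →
        g1_fail Ir Ib (ζ ++ η) v vstar (w + ℓ) ≤ (Ext (ζ ++ η)).card * (Q + (1 - p) ^ t) := by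
  classical
  induction t with
  | zero =>
    intro ζ _ _ v _
    refine (g1_fail_le_card Ir Ib _ _ _ _).trans ?_
    rw [pow_zero]
    have : (0 : ℝ) ≤ (Ext (ζ ++ η)).card := Nat.cast_nonneg _
    nlinarith
  | succ t ih =>
    intro ζ hF hζ v hv
    -- a free half-edge
    obtain ⟨h, hh, hhv⟩ : ∃ h : HE d, h ∉ rev (ζ ++ η) ∧ h.1 = v := by
      have h1 : 0 < fr (ζ ++ η) v := by omega
      unfold fr at h1
      exact (Set.ncard_pos (Set.toFinite _)).1 h1
    set F : ℝ := (Ir (Set.Iic w)).toReal with hFdef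
    have hF0 : 0 ≤ F := ENNReal.toReal_nonneg
    have hF1 : F ≤ 1 := by
      have := ENNReal.toReal_mono ENNReal.one_ne_top (prob_le_one (μ := Ir) (s := Set.Iic w))
      simpa using this
    set S : ℝ := ((∑ v, d v : ℕ) : ℝ) with hS
    set Nn : ℝ := S - 2 * (ζ ++ η).length - 1 with hN
    set H : Finset (HE d) := Finset.univ.filter fun h' : HE d => h' ∉ rev (ζ ++ η) ∧ h' ≠ h
      with hH
    set G : Finset (HE d) := Finset.univ.filter fun h' : HE d =>
      (h' ∉ rev (ζ ++ η) ∧ h' ≠ h) ∧ h'.1 ∈ V with hG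
    set q : ℝ := (1 - p) ^ t with hq
    have hq0 : 0 ≤ q := pow_nonneg (by linarith) _
    have hGH : G = H.filter fun h' => h'.1 ∈ V := by
      rw [hG, hH, Finset.filter_filter]
    have hHcard : (H.card : ℝ) = Nn := by
      have h1 := pr_card_free hF hh
      rw [hN, hS, ← h1, hH]
      push_cast
      ring
    -- every class
    have hclass : ∀ h' ∈ H, ∑ σ ∈ Ext ((h, h') :: (ζ ++ η)),
        (Measure.pi fun _ : Sym2 (HE d) => Ir.prod Ib).real
          {x | ¬ FreeWalk σ x (freeOf (ζ ++ η)) v vstar (w + ℓ)} ≤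
        ((Ext ((h, h') :: (ζ ++ η))).card : ℝ) * (Q + q - (if h'.1 ∈ V then F * q else 0)) := by
      intro h' hh'
      rw [hH, Finset.mem_filter] at hh'
      have hF' : Fresh ((h, h') :: (ζ ++ η)) := hF.cons hh hh'.2.1 hh'.2.2
      have happ : (h, h') :: (ζ ++ η) = ((h, h') :: ζ) ++ η := rfl
      have hb : g1_fail Ir Ib ((h, h') :: (ζ ++ η)) v vstar (w + ℓ) ≤
          ((Ext ((h, h') :: (ζ ++ η))).card : ℝ) * (Q + q) := by
        rw [happ]
        apply ih ((h, h') :: ζ) hF'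
        · simp only [List.length_cons]
          omega
        · have := g1_fr_append [(h, h')] (ζ ++ η) v
          simp only [List.length_cons, List.length_nil, List.cons_append, List.nil_append] at this
          simp only [List.cons_append]
          omega
      by_cases hV : h'.1 ∈ V
      · rw [if_pos hV]
        have hg := g1_step_good Ir Ib hh hh'.2.1 vstar w ℓ
        rw [hhv] at hg
        have hn : g1_fail Ir Ib ((h, h') :: (ζ ++ η)) h'.1 vstar ℓ ≤
            ((Ext ((h, h') :: (ζ ++ η))).card : ℝ) * Q := by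
          rw [happ]
          apply hnext _ hF' _ _ hV
          simp only [List.length_cons]
          omega
        refine hg.trans ?_
        have e1 := mul_le_mul_of_nonneg_left hn hF0
        have e2 := mul_le_mul_of_nonneg_left hb (sub_nonneg.2 hF1)
        refine (add_le_add e1 e2).trans (le_of_eq ?_)
        ring
      · rw [if_neg hV, sub_zero]
        exact (g1_step_bad Ir Ib _ h h' v vstar (w + ℓ)).trans hb
    have hsum : g1_fail Ir Ib (ζ ++ η) v vstar (w + ℓ) ≤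
        ∑ h' ∈ H, ((Ext ((h, h') :: (ζ ++ η))).card : ℝ) *
          (Q + q - (if h'.1 ∈ V then F * q else 0)) := by
      have h1 := sum_Ext hh (fun σ => (Measure.pi fun _ : Sym2 (HE d) => Ir.prod Ib).real
          {x | ¬ FreeWalk σ x (freeOf (ζ ++ η)) v vstar (w + ℓ)})
      unfold g1_fail
      rw [h1]
      exact Finset.sum_le_sum hclass
    -- the cardinals
    rcases H.eq_empty_or_nonempty with hHe | hHne
    · rw [hHe, Finset.sum_empty] at hsum
      refine hsum.trans ?_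
      have h2 : 0 ≤ (1 - p) ^ (t + 1) := pow_nonneg (by linarith) _
      positivity
    · have hNpos : 0 < Nn := by
        rw [← hHcard]
        exact_mod_cast hHne.card_pos
      have hcard : ∀ h' ∈ H, ((Ext ((h, h') :: (ζ ++ η))).card : ℝ) =
          (Ext (ζ ++ η)).card / Nn := by
        intro h' hh'
        rw [hH, Finset.mem_filter] at hh'
        have hF' : Fresh ((h, h') :: (ζ ++ η)) := hF.cons hh hh'.2.1 hh'.2.2
        have := card_Ext_cons hF'
        rw [← hS, ← hN] at this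
        rw [← this]
        field_simp
      rw [Finset.sum_congr rfl fun h' hh' => by rw [hcard h' hh'], ← Finset.mul_sum,
        Finset.sum_sub_distrib, Finset.sum_const, ← Finset.sum_filter, ← hGH, Finset.sum_const,
        nsmul_eq_mul, nsmul_eq_mul, hHcard] at hsum
      refine hsum.trans ?_
      have hGc : p * Nn ≤ F * (G.card : ℝ) := by
        have h3 := g1_card_good ζ η V h
        rw [← hG] at h3
        have h4 : ((∑ v ∈ V, fr η v : ℕ) : ℝ) ≤ (G.card : ℝ) + 2 * ζ.length + 1 := by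
          exact_mod_cast h3
        have h5 : (2 : ℝ) * ζ.length ≤ M := by
          have : 2 * ζ.length ≤ M := by omega
          exact_mod_cast this
        have h6 : p * Nn ≤ p * S := by
          apply mul_le_mul_of_nonneg_left _ hp0
          rw [hN]
          have : (0 : ℝ) ≤ ((ζ ++ η).length : ℝ) := Nat.cast_nonneg _
          linarith
        refine h6.trans (hp.trans ?_)
        apply mul_le_mul_of_nonneg_left _ hF0
        linarith
      have hC : (0 : ℝ) ≤ (Ext (ζ ++ η)).card := Nat.cast_nonneg _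
      have e3 : ((Ext (ζ ++ η)).card : ℝ) / Nn * (Nn * (Q + q) - G.card * (F * q)) =
          ((Ext (ζ ++ η)).card : ℝ) * (Q + q - (F * G.card) * q / Nn) := by
        field_simp
      rw [e3]
      apply mul_le_mul_of_nonneg_left _ hC
      have e4 : p * q ≤ (F * G.card) * q / Nn := by
        rw [le_div_iff₀ hNpos]
        nlinarith
      rw [pow_succ, ← hq]
      linarith


/-- all hops, starting with hop `i` -/
theorem g1_outer (Ir Ib : Measure ℝ≥0) [IsProbabilityMeasure Ir]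
    [IsProbabilityMeasure Ib] (I : ℕ) (m : ℕ → ℕ) (w : ℕ → ℝ≥0) (p : ℕ → ℝ)
    (L : ℕ → Finset (Fin n)) (vstar : Fin n) (hL : L (I + 1) = {vstar})
    (hp0 : ∀ i ≤ I, 0 ≤ p i) (hp1 : ∀ i ≤ I, p i ≤ 1)
    {η : List (HE d × HE d)}
    (hm : ∀ i < I, ∀ v ∈ L (i + 1), ∑ j ∈ Finset.range (i + 1), m j + m (i + 1) ≤ fr η v)
    (hp : ∀ i ≤ I, p i * ((∑ v, d v : ℕ) : ℝ) ≤ (Ir (Set.Iic (w i))).toReal *
      (((∑ v ∈ L (i + 1), fr η v : ℕ) : ℝ) - ((∑ j ∈ Finset.range (i + 1), m j : ℕ) : ℝ) - 1))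
    (k : ℕ) : ∀ i, i + k = I → ∀ ζ : List (HE d × HE d), Fresh (ζ ++ η) →
      2 * ζ.length ≤ ∑ j ∈ Finset.range i, m j → ∀ v, m i ≤ fr (ζ ++ η) v →
        g1_fail Ir Ib (ζ ++ η) v vstar (∑ j ∈ Finset.Ico i (I + 1), w j) ≤
          (Ext (ζ ++ η)).card * ∑ j ∈ Finset.Ico i (I + 1), (1 - p j) ^ (m j / 2) := by
  have hpos : ∀ i, 0 ≤ ∑ j ∈ Finset.Ico i (I + 1), (1 - p j) ^ (m j / 2) := by
    intro i
    apply Finset.sum_nonneg
    intro j hj
    rw [Finset.mem_Ico] at hj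
    have := hp1 j (by omega)
    exact pow_nonneg (by linarith) _
  induction k with
  | zero =>
    intro i hi ζ hF hζ v hv
    obtain rfl : i = I := by omega
    have e1 : ∑ j ∈ Finset.Ico i (i + 1), w j = w i + 0 := by
      rw [Nat.Ico_succ_singleton, Finset.sum_singleton, add_zero]
    have e2 : ∑ j ∈ Finset.Ico i (i + 1), (1 - p j) ^ (m j / 2) = 0 + (1 - p i) ^ (m i / 2) := by
      rw [Nat.Ico_succ_singleton, Finset.sum_singleton, zero_add]
    rw [e1, e2]
    apply g1_inner Ir Ib (w i) 0 (p i) 0 (hp0 i le_rfl) (hp1 i le_rfl) le_rfl (L (i + 1)) vstar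
      (∑ j ∈ Finset.range (i + 1), m j) (hp i le_rfl)
    · intro ζ' _ _ v' hv'
      rw [hL, Finset.mem_singleton] at hv'
      rw [hv', g1_fail_self, mul_zero]
    · exact hF
    · rw [Finset.sum_range_succ]
      omega
    · omega
  | succ k ih =>
    intro i hi ζ hF hζ v hv
    have hiI : i < I + 1 := by omega
    have e1 : ∑ j ∈ Finset.Ico i (I + 1), w j = w i + ∑ j ∈ Finset.Ico (i + 1) (I + 1), w j := by
      rw [Finset.sum_eq_sum_Ico_succ_bot hiI]
    have e2 : ∑ j ∈ Finset.Ico i (I + 1), (1 - p j) ^ (m j / 2) =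
        ∑ j ∈ Finset.Ico (i + 1) (I + 1), (1 - p j) ^ (m j / 2) + (1 - p i) ^ (m i / 2) := by
      rw [Finset.sum_eq_sum_Ico_succ_bot hiI, add_comm]
    rw [e1, e2]
    apply g1_inner Ir Ib (w i) _ (p i) _ (hp0 i (by omega)) (hp1 i (by omega)) (hpos (i + 1))
      (L (i + 1)) vstar (∑ j ∈ Finset.range (i + 1), m j) (hp i (by omega))
    · intro ζ' hF' hζ' v' hv'
      apply ih (i + 1) (by omega) ζ' hF' hζ' v'
      have h1 := g1_fr_append ζ' η v'
      have h2 := hm i (by omega) v' hv'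
      omega
    · exact hF
    · rw [Finset.sum_range_succ]
      omega
    · omega

/-- Abstract greedy estimate. There are `I + 1` hops; hop `i` goes from a vertex of the set `L i`
(or from the starting vertex, if `i = 0`) to a vertex of the set `L (i + 1)`, where
`L (I + 1) = {vstar}`; at most `m i / 2` half-edges are revealed for the hop `i`, the hop uses an
edge of red weight at most `w i`, and `p i` is a lower bound for the probability of success of one
trial. -/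
theorem greedy_abstract (Ir Ib : Measure ℝ≥0) [IsProbabilityMeasure Ir]
    [IsProbabilityMeasure Ib] (I : ℕ) (m : ℕ → ℕ) (w : ℕ → ℝ≥0) (p : ℕ → ℝ)
    (L : ℕ → Finset (Fin n)) (vstar : Fin n) (hL : L (I + 1) = {vstar})
    (hp0 : ∀ i ≤ I, 0 ≤ p i) (hp1 : ∀ i ≤ I, p i ≤ 1)
    {η : List (HE d × HE d)} (hη : Fresh η)
    (hm : ∀ i < I, ∀ v ∈ L (i + 1), ∑ j ∈ Finset.range (i + 1), m j + m (i + 1) ≤ fr η v)
    (hp : ∀ i ≤ I, p i * ((∑ v, d v : ℕ) : ℝ) ≤ (Ir (Set.Iic (w i))).toReal *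
      (((∑ v ∈ L (i + 1), fr η v : ℕ) : ℝ) - ((∑ j ∈ Finset.range (i + 1), m j : ℕ) : ℝ) - 1))
    {v : Fin n} (hv : m 0 ≤ fr η v) :
    failure Ir Ib η v vstar (∑ i ∈ Finset.range (I + 1), w i) ≤
      (Ext η).card * ENNReal.ofReal (∑ i ∈ Finset.range (I + 1), (1 - p i) ^ (m i / 2)) := by
  have h := g1_outer Ir Ib I m w p L vstar hL hp0 hp1 hm hp I 0 (by omega) [] (by simpa using hη)
    (by simp) v (by simpa using hv)
  rw [List.nil_append, ← Finset.range_eq_Ico] at h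
  rw [g1_failure_eq]
  refine (ENNReal.ofReal_le_ofReal h).trans (le_of_eq ?_)
  rw [ENNReal.ofReal_mul (Nat.cast_nonneg _), ENNReal.ofReal_natCast]

end Pool.Agent.Helper98.Comp
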