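import Pool.Agent.Helper98.Comp.Tree
import Pool.Agent.Helper98.Comp.Greedy1

/-!
# MODULE Explore: exploration of the two sources in a pairing

The words `u : List ℕ` are mapped to non-backtracking walks from a source: `pos σ v u` is the
vertex reached, with the index of the half-edge by which it was entered. The `i`-th child of a
vertex is reached through its `i`-th half-edge, where the half-edge of entry is skipped.
-/

set_option autoImplicit false

namespace Pool.Agent.Helper98.Comp

open MeasureTheory Filter Set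
open scoped ENNReal NNReal Topology

variable {n : ℕ} {d : Fin n → ℕ}

/-- Skip the index of entry. -/
def skip (p : Option ℕ) (i : ℕ) : ℕ :=
  match p with
  | none => i
  | some j => if i < j then i else i + 1

/-- Number of children of a position. -/
def numSlots (d : Fin n → ℕ) (q : Fin n × Option ℕ) : ℕ :=
  match q.2 with
  | none => d q.1
  | some _ => d q.1 - 1

/-- The `i`-th half-edge of a position. -/
def slot (q : Fin n × Option ℕ) (i : ℕ) : Option (HE d) :=
  if h : skip q.2 i < d q.1 then some ⟨q.1, ⟨skip q.2 i, h⟩⟩ else none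

/-- The position reached from `q` through the `i`-th half-edge. -/
def step (σ : Pairing d) (q : Fin n × Option ℕ) (i : ℕ) : Option (Fin n × Option ℕ) :=
  (slot q i).map fun h => ((σ h).1, some (σ h).2.val)

/-- The position of the word `u`, started from the vertex `v`. -/
def pos (σ : Pairing d) (v : Fin n) (u : List ℕ) : Option (Fin n × Option ℕ) :=
  u.foldlM (step σ) (v, none)

/-- The half-edge at the position of `u` which leads to the child `i`. -/
def edge (σ : Pairing d) (v : Fin n) (u : List ℕ) (i : ℕ) : Option (HE d) :=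
  (pos σ v u).bind fun q => slot q i

/-- Number of children of the word `u`. -/
def fK (σ : Pairing d) (v : Fin n) (u : List ℕ) : ℕ :=
  (pos σ v u).elim 0 (numSlots d)

/-- The weights of the edge from the word `u` to its parent. -/
noncomputable def fX (σ : Pairing d) (x : Sym2 (HE d) → ℝ≥0 × ℝ≥0) (v : Fin n)
    (u : List ℕ) : ℝ≥0 × ℝ≥0 :=
  if h : u = [] then 0
  else (edge σ v u.dropLast (u.getLast h)).elim 0 fun g => x s(g, σ g)

/-- The field of labels seen from the vertex `v`. -/
noncomputable def fld (σ : Pairing d) (x : Sym2 (HE d) → ℝ≥0 × ℝ≥0) (v : Fin n) :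
    List ℕ → ℕ × (ℝ≥0 × ℝ≥0) :=
  fun u => (fK σ v u, fX σ x v u)

/-- The two sources. -/
def rt (ur ub : Fin n) (b : Bool) : Fin n := if b then ur else ub

/-- No collision among the relevant positions of the two sources. -/
def EmbOK (M R : ℕ) (σ : Pairing d) (ur ub : Fin n) : Prop :=
  ∀ b u b' u', rel M R (fK σ (rt ur ub b)) u → rel M R (fK σ (rt ur ub b')) u' →
    ∀ q q', pos σ (rt ur ub b) u = some q → pos σ (rt ur ub b') u' = some q' → q.1 = q'.1 →
      b = b' ∧ u = u'

/-- The half-edges revealed by the exploration. -/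
def revSet (M R : ℕ) (σ : Pairing d) (ur ub : Fin n) : Set (HE d) :=
  {g | ∃ b u i h, rel M R (fK σ (rt ur ub b)) (u ++ [i]) ∧ edge σ (rt ur ub b) u i = some h ∧
    (g = h ∨ g = σ h)}

/-! ### Elementary facts -/

theorem pos_nil (σ : Pairing d) (v : Fin n) : pos σ v [] = some (v, none) := rfl

theorem xa_pos_step (σ : Pairing d) (v : Fin n) (u : List ℕ) (i : ℕ) :
    pos σ v (u ++ [i]) = (pos σ v u).bind fun q => step σ q i := by
  unfold pos
  rw [List.foldlM_append]
  cases h : List.foldlM (step σ) (v, none) u with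
  | none => rfl
  | some q =>
    show (step σ q i).bind (fun s' => some s') = step σ q i
    cases step σ q i <;> rfl

theorem pos_snoc (σ : Pairing d) (v : Fin n) (u : List ℕ) (i : ℕ) :
    pos σ v (u ++ [i]) = (edge σ v u i).map fun h => ((σ h).1, some (σ h).2.val) := by
  rw [xa_pos_step]
  unfold edge
  cases pos σ v u with
  | none => rfl
  | some q => rfl

theorem fX_snoc (σ : Pairing d) (x : Sym2 (HE d) → ℝ≥0 × ℝ≥0) (v : Fin n) (u : List ℕ) (i : ℕ) :
    fX σ x v (u ++ [i]) = (edge σ v u i).elim 0 fun g => x s(g, σ g) := by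
  have h : u ++ [i] ≠ [] := by simp
  unfold fX
  rw [dif_neg h, List.dropLast_concat, List.getLast_append_singleton]

/-! ### Slots -/

theorem xa_skip_ne (j i : ℕ) : skip (some j) i ≠ j := by
  unfold skip
  dsimp only
  split_ifs <;> omega

theorem xa_skip_inj (p : Option ℕ) {i i' : ℕ} (h : skip p i = skip p i') : i = i' := by
  cases p with
  | none => exact h
  | some j =>
    unfold skip at h
    dsimp only at h
    split_ifs at h <;> omega

theorem xa_skip_lt {q : Fin n × Option ℕ} {i : ℕ} (h : i < numSlots d q) : skip q.2 i < d q.1 := by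
  obtain ⟨w, p⟩ := q
  cases p with
  | none => exact h
  | some j =>
    unfold numSlots at h
    unfold skip
    dsimp only at h ⊢
    split_ifs <;> omega

theorem xa_slot {q : Fin n × Option ℕ} {i : ℕ} (h : i < numSlots d q) :
    slot q i = some (⟨q.1, ⟨skip q.2 i, xa_skip_lt h⟩⟩ : HE d) := by
  unfold slot
  rw [dif_pos (xa_skip_lt h)]

theorem xa_slot_eq {q : Fin n × Option ℕ} {i : ℕ} {g : HE d} (h : slot q i = some g) :
    g.1 = q.1 ∧ g.2.val = skip q.2 i := by
  unfold slot at h
  split_ifs at h with h1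
  rw [Option.some.injEq] at h
  rw [← h]
  exact ⟨rfl, rfl⟩

/-- two half-edges of the same vertex with the same index are equal -/
theorem xa_ext {g g' : HE d} (h1 : g.1 = g'.1) (h2 : g.2.val = g'.2.val) : g = g' := by
  obtain ⟨a, x⟩ := g
  obtain ⟨a', x'⟩ := g'
  dsimp only at h1 h2
  subst h1
  congr 1
  exact Fin.ext h2

theorem xa_fK {σ : Pairing d} {v : Fin n} {u : List ℕ} {q : Fin n × Option ℕ}
    (hq : pos σ v u = some q) : fK σ v u = numSlots d q := by
  unfold fK
  rw [hq]
  rfl

theorem xa_edge {σ : Pairing d} {v : Fin n} {u : List ℕ} {q : Fin n × Option ℕ}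
    (hq : pos σ v u = some q) (i : ℕ) : edge σ v u i = slot q i := by
  unfold edge
  rw [hq]
  rfl

/-- a child of a word with a position has a position -/
theorem xa_child {σ : Pairing d} {v : Fin n} {u : List ℕ} {q : Fin n × Option ℕ}
    (hq : pos σ v u = some q) {i : ℕ} (hi : i < fK σ v u) :
    ∃ g : HE d, edge σ v u i = some g ∧ g.1 = q.1 ∧ g.2.val = skip q.2 i ∧
      pos σ v (u ++ [i]) = some ((σ g).1, some (σ g).2.val) := by
  rw [xa_fK hq] at hi
  have h1 : edge σ v u i = some (⟨q.1, ⟨skip q.2 i, xa_skip_lt hi⟩⟩ : HE d) := by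
    rw [xa_edge hq, xa_slot hi]
  refine ⟨_, h1, rfl, rfl, ?_⟩
  rw [pos_snoc, h1]
  rfl

/-- Relevant words have positions. -/
theorem exists_pos {M R : ℕ} {σ : Pairing d} {v : Fin n} {u : List ℕ}
    (h : rel M R (fK σ v) u) : ∃ q, pos σ v u = some q := by
  induction u using List.reverseRecOn with
  | nil => exact ⟨_, rfl⟩
  | append_singleton u i ih =>
    obtain ⟨h1, -, -, h4⟩ := rel_snoc.1 h
    obtain ⟨q, hq⟩ := ih h1
    obtain ⟨g, -, -, -, h5⟩ := xa_child hq h4
    exact ⟨_, h5⟩

theorem exists_edge {M R : ℕ} {σ : Pairing d} {v : Fin n} {u : List ℕ} {i : ℕ}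
    (h : rel M R (fK σ v) (u ++ [i])) :
    ∃ g : HE d, edge σ v u i = some g ∧ (∃ q, pos σ v u = some q ∧ q.1 = g.1) ∧
      pos σ v (u ++ [i]) = some ((σ g).1, some (σ g).2.val) := by
  obtain ⟨h1, -, -, h4⟩ := rel_snoc.1 h
  obtain ⟨q, hq⟩ := exists_pos h1
  obtain ⟨g, h5, h6, -, h7⟩ := xa_child hq h4
  exact ⟨g, h5, ⟨q, hq, h6.symm⟩, h7⟩

/-- Each half-edge of the position of a relevant word is the half-edge of entry or leads to a
child. -/
theorem halfedge_cases {M R : ℕ} {σ : Pairing d} {v : Fin n} {u : List ℕ}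
    (h : rel M R (fK σ v) u) {q : Fin n × Option ℕ} (hq : pos σ v u = some q) {g : HE d}
    (hg : g.1 = q.1) :
    (∃ w i g', u = w ++ [i] ∧ edge σ v w i = some g' ∧ σ g' = g) ∨
      ∃ i < fK σ v u, edge σ v u i = some g := by
  have hlt : g.2.val < d q.1 := by
    rw [← hg]
    exact g.2.isLt
  induction u using List.reverseRecOn with
  | nil =>
    right
    rw [pos_nil, Option.some.injEq] at hq
    subst hq
    refine ⟨g.2.val, ?_, ?_⟩
    · rw [xa_fK (pos_nil σ v)]
      exact hlt
    · rw [xa_edge (pos_nil σ v), xa_slot (show g.2.val < numSlots d (v, none) from hlt),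
        Option.some.injEq]
      exact xa_ext hg.symm rfl
  | append_singleton w i _ =>
    obtain ⟨g', h1, -, h2⟩ := exists_edge h
    have hq' := hq
    rw [h2, Option.some.injEq] at hq'
    by_cases hj : g.2.val = (σ g').2.val
    · left
      refine ⟨w, i, g', rfl, h1, xa_ext ?_ hj.symm⟩
      rw [hg, ← hq']
    · right
      have hj2 : (σ g').2.val < d q.1 := by
        rw [← hq']
        exact (σ g').2.isLt
      have hns : numSlots d q = d q.1 - 1 := by rw [← hq']; rfl
      have hsk : ∀ k, skip q.2 k = if k < (σ g').2.val then k else k + 1 := by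
        intro k; rw [← hq']; rfl
      rcases lt_or_gt_of_ne hj with hlt2 | hgt
      · have hk : g.2.val < numSlots d q := by omega
        refine ⟨g.2.val, by rw [xa_fK hq]; exact hk, ?_⟩
        rw [xa_edge hq, xa_slot hk, Option.some.injEq]
        refine xa_ext hg.symm ?_
        show skip q.2 g.2.val = g.2.val
        rw [hsk, if_pos hlt2]
      · have hk : g.2.val - 1 < numSlots d q := by omega
        refine ⟨g.2.val - 1, by rw [xa_fK hq]; exact hk, ?_⟩
        rw [xa_edge hq, xa_slot hk, Option.some.injEq]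
        refine xa_ext hg.symm ?_
        show skip q.2 (g.2.val - 1) = g.2.val
        rw [hsk, if_neg (by omega)]
        omega

/-- If a word has a position then it is alive up to its parent; words alive for `fK` whose
parents are alive have positions (used for alive words which are not known to be relevant). -/
theorem exists_pos_of_alive {σ : Pairing d} {v : Fin n} {u : List ℕ}
    (h : alive (fK σ v) u) : ∃ q, pos σ v u = some q := by
  induction u using List.reverseRecOn with
  | nil => exact ⟨_, rfl⟩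
  | append_singleton u i ih =>
    obtain ⟨h1, h2⟩ := (alive_append _ u [i]).1 h
    obtain ⟨q, hq⟩ := ih h1
    have h4 : i < fK σ v u := by simpa [alive, subAt] using h2
    obtain ⟨g, -, -, -, h5⟩ := xa_child hq h4
    exact ⟨_, h5⟩

/-- The revealed half-edges are stable under the pairing. -/
theorem revSet_stable {M R : ℕ} {σ : Pairing d} {ur ub : Fin n} {g : HE d}
    (h : g ∈ revSet M R σ ur ub) : σ g ∈ revSet M R σ ur ub := by
  obtain ⟨b, u, i, h', h1, h2, h3⟩ := h
  refine ⟨b, u, i, h', h1, h2, ?_⟩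
  rcases h3 with rfl | rfl
  · exact Or.inr rfl
  · exact Or.inl (σ.2.1 h')

/-- All half-edges of internal positions are revealed. -/
theorem internal_revealed {M R : ℕ} {σ : Pairing d} {ur ub : Fin n} {b : Bool} {u : List ℕ}
    (h : rel M R (fK σ (rt ur ub b)) u) (hM : fK σ (rt ur ub b) u < M) (hR : u.length < R)
    {q : Fin n × Option ℕ} (hq : pos σ (rt ur ub b) u = some q) {g : HE d} (hg : g.1 = q.1) :
    g ∈ revSet M R σ ur ub := by
  rcases halfedge_cases h hq hg with ⟨w, i, g', rfl, h2, h3⟩ | ⟨i, hi, h2⟩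
  · exact ⟨b, w, i, g', h, h2, Or.inr h3.symm⟩
  · exact ⟨b, u, i, g, rel_snoc.2 ⟨h, hR, hM, hi⟩, h2, Or.inl rfl⟩

/-- The positions of relevant words with at least `M` children have at least `M` free
half-edges. -/
theorem le_free {M R : ℕ} {σ : Pairing d} {ur ub : Fin n} (hσ : EmbOK M R σ ur ub) {b : Bool}
    {u : List ℕ} (h : rel M R (fK σ (rt ur ub b)) u) (hM : M ≤ fK σ (rt ur ub b) u)
    {q : Fin n × Option ℕ} (hq : pos σ (rt ur ub b) u = some q) :
    M ≤ Set.ncard {g : HE d | g ∉ revSet M R σ ur ub ∧ g.1 = q.1} := by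
  classical
  have key : ∀ i < fK σ (rt ur ub b) u, ∀ g : HE d, edge σ (rt ur ub b) u i = some g →
      g ∉ revSet M R σ ur ub := by
    rintro i hi g hg ⟨b', u', i', g', h1, h2, h3⟩
    obtain ⟨h4, -, h5, -⟩ := rel_snoc.1 h1
    rw [xa_edge hq] at hg
    obtain ⟨h6, h7⟩ := xa_slot_eq hg
    obtain ⟨g'', h8, ⟨q', hq', h9⟩, h10⟩ := exists_edge h1
    rw [h2, Option.some.injEq] at h8
    subst h8
    rcases h3 with rfl | rfl
    · obtain ⟨rfl, rfl⟩ := hσ b u b' u' h h4 q q' hq hq' (by rw [h9, h6])
      omega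
    · obtain ⟨rfl, rfl⟩ := hσ b u b' (u' ++ [i']) h h1 q _ hq h10 h6.symm
      rw [h10, Option.some.injEq] at hq
      rw [← hq] at h7
      exact xa_skip_ne _ _ h7.symm
  rcases Nat.eq_zero_or_pos (fK σ (rt ur ub b) u) with h0 | h0
  · omega
  have hne : Nonempty (HE d) := by
    obtain ⟨g, -⟩ := xa_child hq h0
    exact ⟨g⟩
  choose! f hf using fun i (hi : i < fK σ (rt ur ub b) u) => xa_child hq hi
  have hsub : f '' (Set.Iio (fK σ (rt ur ub b) u)) ⊆
      {g : HE d | g ∉ revSet M R σ ur ub ∧ g.1 = q.1} := by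
    rintro _ ⟨i, hi, rfl⟩
    exact ⟨key i hi _ (hf i hi).1, (hf i hi).2.1⟩
  have hinj : Set.InjOn f (Set.Iio (fK σ (rt ur ub b) u)) := by
    intro i hi j hj hij
    have h1 := (hf i hi).2.2.1
    have h2 := (hf j hj).2.2.1
    rw [hij, h2] at h1
    exact (xa_skip_inj _ h1).symm
  calc M ≤ fK σ (rt ur ub b) u := hM
    _ = (Set.Iio (fK σ (rt ur ub b) u)).ncard := by
        rw [← Finset.coe_Iio, Set.ncard_coe_finset, Nat.card_Iio]
    _ = (f '' (Set.Iio (fK σ (rt ur ub b) u))).ncard := hinj.ncard_image.symm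
    _ ≤ _ := Set.ncard_le_ncard hsub (Set.toFinite _)

end Pool.Agent.Helper98.Comp
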