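import Pool.Agent.Helper98.Comp.Explore

/-!
# MODULE ExploreB: classes of pairings without collisions
-/

set_option autoImplicit false

namespace Pool.Agent.Helper98.Comp

open MeasureTheory Filter Set
open scoped ENNReal NNReal Topology

variable {n : ℕ} {d : Fin n → ℕ}

theorem xb_skip_inj {p : Option ℕ} {i j : ℕ} (h : skip p i = skip p j) : i = j := by
  rcases p with _ | k
  · exact h
  · simp only [skip] at h
    split_ifs at h <;> omega

theorem xb_skip_ne (k i : ℕ) : skip (some k) i ≠ k := by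
  simp only [skip]
  split_ifs <;> omega

theorem xb_slot_eq {q : Fin n × Option ℕ} {i : ℕ} {h : HE d} (hs : slot q i = some h) :
    h.1 = q.1 ∧ (h.2 : ℕ) = skip q.2 i := by
  unfold slot at hs
  split_ifs at hs with hlt
  simp only [Option.some.injEq] at hs
  subst hs
  exact ⟨rfl, rfl⟩

theorem xb_edge_eq {σ : Pairing d} {v : Fin n} {u : List ℕ} {i : ℕ} {h : HE d}
    (he : edge σ v u i = some h) :
    ∃ q, pos σ v u = some q ∧ h.1 = q.1 ∧ (h.2 : ℕ) = skip q.2 i := by
  unfold edge at he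
  obtain ⟨q, hq, hs⟩ := Option.bind_eq_some_iff.1 he
  exact ⟨q, hq, xb_slot_eq hs⟩

/-- The nonempty words of the box. -/
noncomputable def xbWords (M R : ℕ) : Finset (List ℕ) := by
  classical
  exact (Finset.range R).biUnion fun j =>
    (Finset.univ : Finset (Fin (j + 1) → Fin M)).image fun f => List.ofFn fun k => (f k : ℕ)

theorem xb_card_words (M R : ℕ) :
    (xbWords M R).card ≤ ∑ j ∈ Finset.range R, M ^ (j + 1) := by
  classical
  unfold xbWords
  refine Finset.card_biUnion_le.trans (Finset.sum_le_sum fun j _ => ?_)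
  refine Finset.card_image_le.trans ?_
  simp

theorem xb_mem_words {M R : ℕ} {w : List ℕ} (hw : w ∈ box M R) (hne : w ≠ []) :
    w ∈ xbWords M R := by
  classical
  unfold xbWords
  obtain ⟨h1, h2⟩ := hw
  have hpos : 0 < w.length := List.length_pos_iff.2 hne
  rw [Finset.mem_biUnion]
  refine ⟨w.length - 1, Finset.mem_range.2 (by omega), ?_⟩
  rw [Finset.mem_image]
  refine ⟨fun k => ⟨w.get ⟨k.1, by have := k.2; omega⟩, h2 _ (List.get_mem _ _)⟩,
    Finset.mem_univ _, ?_⟩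
  apply List.ext_get
  · simp; omega
  · intro m hm1 hm2
    rw [List.get_ofFn]
    simp

/-- The pair of half-edges of a word. -/
noncomputable def xbPair (M R : ℕ) (ur ub : Fin n) (σ : Pairing d) (z : Bool × List ℕ) :
    Option (HE d × HE d) := by
  classical
  exact if h : z.2 ≠ [] ∧ rel M R (fK σ (rt ur ub z.1)) z.2 then
    (edge σ (rt ur ub z.1) z.2.dropLast (z.2.getLast h.1)).map fun g => (g, σ g) else none

theorem xb_mem_pair {M R : ℕ} {ur ub : Fin n} {σ : Pairing d} {z : Bool × List ℕ}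
    {p : HE d × HE d} : p ∈ xbPair M R ur ub σ z ↔
      ∃ u i, z.2 = u ++ [i] ∧ rel M R (fK σ (rt ur ub z.1)) (u ++ [i]) ∧
        edge σ (rt ur ub z.1) u i = some p.1 ∧ p.2 = σ p.1 := by
  classical
  obtain ⟨b, w⟩ := z
  simp only [xbPair]
  constructor
  · intro hp
    split_ifs at hp with h
    · obtain ⟨g, hg, rfl⟩ := Option.map_eq_some_iff.1 hp
      refine ⟨w.dropLast, w.getLast h.1, (List.dropLast_append_getLast h.1).symm, ?_, hg, rfl⟩
      rw [List.dropLast_append_getLast h.1]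
      exact h.2
    · simp at hp
  · rintro ⟨u, i, rfl, hrel, he, hp2⟩
    rw [dif_pos ⟨by simp, hrel⟩]
    simp only [List.dropLast_concat, List.getLast_append_singleton, he, Option.map_some,
      Option.mem_def, Option.some.injEq]
    exact Prod.ext rfl hp2.symm

/-- The list of the revealed pairs. -/
noncomputable def xbCls (M R : ℕ) (ur ub : Fin n) (σ : Pairing d) : List (HE d × HE d) :=
  ((Finset.univ : Finset Bool) ×ˢ xbWords M R).toList.filterMap (xbPair M R ur ub σ)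

theorem xb_mem_cls {M R : ℕ} {ur ub : Fin n} {σ : Pairing d} {p : HE d × HE d} :
    p ∈ xbCls M R ur ub σ ↔ ∃ b u i, rel M R (fK σ (rt ur ub b)) (u ++ [i]) ∧
      edge σ (rt ur ub b) u i = some p.1 ∧ p.2 = σ p.1 := by
  unfold xbCls
  rw [List.mem_filterMap]
  constructor
  · rintro ⟨z, _, hz⟩
    obtain ⟨u, i, _, h1, h2, h3⟩ := xb_mem_pair.1 hz
    exact ⟨z.1, u, i, h1, h2, h3⟩
  · rintro ⟨b, u, i, h1, h2, h3⟩
    refine ⟨(b, u ++ [i]), ?_, xb_mem_pair.2 ⟨u, i, rfl, h1, h2, h3⟩⟩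
    rw [Finset.mem_toList, Finset.mem_product]
    exact ⟨Finset.mem_univ _, xb_mem_words (rel_mem_box h1) (by simp)⟩

theorem xb_length_cls (M R : ℕ) (ur ub : Fin n) (σ : Pairing d) :
    (xbCls M R ur ub σ).length ≤ 2 * ∑ j ∈ Finset.range R, M ^ (j + 1) := by
  unfold xbCls
  refine (List.length_filterMap_le _ _).trans ?_
  rw [Finset.length_toList, Finset.card_product]
  simp only [Finset.card_univ, Fintype.card_bool]
  exact Nat.mul_le_mul le_rfl (xb_card_words M R)

/-- Different relevant words have disjoint pairs. -/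
theorem xb_disjoint {M R : ℕ} {ur ub : Fin n} {σ : Pairing d} (hσ : EmbOK M R σ ur ub)
    {b b' : Bool} {u u' : List ℕ} {i i' : ℕ} {h h' : HE d}
    (hr : rel M R (fK σ (rt ur ub b)) (u ++ [i]))
    (hr' : rel M R (fK σ (rt ur ub b')) (u' ++ [i']))
    (he : edge σ (rt ur ub b) u i = some h) (he' : edge σ (rt ur ub b') u' i' = some h')
    (hne : (b, u ++ [i]) ≠ (b', u' ++ [i'])) :
    h ≠ h' ∧ h ≠ σ h' ∧ σ h ≠ h' ∧ σ h ≠ σ h' := by
  -- equal edges
  have key1 : h ≠ h' := by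
    intro hh
    obtain ⟨q, hq, hq1, hq2⟩ := xb_edge_eq he
    obtain ⟨q', hq', hq1', hq2'⟩ := xb_edge_eq he'
    subst hh
    obtain ⟨rfl, rfl⟩ := hσ b u b' u' (rel_snoc.1 hr).1 (rel_snoc.1 hr').1 q q' hq hq'
      (hq1.symm.trans hq1')
    rw [hq] at hq'
    simp only [Option.some.injEq] at hq'
    subst hq'
    have := xb_skip_inj (hq2.symm.trans hq2')
    exact hne (by rw [this])
  -- an edge is not an entry
  have key2 : ∀ {b b' : Bool} {u u' : List ℕ} {i i' : ℕ} {h h' : HE d},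
      rel M R (fK σ (rt ur ub b)) (u ++ [i]) →
      rel M R (fK σ (rt ur ub b')) (u' ++ [i']) →
      edge σ (rt ur ub b) u i = some h → edge σ (rt ur ub b') u' i' = some h' → h ≠ σ h' := by
    intro b b' u u' i i' h h' hr hr' he he' hh
    obtain ⟨q, hq, hq1, hq2⟩ := xb_edge_eq he
    have hp : pos σ (rt ur ub b') (u' ++ [i']) = some ((σ h').1, some ((σ h').2 : ℕ)) := by
      rw [pos_snoc, he']
      rfl
    obtain ⟨rfl, rfl⟩ := hσ b u b' (u' ++ [i']) (rel_snoc.1 hr).1 hr' q _ hq hp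
      (by rw [← hq1, hh])
    rw [hq] at hp
    simp only [Option.some.injEq] at hp
    subst hp
    rw [hh] at hq2
    exact xb_skip_ne _ _ hq2.symm
  refine ⟨key1, key2 hr hr' he he', fun hh => key2 hr' hr he' he hh.symm, fun hh => ?_⟩
  exact key1 (σ.1.injective hh)

theorem xb_fresh {M R : ℕ} {ur ub : Fin n} {σ : Pairing d} (hσ : EmbOK M R σ ur ub) :
    Fresh (xbCls M R ur ub σ) := by
  unfold Fresh rev
  rw [List.nodup_flatMap]
  constructor
  · intro p hp
    obtain ⟨b, u, i, _, _, h3⟩ := xb_mem_cls.1 hp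
    have : p.1 ≠ p.2 := by
      rw [h3]
      exact (σ.2.2 p.1).symm
    simpa using this
  · unfold xbCls
    rw [List.pairwise_filterMap]
    have hnd := Finset.nodup_toList ((Finset.univ : Finset Bool) ×ˢ xbWords M R)
    refine List.Pairwise.imp ?_ hnd
    intro z z' hzz p hp p' hp'
    obtain ⟨u, i, h0, h1, h2, h3⟩ := xb_mem_pair.1 hp
    obtain ⟨u', i', h0', h1', h2', h3'⟩ := xb_mem_pair.1 hp'
    have hne : (z.1, u ++ [i]) ≠ (z'.1, u' ++ [i']) := by
      rw [← h0, ← h0']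
      exact hzz
    obtain ⟨k1, k2, k3, k4⟩ := xb_disjoint hσ h1 h1' h2 h2' hne
    intro g hg hg'
    simp only [List.mem_cons, List.not_mem_nil, or_false] at hg hg'
    rcases hg with rfl | rfl <;> rcases hg' with hg' | hg'
    · exact k1 hg'
    · exact k2 (hg'.trans h3')
    · exact k3 (h3.symm.trans hg')
    · exact k4 (h3.symm.trans (hg'.trans h3'))

/-- The positions of the relevant words are the same for all pairings of the class. -/
theorem xb_pos_eq {M R : ℕ} {ur ub : Fin n} {σ τ : Pairing d}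
    (hτ : τ ∈ Ext (xbCls M R ur ub σ)) (b : Bool) {u : List ℕ}
    (hu : rel M R (fK σ (rt ur ub b)) u) :
    pos τ (rt ur ub b) u = pos σ (rt ur ub b) u := by
  induction u using List.reverseRecOn with
  | nil => rfl
  | append_singleton u i ih =>
    have ih' := ih (rel_snoc.1 hu).1
    obtain ⟨g, hg, _, _⟩ := exists_edge hu
    have hedge : edge τ (rt ur ub b) u i = some g := by
      rw [← hg]
      unfold edge
      rw [ih']
    have hmem : (g, σ g) ∈ xbCls M R ur ub σ := xb_mem_cls.2 ⟨b, u, i, hu, hg, rfl⟩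
    have hτg : τ g = σ g := mem_Ext.1 hτ _ hmem
    rw [pos_snoc, pos_snoc, hedge, hg, Option.map_some, Option.map_some]
    exact congrArg (fun z : HE d => some (z.1, some (z.2 : ℕ))) hτg

theorem xb_rel_iff {M R : ℕ} {ur ub : Fin n} {σ τ : Pairing d}
    (hτ : τ ∈ Ext (xbCls M R ur ub σ)) (b : Bool) (u : List ℕ) :
    rel M R (fK σ (rt ur ub b)) u ↔ rel M R (fK τ (rt ur ub b)) u := by
  apply rel_congr
  intro u hu
  unfold fK
  rw [xb_pos_eq hτ b hu]

theorem xb_edge_eq' {M R : ℕ} {ur ub : Fin n} {σ τ : Pairing d}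
    (hτ : τ ∈ Ext (xbCls M R ur ub σ)) (b : Bool) {u : List ℕ} {i : ℕ}
    (hu : rel M R (fK σ (rt ur ub b)) (u ++ [i])) :
    edge τ (rt ur ub b) u i = edge σ (rt ur ub b) u i := by
  unfold edge
  rw [xb_pos_eq hτ b (rel_snoc.1 hu).1]

theorem xb_tau {M R : ℕ} {ur ub : Fin n} {σ τ : Pairing d}
    (hτ : τ ∈ Ext (xbCls M R ur ub σ)) {b : Bool} {u : List ℕ} {i : ℕ} {h : HE d}
    (hu : rel M R (fK σ (rt ur ub b)) (u ++ [i])) (he : edge σ (rt ur ub b) u i = some h) :
    τ h = σ h :=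
  mem_Ext.1 hτ _ (xb_mem_cls.2 ⟨b, u, i, hu, he, rfl⟩ : (h, σ h) ∈ xbCls M R ur ub σ)

theorem xb_pair_eq {M R : ℕ} {ur ub : Fin n} {σ τ : Pairing d}
    (hτ : τ ∈ Ext (xbCls M R ur ub σ)) (z : Bool × List ℕ) :
    xbPair M R ur ub τ z = xbPair M R ur ub σ z := by
  apply Option.ext
  intro p
  rw [← Option.mem_def, ← Option.mem_def, xb_mem_pair, xb_mem_pair]
  constructor
  · rintro ⟨u, i, h0, h1, h2, h3⟩
    have h1' := (xb_rel_iff hτ _ _).2 h1
    rw [xb_edge_eq' hτ _ h1'] at h2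
    exact ⟨u, i, h0, h1', h2, by rw [h3, xb_tau hτ h1' h2]⟩
  · rintro ⟨u, i, h0, h1, h2, h3⟩
    refine ⟨u, i, h0, (xb_rel_iff hτ _ _).1 h1, ?_, by rw [h3, xb_tau hτ h1 h2]⟩
    rw [xb_edge_eq' hτ _ h1]
    exact h2

/-- The pairings without collisions are partitioned into classes of pairings which extend a
partial pairing (the revealed pairs). -/
theorem exists_cls (M R : ℕ) (ur ub : Fin n) :
    ∃ cls : Pairing d → List (HE d × HE d), ∀ σ, EmbOK M R σ ur ub →
      Fresh (cls σ) ∧ σ ∈ Ext (cls σ) ∧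
      (cls σ).length ≤ 2 * ∑ j ∈ Finset.range R, M ^ (j + 1) ∧
      (∀ g, g ∈ rev (cls σ) ↔ g ∈ revSet M R σ ur ub) ∧
      ∀ τ ∈ Ext (cls σ), EmbOK M R τ ur ub ∧ cls τ = cls σ ∧
        revSet M R τ ur ub = revSet M R σ ur ub ∧
        ∀ b u, rel M R (fK σ (rt ur ub b)) u → pos τ (rt ur ub b) u = pos σ (rt ur ub b) u := by
  refine ⟨xbCls M R ur ub, fun σ hσ => ?_⟩
  refine ⟨xb_fresh hσ, ?_, xb_length_cls M R ur ub σ, ?_, ?_⟩
  · rw [mem_Ext]
    intro p hp
    obtain ⟨b, u, i, _, _, h3⟩ := xb_mem_cls.1 hp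
    exact h3.symm
  · intro g
    unfold rev revSet
    rw [List.mem_flatMap]
    constructor
    · rintro ⟨p, hp, hg⟩
      obtain ⟨b, u, i, h1, h2, h3⟩ := xb_mem_cls.1 hp
      simp only [List.mem_cons, List.not_mem_nil, or_false] at hg
      refine ⟨b, u, i, p.1, h1, h2, ?_⟩
      rw [← h3]
      exact hg
    · rintro ⟨b, u, i, h, h1, h2, h3⟩
      refine ⟨(h, σ h), xb_mem_cls.2 ⟨b, u, i, h1, h2, rfl⟩, ?_⟩
      simpa using h3
  · intro τ hτ
    refine ⟨?_, ?_, ?_, fun b u hu => xb_pos_eq hτ b hu⟩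
    · intro b u b' u' hu hu' q q' hq hq' hqq
      have hu2 := (xb_rel_iff hτ b u).2 hu
      have hu2' := (xb_rel_iff hτ b' u').2 hu'
      rw [xb_pos_eq hτ b hu2] at hq
      rw [xb_pos_eq hτ b' hu2'] at hq'
      exact hσ b u b' u' hu2 hu2' q q' hq hq' hqq
    · unfold xbCls
      congr 1
      funext z
      exact xb_pair_eq hτ z
    · ext g
      unfold revSet
      simp only [mem_ofPred_eq]
      constructor
      · rintro ⟨b, u, i, h, h1, h2, h3⟩
        have h1' := (xb_rel_iff hτ _ _).2 h1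
        rw [xb_edge_eq' hτ _ h1'] at h2
        rw [xb_tau hτ h1' h2] at h3
        exact ⟨b, u, i, h, h1', h2, h3⟩
      · rintro ⟨b, u, i, h, h1, h2, h3⟩
        refine ⟨b, u, i, h, (xb_rel_iff hτ _ _).1 h1, ?_, ?_⟩
        · rw [xb_edge_eq' hτ _ h1]
          exact h2
        · rw [xb_tau hτ h1 h2]
          exact h3

end Pool.Agent.Helper98.Comp
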