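import Pool.Agent.Helper98.Comp.FinalB

/-!
# Final assembly (helper98)
-/

set_option autoImplicit false

namespace Pool.Agent.Helper98.Comp

open MeasureTheory Filter Set
open scoped ENNReal NNReal Topology

/-- There are many hubs. -/
theorem fi_hubs {μ : Measure ℕ} {β γ y0 : ℝ} (hβ : 0 < β) (hβγ : β * γ < 1) (K : ℕ) :
    ∀ᶠ d in regF μ β γ y0, (K : ℝ) < (cntGe (((d.1 : ℝ) + 2) ^ β) d : ℝ) := by
  have hsize : Tendsto (fun d : DegSeq => (d.1 : ℝ) + 2) (regF μ β γ y0) atTop :=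
    tendsto_atTop_add_const_right _ _ (tendsto_natCast_atTop_atTop.comp regF_size)
  have h1 := ((tendsto_rpow_atTop hβ).comp hsize).eventually_ge_atTop y0
  have h2 := ((tendsto_rpow_atTop (show 0 < 1 - β * γ by linarith)).comp
    hsize).eventually_gt_atTop (K : ℝ)
  filter_upwards [h1, h2, regF_tail] with d h1 h2 h3
  simp only [Function.comp] at h1 h2
  have h4 := h3 _ h1 le_rfl
  refine lt_of_lt_of_le h2 (le_trans (le_of_eq ?_) h4)
  have hpos : (0 : ℝ) < (d.1 : ℝ) + 2 := by positivity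
  rw [← Real.rpow_mul hpos.le, sub_eq_add_neg, Real.rpow_add hpos, Real.rpow_one, mul_neg]

/-- Quenched result. -/
theorem quenched_result {μ : Measure ℕ} {τ : ℝ} (hμ : IsDegreeLaw μ τ) (hτ : 2 < τ) (hτ' : τ < 3)
    (Ir Ib : Measure ℝ≥0) [IsProbabilityMeasure Ir] [IsProbabilityMeasure Ib]
    (hr : Explosive μ Ir) (hb : ¬ Explosive μ Ib) :
    ∃ β γ : ℝ, 0 < β ∧ τ - 1 < γ ∧ β * γ < 1 ∧ ∀ y0 : ℝ, 1 ≤ y0 → ∀ ε : ℝ≥0∞, 0 < ε →
      ∃ K : ℕ, ∀ᶠ d in regF μ β γ y0,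
        quenched d.2 Ir Ib (fun Nr Nb => ¬ (Nb ≤ K ∧ K < Nr)) ≤ ε := by
  classical
  have hp1 : IsProbabilityMeasure μ := hμ.prob
  have hp2 : IsProbabilityMeasure (sizeBiased μ) := sizeBiased_prob hμ hτ
  obtain ⟨β, γ, hβ, hγ, hβγ, hG⟩ := greedy_numeric hμ hτ hτ' Ir Ib hr
  refine ⟨β, γ, hβ, hγ, hβγ, fun y0 hy0 ε hε => ?_⟩
  -- a small real number
  obtain ⟨e, he0, he⟩ : ∃ e : ℝ≥0, 0 < e ∧ (e : ℝ≥0∞) * 6 ≤ min ε 1 := by
    have hm : 0 < min ε 1 := lt_min hε one_pos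
    have hm2 : (min ε 1) / 6 ≠ 0 := (ENNReal.div_pos hm.ne' (by norm_num)).ne'
    have hm3 : (min ε 1) / 6 ≠ ⊤ :=
      ENNReal.div_ne_top (ne_top_of_le_ne_top ENNReal.one_ne_top (min_le_right _ _)) (by norm_num)
    refine ⟨((min ε 1) / 6).toNNReal, ENNReal.toNNReal_pos hm2 hm3, ?_⟩
    rw [ENNReal.coe_toNNReal hm3]
    exact (ENNReal.div_mul_cancel (by norm_num) (by norm_num)).le
  have heE : (0 : ℝ≥0∞) < e := by exact_mod_cast he0
  have he1 : (e : ℝ≥0∞) ≤ 1 := by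
    calc (e : ℝ≥0∞) = e * 1 := (mul_one _).symm
      _ ≤ e * 6 := by gcongr; norm_num
      _ ≤ min ε 1 := he
      _ ≤ 1 := min_le_right _ _
  -- constants
  obtain ⟨s0, hs0, hlate⟩ := late_subcritical hμ hτ hr
  obtain ⟨s1, hnear⟩ := near_tight hμ hτ hr heE
  obtain ⟨R0, hR0⟩ := nonexplosive_late hμ hτ hb (s1 + 2 + s0) heE
  have hR0pos : 0 < R0 := by
    rcases Nat.eq_zero_or_pos R0 with h | h
    · exfalso
      subst h
      have : {ω : List ℕ → ℕ × ℝ≥0 | ∃ u, alive (Kf ω) u ∧ u.length = 0 ∧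
          dist (Xf ω) u < s1 + 2 + s0} = univ := by
        ext ω
        simp only [mem_univ, iff_true]
        refine ⟨[], trivial, rfl, ?_⟩
        simp only [dist]
        positivity
      rw [this, measure_univ] at hR0
      exact absurd hR0 (not_lt.2 he1)
    · exact h
  obtain ⟨J, hJ, hlate⟩ := hlate R0 e hR0pos heE
  obtain ⟨M0, hM0⟩ := bounded_children (W := ℝ≥0 × ℝ≥0) (α := μ) (ν := sizeBiased μ)
    (J := Ir.prod Ib) (R0 + J) heE
  set K : ℕ := ∑ j ∈ Finset.range (R0 + J), M0 ^ j with hK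
  set Z := (box_finite M0 (R0 + J)).toFinset with hZ
  set δ : ℝ := (e : ℝ) / (Z.card + K + 2) with hδ
  have hδ0 : 0 < δ := by
    have : (0 : ℝ) < e := by exact_mod_cast he0
    positivity
  obtain ⟨M1, hM1⟩ := hG y0 hy0 δ hδ0
  set M := max M0 M1 with hM
  obtain ⟨R1, hR1⟩ := hlate M
  obtain ⟨R2, hR2⟩ := hnear M
  set R := max (max R1 R2) (R0 + J + 1) with hR
  have hRa : R0 + J < R := lt_of_lt_of_le (Nat.lt_succ_self _) (le_max_right _ _)
  have hRb : R1 ≤ R := (le_max_left _ _).trans (le_max_left _ _)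
  have hRc : R2 ≤ R := (le_max_right _ _).trans (le_max_left _ _)
  have hlate' := hR1 R hRb
  have hnear' := hR2 R hRc
  set r0 := 2 * ∑ j ∈ Finset.range R, M ^ (j + 1) with hr0
  -- bad sets
  have hBr : MeasurableSet (fiR ⁻¹' fiBad0 M R s1) := fi_meas_R (fi_meas_bad0 M R s1)
  have hBb : MeasurableSet (fiBb M M0 R R0 J s0 (s1 + 2 + s0)) :=
    ((fi_meas_B (fi_meas_bad1 M R R0 _)).union (fi_meas_bad2 M R (R0 + J) M0)).union
      (fi_meas_R (fi_meas_bad3 M R R0 J s0))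
  have hlim := local_limit hμ hτ (β := β) (γ := γ) (y0 := y0) Ir Ib M R hBr hBb
    (fi_local_bad0 M R s1) (fi_local_union (fi_local_union (fi_local_bad1 M R R0 _)
      (fi_local_bad2 M R (R0 + J) M0)) (fi_local_bad3 M R R0 J s0)) heE
  have hPr : treeLaw μ (sizeBiased μ) (Ir.prod Ib) (fiR ⁻¹' fiBad0 M R s1) ≤ e :=
    (fi_prob_R Ir Ib _).trans hnear'.le
  have hPb : treeLaw μ (sizeBiased μ) (Ir.prod Ib) (fiBb M M0 R R0 J s0 (s1 + 2 + s0)) ≤
      e + e + e := by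
    refine (measure_union_le _ _).trans (add_le_add ((measure_union_le _ _).trans
      (add_le_add ?_ ?_)) ?_)
    · refine (fi_prob_B Ir Ib _).trans (le_trans (measure_mono ?_) hR0.le)
      rintro ω ⟨u, h1, h2, h3⟩
      exact ⟨u, rel_alive h1, h2, h3⟩
    · refine le_trans (measure_mono ?_) hM0.le
      rintro ω ⟨u, h1, h2, h3⟩
      exact ⟨u, rel_alive h1, h2, h3⟩
    · exact (fi_prob_R Ir Ib _).trans hlate'.le
  -- large degrees of the hubs
  have hsize : Tendsto (fun d : DegSeq => (d.1 : ℝ) + 2) (regF μ β γ y0) atTop :=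
    tendsto_atTop_add_const_right _ _ (tendsto_natCast_atTop_atTop.comp regF_size)
  have hdeg := ((tendsto_rpow_atTop hβ).comp hsize).eventually_ge_atTop ((M1 + 2 * r0 : ℕ) : ℝ)
  refine ⟨K, ?_⟩
  filter_upwards [hlim, hM1 r0, hdeg, fi_hubs (μ := μ) (y0 := y0) hβ hβγ K] with d hlim hgr hdeg hhub
  simp only [Function.comp] at hdeg
  -- the hubs
  have hhub' : K + 1 ≤ (Finset.univ.filter fun v => ((d.1 : ℝ) + 2) ^ β ≤ (d.2 v : ℝ)).card := by
    have : (K : ℝ) < ((Finset.univ.filter fun v =>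
      ((d.1 : ℝ) + 2) ^ β ≤ (d.2 v : ℝ)).card : ℝ) := hhub
    exact_mod_cast this
  obtain ⟨hubs, hsub, hcard⟩ := Finset.exists_subset_card_eq hhub'
  have hmem : ∀ y ∈ hubs, ((d.1 : ℝ) + 2) ^ β ≤ (d.2 y : ℝ) := fun y hy => by
    have := hsub hy
    simpa using this
  obtain ⟨vstar, hvstar⟩ : hubs.Nonempty := by
    rw [← Finset.card_pos]; omega
  have hgr' := hgr vstar (hmem vstar hvstar)
  -- the union bound
  rw [quenched_eq_qprob]
  refine (fi_qprob_mono Ir Ib fun σ ur ub => fi_inclusion (M := M) (M0 := M0) (R := R) (R0 := R0)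
    (J := J) (s0 := s0) (s1 := s1) (le_max_left _ _) hRa hJ (vstar := vstar) (hubs := hubs)
    (K := K) le_rfl (by omega) σ ur ub).trans ?_
  have hsel : ∀ (b : Bool) (z : List ℕ) (s : ℝ),
      qprob d.2 Ir Ib (fun σ ur ub => fiSel M R b vstar z s σ ur ub) ≤ ENNReal.ofReal δ :=
    fun b z s => fi_qprob_le Ir Ib fun ur ub =>
      select_fail Ir Ib (M := M) (M1 := M1) (R := R) (r0 := r0) (le_max_right _ _) le_rfl hgr'
        ur ub b z s
  have hhb : ∀ y ∈ hubs,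
      qprob d.2 Ir Ib (fun σ ur ub => fiHub M R vstar y σ ur ub) ≤ ENNReal.ofReal δ := by
    intro y hy
    have hy' : M1 + 2 * r0 ≤ d.2 y := by
      have := hdeg.trans (hmem y hy)
      exact_mod_cast this
    exact fi_qprob_le Ir Ib fun ur ub =>
      hub_fail Ir Ib (M := M) (M1 := M1) (R := R) (r0 := r0) hy' le_rfl hgr' ur ub
  refine (fi_qprob_union Ir Ib _ _).trans ?_
  refine (add_le_add (fi_qprob_union Ir Ib _ _) le_rfl).trans ?_
  refine (add_le_add (add_le_add (fi_qprob_union Ir Ib _ _) le_rfl) le_rfl).trans ?_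
  refine (add_le_add (add_le_add (add_le_add hlim (hsel true [] s1))
    (fi_qprob_biUnion Ir Ib _ fun z σ ur ub => fiSel M R false vstar z s0 σ ur ub))
    (fi_qprob_biUnion Ir Ib _ fun y σ ur ub => fiHub M R vstar y σ ur ub)).trans ?_
  have hsum1 : ∑ z ∈ Z, qprob d.2 Ir Ib (fun σ ur ub => fiSel M R false vstar z s0 σ ur ub) ≤
      Z.card * ENNReal.ofReal δ := by
    refine (Finset.sum_le_sum fun z _ => hsel false z s0).trans ?_
    rw [Finset.sum_const, nsmul_eq_mul]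
  have hsum2 : ∑ y ∈ hubs, qprob d.2 Ir Ib (fun σ ur ub => fiHub M R vstar y σ ur ub) ≤
      (K + 1) * ENNReal.ofReal δ := by
    refine (Finset.sum_le_sum fun y hy => hhb y hy).trans ?_
    rw [Finset.sum_const, nsmul_eq_mul, hcard]
    simp
  refine (add_le_add (add_le_add (add_le_add (add_le_add (add_le_add hPr hPb) le_rfl) le_rfl)
    hsum1) hsum2).trans ?_
  have hδe : (Z.card + K + 2 : ℝ≥0∞) * ENNReal.ofReal δ = e := by
    have h1 : (Z.card + K + 2 : ℝ≥0∞) = ENNReal.ofReal (Z.card + K + 2) := by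
      rw [ENNReal.ofReal_add (by positivity) (by positivity),
        ENNReal.ofReal_add (by positivity) (by positivity)]
      simp
    rw [h1, ← ENNReal.ofReal_mul (by positivity), hδ, mul_div_cancel₀ _ (by positivity)]
    exact ENNReal.ofReal_coe_nnreal
  calc _ = (e : ℝ≥0∞) * 5 + (Z.card + K + 2) * ENNReal.ofReal δ := by ring
    _ = (e : ℝ≥0∞) * 6 := by rw [hδe]; ring
    _ ≤ min ε 1 := he
    _ ≤ ε := min_le_left _ _

/-- From the quenched to the annealed statement. -/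
theorem fi_annealed {μ : Measure ℕ} {τ : ℝ} (hμ : IsDegreeLaw μ τ) (hτ : 2 < τ) (hτ' : τ < 3)
    (Ir Ib : Measure ℝ≥0) [IsProbabilityMeasure Ir] [IsProbabilityMeasure Ib]
    (hr : Explosive μ Ir) (hb : ¬ Explosive μ Ib) {ε : ℝ≥0∞} (hε : 0 < ε) :
    ∃ K : ℕ, ∀ᶠ n in atTop,
      annealed n μ Ir Ib (fun Nr Nb => ¬ (Nb ≤ K ∧ K < Nr)) ≤ ε := by
  have hp1 : IsProbabilityMeasure μ := hμ.prob
  obtain ⟨β, γ, hβ, hγ, hβγ, hQ⟩ := quenched_result hμ hτ hτ' Ir Ib hr hb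
  obtain ⟨y0, hy0, hw⟩ := regF_whp hμ hτ hβ hγ hβγ
  have hε2 : 0 < ε / 2 := ENNReal.half_pos hε.ne'
  obtain ⟨K, hK⟩ := hQ y0 hy0 (ε / 2) hε2
  refine ⟨K, ?_⟩
  have hlim := hw _ hK
  filter_upwards [(ENNReal.tendsto_nhds_zero.1 hlim) (ε / 2) hε2] with n hn
  set B : Set (Fin (n + 2) → ℕ) := {D | ¬ quenched (⟨n, fixParity D⟩ : DegSeq).2 Ir Ib
    (fun Nr Nb => ¬ (Nb ≤ K ∧ K < Nr)) ≤ ε / 2} with hB
  unfold annealed
  calc ∫⁻ D : Fin (n + 2) → ℕ, quenched (fixParity D) Ir Ib (fun Nr Nb => ¬ (Nb ≤ K ∧ K < Nr))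
        ∂(Measure.pi fun _ => μ)
      ≤ ∫⁻ D : Fin (n + 2) → ℕ, (ε / 2 + B.indicator 1 D) ∂(Measure.pi fun _ => μ) := by
        refine lintegral_mono fun D => ?_
        by_cases hD : D ∈ B
        · rw [indicator_of_mem hD]
          exact (fi_quenched_le_one Ir Ib _).trans le_add_self
        · have : quenched (⟨n, fixParity D⟩ : DegSeq).2 Ir Ib
            (fun Nr Nb => ¬ (Nb ≤ K ∧ K < Nr)) ≤ ε / 2 := by
            by_contra h
            exact hD h
          exact this.trans le_self_add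
    _ = ε / 2 + ∫⁻ D : Fin (n + 2) → ℕ, B.indicator 1 D ∂(Measure.pi fun _ => μ) := by
        rw [lintegral_add_left measurable_const, lintegral_const, measure_univ, mul_one]
    _ ≤ ε / 2 + (Measure.pi fun _ : Fin (n + 2) => μ) B := by
        gcongr
        exact lintegral_indicator_one_le B
    _ ≤ ε / 2 + ε / 2 := by gcongr
    _ = ε := ENNReal.add_halves ε

theorem fi_annealed_mono {n : ℕ} {μ : Measure ℕ} (Ir Ib : Measure ℝ≥0) {P P' : ℕ → ℕ → Prop}
    (h : ∀ Nr Nb, Nb ≤ n + 2 → P Nr Nb → P' Nr Nb) :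
    annealed n μ Ir Ib P ≤ annealed n μ Ir Ib P' := by
  unfold annealed
  refine lintegral_mono fun D => ?_
  rw [quenched_eq_qprob, quenched_eq_qprob]
  refine fi_qprob_mono Ir Ib fun σ ur ub => ?_
  rintro x ⟨T, c, hT, hP⟩
  refine ⟨T, c, hT, h _ _ ?_ hP⟩
  unfold painted
  calc _ ≤ (Set.univ : Set (Fin (n + 2))).ncard := Set.ncard_le_ncard (subset_univ _)
    _ = n + 2 := by rw [Set.ncard_univ, Nat.card_eq_fintype_card, Fintype.card_fin]

theorem main_result {μ : Measure ℕ} {τ : ℝ} (hμ : IsDegreeLaw μ τ) (hτ : 2 < τ) (hτ' : τ < 3)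
    (Ir Ib : Measure ℝ≥0) [IsProbabilityMeasure Ir] [IsProbabilityMeasure Ib]
    (hr : Explosive μ Ir) (hb : ¬ Explosive μ Ib) :
    Tendsto (fun n => annealed n μ Ir Ib fun Nr Nb => Nr ≤ Nb) atTop (𝓝 0) ∧
      ∀ ε : ℝ≥0∞, 0 < ε → ∃ K : ℕ, ∀ n, annealed n μ Ir Ib (fun _ Nb => K < Nb) ≤ ε := by
  constructor
  · rw [ENNReal.tendsto_nhds_zero]
    intro ε hε
    obtain ⟨K, hK⟩ := fi_annealed hμ hτ hτ' Ir Ib hr hb hε
    filter_upwards [hK] with n hn
    refine (fi_annealed_mono Ir Ib fun Nr Nb _ h => ?_).trans hn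
    omega
  · intro ε hε
    obtain ⟨K, hK⟩ := fi_annealed hμ hτ hτ' Ir Ib hr hb hε
    obtain ⟨N, hN⟩ := eventually_atTop.1 hK
    refine ⟨max K (N + 2), fun n => ?_⟩
    rcases le_or_gt N n with h | h
    · refine (fi_annealed_mono Ir Ib fun Nr Nb _ h' => ?_).trans (hN n h)
      rw [max_lt_iff] at h'
      omega
    · have : annealed n μ Ir Ib (fun _ Nb => max K (N + 2) < Nb) ≤
          annealed n μ Ir Ib (fun _ _ => False) := by
        refine fi_annealed_mono Ir Ib fun Nr Nb h1 h2 => ?_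
        rw [max_lt_iff] at h2
        omega
      refine this.trans ?_
      simp [annealed, quenched]

end Pool.Agent.Helper98.Comp
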