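import Pool.Agent.Helper98.Comp.GWlim

/-!
# MODULE GWsub: late individuals form a subcritical tree (T4)
-/

set_option autoImplicit false

namespace Pool.Agent.Helper98.Comp

open MeasureTheory Filter Set
open scoped ENNReal NNReal Topology

variable {μ : Measure ℕ} {τ : ℝ} {I : Measure ℝ≥0} [IsProbabilityMeasure I]

/-- The event of (T4), with the parameters `r = R0` and `J`. -/
def gsEv (M : ℕ) (s0 : ℝ) (r J R : ℕ) : Set (List ℕ → ℕ × ℝ≥0) :=
  {ω | ∃ a, rel M R (Kf ω) a ∧ a.length = r + J ∧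
        ∀ b, b <+: a → r ≤ b.length →
          ¬ Near M (R - b.length) (subAt (Kf ω) b) (subAt (Xf ω) b) s0}

theorem gs_measurable_subAt (b : List ℕ) :
    Measurable (fun ω : List ℕ → ℕ × ℝ≥0 => subAt ω b) :=
  measurable_pi_lambda _ fun w => measurable_pi_apply (b ++ w)

theorem gsEv_measurable (M : ℕ) (s0 : ℝ) (r J R : ℕ) : MeasurableSet (gsEv M s0 r J R) := by
  have h : gsEv M s0 r J R = ⋃ a : List ℕ, ({ω | rel M R (Kf ω) a} ∩
      ({_ω | a.length = r + J} ∩ ⋂ b : List ℕ, ({_ω | b <+: a → r ≤ b.length → False} ∪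
        {ω | Near M (R - b.length) (subAt (Kf ω) b) (subAt (Xf ω) b) s0}ᶜ))) := by
    ext ω
    simp only [gsEv, mem_setOf_eq, mem_iUnion, mem_inter_iff, mem_iInter, mem_union, mem_compl_iff]
    refine exists_congr fun a => and_congr_right fun _ => and_congr_right fun _ =>
      forall_congr' fun b => ?_
    tauto
  rw [h]
  refine MeasurableSet.iUnion fun a => (measurableSet_rel M R a).inter
    ((MeasurableSet.const _).inter (MeasurableSet.iInter fun b =>
      (MeasurableSet.const _).union (MeasurableSet.compl ?_)))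
  have hm : Measurable (fun ω : List ℕ → ℕ × ℝ≥0 => (subAt ω b, s0)) :=
    (gs_measurable_subAt b).prodMk measurable_const
  exact hm (measurableSet_near M (R - b.length))

theorem gsA_measurable (M R : ℕ) (s0 : ℝ) :
    MeasurableSet {ω : List ℕ → ℕ × ℝ≥0 | ¬ Near M R (Kf ω) (Xf ω) (s0 - (ω []).2)} := by
  have hm : Measurable (fun ω : List ℕ → ℕ × ℝ≥0 => (ω, s0 - ((ω []).2 : ℝ))) :=
    measurable_id.prodMk (measurable_const.sub
      (measurable_coe_nnreal_real.comp (measurable_snd.comp (measurable_pi_apply []))))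
  exact (hm (measurableSet_near M R)).compl

theorem gsEv_succ {M : ℕ} {s0 : ℝ} {r J R : ℕ} {ω : List ℕ → ℕ × ℝ≥0}
    (h : ω ∈ gsEv M s0 (r + 1) J (R + 1)) : ∃ i < (ω []).1, sub ω i ∈ gsEv M s0 r J R := by
  obtain ⟨a, ha, hl, hb⟩ := h
  cases a with
  | nil => simp at hl; omega
  | cons i a =>
    refine ⟨i, ha.2.1, a, ha.2.2, by simp at hl; omega, ?_⟩
    intro b hba hr
    have h1 := hb (i :: b) (by simpa using hba) (by simpa using hr)
    have h2 : R + 1 - (i :: b).length = R - b.length := by simp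
    rw [h2] at h1
    exact h1

theorem gsEv_step {M : ℕ} {s0 : ℝ} {J R : ℕ} {ω : List ℕ → ℕ × ℝ≥0}
    (h : ω ∈ gsEv M s0 0 (J + 1) (R + 1)) :
    (∀ i < (ω []).1, sub ω i ∈ {ω : List ℕ → ℕ × ℝ≥0 |
      ¬ Near M R (Kf ω) (Xf ω) (s0 - (ω []).2)}) ∧
    ∃ i < (ω []).1, sub ω i ∈ gsEv M s0 0 J R := by
  obtain ⟨a, ha, hl, hb⟩ := h
  cases a with
  | nil => simp at hl
  | cons i a =>
    constructor
    · intro j hj hnear
      have h0 := hb [] (List.nil_prefix) (Nat.zero_le _)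
      apply h0
      exact near_succ.mpr (Or.inr ⟨ha.1, j, hj, hnear⟩)
    · refine ⟨i, ha.2.1, a, ha.2.2, by simp at hl; omega, ?_⟩
      intro b hba hr
      have h1 := hb (i :: b) (by simpa using hba) (Nat.zero_le _)
      have h2 : R + 1 - (i :: b).length = R - b.length := by simp
      rw [h2] at h1
      exact h1

section oneStep

variable {α ν : Measure ℕ} [IsProbabilityMeasure α] [IsProbabilityMeasure ν]

theorem gs_measurable_root : Measurable (fun ω : List ℕ → ℕ × ℝ≥0 => (ω []).1) :=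
  measurable_fst.comp (measurable_pi_apply [])

theorem gs_forall_measurable {A : Set (List ℕ → ℕ × ℝ≥0)} (hA : MeasurableSet A) :
    MeasurableSet {ω : List ℕ → ℕ × ℝ≥0 | ∀ i < (ω []).1, sub ω i ∈ A} := by
  have h : {ω : List ℕ → ℕ × ℝ≥0 | ∀ i < (ω []).1, sub ω i ∈ A} =
      ⋂ i : ℕ, ((fun ω : List ℕ → ℕ × ℝ≥0 => (ω []).1) ⁻¹' (Iic i) ∪
        (fun ω => sub ω i) ⁻¹' A) := by
    ext ω
    simp only [mem_setOf_eq, mem_iInter, mem_union, mem_preimage, mem_Iic]
    refine forall_congr' fun i => ?_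
    constructor
    · intro h
      by_cases hi : i < (ω []).1
      · exact Or.inr (h hi)
      · exact Or.inl (not_lt.mp hi)
    · rintro (h | h) hi
      · omega
      · exact h
  rw [h]
  exact MeasurableSet.iInter fun i => (gs_measurable_root measurableSet_Iic).union
    (measurable_sub i hA)

theorem gs_exists_measurable {C : Set (List ℕ → ℕ × ℝ≥0)} (hC : MeasurableSet C) :
    MeasurableSet {ω : List ℕ → ℕ × ℝ≥0 | ∃ i < (ω []).1, sub ω i ∈ C} := by
  have h : {ω : List ℕ → ℕ × ℝ≥0 | ∃ i < (ω []).1, sub ω i ∈ C} =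
      {ω : List ℕ → ℕ × ℝ≥0 | ∀ i < (ω []).1, sub ω i ∈ Cᶜ}ᶜ := by
    ext ω
    simp
  rw [h]
  exact (gs_forall_measurable hC.compl).compl

/-- first moment bound -/
theorem gs_first_moment {A C : Set (List ℕ → ℕ × ℝ≥0)} (hA : MeasurableSet A)
    (hC : MeasurableSet C) (S : Set ℕ) :
    treeLaw α ν I {ω | (ω []).1 ∈ S ∧ (∀ i < (ω []).1, sub ω i ∈ A) ∧
        ∃ i < (ω []).1, sub ω i ∈ C} ≤
      (∑' k : ℕ, S.indicator (fun k => α {k} * k * treeLaw ν ν I A ^ (k - 1)) k) *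
        treeLaw ν ν I C := by
  have h1 := treeLaw_first_moment (α := α) (ν := ν) (I := I) hA
    (f := C.indicator 1) (measurable_one.indicator hC) S
  rw [lintegral_indicator_one hC] at h1
  refine le_trans ?_ h1
  have hmeas : MeasurableSet {ω : List ℕ → ℕ × ℝ≥0 | (ω []).1 ∈ S ∧
      (∀ i < (ω []).1, sub ω i ∈ A) ∧ ∃ i < (ω []).1, sub ω i ∈ C} :=
    (gs_measurable_root (MeasurableSet.of_discrete (s := S))).inter
      ((gs_forall_measurable hA).inter (gs_exists_measurable hC))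
  rw [← lintegral_indicator_one hmeas]
  refine lintegral_mono fun ω => ?_
  by_cases hω : ω ∈ {ω : List ℕ → ℕ × ℝ≥0 | (ω []).1 ∈ S ∧ (∀ i < (ω []).1, sub ω i ∈ A) ∧
      ∃ i < (ω []).1, sub ω i ∈ C}
  · rw [indicator_of_mem hω]
    obtain ⟨hS, hall, i, hi, hiC⟩ := hω
    rw [indicator_of_mem (show ω ∈ {ω : List ℕ → ℕ × ℝ≥0 | (ω []).1 ∈ S ∧
      ∀ i < (ω []).1, sub ω i ∈ A} from ⟨hS, hall⟩)]
    calc (1 : (List ℕ → ℕ × ℝ≥0) → ℝ≥0∞) ω =
          C.indicator (1 : (List ℕ → ℕ × ℝ≥0) → ℝ≥0∞) (sub ω i) := by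
          rw [indicator_of_mem hiC]; rfl
      _ ≤ _ := Finset.single_le_sum
          (f := fun i => C.indicator (1 : (List ℕ → ℕ × ℝ≥0) → ℝ≥0∞) (sub ω i))
          (fun _ _ => bot_le) (Finset.mem_range.mpr hi)
  · rw [indicator_of_notMem hω]
    exact bot_le

theorem gs_root_tail (S : Set ℕ) :
    treeLaw α ν I {ω | (ω []).1 ∈ S} = α S := by
  have h := treeLaw_forall_children (α := α) (ν := ν) (I := I)
    (A := (univ : Set (List ℕ → ℕ × ℝ≥0))) MeasurableSet.univ S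
  simp only [mem_univ, implies_true, and_true, measure_univ, one_pow, mul_one] at h
  rw [h]
  exact Measure.tsum_indicator_apply_singleton α S MeasurableSet.of_discrete

/-- union bound for the existence of a child in `C` -/
theorem gs_exists_le {C : Set (List ℕ → ℕ × ℝ≥0)} (hC : MeasurableSet C) (m : ℕ) :
    treeLaw α ν I {ω | ∃ i < (ω []).1, sub ω i ∈ C} ≤
      α {k | m ≤ k} + m * treeLaw ν ν I C := by
  have h1 : {ω : List ℕ → ℕ × ℝ≥0 | ∃ i < (ω []).1, sub ω i ∈ C} ⊆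
      {ω | (ω []).1 ∈ {k | m ≤ k}} ∪ {ω | (ω []).1 ∈ {k | k < m} ∧
        (∀ i < (ω []).1, sub ω i ∈ (univ : Set (List ℕ → ℕ × ℝ≥0))) ∧
        ∃ i < (ω []).1, sub ω i ∈ C} := by
    intro ω hω
    rcases le_or_gt m (ω []).1 with h | h
    · exact Or.inl h
    · exact Or.inr ⟨h, fun _ _ => mem_univ _, hω⟩
  refine (measure_mono h1).trans ((measure_union_le _ _).trans (add_le_add ?_ ?_))
  · rw [gs_root_tail]
  · refine (gs_first_moment MeasurableSet.univ hC {k | k < m}).trans ?_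
    gcongr
    simp only [measure_univ, one_pow, mul_one]
    calc ∑' k : ℕ, {k | k < m}.indicator (fun k => α {k} * (k : ℝ≥0∞)) k
        ≤ ∑' k : ℕ, (m : ℝ≥0∞) * α {k} := by
          refine ENNReal.tsum_le_tsum fun k => ?_
          by_cases hk : k ∈ {k | k < m}
          · rw [indicator_of_mem hk, mul_comm]
            gcongr
            exact_mod_cast (show k < m from hk).le
          · rw [indicator_of_notMem hk]; exact bot_le
      _ = m := by
          rw [ENNReal.tsum_mul_left]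
          have h2 := Measure.tsum_indicator_apply_singleton α univ MeasurableSet.univ
          simp only [indicator_univ] at h2
          rw [h2, measure_univ, mul_one]

/-- small probability propagates upwards -/
theorem gs_small (α : Measure ℕ) [IsProbabilityMeasure α] {ε : ℝ≥0∞} (hε : 0 < ε) :
    ∃ δ : ℝ≥0∞, 0 < δ ∧ ∀ C : Set (List ℕ → ℕ × ℝ≥0), MeasurableSet C →
      treeLaw ν ν I C < δ → treeLaw α ν I {ω | ∃ i < (ω []).1, sub ω i ∈ C} < ε := by
  set ε' : ℝ≥0∞ := min ε 1 with hε'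
  have hpos : 0 < ε' := lt_min hε one_pos
  have hfin : ε' ≠ ⊤ := (min_le_right _ _).trans_lt ENNReal.one_lt_top |>.ne
  have htail : Tendsto (fun m : ℕ => α {k | m ≤ k}) atTop (𝓝 0) := by
    have h := tendsto_measure_iInter_atTop (μ := α) (s := fun m : ℕ => {k | m ≤ k})
      (fun _ => MeasurableSet.of_discrete.nullMeasurableSet)
      (fun a b hab k hk => le_trans hab hk) ⟨0, measure_ne_top _ _⟩
    have h0 : ⋂ m : ℕ, {k : ℕ | m ≤ k} = ∅ := by
      ext k
      simp only [mem_iInter, mem_setOf_eq, mem_empty_iff_false, iff_false, not_forall, not_le]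
      exact ⟨k + 1, Nat.lt_succ_self k⟩
    rwa [h0, measure_empty] at h
  obtain ⟨m, hm⟩ := (htail.eventually_lt_const (ENNReal.half_pos hpos.ne')).exists
  refine ⟨ε' / 2 / (m + 1), ?_, fun C hC hlt => ?_⟩
  · exact ENNReal.div_pos (ENNReal.half_pos hpos.ne').ne' (by finiteness)
  · have h1 : (m : ℝ≥0∞) * treeLaw ν ν I C ≤ ε' / 2 := by
      calc (m : ℝ≥0∞) * treeLaw ν ν I C ≤ (m + 1) * (ε' / 2 / (m + 1)) := by
            gcongr
            exact le_self_add
        _ = ε' / 2 := ENNReal.mul_div_cancel (by positivity) (by finiteness)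
    have hhalf : ε' / 2 ≠ ⊤ := (ENNReal.div_lt_top hfin (by norm_num)).ne
    calc _ ≤ α {k | m ≤ k} + m * treeLaw ν ν I C := gs_exists_le hC m
      _ < ε' / 2 + ε' / 2 := ENNReal.add_lt_add_of_lt_of_le (ne_top_of_le_ne_top hhalf h1) hm h1
      _ = ε' := ENNReal.add_halves ε'
      _ ≤ ε := min_le_left _ _

end oneStep

/-- propagation through `r` generations, root law `ν` -/
theorem gs_prop (ν : Measure ℕ) [IsProbabilityMeasure ν] (s0 : ℝ) (r : ℕ) : ∀ {ε : ℝ≥0∞}, 0 < ε →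
    ∃ δ : ℝ≥0∞, 0 < δ ∧ ∀ M J R : ℕ, treeLaw ν ν I (gsEv M s0 0 J R) < δ →
      treeLaw ν ν I (gsEv M s0 r J (R + r)) < ε := by
  induction r with
  | zero => intro ε hε; exact ⟨ε, hε, fun M J R h => h⟩
  | succ r ih =>
    intro ε hε
    obtain ⟨δ1, hδ1, h1⟩ := gs_small (ν := ν) (I := I) ν hε
    obtain ⟨δ, hδ, h2⟩ := ih hδ1
    refine ⟨δ, hδ, fun M J R h => ?_⟩
    refine lt_of_le_of_lt (measure_mono ?_) (h1 _ (gsEv_measurable M s0 r J (R + r)) (h2 M J R h))
    intro ω hω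
    exact gsEv_succ hω

/-- a choice of the threshold -/
theorem gs_rho {ν : Measure ℕ} [IsProbabilityMeasure ν] {z : ℝ≥0∞} (hz : z ≤ 1 / 2) :
    ∑' k : ℕ, ν {k} * k * z ^ (k - 1) ≤ ν {1} + 2 * z := by
  have hk : ∀ k : ℕ, ν {k} * k * z ^ (k - 1) ≤
      (({1} : Set ℕ).indicator (fun k => ν {k}) k) + (2 * z) * ν {k} := by
    intro k
    rcases Nat.lt_or_ge k 2 with h | h
    · interval_cases k
      · simp
      · simp
    · obtain ⟨j, rfl⟩ : ∃ j, k = j + 2 := ⟨k - 2, by omega⟩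
      refine le_add_left ?_
      rw [mul_assoc, mul_comm (2 * z)]
      refine mul_le_mul_right ?_ _
      have h1 : ((j + 2 : ℕ) : ℝ≥0∞) ≤ 2 * 2 ^ j := by
        have : j + 2 ≤ 2 * 2 ^ j := by
          have := Nat.lt_two_pow_self (n := j)
          omega
        exact_mod_cast this
      have h2 : (2 : ℝ≥0∞) ^ j * z ^ j ≤ 1 := by
        rw [← mul_pow]
        refine pow_le_one' ?_ j
        calc 2 * z ≤ 2 * (1 / 2) := by gcongr
          _ = 1 := by rw [one_div]; exact ENNReal.mul_inv_cancel (by norm_num) (by norm_num)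
      calc ((j + 2 : ℕ) : ℝ≥0∞) * z ^ (j + 2 - 1) ≤ (2 * 2 ^ j) * z ^ (j + 1) := by
            have e : j + 2 - 1 = j + 1 := rfl
            rw [e]
            gcongr
        _ = 2 * z * (2 ^ j * z ^ j) := by rw [pow_succ]; ring
        _ ≤ 2 * z * 1 := by gcongr
        _ = 2 * z := mul_one _
  have h2 := Measure.tsum_indicator_apply_singleton ν univ MeasurableSet.univ
  simp only [indicator_univ] at h2
  calc _ ≤ ∑' k : ℕ, ((({1} : Set ℕ).indicator (fun k => ν {k}) k) + (2 * z) * ν {k}) :=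
        ENNReal.tsum_le_tsum hk
    _ = ν {1} + 2 * z := by
        rw [ENNReal.tsum_add, ENNReal.tsum_mul_left, h2, measure_univ, mul_one,
          Measure.tsum_indicator_apply_singleton ν {1} MeasurableSet.of_discrete]

/-- (T4) -/
theorem late_subcritical (hμ : IsDegreeLaw μ τ) (hτ : 2 < τ) (hI : Explosive μ I) :
    ∃ s0 : ℝ≥0, 0 < s0 ∧ ∀ (R0 : ℕ) (ε : ℝ≥0∞), 0 < R0 → 0 < ε →
      ∃ J : ℕ, 0 < J ∧ ∀ M : ℕ, ∃ R1 : ℕ, ∀ R, R1 ≤ R →
      treeLaw μ (sizeBiased μ) I {ω | ∃ a, rel M R (Kf ω) a ∧ a.length = R0 + J ∧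
        ∀ b, b <+: a → R0 ≤ b.length →
          ¬ Near M (R - b.length) (subAt (Kf ω) b) (subAt (Xf ω) b) s0} < ε := by
  have := hμ.prob
  have := sizeBiased_prob hμ hτ
  set ν := sizeBiased μ with hν
  have h1lt : ν {1} < 1 := sizeBiased_one_lt hμ hτ
  -- the threshold
  set z : ℝ≥0∞ := min (1 / 2) ((1 - ν {1}) / 4) with hz
  have hzpos : 0 < z := lt_min (by norm_num) (ENNReal.div_pos (tsub_pos_of_lt h1lt).ne' (by norm_num))
  set ρ : ℝ≥0∞ := ν {1} + 2 * z with hρ
  have hρ1 : ρ < 1 := by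
    have h3 : 2 * z ≤ (1 - ν {1}) / 2 := by
      calc 2 * z ≤ 2 * ((1 - ν {1}) / 4) := by gcongr; exact min_le_right _ _
        _ = (1 - ν {1}) / 2 := by
          rw [← mul_div_assoc, mul_comm, show (4 : ℝ≥0∞) = 2 * 2 by norm_num]
          exact ENNReal.mul_div_mul_right _ _ (by norm_num) (by norm_num)
    have h4 : (1 - ν {1}) / 2 < 1 - ν {1} :=
      ENNReal.half_lt_self (tsub_pos_of_lt h1lt).ne' (by finiteness)
    calc ρ ≤ ν {1} + (1 - ν {1}) / 2 := by rw [hρ]; gcongr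
      _ < ν {1} + (1 - ν {1}) := ENNReal.add_lt_add_left (by finiteness) h4
      _ = 1 := add_tsub_cancel_of_le h1lt.le
  obtain ⟨s0, hs0, hnear⟩ := near_tight' (I := I) hμ hτ hI hzpos
  refine ⟨s0, hs0, fun R0 ε hR0 hε => ?_⟩
  obtain ⟨r, rfl⟩ : ∃ r, R0 = r + 1 := ⟨R0 - 1, by omega⟩
  obtain ⟨δ1, hδ1, hstep⟩ := gs_small (ν := ν) (I := I) μ hε
  obtain ⟨δ, hδ, hprop⟩ := gs_prop (I := I) ν (s0 : ℝ) r hδ1
  -- the choice of `J`
  obtain ⟨J, hJ, hJpos⟩ : ∃ J : ℕ, ρ ^ J < δ ∧ 0 < J := by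
    have h := ENNReal.tendsto_pow_atTop_nhds_zero_of_lt_one hρ1
    exact ((h.eventually_lt_const hδ).and (eventually_gt_atTop 0)).exists
  refine ⟨J, hJpos, fun M => ?_⟩
  obtain ⟨R2, hR2⟩ := hnear M
  -- the first moment
  have hmom : ∀ j R : ℕ, R2 + j ≤ R → treeLaw ν ν I (gsEv M s0 0 j R) ≤ ρ ^ j := by
    intro j
    induction j with
    | zero => intro R _; rw [pow_zero]; exact prob_le_one
    | succ j ih =>
      intro R hR
      obtain ⟨R', rfl⟩ : ∃ R', R = R' + 1 := ⟨R - 1, by omega⟩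
      set A : Set (List ℕ → ℕ × ℝ≥0) := {ω | ¬ Near M R' (Kf ω) (Xf ω) (s0 - (ω []).2)} with hA
      have hAm : MeasurableSet A := gsA_measurable M R' s0
      have hAz : treeLaw ν ν I A ≤ z := (hR2 R' (by omega)).le
      have h5 : gsEv M s0 0 (j + 1) (R' + 1) ⊆ {ω | (ω []).1 ∈ (univ : Set ℕ) ∧
          (∀ i < (ω []).1, sub ω i ∈ A) ∧ ∃ i < (ω []).1, sub ω i ∈ gsEv M s0 0 j R'} :=
        fun ω hω => ⟨mem_univ _, gsEv_step hω⟩
      calc treeLaw ν ν I (gsEv M s0 0 (j + 1) (R' + 1)) ≤ _ := measure_mono h5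
        _ ≤ _ := gs_first_moment hAm (gsEv_measurable M s0 0 j R') univ
        _ ≤ ρ * ρ ^ j := by
            gcongr
            · simp only [indicator_univ]
              calc ∑' k : ℕ, ν {k} * (k : ℝ≥0∞) * treeLaw ν ν I A ^ (k - 1)
                  ≤ ∑' k : ℕ, ν {k} * (k : ℝ≥0∞) * z ^ (k - 1) := by
                    refine ENNReal.tsum_le_tsum fun k => ?_
                    gcongr
                _ ≤ ρ := gs_rho (min_le_left _ _)
            · exact ih R' (by omega)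
        _ = ρ ^ (j + 1) := by rw [pow_succ, mul_comm]
  refine ⟨R2 + J + (r + 1), fun R hR => ?_⟩
  obtain ⟨R', rfl⟩ : ∃ R', R = R' + r + 1 := ⟨R - (r + 1), by omega⟩
  have h6 := hprop M J R' (lt_of_le_of_lt (hmom J R' (by omega)) hJ)
  have h7 := hstep _ (gsEv_measurable M s0 r J (R' + r)) h6
  refine lt_of_le_of_lt (measure_mono ?_) h7
  intro ω hω
  have hω' : ω ∈ gsEv M s0 (r + 1) J (R' + r + 1) := hω
  exact gsEv_succ hω'

end Pool.Agent.Helper98.Comp
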