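import Pool.Agent.Helper98.Comp.Tree

/-!
# MODULE Potter: consequences of the regular variation of the degree law
-/

set_option autoImplicit false

namespace Pool.Agent.Helper98.Comp

open MeasureTheory Filter Set
open scoped ENNReal NNReal Topology

variable {μ : Measure ℕ} {τ : ℝ}

/-! ### auxiliary facts -/

/-- the tail of the degree law -/
noncomputable def ptT (μ : Measure ℕ) (x : ℝ) : ℝ := (μ {k : ℕ | x < (k : ℝ)}).toReal

theorem pt_anti (hμ : IsDegreeLaw μ τ) {x y : ℝ} (h : x ≤ y) : ptT μ y ≤ ptT μ x := by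
  haveI := hμ.prob
  unfold ptT
  apply ENNReal.toReal_mono (measure_ne_top _ _)
  exact measure_mono fun k hk => lt_of_le_of_lt h hk

theorem pt_pos_eventually (hμ : IsDegreeLaw μ τ) : ∀ᶠ x in atTop, 0 < ptT μ x := by
  obtain ⟨L, hL, hT⟩ := hμ.tail
  filter_upwards [hL.1, eventually_gt_atTop 0] with x h1 h2
  unfold ptT
  rw [hT x h2, ENNReal.toReal_ofReal (by positivity)]
  positivity

theorem pt_pos (hμ : IsDegreeLaw μ τ) (x : ℝ) : 0 < ptT μ x := by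
  obtain ⟨y, hy1, hy2⟩ := ((pt_pos_eventually hμ).and (eventually_ge_atTop x)).exists
  exact lt_of_lt_of_le hy1 (pt_anti hμ hy2)

theorem pt_ratio (hμ : IsDegreeLaw μ τ) :
    Tendsto (fun x => ptT μ (2 * x) / ptT μ x) atTop (𝓝 ((2:ℝ) ^ (-(τ - 1)))) := by
  obtain ⟨L, hL, hT⟩ := hμ.tail
  have h1 : Tendsto (fun x => L (2 * x) / L x * (2:ℝ) ^ (-(τ - 1))) atTop
      (𝓝 (1 * (2:ℝ) ^ (-(τ - 1)))) := (hL.2 2 (by norm_num)).mul_const _
  rw [one_mul] at h1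
  refine h1.congr' ?_
  have h2 : ∀ᶠ x : ℝ in atTop, 0 < L (2 * x) :=
    (tendsto_id.const_mul_atTop (by norm_num : (0:ℝ) < 2)).eventually hL.1
  filter_upwards [hL.1, h2, eventually_gt_atTop 0] with x h3 h4 h5
  unfold ptT
  rw [hT x h5, hT (2 * x) (by positivity), ENNReal.toReal_ofReal (by positivity),
    ENNReal.toReal_ofReal (by positivity), Real.mul_rpow (by norm_num) h5.le]
  have h6 : x ^ (-(τ - 1)) ≠ 0 := (Real.rpow_pos_of_pos h5 _).ne'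
  field_simp

theorem pt_tau (hμ : IsDegreeLaw μ τ) : 0 ≤ τ - 1 := by
  have h : (2:ℝ) ^ (-(τ - 1)) ≤ 1 := by
    refine le_of_tendsto (pt_ratio hμ) ?_
    filter_upwards [eventually_ge_atTop 0] with x hx
    exact div_le_one_of_le₀ (pt_anti hμ (by linarith)) (pt_pos hμ x).le
  by_contra hc
  push Not at hc
  have : (1:ℝ) < 2 ^ (-(τ - 1)) := Real.one_lt_rpow (by norm_num) (by linarith)
  linarith

theorem pt_const_le {c δ : ℝ} (hδ : 0 < δ) : ∀ᶠ y : ℝ in atTop, c ≤ y ^ δ :=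
  (tendsto_rpow_atTop hδ).eventually (eventually_ge_atTop c)

theorem potter_lower (hμ : IsDegreeLaw μ τ) {γ : ℝ} (hγ : τ - 1 < γ) :
    ∃ y0 : ℝ, 1 ≤ y0 ∧ ∀ y : ℝ, y0 ≤ y → y ^ (-γ) ≤ (μ {k : ℕ | y ≤ (k : ℝ)}).toReal := by
  haveI := hμ.prob
  set g := (τ - 1 + γ) / 2 with hg
  have hg0 : 0 < g := by have := pt_tau hμ; linarith
  have hg1 : τ - 1 < g := by linarith
  have hg2 : g < γ := by linarith
  have h1 : ∀ᶠ x in atTop, (2:ℝ) ^ (-g) < ptT μ (2 * x) / ptT μ x := by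
    refine (pt_ratio hμ).eventually (lt_mem_nhds ?_)
    exact Real.rpow_lt_rpow_of_exponent_lt (by norm_num) (by linarith)
  obtain ⟨x0, hx0⟩ := eventually_atTop.1 (h1.and (eventually_ge_atTop 1))
  have hx1 : 1 ≤ x0 := (hx0 x0 le_rfl).2
  have hx00 : 0 < x0 := by linarith
  have h2 : ∀ j : ℕ, ((2:ℝ) ^ (-g)) ^ j * ptT μ x0 ≤ ptT μ (2 ^ j * x0) := by
    intro j
    induction j with
    | zero => simp
    | succ j ih =>
      have h3 : x0 ≤ 2 ^ j * x0 := by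
        have : (1:ℝ) ≤ 2 ^ j := one_le_pow₀ (by norm_num)
        nlinarith
      have h4 := (hx0 _ h3).1
      rw [lt_div_iff₀ (pt_pos hμ _)] at h4
      have h5 : (2:ℝ) ^ (j + 1) * x0 = 2 * (2 ^ j * x0) := by ring
      rw [h5, pow_succ]
      have h6 : (0:ℝ) < 2 ^ (-g) := by positivity
      calc ((2:ℝ) ^ (-g)) ^ j * 2 ^ (-g) * ptT μ x0
          = 2 ^ (-g) * (((2:ℝ) ^ (-g)) ^ j * ptT μ x0) := by ring
        _ ≤ 2 ^ (-g) * ptT μ (2 ^ j * x0) := by gcongr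
        _ ≤ _ := h4.le
  set C := (2:ℝ) ^ (-g) * x0 ^ g * ptT μ x0 with hC
  have hCpos : 0 < C := by
    have := pt_pos hμ x0
    positivity
  have h3 : ∀ y, x0 ≤ y → C * y ^ (-g) ≤ ptT μ y := by
    intro y hy
    have hy0 : 0 < y := by linarith
    obtain ⟨j, hj1, hj2⟩ := exists_nat_pow_near (x := y / x0) (y := 2)
      (by rw [le_div_iff₀ hx00]; linarith) (by norm_num)
    rw [le_div_iff₀ hx00] at hj1
    rw [div_lt_iff₀ hx00] at hj2
    have h4 := h2 (j + 1)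
    have h5 : ptT μ (2 ^ (j + 1) * x0) ≤ ptT μ y := pt_anti hμ hj2.le
    refine le_trans ?_ (h4.trans h5)
    have h6 : ((2:ℝ) ^ (-g)) ^ (j + 1) = 2 ^ (-g) * ((2:ℝ) ^ j) ^ (-g) := by
      rw [pow_succ, mul_comm, ← Real.rpow_natCast ((2:ℝ) ^ (-g)), ← Real.rpow_mul (by norm_num),
        ← Real.rpow_natCast (2:ℝ) j, ← Real.rpow_mul (by norm_num), mul_comm (-g)]
    have h7 : y ^ (-g) * x0 ^ g ≤ ((2:ℝ) ^ j) ^ (-g) := by
      have h8 : (0:ℝ) < 2 ^ j * x0 := by positivity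
      have h9 : y ^ (-g) ≤ (2 ^ j * x0) ^ (-g) :=
        Real.rpow_le_rpow_of_nonpos h8 hj1 (by linarith)
      rw [Real.mul_rpow (by positivity) hx00.le] at h9
      have h10 : x0 ^ (-g) * x0 ^ g = 1 := by
        rw [← Real.rpow_add hx00]; simp
      calc y ^ (-g) * x0 ^ g ≤ ((2:ℝ) ^ j) ^ (-g) * x0 ^ (-g) * x0 ^ g := by gcongr
        _ = _ := by rw [mul_assoc, h10, mul_one]
    rw [h6, hC]
    have h11 := pt_pos hμ x0
    have h12 : (0:ℝ) < 2 ^ (-g) := by positivity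
    calc 2 ^ (-g) * x0 ^ g * ptT μ x0 * y ^ (-g)
        = 2 ^ (-g) * (y ^ (-g) * x0 ^ g) * ptT μ x0 := by ring
      _ ≤ 2 ^ (-g) * ((2:ℝ) ^ j) ^ (-g) * ptT μ x0 := by gcongr
  obtain ⟨y1, hy1⟩ := eventually_atTop.1
    ((pt_const_le (c := C⁻¹) (sub_pos.2 hg2)).and (eventually_ge_atTop x0))
  refine ⟨max 1 y1, le_max_left _ _, fun y hy => ?_⟩
  have hy2 := hy1 y ((le_max_right _ _).trans hy)
  have hy0 : 0 < y := lt_of_lt_of_le one_pos ((le_max_left _ _).trans hy)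
  have h4 := h3 y hy2.2
  have h5 : ptT μ y ≤ (μ {k : ℕ | y ≤ (k : ℝ)}).toReal := by
    unfold ptT
    apply ENNReal.toReal_mono (measure_ne_top _ _)
    exact measure_mono fun k (hk : y < (k:ℝ)) => hk.le
  refine le_trans ?_ (h4.trans h5)
  have h6 : y ^ (-g) = y ^ (-γ) * y ^ (γ - g) := by
    rw [← Real.rpow_add hy0]; congr 1; ring
  rw [h6]
  have h7 : 1 ≤ C * y ^ (γ - g) := by
    calc (1:ℝ) = C * C⁻¹ := by field_simp
      _ ≤ _ := by gcongr; exact hy2.1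
  have h8 : (0:ℝ) < y ^ (-γ) := by positivity
  nlinarith

theorem potter_upper (hμ : IsDegreeLaw μ τ) {γ : ℝ} (hγ : γ < τ - 1) :
    ∃ y0 : ℝ, 1 ≤ y0 ∧ ∀ y : ℝ, y0 ≤ y → (μ {k : ℕ | y ≤ (k : ℝ)}).toReal ≤ y ^ (-γ) := by
  haveI := hμ.prob
  rcases le_or_gt γ 0 with h0 | h0
  · refine ⟨1, le_rfl, fun y hy => ?_⟩
    have h1 : (μ {k : ℕ | y ≤ (k : ℝ)}).toReal ≤ 1 := by
      rw [← ENNReal.toReal_one]
      exact ENNReal.toReal_mono ENNReal.one_ne_top prob_le_one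
    exact h1.trans (Real.one_le_rpow hy (by linarith))
  set g := (τ - 1 + γ) / 2 with hg
  have hg1 : g < τ - 1 := by linarith
  have hg2 : γ < g := by linarith
  have hg0 : 0 < g := by linarith
  have h1 : ∀ᶠ x in atTop, ptT μ (2 * x) / ptT μ x < (2:ℝ) ^ (-g) := by
    refine (pt_ratio hμ).eventually (gt_mem_nhds ?_)
    exact Real.rpow_lt_rpow_of_exponent_lt (by norm_num) (by linarith)
  obtain ⟨x0, hx0⟩ := eventually_atTop.1 (h1.and (eventually_ge_atTop 1))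
  have hx1 : 1 ≤ x0 := (hx0 x0 le_rfl).2
  have hx00 : 0 < x0 := by linarith
  have h2 : ∀ j : ℕ, ptT μ (2 ^ j * x0) ≤ ((2:ℝ) ^ (-g)) ^ j * ptT μ x0 := by
    intro j
    induction j with
    | zero => simp
    | succ j ih =>
      have h3 : x0 ≤ 2 ^ j * x0 := by
        have : (1:ℝ) ≤ 2 ^ j := one_le_pow₀ (by norm_num)
        nlinarith
      have h4 := (hx0 _ h3).1
      rw [div_lt_iff₀ (pt_pos hμ _)] at h4
      have h5 : (2:ℝ) ^ (j + 1) * x0 = 2 * (2 ^ j * x0) := by ring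
      rw [h5, pow_succ]
      have h6 : (0:ℝ) < 2 ^ (-g) := by positivity
      calc ptT μ (2 * (2 ^ j * x0)) ≤ 2 ^ (-g) * ptT μ (2 ^ j * x0) := h4.le
        _ ≤ 2 ^ (-g) * (((2:ℝ) ^ (-g)) ^ j * ptT μ x0) := by gcongr
        _ = ((2:ℝ) ^ (-g)) ^ j * 2 ^ (-g) * ptT μ x0 := by ring
  set C := ((2:ℝ) * x0) ^ g * ptT μ x0 with hC
  have hCpos : 0 < C := by
    have := pt_pos hμ x0
    positivity
  have h3 : ∀ y, x0 ≤ y → ptT μ y ≤ C * y ^ (-g) := by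
    intro y hy
    have hy0 : 0 < y := by linarith
    obtain ⟨j, hj1, hj2⟩ := exists_nat_pow_near (x := y / x0) (y := 2)
      (by rw [le_div_iff₀ hx00]; linarith) (by norm_num)
    rw [le_div_iff₀ hx00] at hj1
    rw [div_lt_iff₀ hx00] at hj2
    have h4 := h2 j
    have h5 : ptT μ y ≤ ptT μ (2 ^ j * x0) := pt_anti hμ hj1
    refine (h5.trans h4).trans ?_
    have h6 : ((2:ℝ) ^ (-g)) ^ j = ((2:ℝ) ^ j) ^ (-g) := by
      rw [← Real.rpow_natCast ((2:ℝ) ^ (-g)), ← Real.rpow_mul (by norm_num),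
        ← Real.rpow_natCast (2:ℝ) j, ← Real.rpow_mul (by norm_num), mul_comm (-g)]
    have h7 : ((2:ℝ) ^ j) ^ (-g) ≤ (2 * x0) ^ g * y ^ (-g) := by
      have h8 : y ≤ 2 ^ j * (2 * x0) := by
        have : (2:ℝ) ^ (j + 1) * x0 = 2 ^ j * (2 * x0) := by ring
        linarith
      have h9 : (2 ^ j * (2 * x0)) ^ (-g) ≤ y ^ (-g) :=
        Real.rpow_le_rpow_of_nonpos hy0 h8 (by linarith)
      rw [Real.mul_rpow (by positivity) (by positivity)] at h9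
      have h10 : (2 * x0) ^ (-g) * (2 * x0) ^ g = 1 := by
        rw [← Real.rpow_add (by positivity)]; simp
      calc ((2:ℝ) ^ j) ^ (-g) = (2 * x0) ^ g * (((2:ℝ) ^ j) ^ (-g) * (2 * x0) ^ (-g)) := by
            rw [mul_comm ((2 * x0) ^ g), mul_assoc, h10, mul_one]
        _ ≤ _ := by gcongr
    rw [h6, hC]
    have h11 := pt_pos hμ x0
    calc ((2:ℝ) ^ j) ^ (-g) * ptT μ x0 ≤ ((2 * x0) ^ g * y ^ (-g)) * ptT μ x0 := by gcongr
      _ = _ := by ring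
  obtain ⟨y1, hy1⟩ := eventually_atTop.1
    ((pt_const_le (c := C * 2 ^ g) (sub_pos.2 hg2)).and (eventually_ge_atTop (2 * x0)))
  refine ⟨max 1 y1, le_max_left _ _, fun y hy => ?_⟩
  have hy2 := hy1 y ((le_max_right _ _).trans hy)
  have hy0 : 0 < y := lt_of_lt_of_le one_pos ((le_max_left _ _).trans hy)
  have h4 := h3 (y / 2) (by linarith [hy2.2])
  have h5 : (μ {k : ℕ | y ≤ (k : ℝ)}).toReal ≤ ptT μ (y / 2) := by
    unfold ptT
    apply ENNReal.toReal_mono (measure_ne_top _ _)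
    refine measure_mono fun k (hk : y ≤ (k:ℝ)) => ?_
    simp only [mem_setOf_eq]
    linarith
  refine (h5.trans h4).trans ?_
  have h6 : (y / 2) ^ (-g) = 2 ^ g * y ^ (-g) := by
    rw [Real.div_rpow hy0.le (by norm_num), Real.rpow_neg (by norm_num : (0:ℝ) ≤ 2)]
    field_simp
  have h7 : y ^ (-γ) = y ^ (-g) * y ^ (g - γ) := by
    rw [← Real.rpow_add hy0]; congr 1; ring
  rw [h6, h7]
  have h8 : (0:ℝ) < y ^ (-g) := by positivity
  nlinarith [hy2.1]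

/-- the mean as a sum of tails, restricted to `{j | y ≤ j}` -/
theorem pt_layer (μ : Measure ℕ) (y : ℝ) :
    ∫⁻ j in {j : ℕ | y ≤ (j:ℝ)}, (j : ℝ≥0∞) ∂μ =
      ∑' m : ℕ, μ ({j : ℕ | m < j} ∩ {j : ℕ | y ≤ (j:ℝ)}) := by
  have h1 : ∀ j : ℕ, (j : ℝ≥0∞) = ∑' m : ℕ, ({j : ℕ | m < j}.indicator (fun _ => (1:ℝ≥0∞)) j) := by
    intro j
    rw [tsum_eq_sum (s := Finset.range j)]
    · rw [Finset.sum_congr rfl (g := fun _ => (1:ℝ≥0∞))]
      · simp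
      · intro m hm
        rw [Set.indicator_of_mem]
        exact Finset.mem_range.1 hm
    · intro m hm
      rw [Set.indicator_of_notMem]
      intro h
      exact hm (Finset.mem_range.2 h)
  simp_rw [h1]
  rw [lintegral_tsum (fun m => by measurability)]
  congr 1
  funext m
  rw [lintegral_indicator (by measurability), lintegral_one, Measure.restrict_restrict (by measurability)]
  simp

theorem pt_moment (hμ : IsDegreeLaw μ τ) (hτ : 2 < τ) :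
    ∃ δ : ℝ, 0 < δ ∧ ∃ C : ℝ, 0 ≤ C ∧ ∃ y0 : ℝ, 1 ≤ y0 ∧ ∀ y : ℝ, y0 ≤ y →
      ∫⁻ j in {j : ℕ | y ≤ (j:ℝ)}, (j : ℝ≥0∞) ∂μ ≤ ENNReal.ofReal (C * y ^ (-δ)) := by
  haveI := hμ.prob
  set γ := τ / 2 with hγ
  have hγ1 : 1 < γ := by linarith
  have hγ2 : γ < τ - 1 := by linarith
  obtain ⟨y0, hy0, H⟩ := potter_upper hμ hγ2
  set δ := (γ - 1) / 2 with hδ
  set β := γ - δ with hβ
  have hδ0 : 0 < δ := by linarith
  have hβ1 : 1 < β := by linarith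
  have hs : Summable fun m : ℕ => ((m:ℝ) + 1) ^ (-β) := by
    have := (Real.summable_nat_rpow (p := -β)).2 (by linarith)
    have h2 := (summable_nat_add_iff 1).2 this
    simpa using h2
  refine ⟨δ, hδ0, 2 ^ β * ∑' m : ℕ, ((m:ℝ) + 1) ^ (-β), ?_, y0, hy0, fun y hy => ?_⟩
  · have : 0 ≤ ∑' m : ℕ, ((m:ℝ) + 1) ^ (-β) := tsum_nonneg fun m => by positivity
    positivity
  have hyp : 1 ≤ y := hy0.trans hy
  have hy00 : 0 < y := by linarith
  rw [pt_layer]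
  have hterm : ∀ m : ℕ, μ ({j : ℕ | m < j} ∩ {j : ℕ | y ≤ (j:ℝ)}) ≤
      ENNReal.ofReal (2 ^ β * y ^ (-δ) * ((m:ℝ) + 1) ^ (-β)) := by
    intro m
    have key : ∀ z : ℝ, y ≤ z → (m:ℝ) + 1 ≤ 2 * z →
        μ ({j : ℕ | m < j} ∩ {j : ℕ | y ≤ (j:ℝ)}) ≤ μ {j : ℕ | z ≤ (j:ℝ)} →
        μ ({j : ℕ | m < j} ∩ {j : ℕ | y ≤ (j:ℝ)}) ≤
          ENNReal.ofReal (2 ^ β * y ^ (-δ) * ((m:ℝ) + 1) ^ (-β)) := by
      intro z hz hm hle
      have hz0 : 0 < z := by linarith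
      refine hle.trans ?_
      rw [← ENNReal.ofReal_toReal (measure_ne_top μ {j : ℕ | z ≤ (j:ℝ)})]
      apply ENNReal.ofReal_le_ofReal
      refine (H z (hy.trans hz)).trans ?_
      have e1 : z ^ (-γ) = z ^ (-β) * z ^ (-δ) := by
        rw [← Real.rpow_add hz0]; congr 1; rw [hβ]; ring
      have e2 : z ^ (-δ) ≤ y ^ (-δ) := Real.rpow_le_rpow_of_nonpos hy00 hz (by linarith)
      have e3 : z ^ (-β) ≤ 2 ^ β * ((m:ℝ) + 1) ^ (-β) := by
        have e4 : (2 * z) ^ (-β) ≤ ((m:ℝ) + 1) ^ (-β) :=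
          Real.rpow_le_rpow_of_nonpos (by positivity) hm (by linarith)
        rw [Real.mul_rpow (by norm_num) hz0.le] at e4
        have e5 : (2:ℝ) ^ β * 2 ^ (-β) = 1 := by
          rw [← Real.rpow_add (by norm_num)]; simp
        calc z ^ (-β) = 2 ^ β * (2 ^ (-β) * z ^ (-β)) := by rw [← mul_assoc, e5, one_mul]
          _ ≤ _ := by gcongr
      rw [e1]
      calc z ^ (-β) * z ^ (-δ) ≤ (2 ^ β * ((m:ℝ) + 1) ^ (-β)) * y ^ (-δ) := by gcongr
        _ = _ := by ring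
    rcases le_or_gt (m:ℝ) y with h | h
    · exact key y le_rfl (by linarith) (measure_mono inter_subset_right)
    · refine key m h.le (by linarith) (measure_mono ?_)
      rintro j ⟨hj, -⟩
      simp only [mem_setOf_eq] at hj ⊢
      exact_mod_cast hj.le
  calc ∑' m : ℕ, μ ({j : ℕ | m < j} ∩ {j : ℕ | y ≤ (j:ℝ)})
      ≤ ∑' m : ℕ, ENNReal.ofReal (2 ^ β * y ^ (-δ) * ((m:ℝ) + 1) ^ (-β)) :=
        ENNReal.tsum_le_tsum hterm
    _ = ENNReal.ofReal (∑' m : ℕ, 2 ^ β * y ^ (-δ) * ((m:ℝ) + 1) ^ (-β)) :=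
        (ENNReal.ofReal_tsum_of_nonneg (fun m => by positivity) (hs.mul_left _)).symm
    _ = _ := by
        congr 1
        rw [tsum_mul_left]
        ring

theorem mean_ne_top (hμ : IsDegreeLaw μ τ) (hτ : 2 < τ) : ∫⁻ j, (j : ℝ≥0∞) ∂μ ≠ ⊤ := by
  haveI := hμ.prob
  obtain ⟨δ, hδ, C, hC, y0, hy0, H⟩ := pt_moment hμ hτ
  have h1 : ∀ j : ℕ, (j : ℝ≥0∞) ≤ ENNReal.ofReal y0 +
      {j : ℕ | y0 ≤ (j:ℝ)}.indicator (fun j : ℕ => (j : ℝ≥0∞)) j := by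
    intro j
    by_cases h : y0 ≤ (j:ℝ)
    · rw [Set.indicator_of_mem (show j ∈ {j : ℕ | y0 ≤ (j:ℝ)} from h)]
      exact le_add_self
    · have h2 : (j : ℝ≥0∞) ≤ ENNReal.ofReal y0 := by
        rw [← ENNReal.ofReal_natCast]
        exact ENNReal.ofReal_le_ofReal (le_of_lt (not_le.1 h))
      exact h2.trans le_self_add
  have h2 : ∫⁻ j, (j : ℝ≥0∞) ∂μ ≤ ENNReal.ofReal y0 + ENNReal.ofReal (C * y0 ^ (-δ)) := by
    calc ∫⁻ j, (j : ℝ≥0∞) ∂μ ≤ ∫⁻ j, (ENNReal.ofReal y0 +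
        {j : ℕ | y0 ≤ (j:ℝ)}.indicator (fun j : ℕ => (j : ℝ≥0∞)) j) ∂μ := lintegral_mono h1
      _ = ENNReal.ofReal y0 + ∫⁻ j in {j : ℕ | y0 ≤ (j:ℝ)}, (j : ℝ≥0∞) ∂μ := by
        rw [lintegral_add_left (by measurability), lintegral_const, measure_univ, mul_one,
          lintegral_indicator (by measurability)]
      _ ≤ _ := by gcongr; exact H y0 le_rfl
  exact ne_top_of_le_ne_top (by simp) h2

theorem two_le_mean (hμ : IsDegreeLaw μ τ) : 2 ≤ ∫⁻ j, (j : ℝ≥0∞) ∂μ := by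
  haveI := hμ.prob
  have h1 : ∀ᵐ j : ℕ ∂μ, (2:ℝ≥0∞) ≤ (j : ℝ≥0∞) := by
    rw [ae_iff]
    refine measure_mono_null ?_ hμ.two_le
    intro j hj
    simp only [mem_setOf_eq] at hj ⊢
    by_contra hc
    push Not at hc
    exact hj (by exact_mod_cast hc)
  calc (2:ℝ≥0∞) = ∫⁻ _, 2 ∂μ := by rw [lintegral_const, measure_univ, mul_one]
    _ ≤ _ := lintegral_mono_ae h1

theorem sizeBiased_apply (μ : Measure ℕ) (k : ℕ) :
    sizeBiased μ {k} = ((k : ℝ≥0∞) + 1) * μ {k + 1} / ∫⁻ j, (j : ℝ≥0∞) ∂μ := by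
  unfold sizeBiased
  rw [Measure.sum_apply _ (measurableSet_singleton k), tsum_eq_single k]
  · simp
  · intro i hi
    simp [hi]

theorem pt_mean_ne_zero (hμ : IsDegreeLaw μ τ) : ∫⁻ j, (j : ℝ≥0∞) ∂μ ≠ 0 := by
  have := two_le_mean hμ
  intro h
  rw [h] at this
  simp at this

theorem pt_sizeBiased_set (μ : Measure ℕ) (A : Set ℕ) :
    sizeBiased μ A = (∫⁻ j in {j | ∃ k ∈ A, j = k + 1}, (j : ℝ≥0∞) ∂μ) / ∫⁻ j, (j : ℝ≥0∞) ∂μ := by
  classical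
  have h0 : (0 : ℕ) ∉ {j | ∃ k ∈ A, j = k + 1} := by
    rintro ⟨k, -, hk⟩
    omega
  have hR : (∫⁻ j in {j | ∃ k ∈ A, j = k + 1}, (j : ℝ≥0∞) ∂μ) =
      ∑' k : ℕ, {j | ∃ k ∈ A, j = k + 1}.indicator (fun j : ℕ => (j : ℝ≥0∞)) (k + 1) *
        μ {k + 1} := by
    rw [← lintegral_indicator (by measurability), lintegral_countable',
      tsum_eq_zero_add' ENNReal.summable, Set.indicator_of_notMem h0, zero_mul, zero_add]
  rw [hR]
  unfold sizeBiased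
  rw [Measure.sum_apply _ (by measurability), div_eq_mul_inv, ← ENNReal.tsum_mul_right]
  congr 1
  funext k
  by_cases hk : k ∈ A
  · have : k + 1 ∈ {j | ∃ k ∈ A, j = k + 1} := ⟨k, hk, rfl⟩
    rw [Set.indicator_of_mem this]
    simp [hk, div_eq_mul_inv]
  · have : k + 1 ∉ {j | ∃ k ∈ A, j = k + 1} := by
      rintro ⟨l, hl, h⟩
      have : k = l := by omega
      exact hk (this ▸ hl)
    rw [Set.indicator_of_notMem this]
    simp [hk]

theorem sizeBiased_prob (hμ : IsDegreeLaw μ τ) (hτ : 2 < τ) :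
    IsProbabilityMeasure (sizeBiased μ) := by
  constructor
  rw [pt_sizeBiased_set]
  have h1 : ∫⁻ j in {j | ∃ k ∈ (univ : Set ℕ), j = k + 1}, (j : ℝ≥0∞) ∂μ = ∫⁻ j, (j : ℝ≥0∞) ∂μ := by
    rw [← lintegral_indicator (by measurability)]
    congr 1
    funext j
    by_cases h : j ∈ {j | ∃ k ∈ (univ : Set ℕ), j = k + 1}
    · rw [Set.indicator_of_mem h]
    · rw [Set.indicator_of_notMem h]
      rcases j with _ | j
      · simp
      · exact absurd ⟨j, mem_univ _, rfl⟩ h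
  rw [h1]
  exact ENNReal.div_self (pt_mean_ne_zero hμ) (mean_ne_top hμ hτ)

theorem sizeBiased_zero (hμ : IsDegreeLaw μ τ) (hτ : 2 < τ) : sizeBiased μ {0} = 0 := by
  rw [sizeBiased_apply]
  have : μ {0 + 1} = 0 := measure_mono_null (fun j hj => by
    simp only [zero_add, mem_singleton_iff] at hj
    subst hj
    simp) hμ.two_le
  rw [this]
  simp

theorem sizeBiased_ge_pos (hμ : IsDegreeLaw μ τ) (hτ : 2 < τ) (M : ℕ) :
    0 < sizeBiased μ {k | M ≤ k} := by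
  haveI := hμ.prob
  have h1 := pt_pos hμ (M:ℝ)
  have h2 : 0 < μ {k : ℕ | (M:ℝ) < (k : ℝ)} := by
    unfold ptT at h1
    exact (ENNReal.toReal_pos_iff.1 h1).1
  rw [pt_sizeBiased_set]
  apply ENNReal.div_pos _ (mean_ne_top hμ hτ)
  have h3 : μ {k : ℕ | (M:ℝ) < (k : ℝ)} ≤ ∫⁻ j in {j | ∃ k ∈ {k | M ≤ k}, j = k + 1}, (j : ℝ≥0∞) ∂μ := by
    have hsub : {k : ℕ | (M:ℝ) < (k : ℝ)} ⊆ {j | ∃ k ∈ {k | M ≤ k}, j = k + 1} := by
      intro k hk
      simp only [mem_setOf_eq] at hk ⊢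
      have : M < k := by exact_mod_cast hk
      exact ⟨k - 1, by omega, by omega⟩
    calc μ {k : ℕ | (M:ℝ) < (k : ℝ)} ≤ μ {j | ∃ k ∈ {k | M ≤ k}, j = k + 1} := measure_mono hsub
      _ = ∫⁻ _ in {j | ∃ k ∈ {k | M ≤ k}, j = k + 1}, 1 ∂μ := by simp
      _ ≤ _ := by
        refine setLIntegral_mono' (by measurability) fun j hj => ?_
        obtain ⟨k, -, rfl⟩ := hj
        push_cast
        exact le_add_self
  exact (lt_of_lt_of_le h2 h3).ne'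

theorem sizeBiased_one_lt (hμ : IsDegreeLaw μ τ) (hτ : 2 < τ) : sizeBiased μ {1} < 1 := by
  haveI := sizeBiased_prob hμ hτ
  have h1 := sizeBiased_ge_pos hμ hτ 2
  have h2 : sizeBiased μ {1} + sizeBiased μ {k | 2 ≤ k} ≤ 1 := by
    rw [← measure_union _ (by measurability)]
    · exact prob_le_one
    · rw [Set.disjoint_left]
      intro k hk hk2
      simp only [mem_singleton_iff] at hk
      simp only [mem_setOf_eq] at hk2
      omega
  have h3 : sizeBiased μ {1} ≠ ⊤ := measure_ne_top _ _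
  calc sizeBiased μ {1} < sizeBiased μ {1} + sizeBiased μ {k | 2 ≤ k} :=
        ENNReal.lt_add_right h3 h1.ne'
    _ ≤ 1 := h2

/-- Polynomial upper tail of the size-biased law. -/
theorem sizeBiased_tail (hμ : IsDegreeLaw μ τ) (hτ : 2 < τ) :
    ∃ α : ℝ, 0 < α ∧ ∃ y0 : ℝ, 1 ≤ y0 ∧ ∀ y : ℝ, y0 ≤ y →
      (sizeBiased μ {k : ℕ | y ≤ (k : ℝ)}).toReal ≤ y ^ (-α) := by
  haveI := hμ.prob
  obtain ⟨δ, hδ, C, hC, y0, hy0, H⟩ := pt_moment hμ hτ
  obtain ⟨y1, hy1⟩ := eventually_atTop.1 (pt_const_le (c := C) (half_pos hδ))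
  refine ⟨δ / 2, half_pos hδ, max y0 y1, hy0.trans (le_max_left _ _), fun y hy => ?_⟩
  have h1 := H y ((le_max_left _ _).trans hy)
  have h2 := hy1 y ((le_max_right _ _).trans hy)
  have hyp : 0 < y := lt_of_lt_of_le one_pos ((hy0.trans (le_max_left _ _)).trans hy)
  have h3 : sizeBiased μ {k : ℕ | y ≤ (k : ℝ)} ≤ ENNReal.ofReal (C * y ^ (-δ)) := by
    rw [pt_sizeBiased_set]
    have h4 : ∫⁻ j in {j | ∃ k ∈ {k : ℕ | y ≤ (k : ℝ)}, j = k + 1}, (j : ℝ≥0∞) ∂μ ≤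
        ∫⁻ j in {j : ℕ | y ≤ (j:ℝ)}, (j : ℝ≥0∞) ∂μ := by
      apply lintegral_mono_set
      rintro j ⟨k, hk, rfl⟩
      simp only [mem_setOf_eq] at hk ⊢
      push_cast
      linarith
    have h5 : (1:ℝ≥0∞) ≤ ∫⁻ j, (j : ℝ≥0∞) ∂μ := le_trans (by norm_num) (two_le_mean hμ)
    calc _ ≤ (∫⁻ j in {j | ∃ k ∈ {k : ℕ | y ≤ (k : ℝ)}, j = k + 1}, (j : ℝ≥0∞) ∂μ) / 1 :=
          ENNReal.div_le_div_left h5 _
      _ ≤ _ := by rw [div_one]; exact h4.trans h1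
  have h6 : (sizeBiased μ {k : ℕ | y ≤ (k : ℝ)}).toReal ≤ C * y ^ (-δ) := by
    rw [← ENNReal.toReal_ofReal (show 0 ≤ C * y ^ (-δ) by positivity)]
    exact ENNReal.toReal_mono ENNReal.ofReal_ne_top h3
  refine h6.trans ?_
  have h7 : y ^ (-(δ / 2)) = y ^ (δ / 2) * y ^ (-δ) := by
    rw [← Real.rpow_add hyp]; congr 1; ring
  rw [h7]
  gcongr

end Pool.Agent.Helper98.Comp
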