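import Pool.Agent.Helper98.Comp.GWdec
import Pool.Agent.Helper98.Comp.Potter

/-!
# MODULE GWq: explosion implies summability of the quantiles (T5), and facts on the non-explosive
tree (T1), (T2)
-/

set_option autoImplicit false

namespace Pool.Agent.Helper98.Comp

open MeasureTheory Filter Set
open scoped ENNReal NNReal Topology

variable {μ : Measure ℕ} {τ : ℝ} {I : Measure ℝ≥0} [IsProbabilityMeasure I]

/-! ### marginals of the tree law -/

theorem gq_fst {W : Type*} [MeasurableSpace W] {α ν : Measure ℕ} {J : Measure W}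
    [IsProbabilityMeasure α] [IsProbabilityMeasure ν] [IsProbabilityMeasure J] (v : List ℕ)
    (A : Set ℕ) : treeLaw α ν J {ω | (ω v).1 ∈ A} = (if v = [] then α else ν) A := by
  have hA : MeasurableSet A := MeasurableSet.of_discrete
  have h1 : {ω : List ℕ → ℕ × W | (ω v).1 ∈ A} =
      (fun ω : List ℕ → ℕ × W => ω v) ⁻¹' (A ×ˢ (univ : Set W)) := by
    ext ω; simp
  have h2 : (treeLaw α ν J).map (fun ω : List ℕ → ℕ × W => ω v) =
      (if v = [] then α else ν).prod J :=
    Measure.infinitePi_map_eval (fun u : List ℕ => (if u = [] then α else ν).prod J) v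
  rw [h1, ← Measure.map_apply (measurable_pi_apply v) (hA.prod MeasurableSet.univ), h2]
  have : IsProbabilityMeasure (if v = [] then α else ν) := by split_ifs <;> infer_instance
  rw [Measure.prod_prod, measure_univ, mul_one]

theorem gq_snd {W : Type*} [MeasurableSpace W] {α ν : Measure ℕ} {J : Measure W}
    [IsProbabilityMeasure α] [IsProbabilityMeasure ν] [IsProbabilityMeasure J] (v : List ℕ)
    {B : Set W} (hB : MeasurableSet B) : treeLaw α ν J {ω | (ω v).2 ∈ B} = J B := by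
  have h1 : {ω : List ℕ → ℕ × W | (ω v).2 ∈ B} =
      (fun ω : List ℕ → ℕ × W => ω v) ⁻¹' ((univ : Set ℕ) ×ˢ B) := by
    ext ω; simp
  have h2 : (treeLaw α ν J).map (fun ω : List ℕ → ℕ × W => ω v) =
      (if v = [] then α else ν).prod J :=
    Measure.infinitePi_map_eval (fun u : List ℕ => (if u = [] then α else ν).prod J) v
  rw [h1, ← Measure.map_apply (measurable_pi_apply v) (MeasurableSet.univ.prod hB), h2]
  have : IsProbabilityMeasure (if v = [] then α else ν) := by split_ifs <;> infer_instance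
  rw [Measure.prod_prod, measure_univ, one_mul]

/-! ### words -/

theorem gq_alive_snoc {K : List ℕ → ℕ} {u : List ℕ} {i : ℕ} :
    alive K (u ++ [i]) ↔ alive K u ∧ i < K u := by
  rw [alive_append]
  simp [alive, subAt]

theorem gq_dist_snoc {X : List ℕ → ℝ≥0} {u : List ℕ} {i : ℕ} :
    dist X (u ++ [i]) = dist X u + X (u ++ [i]) := by
  rw [dist_append]
  simp [dist, subAt]

theorem gq_finite (r : ℕ) (K : List ℕ → ℕ) : {u | alive K u ∧ u.length ≤ r}.Finite := by
  induction r with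
  | zero =>
    refine (Set.finite_singleton ([] : List ℕ)).subset ?_
    rintro u ⟨-, h⟩
    exact List.length_eq_zero_iff.1 (Nat.le_zero.1 h)
  | succ r ih =>
    have hsub : {u | alive K u ∧ u.length ≤ r + 1} ⊆ {[]} ∪
        ⋃ w ∈ {u | alive K u ∧ u.length ≤ r}, (fun i => w ++ [i]) '' Set.Iio (K w) := by
      rintro u ⟨h1, h2⟩
      induction u using List.reverseRecOn with
      | nil => left; rfl
      | append_singleton w i _ =>
        right
        rw [gq_alive_snoc] at h1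
        rw [List.length_append, List.length_singleton] at h2
        refine Set.mem_biUnion (x := w) ⟨h1.1, by omega⟩ ⟨i, h1.2, rfl⟩
    refine Set.Finite.subset ((Set.finite_singleton _).union (ih.biUnion fun w _ => ?_)) hsub
    exact (Set.finite_Iio _).image _

/-! ### quantiles -/

/-- the quantile function -/
noncomputable def gqG (I : Measure ℝ≥0) (x : ℝ) : ℝ≥0 :=
  sInf {t : ℝ≥0 | ENNReal.ofReal x ≤ I (Set.Iic t)}

theorem gq_nonempty {x : ℝ} (hx : x < 1) :
    {t : ℝ≥0 | ENNReal.ofReal x ≤ I (Set.Iic t)}.Nonempty := by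
  have h1 : Tendsto (fun n : ℕ => I (Set.Iic (n : ℝ≥0))) atTop
      (𝓝 (I (⋃ n : ℕ, Set.Iic (n : ℝ≥0)))) :=
    tendsto_measure_iUnion_atTop fun a b hab => Set.Iic_subset_Iic.2 (by exact_mod_cast hab)
  have h2 : (⋃ n : ℕ, Set.Iic (n : ℝ≥0)) = univ := by
    rw [Set.eq_univ_iff_forall]
    intro y
    obtain ⟨n, hn⟩ := exists_nat_ge y
    exact Set.mem_iUnion.2 ⟨n, hn⟩
  rw [h2, measure_univ] at h1
  have h3 : ENNReal.ofReal x < 1 := by
    rw [ENNReal.ofReal_lt_one]
    exact hx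
  obtain ⟨n, hn⟩ := ((tendsto_order.1 h1).1 _ h3).exists
  exact ⟨n, hn.le⟩

theorem gq_mem {x : ℝ} (hx : x < 1) : ENNReal.ofReal x ≤ I (Set.Iic (gqG I x)) := by
  obtain ⟨u, hu1, hu2, hu3⟩ := exists_seq_strictAnti_tendsto (gqG I x)
  have h1 : Tendsto (fun n : ℕ => I (Set.Iic (u n))) atTop (𝓝 (I (⋂ n : ℕ, Set.Iic (u n)))) :=
    tendsto_measure_iInter_atTop (fun n => measurableSet_Iic.nullMeasurableSet)
      (fun a b hab => Set.Iic_subset_Iic.2 (hu1.antitone hab)) ⟨0, measure_ne_top _ _⟩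
  have h2 : (⋂ n : ℕ, Set.Iic (u n)) = Set.Iic (gqG I x) := by
    ext y
    rw [Set.mem_iInter]
    constructor
    · intro h
      exact ge_of_tendsto' hu3 h
    · intro h n
      exact le_trans h (hu2 n).le
  rw [h2] at h1
  refine ge_of_tendsto' h1 fun n => ?_
  obtain ⟨t, ht1, ht2⟩ := exists_lt_of_csInf_lt (gq_nonempty (I := I) hx) (hu2 n)
  exact le_trans ht1 (measure_mono (Set.Iic_subset_Iic.2 ht2.le))

theorem gq_Iio (I : Measure ℝ≥0) (x : ℝ) : I (Set.Iio (gqG I x)) ≤ ENNReal.ofReal x := by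
  rcases eq_or_ne (gqG I x) 0 with h0 | h0
  · rw [h0]
    have : Set.Iio (0 : ℝ≥0) = ∅ := by
      ext y; simp
    rw [this, measure_empty]
    exact zero_le
  · obtain ⟨u, hu1, hu2, hu3⟩ := exists_seq_strictMono_tendsto' (pos_iff_ne_zero.2 h0)
    have h2 : Set.Iio (gqG I x) = ⋃ n : ℕ, Set.Iic (u n) := by
      ext y
      rw [Set.mem_iUnion]
      constructor
      · intro h
        obtain ⟨n, hn⟩ := ((tendsto_order.1 hu3).1 y h).exists
        exact ⟨n, hn.le⟩
      · rintro ⟨n, hn⟩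
        exact lt_of_le_of_lt hn (hu2 n).2
    have hm : Monotone fun n : ℕ => Set.Iic (u n) := fun a b hab =>
      Set.Iic_subset_Iic.2 (hu1.monotone hab)
    rw [h2, hm.measure_iUnion]
    refine iSup_le fun n => ?_
    have h3 : u n ∉ {t : ℝ≥0 | ENNReal.ofReal x ≤ I (Set.Iic t)} :=
      notMem_of_lt_csInf (hu2 n).2 (OrderBot.bddBelow _)
    exact (not_le.1 h3).le

theorem gq_mono {x y : ℝ} (hxy : x ≤ y) (hy : y < 1) : gqG I x ≤ gqG I y :=
  csInf_le_csInf (OrderBot.bddBelow _) (gq_nonempty hy)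
    fun _ ht => le_trans (ENNReal.ofReal_le_ofReal hxy) ht

/-! ### the words with small labels -/

/-- the words `v` of length `j` with `v_i < B i` -/
def gqW (B : ℕ → ℕ) : ℕ → Finset (List ℕ)
  | 0 => {[]}
  | j + 1 => (gqW B j ×ˢ Finset.range (B j)).image fun p => p.1 ++ [p.2]

theorem gq_card (B : ℕ → ℕ) (j : ℕ) : (gqW B j).card ≤ ∏ i ∈ Finset.range j, B i := by
  induction j with
  | zero => simp [gqW]
  | succ j ih =>
    rw [gqW, Finset.prod_range_succ]
    refine Finset.card_image_le.trans ?_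
    rw [Finset.card_product, Finset.card_range]
    exact Nat.mul_le_mul_right _ ih

theorem gq_det {B : ℕ → ℕ} {K : List ℕ → ℕ} {X : List ℕ → ℝ≥0} {g : ℕ → ℝ≥0}
    (h1 : ∀ j, ∀ v ∈ gqW B j, K v ≤ B j) (h2 : ∀ j, ∀ v ∈ gqW B j, g j ≤ X v) {v : List ℕ}
    (hv : alive K v) : v ∈ gqW B v.length ∧ ∑ i ∈ Finset.range v.length, g (i + 1) ≤ dist X v := by
  induction v using List.reverseRecOn with
  | nil => exact ⟨by simp [gqW], by simp⟩
  | append_singleton w i ih =>
    rw [gq_alive_snoc] at hv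
    obtain ⟨h3, h4⟩ := ih hv.1
    have h5 : w ++ [i] ∈ gqW B (w.length + 1) := by
      rw [gqW, Finset.mem_image]
      refine ⟨(w, i), ?_, rfl⟩
      rw [Finset.mem_product, Finset.mem_range]
      exact ⟨h3, lt_of_lt_of_le hv.2 (h1 _ w h3)⟩
    rw [List.length_append, List.length_singleton, Finset.sum_range_succ, gq_dist_snoc]
    exact ⟨h5, add_le_add h4 (h2 _ _ h5)⟩

theorem gq_geom {c : ℝ} (hc : 2 ≤ c) (j : ℕ) :
    ∑ i ∈ Finset.range j, c ^ i ≤ c ^ j * (1 / (c - 1)) := by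
  have hc1 : 0 < c - 1 := by linarith
  induction j with
  | zero => simp; linarith
  | succ j ih =>
    rw [Finset.sum_range_succ]
    have : c ^ (j + 1) * (1 / (c - 1)) = c ^ j * (1 / (c - 1)) + c ^ j := by
      field_simp
      ring
    linarith

theorem gq_pow {c : ℝ} (hc : 2 ≤ c) (j : ℕ) : (j : ℝ) + 1 ≤ c ^ j := by
  have h1 : (1 : ℝ) + (j : ℝ) * 1 ≤ (1 + 1) ^ j := one_add_mul_le_pow (by norm_num) j
  have h2 : (1 + 1 : ℝ) ^ j ≤ c ^ j := by
    apply pow_le_pow_left₀ (by norm_num)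
    linarith
  linarith

theorem gq_summable_div {g : ℕ → ℝ≥0} (hg : Summable g) {r : ℕ} (hr : r ≠ 0) :
    Summable fun m : ℕ => g (m / r) := by
  have : NeZero r := ⟨hr⟩
  have h1 : Summable fun p : ℕ × Fin r => g p.1 := by
    rw [← ENNReal.tsum_coe_ne_top_iff_summable]
    have h2 := ENNReal.tsum_prod (f := fun (n : ℕ) (_ : Fin r) => (g n : ℝ≥0∞))
    rw [h2]
    simp only [tsum_fintype, Finset.sum_const, Finset.card_univ, Fintype.card_fin, nsmul_eq_mul]
    rw [ENNReal.tsum_mul_left]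
    exact ENNReal.mul_ne_top (ENNReal.natCast_ne_top r)
      (ENNReal.tsum_coe_ne_top_iff_summable.2 hg)
  exact (Nat.divModEquiv r).summable_iff.2 h1

/-- (T5) -/
theorem explosive_quantiles (hμ : IsDegreeLaw μ τ) (hτ : 2 < τ) (hI : Explosive μ I) {κ : ℝ}
    (hκ : 1 < κ) :
    ∃ w : ℕ → ℝ≥0, Summable w ∧
      ∀ i : ℕ, ENNReal.ofReal (Real.exp (-κ ^ i)) ≤ I (Set.Iic (w i)) := by
  have := hμ.prob
  have := sizeBiased_prob hμ hτ
  have hκ0 : 0 < κ := by linarith
  have hexp : ∀ i : ℕ, Real.exp (-κ ^ i) < 1 := fun i => by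
    rw [Real.exp_lt_one_iff]
    have : 0 < κ ^ i := by positivity
    linarith
  refine ⟨fun i => gqG I (Real.exp (-κ ^ i)), ?_, fun i => gq_mem (hexp i)⟩
  -- an integer time of explosion
  obtain ⟨t, ht⟩ : ∃ t : ℕ, 0 < treeLaw μ (sizeBiased μ) I
      {ω | {u : List ℕ | alive (Kf ω) u ∧ dist (Xf ω) u ≤ (t : ℝ≥0)}.Infinite} := by
    by_contra hcon
    push Not at hcon
    have h0 : treeLaw μ (sizeBiased μ) I (⋃ t : ℕ,
        {ω | {u : List ℕ | alive (Kf ω) u ∧ dist (Xf ω) u ≤ (t : ℝ≥0)}.Infinite}) = 0 :=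
      measure_iUnion_null fun t => le_antisymm (hcon t) zero_le
    refine absurd (measure_mono_null ?_ h0) hI.ne'
    rintro ω ⟨s, hs⟩
    obtain ⟨t, ht⟩ := exists_nat_ge s
    refine Set.mem_iUnion.2 ⟨t, hs.mono ?_⟩
    rintro u ⟨h1, h2⟩
    exact ⟨h1, h2.trans ht⟩
  -- the tails
  obtain ⟨α1, hα1, y1, hy1, H1⟩ := sizeBiased_tail hμ hτ
  obtain ⟨y2, hy2, H2⟩ := potter_upper hμ (show (τ - 1) / 2 < τ - 1 by linarith)
  obtain ⟨α, hα⟩ : ∃ α, α = min α1 ((τ - 1) / 2) := ⟨_, rfl⟩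
  have hα0 : 0 < α := by
    rw [hα]
    exact lt_min hα1 (by linarith)
  have htail : ∀ (v : List ℕ) (y : ℝ), max y1 y2 ≤ y →
      (if v = [] then μ else sizeBiased μ) {k : ℕ | y ≤ (k : ℝ)} ≤ ENNReal.ofReal (y ^ (-α)) := by
    intro v y hy
    have hy1' : y1 ≤ y := (le_max_left _ _).trans hy
    have hy2' : y2 ≤ y := (le_max_right _ _).trans hy
    have hone : 1 ≤ y := hy1.trans hy1'
    split_ifs with hv
    · rw [← ENNReal.ofReal_toReal (measure_ne_top μ {k : ℕ | y ≤ (k : ℝ)})]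
      apply ENNReal.ofReal_le_ofReal
      refine (H2 y hy2').trans (Real.rpow_le_rpow_of_exponent_le hone ?_)
      rw [hα]
      exact neg_le_neg (min_le_right _ _)
    · rw [← ENNReal.ofReal_toReal (measure_ne_top (sizeBiased μ) {k : ℕ | y ≤ (k : ℝ)})]
      apply ENNReal.ofReal_le_ofReal
      refine (H1 y hy1').trans (Real.rpow_le_rpow_of_exponent_le hone ?_)
      rw [hα]
      exact neg_le_neg (min_le_left _ _)
  -- the base `c = κ ^ r`
  obtain ⟨r, hr1, hr2⟩ : ∃ r : ℕ, r ≠ 0 ∧ max 2 (1 + 2 / α) ≤ κ ^ r := by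
    have h1 := (tendsto_pow_atTop_atTop_of_one_lt hκ).eventually
      (eventually_ge_atTop (max 2 (1 + 2 / α)))
    obtain ⟨r, h2, h3⟩ := (h1.and (eventually_ge_atTop 1)).exists
    exact ⟨r, by omega, h2⟩
  obtain ⟨c, hc⟩ : ∃ c : ℝ, c = κ ^ r := ⟨_, rfl⟩
  have hc2 : 2 ≤ c := by rw [hc]; exact (le_max_left _ _).trans hr2
  have hcα : 2 / α ≤ c - 1 := by
    have := (le_max_right _ _).trans hr2
    rw [hc]; linarith
  have hc1 : 0 < c - 1 := by linarith
  obtain ⟨E, hE⟩ : ∃ E : ℝ, E = 1 / (c - 1) := ⟨_, rfl⟩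
  have hE1 : E ≤ 1 := by
    rw [hE, div_le_one hc1]; linarith
  have hEα : E ≤ α / 2 := by
    rw [hE, div_le_iff₀ hc1]
    rw [div_le_iff₀ hα0] at hcα
    linarith
  obtain ⟨β, hβ⟩ : ∃ β : ℝ, β = min (α / 2) 1 := ⟨_, rfl⟩
  have hβ0 : 0 < β := by rw [hβ]; exact lt_min (by linarith) one_pos
  have hβα : β ≤ α / 2 := by rw [hβ]; exact min_le_left _ _
  have hβ1 : β ≤ 1 := by rw [hβ]; exact min_le_right _ _
  -- the constant `C = κ ^ i0 / 2`
  have hCt : Tendsto (fun i : ℕ => κ ^ i / 2) atTop atTop :=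
    (tendsto_pow_atTop_atTop_of_one_lt hκ).atTop_div_const (by norm_num)
  have hxt : Tendsto (fun i : ℕ => Real.exp (-(β * (κ ^ i / 2)))) atTop (𝓝 0) :=
    Real.tendsto_exp_neg_atTop_nhds_zero.comp (hCt.const_mul_atTop hβ0)
  have hst : Tendsto (fun i : ℕ => ENNReal.ofReal (2 * (Real.exp (-(β * (κ ^ i / 2))) /
      (1 - Real.exp (-(β * (κ ^ i / 2))))))) atTop (𝓝 0) := by
    have h1 : Tendsto (fun i : ℕ => 2 * (Real.exp (-(β * (κ ^ i / 2))) /
      (1 - Real.exp (-(β * (κ ^ i / 2)))))) atTop (𝓝 (2 * (0 / (1 - 0)))) :=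
      (hxt.div (tendsto_const_nhds.sub hxt) (by norm_num)).const_mul 2
    have h2 := ENNReal.tendsto_ofReal h1
    simpa using h2
  obtain ⟨i0, h1, h2⟩ := ((hCt.eventually (eventually_ge_atTop (Real.log (max y1 y2)))).and
    ((tendsto_order.1 hst).2 _ ht)).exists
  obtain ⟨C, hC⟩ : ∃ C : ℝ, C = κ ^ i0 / 2 := ⟨_, rfl⟩
  rw [← hC] at h1 h2
  have hC0 : 0 < C := by rw [hC]; positivity
  obtain ⟨x, hx⟩ : ∃ x : ℝ, x = Real.exp (-(β * C)) := ⟨_, rfl⟩
  rw [← hx] at h2
  have hx0 : 0 < x := by rw [hx]; exact Real.exp_pos _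
  have hx1 : x < 1 := by
    rw [hx, Real.exp_lt_one_iff]
    have : 0 < β * C := mul_pos hβ0 hC0
    linarith
  -- the bounds on the labels
  obtain ⟨B, hB⟩ : ∃ B : ℕ → ℕ, ∀ j, B j = ⌊Real.exp (C * c ^ j)⌋₊ := ⟨_, fun _ => rfl⟩
  obtain ⟨g, hg⟩ : ∃ g : ℕ → ℝ≥0, ∀ j, g j = gqG I (Real.exp (-(2 * C * c ^ j))) :=
    ⟨_, fun _ => rfl⟩
  have hcard : ∀ j, ((gqW B j).card : ℝ) ≤ Real.exp (C * c ^ j * E) := by
    intro j
    calc ((gqW B j).card : ℝ) ≤ ((∏ i ∈ Finset.range j, B i : ℕ) : ℝ) := by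
          exact_mod_cast gq_card B j
      _ = ∏ i ∈ Finset.range j, (B i : ℝ) := by push_cast; rfl
      _ ≤ ∏ i ∈ Finset.range j, Real.exp (C * c ^ i) := by
          refine Finset.prod_le_prod (fun i _ => by positivity) fun i _ => ?_
          rw [hB]
          exact Nat.floor_le (Real.exp_pos _).le
      _ = Real.exp (C * ∑ i ∈ Finset.range j, c ^ i) := by
          rw [← Real.exp_sum, Finset.mul_sum]
      _ ≤ _ := by
          rw [Real.exp_le_exp, mul_assoc]
          refine mul_le_mul_of_nonneg_left ?_ hC0.le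
          rw [hE]
          exact gq_geom hc2 j
  have hcj : ∀ j : ℕ, (j : ℝ) + 1 ≤ c ^ j := gq_pow hc2
  have hterm : ∀ j : ℕ, Real.exp (-(β * (C * c ^ j))) ≤ x ^ (j + 1) := by
    intro j
    rw [hx, ← Real.exp_nat_mul, Real.exp_le_exp]
    push_cast
    have h3 : 0 < β * C := mul_pos hβ0 hC0
    nlinarith [mul_le_mul_of_nonneg_left (hcj j) h3.le]
  have hm1 : ∀ j, ∀ v : List ℕ, treeLaw μ (sizeBiased μ) I {ω | B j < Kf ω v} ≤
      ENNReal.ofReal (Real.exp (-(α * (C * c ^ j)))) := by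
    intro j v
    have h3 : {ω : List ℕ → ℕ × ℝ≥0 | B j < Kf ω v} = {ω | (ω v).1 ∈ {k : ℕ | B j < k}} := rfl
    rw [h3, gq_fst]
    have h4 : max y1 y2 ≤ Real.exp (C * c ^ j) := by
      have h5 : 0 < max y1 y2 := lt_of_lt_of_le one_pos (hy1.trans (le_max_left _ _))
      rw [← Real.log_le_iff_le_exp h5]
      refine h1.trans ?_
      have h6 : 1 ≤ c ^ j := one_le_pow₀ (by linarith)
      nlinarith
    have h7 := htail v _ h4
    rw [← Real.exp_mul] at h7
    have h8 : C * c ^ j * -α = -(α * (C * c ^ j)) := by ring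
    rw [h8] at h7
    refine le_trans (measure_mono ?_) h7
    intro k hk
    have h9 : B j + 1 ≤ k := hk
    have h10 := Nat.lt_floor_add_one (Real.exp (C * c ^ j))
    rw [← hB] at h10
    show Real.exp (C * c ^ j) ≤ (k : ℝ)
    have h11 : ((B j : ℝ) + 1) ≤ k := by exact_mod_cast h9
    linarith
  have hm2 : ∀ j, ∀ v : List ℕ, treeLaw μ (sizeBiased μ) I {ω | Xf ω v < g j} ≤
      ENNReal.ofReal (Real.exp (-(2 * C * c ^ j))) := by
    intro j v
    have h3 : {ω : List ℕ → ℕ × ℝ≥0 | Xf ω v < g j} = {ω | (ω v).2 ∈ Set.Iio (g j)} := rfl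
    rw [h3, gq_snd v measurableSet_Iio, hg]
    exact gq_Iio I _
  have hbad : treeLaw μ (sizeBiased μ) I (⋃ j : ℕ, ⋃ v ∈ gqW B j,
      ({ω | B j < Kf ω v} ∪ {ω | Xf ω v < g j})) < treeLaw μ (sizeBiased μ) I
      {ω | {u : List ℕ | alive (Kf ω) u ∧ dist (Xf ω) u ≤ (t : ℝ≥0)}.Infinite} := by
    refine lt_of_le_of_lt ?_ h2
    calc _ ≤ ∑' j : ℕ, ENNReal.ofReal (2 * x ^ (j + 1)) := by
          refine (measure_iUnion_le _).trans (ENNReal.tsum_le_tsum fun j => ?_)
          calc _ ≤ ∑ v ∈ gqW B j, treeLaw μ (sizeBiased μ) I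
                ({ω | B j < Kf ω v} ∪ {ω | Xf ω v < g j}) := measure_biUnion_finset_le _ _
            _ ≤ ∑ v ∈ gqW B j, (ENNReal.ofReal (Real.exp (-(α * (C * c ^ j)))) +
                ENNReal.ofReal (Real.exp (-(2 * C * c ^ j)))) :=
                Finset.sum_le_sum fun v _ => (measure_union_le _ _).trans
                  (add_le_add (hm1 j v) (hm2 j v))
            _ = ENNReal.ofReal (((gqW B j).card : ℝ) * (Real.exp (-(α * (C * c ^ j))) +
                Real.exp (-(2 * C * c ^ j)))) := by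
                rw [Finset.sum_const, nsmul_eq_mul, ← ENNReal.ofReal_add (Real.exp_pos _).le
                  (Real.exp_pos _).le, ENNReal.ofReal_mul (by positivity), ENNReal.ofReal_natCast]
            _ ≤ _ := by
                apply ENNReal.ofReal_le_ofReal
                have h3 := hcard j
                have h4 : 0 < C * c ^ j := by positivity
                have h5 : Real.exp (C * c ^ j * E) * Real.exp (-(α * (C * c ^ j))) ≤
                    x ^ (j + 1) := by
                  refine le_trans ?_ (hterm j)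
                  rw [← Real.exp_add, Real.exp_le_exp]
                  nlinarith
                have h6 : Real.exp (C * c ^ j * E) * Real.exp (-(2 * C * c ^ j)) ≤
                    x ^ (j + 1) := by
                  refine le_trans ?_ (hterm j)
                  rw [← Real.exp_add, Real.exp_le_exp]
                  nlinarith
                calc _ ≤ Real.exp (C * c ^ j * E) * (Real.exp (-(α * (C * c ^ j))) +
                      Real.exp (-(2 * C * c ^ j))) :=
                      mul_le_mul_of_nonneg_right h3 (by positivity)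
                  _ ≤ _ := by rw [mul_add]; linarith
      _ = _ := by
          rw [← ENNReal.ofReal_tsum_of_nonneg (fun j => by positivity)]
          · congr 1
            rw [tsum_mul_left]
            congr 1
            have h3 : ∀ j : ℕ, x ^ (j + 1) = x * x ^ j := fun j => by ring
            simp_rw [h3]
            rw [tsum_mul_left, tsum_geometric_of_lt_one hx0.le hx1]
            rfl
          · have h3 : ∀ j : ℕ, 2 * x ^ (j + 1) = (2 * x) * x ^ j := fun j => by ring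
            simp_rw [h3]
            exact (summable_geometric_of_lt_one hx0.le hx1).mul_left _
  obtain ⟨ω, hω1, hω2⟩ : ∃ ω, ω ∈ {ω : List ℕ → ℕ × ℝ≥0 |
      {u : List ℕ | alive (Kf ω) u ∧ dist (Xf ω) u ≤ (t : ℝ≥0)}.Infinite} ∧
      ω ∉ (⋃ j : ℕ, ⋃ v ∈ gqW B j, ({ω | B j < Kf ω v} ∪ {ω | Xf ω v < g j})) := by
    by_contra hcon
    push Not at hcon
    exact absurd (measure_mono (μ := treeLaw μ (sizeBiased μ) I) hcon) (not_le.2 hbad)
  have hK : ∀ j, ∀ v ∈ gqW B j, Kf ω v ≤ B j := by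
    intro j v hv
    by_contra hcon
    exact hω2 (Set.mem_iUnion.2 ⟨j, Set.mem_iUnion₂.2 ⟨v, hv, Or.inl (not_le.1 hcon)⟩⟩)
  have hX : ∀ j, ∀ v ∈ gqW B j, g j ≤ Xf ω v := by
    intro j v hv
    by_contra hcon
    exact hω2 (Set.mem_iUnion.2 ⟨j, Set.mem_iUnion₂.2 ⟨v, hv, Or.inr (not_le.1 hcon)⟩⟩)
  have hpart : ∀ n, ∑ i ∈ Finset.range n, g (i + 1) ≤ (t : ℝ≥0) := by
    intro n
    obtain ⟨v, hv1, hv2⟩ := hω1.exists_notMem_finite (gq_finite n (Kf ω))
    obtain ⟨hv3, hv4⟩ := hv1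
    have hn : n ≤ v.length := by
      by_contra hcon
      exact hv2 ⟨hv3, by omega⟩
    calc _ ≤ ∑ i ∈ Finset.range v.length, g (i + 1) :=
          Finset.sum_le_sum_of_subset (Finset.range_mono hn)
      _ ≤ dist (Xf ω) v := (gq_det hK hX hv3).2
      _ ≤ _ := hv4
  have hsum : Summable g := by
    rw [← NNReal.summable_nat_add_iff 1]
    exact NNReal.summable_of_sum_range_le hpart
  rw [← NNReal.summable_nat_add_iff i0]
  refine NNReal.summable_of_le (fun m => ?_) (gq_summable_div hsum hr1)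
  rw [hg]
  apply gq_mono
  · rw [Real.exp_le_exp, neg_le_neg_iff, hC, hc, ← pow_mul]
    have h3 : 2 * (κ ^ i0 / 2) * κ ^ (r * (m / r)) = κ ^ (i0 + r * (m / r)) := by
      rw [pow_add]; ring
    rw [h3]
    apply pow_le_pow_right₀ hκ.le
    have := Nat.mul_div_le m r
    omega
  · rw [Real.exp_lt_one_iff]
    have : 0 < 2 * C * c ^ (m / r) := by positivity
    linarith

/-- (T1) In a non-explosive tree, generation `R0` is empty until time `s`, for large `R0`. -/
theorem nonexplosive_late (hμ : IsDegreeLaw μ τ) (hτ : 2 < τ) (hI : ¬ Explosive μ I) (s : ℝ≥0)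
    {ε : ℝ≥0∞} (hε : 0 < ε) :
    ∃ R0 : ℕ, treeLaw μ (sizeBiased μ) I
      {ω | ∃ u, alive (Kf ω) u ∧ u.length = R0 ∧ dist (Xf ω) u < s} < ε := by
  have := hμ.prob
  have := sizeBiased_prob hμ hτ
  set A : ℕ → Set (List ℕ → ℕ × ℝ≥0) := fun R =>
    {ω | ∃ u, alive (Kf ω) u ∧ u.length = R ∧ dist (Xf ω) u < s} with hA
  have hmeas : ∀ R, MeasurableSet (A R) := by
    intro R
    have h1 : A R = ⋃ u : List ℕ, {ω | alive (Kf ω) u ∧ u.length = R ∧ dist (Xf ω) u < s} := by
      ext ω; simp [hA]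
    rw [h1]
    refine MeasurableSet.iUnion fun u => ?_
    have hd : Measurable fun ω : List ℕ → ℕ × ℝ≥0 => dist (Xf ω) u :=
      (measurable_dist u).comp (measurable_pi_iff.2 fun v =>
        measurable_snd.comp (measurable_pi_apply v))
    by_cases hu : u.length = R
    · have h2 : {ω : List ℕ → ℕ × ℝ≥0 | alive (Kf ω) u ∧ u.length = R ∧ dist (Xf ω) u < s} =
          {ω | alive (Kf ω) u} ∩ {ω | dist (Xf ω) u < s} := by
        ext ω; simp [hu]
      rw [h2]
      exact (measurableSet_alive u).inter (measurableSet_lt hd measurable_const)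
    · have h2 : {ω : List ℕ → ℕ × ℝ≥0 | alive (Kf ω) u ∧ u.length = R ∧ dist (Xf ω) u < s} = ∅ := by
        ext ω; simp [hu]
      rw [h2]
      exact MeasurableSet.empty
  have hanti : Antitone A := by
    refine antitone_nat_of_succ_le fun R => ?_
    rintro ω ⟨u, h1, h2, h3⟩
    induction u using List.reverseRecOn with
    | nil => simp at h2
    | append_singleton w i _ =>
      rw [gq_alive_snoc] at h1
      rw [List.length_append, List.length_singleton] at h2
      rw [gq_dist_snoc] at h3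
      exact ⟨w, h1.1, by omega, lt_of_le_of_lt le_self_add h3⟩
  have hinter : treeLaw μ (sizeBiased μ) I (⋂ R, A R) = 0 := by
    have h0 : treeLaw μ (sizeBiased μ) I {ω | ∃ t : ℝ≥0, {u : List ℕ | alive (fun v => (ω v).1) u ∧
        dist (fun v => (ω v).2) u ≤ t}.Infinite} = 0 := by
      by_contra hne
      exact hI (pos_iff_ne_zero.2 hne)
    refine measure_mono_null ?_ h0
    intro ω hω
    rw [Set.mem_iInter] at hω
    refine ⟨s, ?_⟩
    intro hfin
    obtain ⟨B, hB⟩ : ∃ B : ℕ, ∀ u ∈ {u : List ℕ | alive (fun v => (ω v).1) u ∧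
        dist (fun v => (ω v).2) u ≤ s}, u.length ≤ B := by
      obtain ⟨B, hB⟩ := (hfin.image List.length).bddAbove
      exact ⟨B, fun u hu => hB ⟨u, hu, rfl⟩⟩
    obtain ⟨u, h1, h2, h3⟩ := hω (B + 1)
    have := hB u ⟨h1, h3.le⟩
    omega
  have htend := tendsto_measure_iInter_atTop (μ := treeLaw μ (sizeBiased μ) I)
    (fun R => (hmeas R).nullMeasurableSet) hanti ⟨0, measure_ne_top _ _⟩
  rw [hinter] at htend
  exact ((tendsto_order.1 htend).2 ε hε).exists

/-- (T2) Bounded numbers of children in the first `r` generations, with high probability. -/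
theorem bounded_children {W : Type*} [MeasurableSpace W] {α ν : Measure ℕ} {J : Measure W}
    [IsProbabilityMeasure α] [IsProbabilityMeasure ν] [IsProbabilityMeasure J] (r : ℕ)
    {ε : ℝ≥0∞} (hε : 0 < ε) :
    ∃ M0 : ℕ, treeLaw α ν J
      {ω | ∃ u, alive (Kf ω) u ∧ u.length ≤ r ∧ M0 ≤ Kf ω u} < ε := by
  set A : ℕ → Set (List ℕ → ℕ × W) := fun M0 =>
    {ω | ∃ u, alive (Kf ω) u ∧ u.length ≤ r ∧ M0 ≤ Kf ω u} with hA
  have hmeas : ∀ R, MeasurableSet (A R) := by
    intro R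
    have h1 : A R = ⋃ u : List ℕ, {ω | alive (Kf ω) u ∧ u.length ≤ r ∧ R ≤ Kf ω u} := by
      ext ω; simp [hA]
    rw [h1]
    refine MeasurableSet.iUnion fun u => ?_
    by_cases hu : u.length ≤ r
    · have h2 : {ω : List ℕ → ℕ × W | alive (Kf ω) u ∧ u.length ≤ r ∧ R ≤ Kf ω u} =
          {ω | alive (Kf ω) u} ∩ {ω | R ≤ (ω u).1} := by
        ext ω; simp [hu, Kf]
      rw [h2]
      exact (measurableSet_alive u).inter (measurableSet_le measurable_const
        (measurable_fst.comp (measurable_pi_apply u)))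
    · have h2 : {ω : List ℕ → ℕ × W | alive (Kf ω) u ∧ u.length ≤ r ∧ R ≤ Kf ω u} = ∅ := by
        ext ω; simp [hu]
      rw [h2]
      exact MeasurableSet.empty
  have hanti : Antitone A := by
    intro a b hab ω hω
    obtain ⟨u, h1, h2, h3⟩ := hω
    exact ⟨u, h1, h2, hab.trans h3⟩
  have hinter : (⋂ R, A R) = ∅ := by
    rw [Set.eq_empty_iff_forall_notMem]
    intro ω hω
    rw [Set.mem_iInter] at hω
    obtain ⟨B, hB⟩ := ((gq_finite r (Kf ω)).image (Kf ω)).bddAbove
    obtain ⟨u, h1, h2, h3⟩ := hω (B + 1)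
    have := hB ⟨u, ⟨h1, h2⟩, rfl⟩
    omega
  have htend := tendsto_measure_iInter_atTop (μ := treeLaw α ν J)
    (fun R => (hmeas R).nullMeasurableSet) hanti ⟨0, measure_ne_top _ _⟩
  rw [hinter, measure_empty] at htend
  exact ((tendsto_order.1 htend).2 ε hε).exists

end Pool.Agent.Helper98.Comp
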