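import Pool.Agent.Helper98.Comp.Potter

/-!
# MODULE RegF: regular degree sequences
-/

set_option autoImplicit false

namespace Pool.Agent.Helper98.Comp

open MeasureTheory Filter Set
open scoped ENNReal NNReal Topology

/-- Degree sequences of all lengths at least `2`. -/
abbrev DegSeq : Type := Σ n : ℕ, (Fin (n + 2) → ℕ)

/-- Number of vertices of degree `k`. -/
noncomputable def cntDeg (k : ℕ) (d : DegSeq) : ℕ :=
  (Finset.univ.filter fun v => d.2 v = k).card

/-- Number of vertices of degree at least `y`. -/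
noncomputable def cntGe (y : ℝ) (d : DegSeq) : ℕ :=
  (Finset.univ.filter fun v => y ≤ (d.2 v : ℝ)).card

/-- Mean degree. -/
noncomputable def meanDeg (μ : Measure ℕ) : ℝ := (∫⁻ j, (j : ℝ≥0∞) ∂μ).toReal

/-- The filter of regular degree sequences. -/
noncomputable def regF (μ : Measure ℕ) (β γ y0 : ℝ) : Filter DegSeq :=
  comap (fun d : DegSeq => d.1) atTop ⊓
  (⨅ k : ℕ, comap (fun d : DegSeq => (cntDeg k d : ℝ) / (d.1 + 2)) (𝓝 (μ {k}).toReal)) ⊓
  comap (fun d : DegSeq => ((∑ v, d.2 v : ℕ) : ℝ) / (d.1 + 2)) (𝓝 (meanDeg μ)) ⊓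
  𝓟 {d : DegSeq | Even (∑ v, d.2 v)} ⊓
  𝓟 {d : DegSeq | ∀ y : ℝ, y0 ≤ y → y ≤ ((d.1 : ℝ) + 2) ^ β →
    ((d.1 : ℝ) + 2) * y ^ (-γ) ≤ (cntGe y d : ℝ)}

section
variable {μ : Measure ℕ} {β γ y0 : ℝ}

theorem regF_size : Tendsto (fun d : DegSeq => d.1) (regF μ β γ y0) atTop := by
  rw [tendsto_iff_comap, regF]
  exact inf_le_left.trans (inf_le_left.trans (inf_le_left.trans inf_le_left))

theorem regF_cntDeg (k : ℕ) : Tendsto (fun d : DegSeq => (cntDeg k d : ℝ) / (d.1 + 2))
    (regF μ β γ y0) (𝓝 (μ {k}).toReal) := by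
  rw [tendsto_iff_comap, regF]
  exact inf_le_left.trans (inf_le_left.trans (inf_le_left.trans
    (inf_le_right.trans (iInf_le _ k))))

theorem regF_mean : Tendsto (fun d : DegSeq => ((∑ v, d.2 v : ℕ) : ℝ) / (d.1 + 2))
    (regF μ β γ y0) (𝓝 (meanDeg μ)) := by
  rw [tendsto_iff_comap, regF]
  exact inf_le_left.trans (inf_le_left.trans inf_le_right)

theorem regF_even : ∀ᶠ d in regF μ β γ y0, Even (∑ v, d.2 v) := by
  have : regF μ β γ y0 ≤ 𝓟 {d : DegSeq | Even (∑ v, d.2 v)} := by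
    rw [regF]; exact inf_le_left.trans inf_le_right
  exact this (mem_principal_self _)

theorem regF_tail : ∀ᶠ d in regF μ β γ y0, ∀ y : ℝ, y0 ≤ y → y ≤ ((d.1 : ℝ) + 2) ^ β →
    ((d.1 : ℝ) + 2) * y ^ (-γ) ≤ (cntGe y d : ℝ) := by
  have : regF μ β γ y0 ≤ 𝓟 {d : DegSeq | ∀ y : ℝ, y0 ≤ y → y ≤ ((d.1 : ℝ) + 2) ^ β →
    ((d.1 : ℝ) + 2) * y ^ (-γ) ≤ (cntGe y d : ℝ)} := by
    rw [regF]; exact inf_le_right
  exact this (mem_principal_self _)

end

/-! ### Auxiliary results for `regF_whp` -/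

theorem reg_map (μ : Measure ℕ) [IsProbabilityMeasure μ] (n : ℕ) :
    (Measure.infinitePi fun _ : ℕ => μ).map (fun ω (v : Fin n) => ω v) =
      Measure.pi fun _ : Fin n => μ := by
  rw [Measure.map_infinitePi_infinitePi_of_inj (P := fun _ : ℕ => μ)
    (f := fun v : Fin n => (v : ℕ)) Fin.val_injective, Measure.infinitePi_eq_pi]

theorem reg_measurableSet {n : ℕ} (s : Set (Fin n → ℕ)) : MeasurableSet s :=
  (Set.to_countable s).measurableSet

/-- Weak law of large numbers on finite products. -/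
theorem reg_lln (μ : Measure ℕ) [IsProbabilityMeasure μ] {f : ℕ → ℝ} (hf : Integrable f μ)
    {ε : ℝ} (hε : 0 < ε) :
    Tendsto (fun n : ℕ => (Measure.pi fun _ : Fin (n + 2) => μ)
      {D | ε ≤ |(∑ v, f (D v)) / ((n : ℝ) + 2) - ∫ k, f k ∂μ|}) atTop (𝓝 0) := by
  let Q : Measure (ℕ → ℕ) := Measure.infinitePi fun _ : ℕ => μ
  let X : ℕ → (ℕ → ℕ) → ℝ := fun i ω => f (ω i)
  have hfm : Measurable f := measurable_from_nat
  have hXm : ∀ i, Measurable (X i) := fun i => hfm.comp (measurable_pi_apply i)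
  have hmp : ∀ i : ℕ, MeasurePreserving (fun ω : ℕ → ℕ => ω i) Q μ := fun i =>
    measurePreserving_eval_infinitePi (fun _ : ℕ => μ) i
  have hint : Integrable (X 0) Q := (hmp 0).integrable_comp_of_integrable hf
  have hind : ProbabilityTheory.iIndepFun X Q :=
    ProbabilityTheory.iIndepFun_infinitePi (P := fun _ : ℕ => μ) (X := fun _ => f)
      (fun _ => hfm)
  have hident : ∀ i, ProbabilityTheory.IdentDistrib (X i) (X 0) Q Q := by
    intro i
    have h1 : ProbabilityTheory.IdentDistrib (fun ω : ℕ → ℕ => ω i) (fun ω : ℕ → ℕ => ω 0) Q Q :=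
      ⟨(measurable_pi_apply i).aemeasurable, (measurable_pi_apply 0).aemeasurable, by
        rw [(hmp i).map_eq, (hmp 0).map_eq]⟩
    exact h1.comp hfm
  have hae := ProbabilityTheory.strong_law_ae_real X hint
    (fun i j hij => hind.indepFun hij) hident
  have hE : ∫ ω, X 0 ω ∂Q = ∫ k, f k ∂μ := by
    rw [← (hmp 0).map_eq, integral_map (measurable_pi_apply 0).aemeasurable
      hfm.aestronglyMeasurable]
  rw [hE] at hae
  have hmeas := tendstoInMeasure_of_tendsto_ae (μ := Q)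
    (f := fun (n : ℕ) ω => (∑ i ∈ Finset.range n, X i ω) / (n : ℝ))
    (g := fun _ => ∫ k, f k ∂μ)
    (fun n => ((Finset.measurable_sum (f := X) (Finset.range n) fun i _ => hXm i).div_const
      (n : ℝ)).aestronglyMeasurable) hae
  rw [tendstoInMeasure_iff_norm] at hmeas
  have h2 := (hmeas ε hε).comp (tendsto_add_atTop_nat 2)
  refine h2.congr fun n => ?_
  rw [← reg_map μ (n + 2), Measure.map_apply (measurable_pi_iff.2 fun v =>
    measurable_pi_apply _) (reg_measurableSet _)]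
  simp only [Function.comp_apply]
  congr 1
  ext ω
  simp only [Set.mem_ofPred_eq, Set.preimage_ofPred_eq, Real.norm_eq_abs, X]
  rw [Finset.sum_range (fun i => f (ω i))]
  push_cast
  rfl

/-- Chebyshev's inequality for a count. -/
theorem reg_cheb (μ : Measure ℕ) [IsProbabilityMeasure μ] (N : ℕ) (hN : 0 < N) (A : Set ℕ)
    (hA : 0 < (μ A).toReal) :
    (Measure.pi fun _ : Fin N => μ)
      {D | ∑ v, A.indicator (fun _ => (1 : ℝ)) (D v) ≤ N * (μ A).toReal / 2} ≤
      ENNReal.ofReal (4 / (N * (μ A).toReal)) := by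
  let f : ℕ → ℝ := A.indicator (fun _ => (1 : ℝ))
  have hfm : Measurable f := measurable_from_nat
  have hAm : MeasurableSet A := (Set.to_countable A).measurableSet
  have hf01 : ∀ k, f k = 0 ∨ f k = 1 := by
    intro k
    by_cases hk : k ∈ A
    · right; exact Set.indicator_of_mem hk _
    · left; exact Set.indicator_of_notMem hk _
  have hmem : MemLp f 2 μ := by
    refine MemLp.of_bound hfm.aestronglyMeasurable 1 (ae_of_all _ fun k => ?_)
    rcases hf01 k with h | h <;> rw [h] <;> simp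
  have hEf : ∫ k, f k ∂μ = (μ A).toReal := by
    have := integral_indicator_one (μ := μ) hAm
    simpa [f, Measure.real] using this
  let S : (Fin N → ℕ) → ℝ := ∑ v : Fin N, fun D => f (D v)
  have hS : ∀ D, S D = ∑ v, f (D v) := fun D => by simp [S]
  have hmp : ∀ v : Fin N, MeasurePreserving (fun D : Fin N → ℕ => D v)
      (Measure.pi fun _ : Fin N => μ) μ := fun v => measurePreserving_eval _ v
  have hSmem : MemLp S 2 (Measure.pi fun _ : Fin N => μ) :=
    memLp_finsetSum' _ fun v _ => hmem.comp_measurePreserving (hmp v)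
  have hES : ∫ D, S D ∂(Measure.pi fun _ : Fin N => μ) = N * (μ A).toReal := by
    simp_rw [hS]
    rw [integral_finsetSum]
    · have h1 : ∀ v : Fin N, ∫ D : Fin N → ℕ, f (D v) ∂(Measure.pi fun _ : Fin N => μ) =
          (μ A).toReal := by
        intro v
        rw [← hEf, ← (hmp v).map_eq, integral_map (measurable_pi_apply v).aemeasurable
          hfm.aestronglyMeasurable]
        rw [(hmp v).map_eq]
      simp_rw [h1]
      simp
    · intro v _
      exact (hmp v).integrable_comp_of_integrable (hmem.integrable (by norm_num))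
  have hVar : ProbabilityTheory.variance S (Measure.pi fun _ : Fin N => μ) ≤
      N * (μ A).toReal := by
    have h1 := ProbabilityTheory.variance_sum_pi (μ := fun _ : Fin N => μ)
      (X := fun _ : Fin N => f) (fun _ => hmem)
    have h2 : ProbabilityTheory.variance f μ ≤ (μ A).toReal := by
      refine (ProbabilityTheory.variance_le_expectation_sq hfm.aestronglyMeasurable).trans ?_
      rw [← hEf]
      refine le_of_eq (integral_congr_ae (ae_of_all _ fun k => ?_))
      simp only [Pi.pow_apply]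
      rcases hf01 k with h | h <;> rw [h] <;> norm_num
    calc _ = ∑ _v : Fin N, ProbabilityTheory.variance f μ := h1
      _ ≤ ∑ _v : Fin N, (μ A).toReal := Finset.sum_le_sum fun _ _ => h2
      _ = _ := by simp
  have hc : 0 < N * (μ A).toReal / 2 := by positivity
  have hcheb := ProbabilityTheory.meas_ge_le_variance_div_sq hSmem hc
  rw [hES] at hcheb
  refine le_trans (measure_mono ?_) (hcheb.trans (ENNReal.ofReal_le_ofReal ?_))
  · intro D hD
    simp only [Set.mem_ofPred_eq] at hD ⊢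
    have hD' : S D ≤ N * (μ A).toReal / 2 := by rw [hS]; exact hD
    rw [abs_sub_comm]
    refine le_trans ?_ (le_abs_self _)
    linarith
  · rw [div_le_div_iff₀ (by positivity) (by positivity)]
    nlinarith [mul_le_mul_of_nonneg_right hVar
      (show (0 : ℝ) ≤ N * (μ A).toReal by positivity)]

/-- The filter of events of high probability. -/
noncomputable def regG (μ : Measure ℕ) : Filter DegSeq where
  sets := {E | Tendsto (fun n : ℕ => (Measure.pi fun _ : Fin (n + 2) => μ)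
    {D : Fin (n + 2) → ℕ | ¬ (⟨n, fixParity D⟩ : DegSeq) ∈ E}) atTop (𝓝 0)}
  univ_sets := by simp
  sets_of_superset := by
    intro E E' hE hEE
    refine tendsto_of_tendsto_of_tendsto_of_le_of_le tendsto_const_nhds hE
      (fun _ => zero_le) fun n => ?_
    exact measure_mono fun D hD h => hD (hEE h)
  inter_sets := by
    intro E E' hE hE'
    have h := Tendsto.add hE hE'
    rw [add_zero] at h
    refine tendsto_of_tendsto_of_tendsto_of_le_of_le tendsto_const_nhds h
      (fun _ => zero_le) fun n => ?_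
    refine (measure_mono ?_).trans (measure_union_le _ _)
    intro D hD
    by_cases h1 : (⟨n, fixParity D⟩ : DegSeq) ∈ E
    · exact Or.inr fun h2 => hD ⟨h1, h2⟩
    · exact Or.inl h1

theorem reg_mem {μ : Measure ℕ} {E : Set DegSeq} :
    E ∈ regG μ ↔ Tendsto (fun n : ℕ => (Measure.pi fun _ : Fin (n + 2) => μ)
      {D : Fin (n + 2) → ℕ | ¬ (⟨n, fixParity D⟩ : DegSeq) ∈ E}) atTop (𝓝 0) := Iff.rfl

theorem reg_fix_le {n : ℕ} (D : Fin (n + 2) → ℕ) (v : Fin (n + 2)) : D v ≤ fixParity D v := by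
  unfold fixParity
  split_ifs
  · exact le_rfl
  · by_cases hv : v = Fin.last (n + 1)
    · subst hv; simp
    · rw [Function.update_of_ne hv]

theorem reg_fix_eq {n : ℕ} (D : Fin (n + 2) → ℕ) (v : Fin (n + 2)) (hv : v ≠ Fin.last (n + 1)) :
    fixParity D v = D v := by
  unfold fixParity
  split_ifs
  · rfl
  · rw [Function.update_of_ne hv]

theorem reg_sum_fix {n : ℕ} (D : Fin (n + 2) → ℕ) :
    ∑ v, fixParity D v = if Even (∑ v, D v) then ∑ v, D v else ∑ v, D v + 1 := by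
  unfold fixParity
  split_ifs with h
  · rfl
  · rw [Finset.sum_update_of_mem (Finset.mem_univ _)]
    have := Finset.sum_erase_add Finset.univ D (Finset.mem_univ (Fin.last (n + 1)))
    rw [Finset.sdiff_singleton_eq_erase, ← this]
    ring

theorem reg_sum_fix_even {n : ℕ} (D : Fin (n + 2) → ℕ) : Even (∑ v, fixParity D v) := by
  rw [reg_sum_fix]
  split_ifs with h
  · exact h
  · exact (Nat.not_even_iff_odd.1 h).add_one

theorem reg_cntDeg_fix {n : ℕ} (D : Fin (n + 2) → ℕ) (k : ℕ) :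
    |(cntDeg k ⟨n, fixParity D⟩ : ℝ) - ∑ v, ({k} : Set ℕ).indicator (fun _ => (1 : ℝ)) (D v)| ≤
      1 := by
  classical
  have h1 : ∑ v, ({k} : Set ℕ).indicator (fun _ => (1 : ℝ)) (D v) =
      ((Finset.univ.filter fun v => D v = k).card : ℝ) := by
    rw [Finset.card_filter]
    push_cast
    refine Finset.sum_congr rfl fun v _ => ?_
    by_cases h : D v = k <;> simp [h]
  have h2 : (Finset.univ.filter fun v => fixParity D v = k).card ≤
      (Finset.univ.filter fun v => D v = k).card + 1 := by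
    refine (Finset.card_le_card (t := insert (Fin.last (n + 1))
      (Finset.univ.filter fun v => D v = k)) ?_).trans (Finset.card_insert_le _ _)
    intro v hv
    rw [Finset.mem_filter] at hv
    rw [Finset.mem_insert, Finset.mem_filter]
    by_cases h : v = Fin.last (n + 1)
    · exact Or.inl h
    · rw [reg_fix_eq D v h] at hv
      exact Or.inr hv
  have h3 : (Finset.univ.filter fun v => D v = k).card ≤
      (Finset.univ.filter fun v => fixParity D v = k).card + 1 := by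
    refine (Finset.card_le_card (t := insert (Fin.last (n + 1))
      (Finset.univ.filter fun v => fixParity D v = k)) ?_).trans (Finset.card_insert_le _ _)
    intro v hv
    rw [Finset.mem_filter] at hv
    rw [Finset.mem_insert, Finset.mem_filter]
    by_cases h : v = Fin.last (n + 1)
    · exact Or.inl h
    · rw [reg_fix_eq D v h]
      exact Or.inr hv
  rw [h1]
  have h4 : cntDeg k ⟨n, fixParity D⟩ = (Finset.univ.filter fun v => fixParity D v = k).card :=
    rfl
  rw [h4, abs_le]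
  have h2' : ((Finset.univ.filter fun v => fixParity D v = k).card : ℝ) ≤
      (Finset.univ.filter fun v => D v = k).card + 1 := by exact_mod_cast h2
  have h3' : ((Finset.univ.filter fun v => D v = k).card : ℝ) ≤
      (Finset.univ.filter fun v => fixParity D v = k).card + 1 := by exact_mod_cast h3
  constructor <;> linarith

theorem reg_sum_fix_abs {n : ℕ} (D : Fin (n + 2) → ℕ) :
    |((∑ v, fixParity D v : ℕ) : ℝ) - ∑ v, (D v : ℝ)| ≤ 1 := by
  rw [reg_sum_fix]
  split_ifs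
  · push_cast; simp
  · push_cast; simp

/-- Transfer of a law of large numbers to the modified degrees. -/
theorem reg_transfer {μ : Measure ℕ} [IsProbabilityMeasure μ] {f : ℕ → ℝ} (hf : Integrable f μ)
    {g : DegSeq → ℝ} {c : ℝ} (hc : ∫ k, f k ∂μ = c)
    (hg : ∀ (n : ℕ) (D : Fin (n + 2) → ℕ), |g ⟨n, fixParity D⟩ - ∑ v, f (D v)| ≤ 1) :
    Tendsto (fun d : DegSeq => g d / ((d.1 : ℝ) + 2)) (regG μ) (𝓝 c) := by
  rw [Metric.tendsto_nhds]
  intro ε hε
  change {d : DegSeq | Dist.dist (g d / ((d.1 : ℝ) + 2)) c < ε} ∈ regG μ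
  rw [reg_mem]
  have h := reg_lln μ hf (half_pos hε)
  refine tendsto_of_tendsto_of_tendsto_of_le_of_le' tendsto_const_nhds h
    (Eventually.of_forall fun _ => zero_le) ?_
  have h1 : ∀ᶠ n : ℕ in atTop, 1 / ((n : ℝ) + 2) < ε / 2 := by
    have h2 : Tendsto (fun n : ℕ => 1 / ((n : ℝ) + 2)) atTop (𝓝 0) := by
      have h3 := tendsto_one_div_add_atTop_nhds_zero_nat (𝕜 := ℝ)
      have h4 := h3.comp (tendsto_add_atTop_nat 1)
      refine h4.congr fun n => ?_
      simp only [Function.comp_apply]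
      push_cast
      congr 1
      ring
    exact h2.eventually_lt_const (half_pos hε)
  filter_upwards [h1] with n hn
  refine measure_mono fun D hD => ?_
  simp only [Set.mem_ofPred_eq, not_lt, Real.dist_eq] at hD ⊢
  have hpos : (0 : ℝ) < (n : ℝ) + 2 := by positivity
  have h5 : |g ⟨n, fixParity D⟩ / ((n : ℝ) + 2) - (∑ v, f (D v)) / ((n : ℝ) + 2)| ≤
      1 / ((n : ℝ) + 2) := by
    rw [← sub_div, abs_div, abs_of_pos hpos]
    gcongr
    exact hg n D
  have h6 := abs_sub_abs_le_abs_sub (g ⟨n, fixParity D⟩ / ((n : ℝ) + 2) - c)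
    ((∑ v, f (D v)) / ((n : ℝ) + 2) - c)
  rw [sub_sub_sub_cancel_right] at h6
  rw [hc]
  linarith

theorem reg_geom {x : ℝ} (hx : 2 ≤ x) (m : ℕ) :
    ∑ j ∈ Finset.range m, x ^ (j + 1) ≤ x ^ (m + 1) := by
  induction m with
  | zero => simp; linarith
  | succ m ih =>
    rw [Finset.sum_range_succ]
    have h1 : (0 : ℝ) ≤ x ^ (m + 1) := by positivity
    calc _ ≤ x ^ (m + 1) + x ^ (m + 1) := by linarith
      _ = 2 * x ^ (m + 1) := by ring
      _ ≤ x * x ^ (m + 1) := by gcongr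
      _ = _ := by ring

/-- The lower bound for the tail of the degree sequence. -/
theorem reg_tail {μ : Measure ℕ} {τ : ℝ} (hμ : IsDegreeLaw μ τ) (hτ : 2 < τ) {β γ : ℝ}
    (hβ : 0 < β) (hγ : τ - 1 < γ) (hβγ : β * γ < 1) :
    ∃ y0 : ℝ, 1 ≤ y0 ∧ {d : DegSeq | ∀ y : ℝ, y0 ≤ y → y ≤ ((d.1 : ℝ) + 2) ^ β →
      ((d.1 : ℝ) + 2) * y ^ (-γ) ≤ (cntGe y d : ℝ)} ∈ regG μ := by
  classical
  have := hμ.prob
  obtain ⟨γ', hγ1, hγ2⟩ := exists_between hγ
  obtain ⟨y1, hy1, hpot⟩ := potter_lower hμ hγ1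
  have hγ'0 : 1 < γ' := by linarith
  -- choice of the first scale
  obtain ⟨j0, hj0⟩ : ∃ j0 : ℕ, ∀ j : ℕ, j0 ≤ j → y1 ≤ (2 : ℝ) ^ (j + 1) ∧
      (2 : ℝ) * ((2 : ℝ) ^ j) ^ (-γ) ≤ ((2 : ℝ) ^ (j + 1)) ^ (-γ') := by
    have h1 : Tendsto (fun j : ℕ => (2 : ℝ) ^ j) atTop atTop :=
      tendsto_pow_atTop_atTop_of_one_lt one_lt_two
    have h2 : Tendsto (fun j : ℕ => ((2 : ℝ) ^ j) ^ (γ - γ')) atTop atTop :=
      (tendsto_rpow_atTop (by linarith)).comp h1
    obtain ⟨j1, hj1⟩ := eventually_atTop.1 ((h1.eventually_ge_atTop y1).and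
      (h2.eventually_ge_atTop ((2 : ℝ) ^ (1 + γ'))))
    refine ⟨j1, fun j hj => ⟨?_, ?_⟩⟩
    · refine (hj1 j hj).1.trans ?_
      rw [pow_succ]
      have : (0 : ℝ) < 2 ^ j := by positivity
      linarith
    · have h3 := (hj1 j hj).2
      have h4 : (0 : ℝ) < (2 : ℝ) ^ j := by positivity
      have h5 : ((2 : ℝ) ^ (j + 1)) ^ (-γ') = (2 : ℝ) ^ (-γ') * ((2 : ℝ) ^ j) ^ (-γ') := by
        rw [pow_succ, mul_comm, Real.mul_rpow (by norm_num) h4.le]
      have h6 : ((2 : ℝ) ^ j) ^ (-γ') = ((2 : ℝ) ^ j) ^ (γ - γ') * ((2 : ℝ) ^ j) ^ (-γ) := by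
        rw [← Real.rpow_add h4]
        congr 1
        ring
      have h7 : (2 : ℝ) = (2 : ℝ) ^ (-γ') * (2 : ℝ) ^ (1 + γ') := by
        rw [← Real.rpow_add (by norm_num)]
        have : -γ' + (1 + γ') = 1 := by ring
        rw [this, Real.rpow_one]
      rw [h5, h6]
      have h8 : (0 : ℝ) < ((2 : ℝ) ^ j) ^ (-γ) := by positivity
      have h9 : (0 : ℝ) < (2 : ℝ) ^ (-γ') := by positivity
      calc (2 : ℝ) * ((2 : ℝ) ^ j) ^ (-γ) =
          ((2 : ℝ) ^ (-γ') * (2 : ℝ) ^ (1 + γ')) * ((2 : ℝ) ^ j) ^ (-γ) := by rw [← h7]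
        _ ≤ ((2 : ℝ) ^ (-γ') * ((2 : ℝ) ^ j) ^ (γ - γ')) * ((2 : ℝ) ^ j) ^ (-γ) := by
            gcongr
        _ = _ := by ring
  refine ⟨(2 : ℝ) ^ j0, one_le_pow₀ (by norm_num), ?_⟩
  rw [reg_mem]
  -- the bound
  let C : ℝ := 4 * ((2 : ℝ) ^ γ') ^ 2
  have hlim : Tendsto (fun n : ℕ => ENNReal.ofReal (C * ((n : ℝ) + 2) ^ (β * γ' - 1))) atTop
      (𝓝 0) := by
    have h1 : Tendsto (fun n : ℕ => (n : ℝ) + 2) atTop atTop :=
      tendsto_atTop_add_const_right _ _ tendsto_natCast_atTop_atTop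
    have h2 : Tendsto (fun n : ℕ => ((n : ℝ) + 2) ^ (-(1 - β * γ'))) atTop (𝓝 0) :=
      (tendsto_rpow_neg_atTop (by nlinarith)).comp h1
    have h3 := (h2.const_mul C)
    rw [mul_zero] at h3
    have h4 := ENNReal.tendsto_ofReal h3
    rw [ENNReal.ofReal_zero] at h4
    refine h4.congr fun n => ?_
    congr 3
    ring
  refine tendsto_of_tendsto_of_tendsto_of_le_of_le tendsto_const_nhds hlim
    (fun _ => zero_le) fun n => ?_
  set N : ℕ := n + 2 with hNdef
  have hNr : ((n : ℝ) + 2) = (N : ℝ) := by rw [hNdef]; push_cast; ring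
  have hN0 : 0 < N := by omega
  have hN1 : (1 : ℝ) ≤ N := by exact_mod_cast hN0
  let p : ℕ → ℝ := fun j => (μ {k : ℕ | (2 : ℝ) ^ (j + 1) ≤ (k : ℝ)}).toReal
  have hp : ∀ j, j0 ≤ j → ((2 : ℝ) ^ (j + 1)) ^ (-γ') ≤ p j := fun j hj =>
    hpot _ (hj0 j hj).1
  have hp0 : ∀ j, j0 ≤ j → 0 < p j := fun j hj =>
    lt_of_lt_of_le (by positivity) (hp j hj)
  let J : ℕ := Nat.log 2 ⌊(N : ℝ) ^ β⌋₊
  let Bad : ℕ → Set (Fin N → ℕ) := fun j =>
    {D | ∑ v, ({k : ℕ | (2 : ℝ) ^ (j + 1) ≤ (k : ℝ)} : Set ℕ).indicator (fun _ => (1 : ℝ)) (D v) ≤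
      N * p j / 2}
  have hNβ : (1 : ℝ) ≤ (N : ℝ) ^ β := Real.one_le_rpow hN1 hβ.le
  have hfloor : ⌊(N : ℝ) ^ β⌋₊ ≠ 0 := by
    have := Nat.le_floor (n := 1) (a := (N : ℝ) ^ β) (by simpa using hNβ)
    omega
  have hJ : (2 : ℝ) ^ J ≤ (N : ℝ) ^ β := by
    have h1 := Nat.pow_log_le_self 2 hfloor
    have h2 : ((2 ^ J : ℕ) : ℝ) ≤ (⌊(N : ℝ) ^ β⌋₊ : ℝ) := by exact_mod_cast h1
    push_cast at h2
    exact h2.trans (Nat.floor_le (by positivity))
  -- inclusion
  have hincl : {D : Fin (n + 2) → ℕ | ¬ (⟨n, fixParity D⟩ : DegSeq) ∈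
      {d : DegSeq | ∀ y : ℝ, (2 : ℝ) ^ j0 ≤ y → y ≤ ((d.1 : ℝ) + 2) ^ β →
      ((d.1 : ℝ) + 2) * y ^ (-γ) ≤ (cntGe y d : ℝ)}} ⊆
      ⋃ j ∈ (Finset.range (J + 1)).filter (fun j => j0 ≤ j), Bad j := by
    intro D hD
    by_contra hcon
    apply hD
    intro y hy1 hy2
    simp only [Set.mem_iUnion, not_exists] at hcon
    change y ≤ ((n : ℝ) + 2) ^ β at hy2
    change ((n : ℝ) + 2) * y ^ (-γ) ≤ (cntGe y ⟨n, fixParity D⟩ : ℝ)
    rw [hNr] at hy2 ⊢
    have hy0 : (1 : ℝ) ≤ y := le_trans (one_le_pow₀ (by norm_num)) hy1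
    let j := Nat.log 2 ⌊y⌋₊
    have hfy : ⌊y⌋₊ ≠ 0 := by
      have := Nat.le_floor (n := 1) (a := y) (by simpa using hy0)
      omega
    have hj1 : (2 : ℝ) ^ j ≤ y := by
      have h1 := Nat.pow_log_le_self 2 hfy
      have h2 : ((2 ^ j : ℕ) : ℝ) ≤ (⌊y⌋₊ : ℝ) := by exact_mod_cast h1
      push_cast at h2
      exact h2.trans (Nat.floor_le (by positivity))
    have hj2 : y ≤ (2 : ℝ) ^ (j + 1) := by
      have h1 := Nat.lt_pow_succ_log_self (b := 2) (by norm_num) ⌊y⌋₊
      have h2 : ((⌊y⌋₊ + 1 : ℕ) : ℝ) ≤ ((2 ^ (j + 1) : ℕ) : ℝ) := by exact_mod_cast h1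
      push_cast at h2
      exact (Nat.lt_floor_add_one y).le.trans h2
    have hjJ : j ≤ J := Nat.log_mono_right (Nat.floor_mono hy2)
    have hj0j : j0 ≤ j := by
      apply Nat.le_log_of_pow_le (by norm_num)
      apply Nat.le_floor
      push_cast
      exact hy1
    have hnb : D ∉ Bad j := by
      intro hb
      refine hcon j ?_ hb
      rw [Finset.mem_filter, Finset.mem_range]
      exact ⟨by omega, hj0j⟩
    have hnb' : N * p j / 2 < ∑ v, ({k : ℕ | (2 : ℝ) ^ (j + 1) ≤ (k : ℝ)} : Set ℕ).indicator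
        (fun _ => (1 : ℝ)) (D v) := by
      by_contra h
      exact hnb (not_lt.1 h)
    have hcnt : ∑ v, ({k : ℕ | (2 : ℝ) ^ (j + 1) ≤ (k : ℝ)} : Set ℕ).indicator
        (fun _ => (1 : ℝ)) (D v) ≤ (cntGe y ⟨n, fixParity D⟩ : ℝ) := by
      unfold cntGe
      rw [Finset.card_filter]
      push_cast
      refine Finset.sum_le_sum fun v _ => ?_
      by_cases hv : (2 : ℝ) ^ (j + 1) ≤ (D v : ℝ)
      · rw [Set.indicator_of_mem (show D v ∈ {k : ℕ | (2 : ℝ) ^ (j + 1) ≤ (k : ℝ)} from hv),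
          if_pos]
        refine hj2.trans (hv.trans ?_)
        exact_mod_cast reg_fix_le D v
      · rw [Set.indicator_of_notMem (show D v ∉ {k : ℕ | (2 : ℝ) ^ (j + 1) ≤ (k : ℝ)} from hv)]
        split_ifs <;> norm_num
    have h1 := (hj0 j hj0j).2
    have h2 := hp j hj0j
    have h3 : y ^ (-γ) ≤ ((2 : ℝ) ^ j) ^ (-γ) :=
      Real.rpow_le_rpow_of_nonpos (by positivity) hj1 (by linarith)
    have h4 : (N : ℝ) * y ^ (-γ) ≤ N * p j / 2 := by
      have h5 : y ^ (-γ) ≤ p j / 2 := by linarith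
      calc _ ≤ (N : ℝ) * (p j / 2) := by gcongr
        _ = _ := by ring
    linarith
  refine (measure_mono hincl).trans ((measure_biUnion_finset_le _ _).trans ?_)
  have hterm : ∀ j ∈ (Finset.range (J + 1)).filter (fun j => j0 ≤ j),
      (Measure.pi fun _ : Fin (n + 2) => μ) (Bad j) ≤
        ENNReal.ofReal (4 / N * ((2 : ℝ) ^ γ') ^ (j + 1)) := by
    intro j hj
    rw [Finset.mem_filter] at hj
    refine (reg_cheb μ N hN0 {k : ℕ | (2 : ℝ) ^ (j + 1) ≤ (k : ℝ)} (hp0 j hj.2)).trans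
      (ENNReal.ofReal_le_ofReal ?_)
    have h1 := hp j hj.2
    have h2 : ((2 : ℝ) ^ (j + 1)) ^ (-γ') = (((2 : ℝ) ^ γ') ^ (j + 1))⁻¹ := by
      rw [Real.rpow_neg (by positivity), ← Real.rpow_natCast, ← Real.rpow_natCast,
        ← Real.rpow_mul (by norm_num), ← Real.rpow_mul (by norm_num), mul_comm]
    rw [h2] at h1
    have h3 : (0 : ℝ) < ((2 : ℝ) ^ γ') ^ (j + 1) := by positivity
    have hNpos : (0 : ℝ) < N := by linarith
    change 4 / (N * p j) ≤ _
    rw [div_mul_eq_mul_div, div_le_div_iff₀ (mul_pos hNpos (hp0 j hj.2)) hNpos]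
    have h4 : 1 ≤ ((2 : ℝ) ^ γ') ^ (j + 1) * p j := by
      calc (1 : ℝ) = ((2 : ℝ) ^ γ') ^ (j + 1) * (((2 : ℝ) ^ γ') ^ (j + 1))⁻¹ :=
            (mul_inv_cancel₀ h3.ne').symm
        _ ≤ _ := by gcongr
    nlinarith
  refine (Finset.sum_le_sum hterm).trans ?_
  have hx : (2 : ℝ) ≤ (2 : ℝ) ^ γ' := by
    calc (2 : ℝ) = (2 : ℝ) ^ (1 : ℝ) := (Real.rpow_one 2).symm
      _ ≤ _ := Real.rpow_le_rpow_of_exponent_le (by norm_num) hγ'0.le
  rw [← ENNReal.ofReal_sum_of_nonneg (fun j _ => by positivity)]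
  apply ENNReal.ofReal_le_ofReal
  calc ∑ j ∈ (Finset.range (J + 1)).filter (fun j => j0 ≤ j), 4 / (N : ℝ) *
        ((2 : ℝ) ^ γ') ^ (j + 1) ≤
      ∑ j ∈ Finset.range (J + 1), 4 / (N : ℝ) * ((2 : ℝ) ^ γ') ^ (j + 1) :=
        Finset.sum_le_sum_of_subset_of_nonneg (Finset.filter_subset _ _)
          fun j _ _ => by positivity
    _ = 4 / (N : ℝ) * ∑ j ∈ Finset.range (J + 1), ((2 : ℝ) ^ γ') ^ (j + 1) := by
        rw [Finset.mul_sum]
    _ ≤ 4 / (N : ℝ) * ((2 : ℝ) ^ γ') ^ (J + 1 + 1) := by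
        gcongr
        exact reg_geom hx (J + 1)
    _ = C * (((2 : ℝ) ^ J) ^ γ' / N) := by
        have h1 : ((2 : ℝ) ^ J) ^ γ' = ((2 : ℝ) ^ γ') ^ J := by
          rw [← Real.rpow_natCast, ← Real.rpow_natCast, ← Real.rpow_mul (by norm_num),
            ← Real.rpow_mul (by norm_num), mul_comm]
        rw [h1]
        simp only [C]
        ring
    _ ≤ C * (((N : ℝ) ^ β) ^ γ' / N) := by
        simp only [C]
        gcongr
    _ = C * ((n : ℝ) + 2) ^ (β * γ' - 1) := by
        rw [hNr, ← Real.rpow_mul (by positivity), Real.rpow_sub_one (by positivity)]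

/-- A property which holds eventually along the filter of regular degree sequences holds with
high probability for the degree sequence of the configuration model. -/
theorem regF_whp {μ : Measure ℕ} {τ : ℝ} (hμ : IsDegreeLaw μ τ) (hτ : 2 < τ) {β γ : ℝ}
    (hβ : 0 < β) (hγ : τ - 1 < γ) (hβγ : β * γ < 1) :
    ∃ y0 : ℝ, 1 ≤ y0 ∧ ∀ P : DegSeq → Prop, (∀ᶠ d in regF μ β γ y0, P d) →
      Tendsto (fun n : ℕ => (Measure.pi fun _ : Fin (n + 2) => μ)
        {D : Fin (n + 2) → ℕ | ¬ P ⟨n, fixParity D⟩}) atTop (𝓝 0) := by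
  have := hμ.prob
  obtain ⟨y0, hy0, htail⟩ := reg_tail hμ hτ hβ hγ hβγ
  refine ⟨y0, hy0, fun P hP => ?_⟩
  have hle : regG μ ≤ regF μ β γ y0 := by
    unfold regF
    refine le_inf (le_inf (le_inf (le_inf ?_ (le_iInf fun k => ?_)) ?_) ?_) ?_
    · rw [← tendsto_iff_comap, tendsto_atTop]
      intro m
      change {d : DegSeq | m ≤ d.1} ∈ regG μ
      rw [reg_mem]
      refine tendsto_const_nhds.congr' ?_
      filter_upwards [eventually_ge_atTop m] with n hn
      have : {D : Fin (n + 2) → ℕ | ¬ m ≤ n} = ∅ := by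
        ext D
        simp [hn]
      symm
      change (Measure.pi fun _ : Fin (n + 2) => μ) {D : Fin (n + 2) → ℕ | ¬ m ≤ n} = 0
      rw [this, measure_empty]
    · rw [← tendsto_iff_comap]
      have hAm : MeasurableSet ({k} : Set ℕ) := measurableSet_singleton k
      refine reg_transfer (f := ({k} : Set ℕ).indicator (fun _ => (1 : ℝ)))
        (g := fun d => (cntDeg k d : ℝ)) ?_ ?_ ?_
      · exact (integrable_const (1 : ℝ)).indicator hAm
      · have := integral_indicator_one (μ := μ) hAm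
        simpa [Measure.real] using this
      · intro n D
        exact reg_cntDeg_fix D k
    · rw [← tendsto_iff_comap]
      have hfin := mean_ne_top hμ hτ
      have hint : Integrable (fun k : ℕ => (k : ℝ)) μ := by
        refine ⟨measurable_from_nat.aestronglyMeasurable, ?_⟩
        rw [hasFiniteIntegral_iff_enorm]
        refine lt_of_le_of_lt (le_of_eq ?_) (lt_top_iff_ne_top.2 hfin)
        refine lintegral_congr fun k => ?_
        simp
      refine reg_transfer (f := fun k : ℕ => (k : ℝ))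
        (g := fun d => ((∑ v, d.2 v : ℕ) : ℝ)) hint ?_ ?_
      · rw [integral_eq_lintegral_of_nonneg_ae (ae_of_all _ fun k => by positivity)
          measurable_from_nat.aestronglyMeasurable]
        unfold meanDeg
        congr 1
        refine lintegral_congr fun k => ?_
        simp
      · intro n D
        exact reg_sum_fix_abs D
    · rw [le_principal_iff, reg_mem]
      have : ∀ n : ℕ, {D : Fin (n + 2) → ℕ | ¬ (⟨n, fixParity D⟩ : DegSeq) ∈
          {d : DegSeq | Even (∑ v, d.2 v)}} = ∅ := by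
        intro n
        ext D
        simp only [Set.mem_ofPred_eq, Set.mem_empty_iff_false, iff_false, not_not]
        exact reg_sum_fix_even D
      simp_rw [this, measure_empty]
      exact tendsto_const_nhds
    · rw [le_principal_iff]
      exact htail
  exact hle hP

end Pool.Agent.Helper98.Comp
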