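import Pool.Agent.Helper98.Comp.Greedy1
import Pool.Agent.Helper98.Comp.GWq
import Pool.Agent.Helper98.Comp.RegF

/-!
# MODULE Greedy2: the greedy path to the hubs, for regular degree sequences
-/

set_option autoImplicit false

namespace Pool.Agent.Helper98.Comp

open MeasureTheory Filter Set
open scoped ENNReal NNReal Topology

/-! ### Free half-edges -/

theorem g2_ncard_vertex {n : ℕ} {d : Fin n → ℕ} (v : Fin n) :
    Set.ncard {h : HE d | h.1 = v} = d v := by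
  classical
  have h1 : {h : HE d | h.1 = v} = Set.range (fun i : Fin (d v) => (⟨v, i⟩ : HE d)) := by
    ext h
    constructor
    · rintro rfl
      exact ⟨h.2, rfl⟩
    · rintro ⟨i, rfl⟩
      rfl
  rw [h1, ← Set.image_univ, Set.ncard_image_of_injective, Set.ncard_univ, Nat.card_eq_fintype_card,
    Fintype.card_fin]
  intro i j hij
  simpa using hij

theorem g2_fr_eq {n : ℕ} {d : Fin n → ℕ} {η : List (HE d × HE d)} {v : Fin n}
    (hv : ∀ h ∈ rev η, h.1 ≠ v) : fr η v = d v := by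
  have h1 : {h : HE d | h ∉ rev η ∧ h.1 = v} = {h : HE d | h.1 = v} := by
    ext h
    constructor
    · rintro ⟨_, h2⟩; exact h2
    · intro h2; exact ⟨fun h3 => hv h h3 h2, h2⟩
  unfold fr
  rw [h1, g2_ncard_vertex]

theorem g2_fr_ge {n : ℕ} {d : Fin n → ℕ} (η : List (HE d × HE d)) (v : Fin n) :
    d v ≤ fr η v + 2 * η.length := by
  classical
  have h1 : {h : HE d | h.1 = v} ⊆ {h : HE d | h ∉ rev η ∧ h.1 = v} ∪ {h | h ∈ rev η} := by
    intro h hh
    by_cases h2 : h ∈ rev η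
    · exact Or.inr h2
    · exact Or.inl ⟨h2, hh⟩
  have h2 : Set.ncard {h : HE d | h ∈ rev η} ≤ 2 * η.length := by
    have : {h : HE d | h ∈ rev η} = ((rev η).toFinset : Set (HE d)) := by
      ext h; simp
    rw [this, Set.ncard_coe_finset, ← length_rev]
    exact List.toFinset_card_le _
  have h3 := (Set.ncard_le_ncard h1 (Set.toFinite _)).trans (Set.ncard_union_le _ _)
  rw [g2_ncard_vertex] at h3
  unfold fr
  omega

/-- the vertices of large degree without revealed half-edges -/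
noncomputable def g2_L {n : ℕ} {d : Fin n → ℕ} (η : List (HE d × HE d)) (y : ℝ) : Finset (Fin n) := by
  classical
  exact Finset.univ.filter fun v => y ≤ (d v : ℝ) ∧ ∀ h ∈ rev η, h.1 ≠ v

theorem g2_mem_L {n : ℕ} {d : Fin n → ℕ} {η : List (HE d × HE d)} {y : ℝ} {v : Fin n} :
    v ∈ g2_L η y ↔ y ≤ (d v : ℝ) ∧ ∀ h ∈ rev η, h.1 ≠ v := by
  classical
  simp [g2_L]

theorem g2_card_L {n : ℕ} {d : Fin n → ℕ} (η : List (HE d × HE d)) (y : ℝ) :
    (Finset.univ.filter fun v => y ≤ (d v : ℝ)).card ≤ (g2_L η y).card + 2 * η.length := by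
  classical
  have h1 : (Finset.univ.filter fun v => y ≤ (d v : ℝ)) ⊆
      g2_L η y ∪ ((rev η).toFinset.image fun h => h.1) := by
    intro v hv
    rw [Finset.mem_filter] at hv
    rw [Finset.mem_union]
    by_cases h2 : ∀ h ∈ rev η, h.1 ≠ v
    · exact Or.inl (g2_mem_L.2 ⟨hv.2, h2⟩)
    · push Not at h2
      obtain ⟨h, hh, rfl⟩ := h2
      exact Or.inr (Finset.mem_image.2 ⟨h, List.mem_toFinset.2 hh, rfl⟩)
  have h2 := (Finset.card_le_card h1).trans (Finset.card_union_le _ _)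
  have h3 : ((rev η).toFinset.image fun h => h.1).card ≤ 2 * η.length := by
    rw [← length_rev]
    exact Finset.card_image_le.trans (List.toFinset_card_le _)
  omega

theorem g2_sum_fr {n : ℕ} {d : Fin n → ℕ} (η : List (HE d × HE d)) (y : ℝ) (hy : 0 ≤ y) :
    y * (((Finset.univ.filter fun v => y ≤ (d v : ℝ)).card : ℝ) - 2 * η.length) ≤
      ((∑ v ∈ g2_L η y, fr η v : ℕ) : ℝ) := by
  have h1 : ((∑ v ∈ g2_L η y, fr η v : ℕ) : ℝ) ≥ ∑ v ∈ g2_L η y, y := by
    push_cast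
    apply Finset.sum_le_sum
    intro v hv
    rw [g2_mem_L] at hv
    rw [g2_fr_eq hv.2]
    exact hv.1
  rw [Finset.sum_const, nsmul_eq_mul] at h1
  have h2 : (((Finset.univ.filter fun v => y ≤ (d v : ℝ)).card : ℕ) : ℝ) ≤
      ((g2_L η y).card : ℝ) + 2 * η.length := by
    exact_mod_cast g2_card_L η y
  nlinarith

/-! ### Parameters -/

theorem g2_params {τ : ℝ} (hτ : 2 < τ) (hτ' : τ < 3) : ∃ γ κ β c : ℝ, τ - 1 < γ ∧ γ < 2 ∧ 1 < γ ∧
    1 < κ ∧ 0 < c ∧ c < 1 ∧ 0 < β ∧ β * γ < 1 ∧ κ * (γ - 1) + c < 1 ∧ 1 < β / κ * (1 - c) + β := by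
  set θ : ℝ := (τ - 1) / 2 with hθ
  have hθ0 : 0 < θ := by rw [hθ]; linarith
  have hθ1 : θ < 1 := by rw [hθ]; linarith
  set κ : ℝ := (θ + 1) / (2 * θ) with hκ
  have hκ1 : 1 < κ := by
    rw [hκ, lt_div_iff₀ (by positivity)]; linarith
  have hκθ : κ * θ = (1 + θ) / 2 := by
    rw [hκ]; field_simp; ring
  set γ : ℝ := 1 + θ with hγ
  set β : ℝ := (κ / (κ + 1) + 1 / γ) / 2 with hβ
  have hκ0 : 0 < κ := by linarith
  have hγ0 : 0 < γ := by linarith
  have hlt : κ / (κ + 1) < 1 / γ := by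
    rw [div_lt_div_iff₀ (by linarith) hγ0]
    rw [hγ]
    nlinarith
  have hβ1 : κ / (κ + 1) < β := by rw [hβ]; linarith
  have hβ2 : β < 1 / γ := by rw [hβ]; linarith
  have hβ0 : 0 < β := lt_trans (by positivity) hβ1
  have hβκ : κ < β * (1 + κ) := by
    rw [div_lt_iff₀ (by linarith)] at hβ1; linarith
  set c : ℝ := min (1 - κ * θ) ((β * (1 + κ) - κ) / β) / 2 with hc
  have hc1 : 0 < 1 - κ * θ := by rw [hκθ]; linarith
  have hc2 : 0 < (β * (1 + κ) - κ) / β := by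
    apply div_pos _ hβ0; linarith
  have hc0 : 0 < c := by
    rw [hc]; exact half_pos (lt_min hc1 hc2)
  have hcl : c < 1 - κ * θ := by
    have := min_le_left (1 - κ * θ) ((β * (1 + κ) - κ) / β)
    rw [hc]; linarith
  have hcr : c < (β * (1 + κ) - κ) / β := by
    have := min_le_right (1 - κ * θ) ((β * (1 + κ) - κ) / β)
    rw [hc]; linarith
  refine ⟨γ, κ, β, c, ?_, ?_, ?_, hκ1, hc0, ?_, hβ0, ?_, ?_, ?_⟩
  · rw [hγ, hθ]; linarith
  · linarith
  · linarith
  · have : 0 < κ * θ := by positivity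
    linarith
  · rw [lt_div_iff₀ hγ0] at hβ2; exact hβ2
  · rw [hγ]; have : κ * (1 + θ - 1) = κ * θ := by ring
    rw [this]; linarith
  · rw [lt_div_iff₀ hβ0] at hcr
    have h1 : β / κ * (1 - c) + β = (β * (1 - c) + β * κ) / κ := by field_simp
    rw [h1, lt_div_iff₀ hκ0]
    linarith

/-! ### The scales -/

/-- the scales -/
noncomputable def g2_Y (κ c : ℝ) (j : ℕ) : ℝ := Real.exp (κ ^ j / c)

section
variable {κ c : ℝ}

theorem g2_Y_pos (j : ℕ) : 0 < g2_Y κ c j := Real.exp_pos _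

theorem g2_Y_succ (j : ℕ) : g2_Y κ c (j + 1) = g2_Y κ c j ^ κ := by
  unfold g2_Y
  rw [← Real.exp_mul]
  congr 1
  rw [pow_succ]; ring

theorem g2_Y_neg (hc : 0 < c) (j : ℕ) : Real.exp (-κ ^ j) = g2_Y κ c j ^ (-c) := by
  unfold g2_Y
  rw [← Real.exp_mul]
  congr 1
  field_simp

theorem g2_Y_tendsto (hκ : 1 < κ) (hc : 0 < c) : Tendsto (g2_Y κ c) atTop atTop := by
  unfold g2_Y
  exact Real.tendsto_exp_atTop.comp ((tendsto_pow_atTop_atTop_of_one_lt hκ).atTop_div_const hc)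

theorem g2_Y_double (hκ : 1 < κ) (hc : 0 < c) : ∀ᶠ j in atTop, ∀ k, j ≤ k →
    2 * g2_Y κ c k ≤ g2_Y κ c (k + 1) := by
  have h1 : Tendsto (fun j : ℕ => (κ - 1) * κ ^ j / c) atTop atTop :=
    ((tendsto_pow_atTop_atTop_of_one_lt hκ).const_mul_atTop (by linarith)).atTop_div_const hc
  have h2 := h1.eventually_ge_atTop (Real.log 2)
  rw [eventually_atTop] at h2
  obtain ⟨j0, h3⟩ := h2
  rw [eventually_atTop]
  refine ⟨j0, fun j hj k hk => ?_⟩
  have h4 := h3 k (by omega)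
  have h5 : g2_Y κ c (k + 1) = g2_Y κ c k * Real.exp ((κ - 1) * κ ^ k / c) := by
    unfold g2_Y
    rw [← Real.exp_add]
    congr 1
    rw [pow_succ]; ring
  have h6 : (2 : ℝ) ≤ Real.exp ((κ - 1) * κ ^ k / c) := by
    calc (2 : ℝ) = Real.exp (Real.log 2) := (Real.exp_log (by norm_num)).symm
      _ ≤ _ := Real.exp_le_exp.2 h4
  rw [h5]
  have := g2_Y_pos (κ := κ) (c := c) k
  nlinarith

theorem g2_Y_mono {j : ℕ} (hd : ∀ k, j ≤ k → 2 * g2_Y κ c k ≤ g2_Y κ c (k + 1)) (i : ℕ) :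
    2 ^ i * g2_Y κ c j ≤ g2_Y κ c (i + j) := by
  induction i with
  | zero => simp
  | succ i ih =>
    have h1 := hd (i + j) (by omega)
    rw [show i + 1 + j = (i + j) + 1 by ring, pow_succ]
    linarith

theorem g2_Y_sum {j : ℕ} (hd : ∀ k, j ≤ k → 2 * g2_Y κ c k ≤ g2_Y κ c (k + 1)) (i : ℕ) :
    ∑ l ∈ Finset.range (i + 1), g2_Y κ c (l + j) ≤ 2 * g2_Y κ c (i + j) := by
  induction i with
  | zero =>
    have := g2_Y_pos (κ := κ) (c := c) (0 + j)
    simp only [zero_add, Finset.range_one, Finset.sum_singleton]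
    rw [zero_add] at this
    linarith
  | succ i ih =>
    rw [Finset.sum_range_succ]
    have h1 := hd (i + j) (by omega)
    rw [show i + 1 + j = (i + j) + 1 by ring]
    linarith

end

/-- `(1 - p)^(k)` is at most `1 / (p k)` -/
theorem g2_pow_le {p : ℝ} (_hp0 : 0 ≤ p) (hp1 : p ≤ 1) (k : ℕ) {x : ℝ} (hx : 0 < x) (hk : x ≤ p * k) :
    (1 - p) ^ k ≤ 1 / x := by
  have h1 : (1 - p) ^ k ≤ Real.exp (-(p * k)) := by
    have h2 : 1 - p ≤ Real.exp (-p) := by
      have := Real.add_one_le_exp (-p); linarith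
    calc (1 - p) ^ k ≤ Real.exp (-p) ^ k := pow_le_pow_left₀ (by linarith) h2 k
      _ = Real.exp (-(p * k)) := by rw [← Real.exp_nat_mul]; congr 1; ring
  have h3 : Real.exp (-(p * k)) ≤ Real.exp (-x) := Real.exp_le_exp.2 (by linarith)
  have h4 : Real.exp (-x) ≤ 1 / x := by
    rw [Real.exp_neg, one_div]
    apply inv_anti₀ hx
    have := Real.add_one_le_exp x
    linarith
  linarith

theorem g2_floor {y : ℝ} (hy : 64 ≤ y) : y / 64 ≤ ((⌊y / 16⌋₊ / 2 : ℕ) : ℝ) := by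
  have h1 : y / 16 < (⌊y / 16⌋₊ : ℝ) + 1 := Nat.lt_floor_add_one _
  have h2 : ((⌊y / 16⌋₊ : ℕ) : ℝ) ≤ 2 * ((⌊y / 16⌋₊ / 2 : ℕ) : ℝ) + 1 := by
    have : ⌊y / 16⌋₊ ≤ 2 * (⌊y / 16⌋₊ / 2) + 1 := by omega
    exact_mod_cast this
  linarith

theorem g2_floor_le {y : ℝ} (hy : 0 ≤ y) : ((⌊y / 16⌋₊ : ℕ) : ℝ) ≤ y / 16 :=
  Nat.floor_le (by linarith)

/-! ### The core estimate for one degree sequence -/

theorem g2_exists_I {κ c : ℝ} (hκ : 1 < κ) (hc : 0 < c) (j0 : ℕ) {x : ℝ}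
    (hx : g2_Y κ c j0 ≤ x) : ∃ I : ℕ, (∀ i ≤ I, g2_Y κ c (i + j0) ≤ x) ∧ x < g2_Y κ c (I + 1 + j0) := by
  classical
  have h1 : ∃ i, x < g2_Y κ c (i + j0) := by
    have h2 := (g2_Y_tendsto hκ hc).comp (tendsto_add_atTop_nat j0)
    exact (h2.eventually_gt_atTop x).exists
  have h3 : Nat.find h1 ≠ 0 := by
    intro h4
    have h5 := Nat.find_spec h1
    rw [h4, zero_add] at h5
    linarith
  obtain ⟨I, hI⟩ := Nat.exists_eq_succ_of_ne_zero h3
  refine ⟨I, fun i hi => ?_, ?_⟩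
  · have := Nat.find_min h1 (m := i) (by omega)
    exact not_lt.1 this
  · have h5 := Nat.find_spec h1
    rw [hI] at h5
    exact h5

theorem g2_core (Ir Ib : Measure ℝ≥0) [IsProbabilityMeasure Ir] [IsProbabilityMeasure Ib]
    {γ κ β c A δ ρ : ℝ} (hγ : 1 < γ) (hκ : 1 < κ) (hc : 0 < c) (hc1 : c < 1) (hβ : 0 < β)
    (hβγ : β * γ < 1) (hρ : ρ = 1 - (κ * (γ - 1) + c)) (hρ0 : 0 < ρ) (hA : 1 ≤ A)
    (w : ℕ → ℝ≥0) (j0 : ℕ)
    (hd : ∀ k, j0 ≤ k → 2 * g2_Y κ c k ≤ g2_Y κ c (k + 1))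
    (h64 : 64 ≤ g2_Y κ c j0)
    (hw : ∀ i : ℕ, ENNReal.ofReal (Real.exp (-κ ^ i)) ≤ Ir (Set.Iic (w i)))
    (hw1 : ∀ I : ℕ, ∑ i ∈ Finset.range I, w (i + j0) ≤ 1)
    (hδ1 : 128 * A * g2_Y κ c j0 ^ (-ρ) * (1 - 2 ^ (-ρ))⁻¹ ≤ δ / 2)
    {n : ℕ} {d : Fin n → ℕ} (N : ℝ) (hN1 : 1 ≤ N)
    (hS : ((∑ v, d v : ℕ) : ℝ) ≤ A * N)
    (htail : ∀ y : ℝ, g2_Y κ c j0 ≤ y → y ≤ N ^ β →
      N * y ^ (-γ) ≤ ((Finset.univ.filter fun v => y ≤ (d v : ℝ)).card : ℝ))
    (hNβ : g2_Y κ c j0 ≤ N ^ β) (r0 : ℕ)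
    (hr : 2 * (2 * (r0 : ℝ) + 1) ≤ N ^ (1 - β * γ)) (hr' : 8 * (2 * (r0 : ℝ) + 1) ≤ 3 * N ^ β)
    (hδ2 : 128 * A / N ^ (β / κ * (1 - c) + β - 1) ≤ δ / 2)
    (vstar : Fin n) (hvs : N ^ β ≤ (d vstar : ℝ)) {η : List (HE d × HE d)} (hη : Fresh η)
    (hlen : η.length ≤ r0) {v : Fin n} (hv : ⌊g2_Y κ c j0 / 16⌋₊ ≤ fr η v) :
    failure Ir Ib η v vstar 1 ≤ (Ext η).card * ENNReal.ofReal δ := by
  classical
  obtain ⟨I, hI1, hI2⟩ := g2_exists_I hκ hc j0 hNβ
  set y : ℕ → ℝ := fun i => g2_Y κ c (i + j0) with hy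
  have hy0 : ∀ i, 0 < y i := fun i => g2_Y_pos _
  have hmono : ∀ i, 2 ^ i * y 0 ≤ y i := by
    intro i
    have := g2_Y_mono hd i
    simpa [hy] using this
  have hy64 : ∀ i, 64 ≤ y i := by
    intro i
    have h1 := hmono i
    have h2 : (1 : ℝ) ≤ 2 ^ i := one_le_pow₀ (by norm_num)
    have h3 : y 0 = g2_Y κ c j0 := by simp [hy]
    rw [h3] at h1
    nlinarith
  have hyj0 : ∀ i, g2_Y κ c j0 ≤ y i := by
    intro i
    have h1 := hmono i
    have h2 : (1 : ℝ) ≤ 2 ^ i := one_le_pow₀ (by norm_num)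
    have h3 : y 0 = g2_Y κ c j0 := by simp [hy]
    rw [h3] at h1
    nlinarith
  have hysucc : ∀ i, y (i + 1) = y i ^ κ := by
    intro i
    have := g2_Y_succ (κ := κ) (c := c) (i + j0)
    simp only [hy]
    rw [← this]; congr 1; ring
  have hydbl : ∀ i, 2 * y i ≤ y (i + 1) := by
    intro i
    have := hd (i + j0) (by omega)
    simp only [hy]
    rw [show i + 1 + j0 = i + j0 + 1 by ring]
    exact this
  have hN0 : 0 < N := by linarith
  have hysum : ∀ i, ∑ l ∈ Finset.range (i + 1), y l ≤ 2 * y i := fun i => g2_Y_sum hd i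
  set m : ℕ → ℕ := fun i => ⌊y i / 16⌋₊ with hm
  have hmsum : ∀ i, ((∑ l ∈ Finset.range (i + 1), m l : ℕ) : ℝ) ≤ y i / 8 := by
    intro i
    push_cast
    calc ∑ l ∈ Finset.range (i + 1), (m l : ℝ) ≤ ∑ l ∈ Finset.range (i + 1), y l / 16 :=
          Finset.sum_le_sum fun l _ => g2_floor_le (hy0 l).le
      _ = (∑ l ∈ Finset.range (i + 1), y l) / 16 := by rw [Finset.sum_div]
      _ ≤ y i / 8 := by have := hysum i; linarith
  have hwi : ∀ i, y i ^ (-c) ≤ (Ir (Set.Iic (w (i + j0)))).toReal := by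
    intro i
    have h1 := hw (i + j0)
    rw [g2_Y_neg hc] at h1
    rw [ENNReal.ofReal_le_iff_le_toReal (measure_ne_top _ _)] at h1
    exact h1
  set L : ℕ → Finset (Fin n) := fun i => if i = I + 1 then {vstar} else g2_L η (y i) with hL
  set p : ℕ → ℝ := fun i => if i = I then y I ^ (-c) * N ^ β / (2 * A * N) else
    y i ^ (-c) * y (i + 1) ^ (1 - γ) / (2 * A) with hp
  have hyc : ∀ i, y i ^ (-c) ≤ 1 := fun i =>
    Real.rpow_le_one_of_one_le_of_nonpos (by linarith [hy64 i]) (by linarith)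
  have hyc0 : ∀ i, 0 < y i ^ (-c) := fun i => Real.rpow_pos_of_pos (hy0 i) _
  have hβ1 : β ≤ 1 := by nlinarith
  have hNβN : N ^ β ≤ N := by
    calc N ^ β ≤ N ^ (1 : ℝ) := Real.rpow_le_rpow_of_exponent_le hN1 hβ1
      _ = N := Real.rpow_one N
  have hNβ0 : 0 < N ^ β := Real.rpow_pos_of_pos hN0 _
  have hp0 : ∀ i, 0 < p i := by
    intro i
    simp only [hp]
    split_ifs
    · have := hyc0 I
      positivity
    · have := hyc0 i
      have h2 : 0 < y (i + 1) ^ (1 - γ) := Real.rpow_pos_of_pos (hy0 _) _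
      positivity
  have hp1 : ∀ i, p i ≤ 1 := by
    intro i
    simp only [hp]
    split_ifs
    · rw [div_le_one (by positivity)]
      have h1 := hyc I
      have h2 := hyc0 I
      calc y I ^ (-c) * N ^ β ≤ 1 * N := mul_le_mul h1 hNβN hNβ0.le (by norm_num)
        _ ≤ 2 * A * N := by nlinarith
    · rw [div_le_one (by positivity)]
      have h1 := hyc i
      have h3 : y (i + 1) ^ (1 - γ) ≤ 1 :=
        Real.rpow_le_one_of_one_le_of_nonpos (by linarith [hy64 (i + 1)]) (by linarith)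
      have h2 : 0 < y (i + 1) ^ (1 - γ) := Real.rpow_pos_of_pos (hy0 _) _
      calc y i ^ (-c) * y (i + 1) ^ (1 - γ) ≤ 1 * 1 := mul_le_mul h1 h3 h2.le (by norm_num)
        _ ≤ 2 * A := by nlinarith
  have hLI : ∀ i < I, L (i + 1) = g2_L η (y (i + 1)) := by
    intro i hi
    simp only [hL]
    rw [if_neg (by omega)]
  -- the hypotheses of the abstract estimate
  have key := greedy_abstract Ir Ib I m (fun i => w (i + j0)) p L vstar (by simp [hL])
    (fun i _ => (hp0 i).le) (fun i _ => hp1 i) hη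
    (by
      intro i hi u hu
      rw [hLI i hi, g2_mem_L] at hu
      rw [g2_fr_eq hu.2]
      have h1 := hmsum (i + 1)
      rw [Finset.sum_range_succ] at h1
      have h2 := hy0 (i + 1)
      have h3 : ((∑ j ∈ Finset.range (i + 1), m j + m (i + 1) : ℕ) : ℝ) ≤ (d u : ℝ) := by
        linarith [hu.1]
      exact_mod_cast h3)
    (by
      intro i hi
      have hms := hmsum i
      rcases eq_or_lt_of_le hi with rfl | hi
      · -- the last hop
        have h1 : L (i + 1) = {vstar} := by simp [hL]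
        have h2 : p i = y i ^ (-c) * N ^ β / (2 * A * N) := by simp [hp]
        have h3 : (d vstar : ℝ) ≤ (fr η vstar : ℝ) + 2 * r0 := by
          have := g2_fr_ge η vstar
          have h4 : d vstar ≤ fr η vstar + 2 * r0 := by omega
          exact_mod_cast h4
        rw [h1, Finset.sum_singleton, h2]
        have h5 := hI1 i le_rfl
        change y i ≤ N ^ β at h5
        have h6 : N ^ β / 2 ≤ (fr η vstar : ℝ) - ((∑ j ∈ Finset.range (i + 1), m j : ℕ) : ℝ) - 1 := by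
          linarith
        calc y i ^ (-c) * N ^ β / (2 * A * N) * ((∑ v, d v : ℕ) : ℝ)
            ≤ y i ^ (-c) * N ^ β / (2 * A * N) * (A * N) := by
              apply mul_le_mul_of_nonneg_left hS
              have := hyc0 i
              positivity
          _ = y i ^ (-c) * (N ^ β / 2) := by field_simp
          _ ≤ _ := by
              apply mul_le_mul (hwi i) h6 (by positivity) ENNReal.toReal_nonneg
      · have h1 := hLI i hi
        have h2 : p i = y i ^ (-c) * y (i + 1) ^ (1 - γ) / (2 * A) := by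
          simp only [hp]; rw [if_neg (by omega)]
        rw [h1, h2]
        have h5 := hI1 (i + 1) hi
        change y (i + 1) ≤ N ^ β at h5
        have h6 := htail (y (i + 1)) (hyj0 _) h5
        have h7 := g2_sum_fr η (y (i + 1)) (hy0 _).le
        have h8 : N ^ (1 - β * γ) ≤ N * y (i + 1) ^ (-γ) := by
          have h9 : (N ^ β) ^ (-γ) ≤ y (i + 1) ^ (-γ) :=
            Real.rpow_le_rpow_of_nonpos (hy0 _) h5 (by linarith)
          rw [← Real.rpow_mul hN0.le] at h9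
          have h10 : N ^ (1 - β * γ) = N * N ^ (β * -γ) := by
            rw [show 1 - β * γ = 1 + β * -γ by ring, Real.rpow_add hN0, Real.rpow_one]
          rw [h10]
          exact mul_le_mul_of_nonneg_left h9 hN0.le
        have hlen' : (η.length : ℝ) ≤ r0 := by exact_mod_cast hlen
        have h11 : y (i + 1) * y (i + 1) ^ (-γ) = y (i + 1) ^ (1 - γ) := by
          rw [sub_eq_add_neg, Real.rpow_add (hy0 _), Real.rpow_one]
        have h12 : N * y (i + 1) ^ (1 - γ) / 2 ≤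
            ((∑ v ∈ g2_L η (y (i + 1)), fr η v : ℕ) : ℝ) -
              ((∑ j ∈ Finset.range (i + 1), m j : ℕ) : ℝ) - 1 := by
          have hy1 := hy0 (i + 1)
          have h13 : y (i + 1) * (N * y (i + 1) ^ (-γ) - 2 * r0 - 1) ≤
              ((∑ v ∈ g2_L η (y (i + 1)), fr η v : ℕ) : ℝ) - y (i + 1) := by
            have h14 : y (i + 1) * (N * y (i + 1) ^ (-γ) - 2 * r0) ≤
              y (i + 1) * (((Finset.univ.filter fun v => y (i + 1) ≤ (d v : ℝ)).card : ℝ) -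
                2 * η.length) := by
              apply mul_le_mul_of_nonneg_left _ hy1.le
              linarith
            nlinarith
          have h15 : N * y (i + 1) ^ (-γ) / 2 ≤ N * y (i + 1) ^ (-γ) - 2 * r0 - 1 := by linarith
          have h16 : y (i + 1) * (N * y (i + 1) ^ (-γ) / 2) = N * y (i + 1) ^ (1 - γ) / 2 := by
            rw [← h11]; ring
          have h17 := mul_le_mul_of_nonneg_left h15 hy1.le
          have h18 := hydbl i
          have h19 := hy64 i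
          rw [h16] at h17
          linarith
        calc y i ^ (-c) * y (i + 1) ^ (1 - γ) / (2 * A) * ((∑ v, d v : ℕ) : ℝ)
            ≤ y i ^ (-c) * y (i + 1) ^ (1 - γ) / (2 * A) * (A * N) := by
              apply mul_le_mul_of_nonneg_left hS
              have := hyc0 i
              have h2 : 0 < y (i + 1) ^ (1 - γ) := Real.rpow_pos_of_pos (hy0 _) _
              positivity
          _ = y i ^ (-c) * (N * y (i + 1) ^ (1 - γ) / 2) := by field_simp
          _ ≤ _ := by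
              have h2 : 0 < y (i + 1) ^ (1 - γ) := Real.rpow_pos_of_pos (hy0 _) _
              apply mul_le_mul (hwi i) h12 (by positivity) ENNReal.toReal_nonneg)
    (v := v) (by simpa [hm, hy] using hv)
  -- monotonicity in the length
  have hmonof : failure Ir Ib η v vstar 1 ≤
      failure Ir Ib η v vstar (∑ i ∈ Finset.range (I + 1), w (i + j0)) := by
    unfold failure
    apply Finset.sum_le_sum
    intro σ _
    apply measure_mono
    intro x hx hx'
    exact hx (hx'.mono le_rfl (hw1 (I + 1)))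
  refine hmonof.trans (key.trans ?_)
  refine mul_le_mul_right (ENNReal.ofReal_le_ofReal ?_) _
  -- the sum
  rw [Finset.sum_range_succ]
  have hlast : (1 - p I) ^ (m I / 2) ≤ δ / 2 := by
    have h1 : p I = y I ^ (-c) * N ^ β / (2 * A * N) := by simp [hp]
    have h2 : y I / 64 ≤ ((m I / 2 : ℕ) : ℝ) := g2_floor (hy64 I)
    have h3 : N ^ (β / κ) ≤ y I := by
      have h4 : N ^ β < y (I + 1) := hI2
      rw [hysucc] at h4
      have h5 : (N ^ β) ^ (1 / κ) ≤ (y I ^ κ) ^ (1 / κ) :=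
        Real.rpow_le_rpow hNβ0.le h4.le (by positivity)
      rw [← Real.rpow_mul (hy0 I).le, ← Real.rpow_mul hN0.le, mul_one_div_cancel (by linarith),
        Real.rpow_one, mul_one_div] at h5
      exact h5
    have h6 : N ^ (β / κ * (1 - c)) ≤ y I ^ (1 - c) := by
      rw [Real.rpow_mul hN0.le]
      exact Real.rpow_le_rpow (by positivity) h3 (by linarith)
    have h7 : N ^ (β / κ * (1 - c) + β - 1) / (128 * A) ≤ p I * ((m I / 2 : ℕ) : ℝ) := by
      have h8 : p I * (y I / 64) = y I ^ (1 - c) * N ^ β / N / (128 * A) := by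
        rw [h1, show (1 - c) = 1 + -c by ring, Real.rpow_add (hy0 I), Real.rpow_one]
        field_simp
        ring
      have h9 : N ^ (β / κ * (1 - c) + β - 1) = N ^ (β / κ * (1 - c)) * N ^ β / N := by
        rw [Real.rpow_sub hN0, Real.rpow_add hN0, Real.rpow_one]
      calc N ^ (β / κ * (1 - c) + β - 1) / (128 * A)
          = N ^ (β / κ * (1 - c)) * N ^ β / N / (128 * A) := by rw [h9]
        _ ≤ y I ^ (1 - c) * N ^ β / N / (128 * A) := by gcongr
        _ = p I * (y I / 64) := h8.symm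
        _ ≤ _ := mul_le_mul_of_nonneg_left h2 (hp0 I).le
    have h10 := g2_pow_le (hp0 I).le (hp1 I) (m I / 2)
      (x := N ^ (β / κ * (1 - c) + β - 1) / (128 * A)) (by positivity) h7
    rw [one_div_div] at h10
    exact h10.trans hδ2
  have hfirst : ∑ i ∈ Finset.range I, (1 - p i) ^ (m i / 2) ≤ δ / 2 := by
    have hr0 : (0 : ℝ) < 2 ^ (-ρ) := Real.rpow_pos_of_pos (by norm_num) _
    have hr1 : (2 : ℝ) ^ (-ρ) < 1 := Real.rpow_lt_one_of_one_lt_of_neg (by norm_num) (by linarith)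
    have h1 : ∀ i ∈ Finset.range I, (1 - p i) ^ (m i / 2) ≤
        128 * A * g2_Y κ c j0 ^ (-ρ) * ((2 : ℝ) ^ (-ρ)) ^ i := by
      intro i hi
      rw [Finset.mem_range] at hi
      have h2 : p i = y i ^ (-c) * y (i + 1) ^ (1 - γ) / (2 * A) := by
        simp only [hp]; rw [if_neg (by omega)]
      have h3 : y i / 64 ≤ ((m i / 2 : ℕ) : ℝ) := g2_floor (hy64 i)
      have h4 : p i * (y i / 64) = y i ^ ρ / (128 * A) := by
        rw [h2, hysucc, ← Real.rpow_mul (hy0 i).le, hρ]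
        have h5 : y i ^ (1 - (κ * (γ - 1) + c)) = y i ^ (-c) * y i ^ (κ * (1 - γ)) * y i := by
          rw [← Real.rpow_add (hy0 i)]
          nth_rewrite 3 [← Real.rpow_one (y i)]
          rw [← Real.rpow_add (hy0 i)]
          congr 1
          ring
        rw [h5]
        field_simp
        ring
      have h6 : y i ^ ρ / (128 * A) ≤ p i * ((m i / 2 : ℕ) : ℝ) := by
        rw [← h4]
        exact mul_le_mul_of_nonneg_left h3 (hp0 i).le
      have hyρ : 0 < y i ^ ρ := Real.rpow_pos_of_pos (hy0 i) _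
      have h7 := g2_pow_le (hp0 i).le (hp1 i) (m i / 2) (x := y i ^ ρ / (128 * A))
        (by positivity) h6
      rw [one_div_div] at h7
      refine h7.trans ?_
      have h8 : (2 ^ i * y 0) ^ ρ ≤ y i ^ ρ :=
        Real.rpow_le_rpow (by have := hy0 0; positivity) (hmono i) hρ0.le
      have h9 : (2 ^ i * y 0) ^ ρ = ((2 : ℝ) ^ ρ) ^ i * g2_Y κ c j0 ^ ρ := by
        rw [Real.mul_rpow (by positivity) (hy0 0).le]
        have h10 : y 0 = g2_Y κ c j0 := by simp [hy]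
        rw [h10, ← Real.rpow_natCast, ← Real.rpow_mul (by norm_num), ← Real.rpow_natCast,
          ← Real.rpow_mul (by norm_num), mul_comm (i : ℝ) ρ]
      have h11 : 0 < ((2 : ℝ) ^ ρ) ^ i * g2_Y κ c j0 ^ ρ := by
        have h12 : 0 < g2_Y κ c j0 ^ ρ := Real.rpow_pos_of_pos (g2_Y_pos _) _
        have h13 : 0 < (2 : ℝ) ^ ρ := Real.rpow_pos_of_pos (by norm_num) _
        positivity
      rw [h9] at h8
      calc 128 * A / y i ^ ρ ≤ 128 * A / (((2 : ℝ) ^ ρ) ^ i * g2_Y κ c j0 ^ ρ) := by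
            gcongr
        _ = 128 * A * g2_Y κ c j0 ^ (-ρ) * ((2 : ℝ) ^ (-ρ)) ^ i := by
            rw [Real.rpow_neg (g2_Y_pos _).le, Real.rpow_neg (by norm_num), inv_pow]
            field_simp
    refine (Finset.sum_le_sum h1).trans ?_
    rw [← Finset.mul_sum]
    have h14 : ∑ i ∈ Finset.range I, ((2 : ℝ) ^ (-ρ)) ^ i ≤ (1 - 2 ^ (-ρ))⁻¹ := by
      rw [← tsum_geometric_of_lt_one hr0.le hr1]
      exact (summable_geometric_of_lt_one hr0.le hr1).sum_le_tsum _ (fun i _ => by positivity)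
    refine (mul_le_mul_of_nonneg_left h14 ?_).trans hδ1
    have h12 : 0 < g2_Y κ c j0 ^ (-ρ) := Real.rpow_pos_of_pos (g2_Y_pos _) _
    positivity
  linarith


theorem g2_tail_sum {w : ℕ → ℝ≥0} (hw : Summable w) :
    ∀ᶠ j0 in atTop, ∀ I : ℕ, ∑ i ∈ Finset.range I, w (i + j0) ≤ 1 := by
  have h1 := NNReal.tendsto_sum_nat_add w
  have h2 : ∀ᶠ j0 in atTop, ∑' k, w (k + j0) < 1 :=
    h1.eventually_lt_const (by norm_num : (0 : ℝ≥0) < 1)
  filter_upwards [h2] with j0 h3 I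
  have h4 : Summable fun k => w (k + j0) := (NNReal.summable_nat_add_iff j0).2 hw
  exact (h4.sum_le_tsum _ (fun i _ => zero_le)).trans h3.le

theorem greedy_numeric {μ : Measure ℕ} {τ : ℝ} (hμ : IsDegreeLaw μ τ) (hτ : 2 < τ) (hτ' : τ < 3)
    (Ir Ib : Measure ℝ≥0) [IsProbabilityMeasure Ir] [IsProbabilityMeasure Ib]
    (hI : Explosive μ Ir) :
    ∃ β γ : ℝ, 0 < β ∧ τ - 1 < γ ∧ β * γ < 1 ∧
      ∀ y0 : ℝ, 1 ≤ y0 → ∀ δ : ℝ, 0 < δ → ∃ M1 : ℕ, ∀ r0 : ℕ, ∀ᶠ d in regF μ β γ y0,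
        ∀ vstar, ((d.1 : ℝ) + 2) ^ β ≤ (d.2 vstar : ℝ) →
          ∀ η : List (HE d.2 × HE d.2), Fresh η → η.length ≤ r0 →
            ∀ v, M1 ≤ fr η v →
              failure Ir Ib η v vstar 1 ≤ (Ext η).card * ENNReal.ofReal δ := by
  obtain ⟨γ, κ, β, c, hγ1, hγ2, hγ, hκ, hc, hc1, hβ, hβγ, hρ, hβκ⟩ := g2_params hτ hτ'
  obtain ⟨w, hwsum, hw⟩ := explosive_quantiles hμ hτ hI hκ
  refine ⟨β, γ, hβ, hγ1, hβγ, fun y0 hy0 δ hδ => ?_⟩
  set A : ℝ := meanDeg μ + 1 with hA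
  have hA1 : 1 ≤ A := by
    have : 0 ≤ meanDeg μ := ENNReal.toReal_nonneg
    linarith
  set ρ : ℝ := 1 - (κ * (γ - 1) + c) with hρdef
  have hρ0 : 0 < ρ := by rw [hρdef]; linarith
  -- the choice of `j0`
  have e1 := g2_Y_double hκ hc
  have e2 := (g2_Y_tendsto hκ hc).eventually_ge_atTop 64
  have e3 := (g2_Y_tendsto hκ hc).eventually_ge_atTop y0
  have e4 := g2_tail_sum hwsum
  have e5 : ∀ᶠ j0 in atTop,
      128 * A * g2_Y κ c j0 ^ (-ρ) * (1 - 2 ^ (-ρ))⁻¹ < δ / 2 := by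
    have h1 : Tendsto (fun j0 => 128 * A * g2_Y κ c j0 ^ (-ρ) * (1 - 2 ^ (-ρ))⁻¹) atTop
        (𝓝 (128 * A * 0 * (1 - 2 ^ (-ρ))⁻¹)) :=
      (((tendsto_rpow_neg_atTop hρ0).comp (g2_Y_tendsto hκ hc)).const_mul _).mul_const _
    rw [mul_zero, zero_mul] at h1
    exact h1.eventually_lt_const (by linarith)
  obtain ⟨j0, h1, h2, h3, h4, h5⟩ := (e1.and (e2.and (e3.and (e4.and e5)))).exists
  refine ⟨⌊g2_Y κ c j0 / 16⌋₊, fun r0 => ?_⟩
  -- the size
  have hsize : Tendsto (fun d : DegSeq => (d.1 : ℝ) + 2) (regF μ β γ y0) atTop :=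
    tendsto_atTop_add_const_right _ _ (tendsto_natCast_atTop_atTop.comp regF_size)
  have hpow : ∀ {s : ℝ}, 0 < s → Tendsto (fun d : DegSeq => ((d.1 : ℝ) + 2) ^ s)
      (regF μ β γ y0) atTop := fun hs => (tendsto_rpow_atTop hs).comp hsize
  have f1 : ∀ᶠ d in regF μ β γ y0, ((∑ v, d.2 v : ℕ) : ℝ) / (d.1 + 2) < A :=
    (regF_mean (μ := μ)).eventually_lt_const (by rw [hA]; linarith)
  have f2 := regF_tail (μ := μ) (β := β) (γ := γ) (y0 := y0)
  have f3 := (hpow hβ).eventually_ge_atTop (g2_Y κ c j0)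
  have f4 := (hpow (s := 1 - β * γ) (by linarith)).eventually_ge_atTop (2 * (2 * (r0 : ℝ) + 1))
  have f5 := (hpow hβ).eventually_ge_atTop (8 * (2 * (r0 : ℝ) + 1) / 3)
  have f6 := (hpow (s := β / κ * (1 - c) + β - 1) (by linarith)).eventually_ge_atTop
    (128 * A / (δ / 2))
  filter_upwards [f1, f2, f3, f4, f5, f6] with d g1 g2 g3 g4 g5 g6
  intro vstar hvs η hη hlen v hv
  have hN : (1 : ℝ) ≤ (d.1 : ℝ) + 2 := by
    have : (0 : ℝ) ≤ d.1 := Nat.cast_nonneg _
    linarith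
  refine g2_core Ir Ib hγ hκ hc hc1 hβ hβγ hρdef hρ0 hA1 w j0 h1 h2 hw h4 h5.le
    ((d.1 : ℝ) + 2) hN ?_ ?_ g3 r0 g4 ?_ ?_ vstar hvs hη hlen hv
  · rw [div_lt_iff₀ (by linarith)] at g1
    exact g1.le
  · intro y hy hy'
    exact g2 y (h3.trans hy) hy'
  · rw [div_le_iff₀ (by norm_num)] at g5
    linarith
  · rw [div_le_iff₀ (by linarith)] at g6
    rw [div_le_iff₀ (Real.rpow_pos_of_pos (by linarith) _)]
    linarith


end Pool.Agent.Helper98.Comp
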