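import Pool.Agent.Helper98.Comp.Tree

/-!
# MODULE GWdec: decomposition of the Galton-Watson measure at the root
-/

set_option autoImplicit false

namespace Pool.Agent.Helper98.Comp

open MeasureTheory Filter Set
open scoped ENNReal NNReal Topology

variable {W W' : Type*} [MeasurableSpace W] [MeasurableSpace W']
  {α ν : Measure ℕ} {I : Measure W}
  [IsProbabilityMeasure α] [IsProbabilityMeasure ν] [IsProbabilityMeasure I]

instance gwd_isProb_label (u : List ℕ) :
    IsProbabilityMeasure ((if u = [] then α else ν).prod I) := by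
  split_ifs <;> infer_instance

instance : IsProbabilityMeasure (treeLaw α ν I) := by
  unfold treeLaw
  infer_instance

theorem measurable_sub (i : ℕ) : Measurable (fun ω : List ℕ → ℕ × W => sub ω i) := by
  unfold sub
  exact measurable_pi_iff.2 fun u => measurable_pi_apply _

/-- Gluing a root label and a sequence of subtrees. -/
def gwd_glue {β : Type*} (x : β) (f : ℕ → List ℕ → β) : List ℕ → β
  | [] => x
  | i :: u => f i u

theorem gwd_glue_nil {β : Type*} (x : β) (f : ℕ → List ℕ → β) : gwd_glue x f [] = x := rfl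

theorem gwd_sub_glue {β : Type*} (x : β) (f : ℕ → List ℕ → β) (i : ℕ) :
    sub (gwd_glue x f) i = f i := rfl

theorem gwd_measurable_glue :
    Measurable (fun p : (ℕ × W) × (ℕ → List ℕ → ℕ × W) => gwd_glue p.1 p.2) := by
  refine measurable_pi_iff.2 fun u => ?_
  cases u with
  | nil => exact measurable_fst
  | cons i u =>
    exact (measurable_pi_apply u).comp ((measurable_pi_apply i).comp measurable_snd)

/-- The heads of the nonempty words of a finset. -/
def gwd_heads (s : Finset (List ℕ)) : Finset ℕ := s.biUnion fun u => u.head?.toFinset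

/-- The tails of the words with head `i`. -/
noncomputable def gwd_tails (s : Finset (List ℕ)) (i : ℕ) : Finset (List ℕ) :=
  s.preimage (fun u => i :: u) (by intro a _ b _ h; simpa using h)

theorem gwd_mem_tails {s : Finset (List ℕ)} {i : ℕ} {u : List ℕ} :
    u ∈ gwd_tails s i ↔ i :: u ∈ s := by
  simp [gwd_tails]

theorem gwd_mem_heads {s : Finset (List ℕ)} {i : ℕ} {u : List ℕ} (h : i :: u ∈ s) :
    i ∈ gwd_heads s := by
  unfold gwd_heads
  rw [Finset.mem_biUnion]
  exact ⟨_, h, by simp⟩

theorem gwd_prod_split {M : Type*} [CommMonoid M] (s : Finset (List ℕ)) (g : List ℕ → M) :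
    ∏ u ∈ s, g u = (if [] ∈ s then g [] else 1) *
      ∏ i ∈ gwd_heads s, ∏ u ∈ gwd_tails s i, g (i :: u) := by
  classical
  have h1 : ∏ i ∈ gwd_heads s, ∏ u ∈ gwd_tails s i, g (i :: u) = ∏ u ∈ s.erase [], g u := by
    rw [← Finset.prod_sigma (gwd_heads s) (gwd_tails s) (fun p => g (p.1 :: p.2))]
    refine Finset.prod_bij (fun p _ => p.1 :: p.2) ?_ ?_ ?_ ?_
    · rintro ⟨i, u⟩ hp
      rw [Finset.mem_sigma] at hp
      rw [Finset.mem_erase]
      exact ⟨by simp, gwd_mem_tails.1 hp.2⟩
    · rintro ⟨i, u⟩ _ ⟨j, v⟩ _ h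
      simp only [List.cons.injEq] at h
      obtain ⟨rfl, rfl⟩ := h
      rfl
    · intro u hu
      rw [Finset.mem_erase] at hu
      cases u with
      | nil => exact absurd rfl hu.1
      | cons i u =>
        exact ⟨⟨i, u⟩, Finset.mem_sigma.2 ⟨gwd_mem_heads hu.2, gwd_mem_tails.2 hu.2⟩, rfl⟩
    · rintro ⟨i, u⟩ _
      rfl
  rw [h1]
  split_ifs with h
  · rw [Finset.mul_prod_erase _ _ h]
  · rw [Finset.erase_eq_of_notMem h, one_mul]

/-- The tree law is the image of the product measure under gluing. -/
theorem gwd_map_glue :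
    ((α.prod I).prod (Measure.infinitePi fun _ : ℕ => treeLaw ν ν I)).map
      (fun p => gwd_glue p.1 p.2) = treeLaw α ν I := by
  classical
  unfold treeLaw
  apply Measure.eq_infinitePi
  intro s t ht
  rw [Measure.map_apply gwd_measurable_glue
    (MeasurableSet.pi s.countable_toSet fun _ _ => ht _)]
  have hpre : (fun p : (ℕ × W) × (ℕ → List ℕ → ℕ × W) => gwd_glue p.1 p.2) ⁻¹'
      (Set.pi (s : Set (List ℕ)) t) =
      (if [] ∈ s then t [] else Set.univ) ×ˢ
        (Set.pi (gwd_heads s : Set ℕ) fun i => Set.pi (gwd_tails s i : Set (List ℕ))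
          fun u => t (i :: u)) := by
    ext ⟨x, f⟩
    simp only [Set.mem_preimage, Set.mem_pi, Finset.mem_coe, Set.mem_prod]
    constructor
    · intro h
      refine ⟨?_, ?_⟩
      · split_ifs with h0
        · exact h [] h0
        · trivial
      · intro i _ u hu
        exact h (i :: u) (gwd_mem_tails.1 hu)
    · rintro ⟨h1, h2⟩ u hu
      cases u with
      | nil => rw [if_pos hu] at h1; exact h1
      | cons i u => exact h2 i (gwd_mem_heads hu) u (gwd_mem_tails.2 hu)
  rw [hpre, Measure.prod_prod]
  rw [Measure.infinitePi_pi]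
  · rw [gwd_prod_split s]
    congr 1
    · by_cases h0 : [] ∈ s
      · simp only [h0, if_true]
      · simp only [h0, if_false]
        exact measure_univ (μ := α.prod I)
    · refine Finset.prod_congr rfl fun i _ => ?_
      rw [Measure.infinitePi_pi]
      · refine Finset.prod_congr rfl fun u _ => ?_
        simp
      · intro u _
        exact ht _
  · intro i _
    exact MeasurableSet.pi (Finset.countable_toSet _) fun _ _ => ht _

/-- The root label and the subtrees of the potential children are independent; the subtrees have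
the law of the tree with root law `ν` (the root weight of the `i`-th subtree is the weight of the
edge between the root and its `i`-th child). -/
theorem treeLaw_decomp :
    (treeLaw α ν I).map (fun ω => (ω [], fun i : ℕ => sub ω i)) =
      (α.prod I).prod (Measure.infinitePi fun _ : ℕ => treeLaw ν ν I) := by
  have hm : Measurable (fun ω : List ℕ → ℕ × W => (ω [], fun i : ℕ => sub ω i)) :=
    (measurable_pi_apply _).prodMk (measurable_pi_iff.2 fun i => measurable_sub i)
  rw [← gwd_map_glue (α := α), Measure.map_map hm gwd_measurable_glue]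
  exact Measure.map_id

/-- Integrals with respect to the tree law. -/
theorem gwd_lintegral {F : (List ℕ → ℕ × W) → ℝ≥0∞} (hF : Measurable F) :
    ∫⁻ ω, F ω ∂(treeLaw α ν I) = ∫⁻ k, ∫⁻ x, ∫⁻ f, F (gwd_glue (k, x) f)
      ∂(Measure.infinitePi fun _ : ℕ => treeLaw ν ν I) ∂I ∂α := by
  have hc : Measurable (fun p : (ℕ × W) × (ℕ → List ℕ → ℕ × W) => F (gwd_glue p.1 p.2)) :=
    hF.comp gwd_measurable_glue
  rw [← gwd_map_glue (α := α), lintegral_map hF gwd_measurable_glue,
    lintegral_prod _ hc.aemeasurable, lintegral_prod _ (hc.lintegral_prod_right').aemeasurable]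

/-- Image under a map of the weights. -/
theorem treeLaw_map {f : W → W'} (hf : Measurable f) :
    (treeLaw α ν I).map (fun ω u => ((ω u).1, f (ω u).2)) = treeLaw α ν (I.map f) := by
  have : IsProbabilityMeasure (I.map f) := Measure.isProbabilityMeasure_map hf.aemeasurable
  unfold treeLaw
  have h := Measure.infinitePi_map_pi (fun u : List ℕ => (if u = [] then α else ν).prod I)
    (f := fun _ : List ℕ => Prod.map id f) (fun _ => measurable_id.prodMap hf)
  have h2 : (fun u : List ℕ => ((if u = [] then α else ν).prod I).map (Prod.map id f)) =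
      fun u : List ℕ => (if u = [] then α else ν).prod (I.map f) := by
    funext u
    split_ifs <;> rw [← Measure.map_prod_map _ _ measurable_id hf, Measure.map_id]
  rw [h2] at h
  exact h

theorem gwd_measurableSet_forall {A : Set (List ℕ → ℕ × W)} (hA : MeasurableSet A) (S : Set ℕ) :
    MeasurableSet {ω : List ℕ → ℕ × W | (ω []).1 ∈ S ∧ ∀ i < (ω []).1, sub ω i ∈ A} := by
  have h1 : {ω : List ℕ → ℕ × W | (ω []).1 ∈ S ∧ ∀ i < (ω []).1, sub ω i ∈ A} =
      ⋃ k : ℕ, {ω | (ω []).1 = k} ∩ ({_ω | k ∈ S} ∩ ⋂ i : ℕ, {ω | i < k → sub ω i ∈ A}) := by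
    ext ω
    simp only [Set.mem_iUnion, Set.mem_inter_iff, Set.mem_iInter, Set.mem_ofPred_eq]
    constructor
    · rintro ⟨h, h'⟩
      exact ⟨_, rfl, h, h'⟩
    · rintro ⟨k, rfl, h, h'⟩
      exact ⟨h, h'⟩
  rw [h1]
  refine MeasurableSet.iUnion fun k => MeasurableSet.inter ?_ (MeasurableSet.inter ?_ ?_)
  · exact (measurable_fst.comp (measurable_pi_apply ([] : List ℕ))) (measurableSet_singleton k)
  · exact MeasurableSet.const _
  · refine MeasurableSet.iInter fun i => ?_
    by_cases hi : i < k
    · simp only [hi, forall_true_left]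
      exact measurable_sub i hA
    · simp [hi]

/-- Probability that all children's subtrees belong to `A` (and the number of children belongs
to `S`). -/
theorem treeLaw_forall_children {A : Set (List ℕ → ℕ × W)} (hA : MeasurableSet A) (S : Set ℕ) :
    treeLaw α ν I {ω | (ω []).1 ∈ S ∧ ∀ i < (ω []).1, sub ω i ∈ A} =
      ∑' k : ℕ, S.indicator (fun k => α {k} * treeLaw ν ν I A ^ k) k := by
  have hm := gwd_measurableSet_forall hA S
  rw [← lintegral_indicator_one hm, gwd_lintegral (measurable_one.indicator hm),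
    lintegral_countable']
  refine tsum_congr fun k => ?_
  by_cases hk : k ∈ S
  · rw [Set.indicator_of_mem hk, mul_comm]
    congr 1
    have h1 : ∀ x : W, ∫⁻ f, ({ω : List ℕ → ℕ × W | (ω []).1 ∈ S ∧
        ∀ i < (ω []).1, sub ω i ∈ A}.indicator 1 : (List ℕ → ℕ × W) → ℝ≥0∞) (gwd_glue (k, x) f)
        ∂(Measure.infinitePi fun _ : ℕ => treeLaw ν ν I) = treeLaw ν ν I A ^ k := by
      intro x
      have h2 : ∀ f : ℕ → List ℕ → ℕ × W, ({ω : List ℕ → ℕ × W | (ω []).1 ∈ S ∧
          ∀ i < (ω []).1, sub ω i ∈ A}.indicator 1 : (List ℕ → ℕ × W) → ℝ≥0∞)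
          (gwd_glue (k, x) f) =
          (Set.pi (Finset.range k : Set ℕ) (fun _ => A)).indicator 1 f := by
        intro f
        by_cases hf : ∀ i < k, f i ∈ A
        · rw [Set.indicator_of_mem, Set.indicator_of_mem]
          · rfl
          · intro i hi
            exact hf i (by simpa using hi)
          · exact ⟨hk, hf⟩
        · rw [Set.indicator_of_notMem, Set.indicator_of_notMem]
          · intro h
            exact hf fun i hi => h i (by simpa using hi)
          · intro h
            exact hf h.2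
      simp_rw [h2]
      rw [lintegral_indicator_one (MeasurableSet.pi (Finset.countable_toSet _) fun _ _ => hA),
        Measure.infinitePi_pi _ (fun _ _ => hA)]
      simp
    simp_rw [h1]
    simp
  · rw [Set.indicator_of_notMem hk]
    have h1 : ∀ (x : W) (f : ℕ → List ℕ → ℕ × W), ({ω : List ℕ → ℕ × W | (ω []).1 ∈ S ∧
        ∀ i < (ω []).1, sub ω i ∈ A}.indicator 1 : (List ℕ → ℕ × W) → ℝ≥0∞)
        (gwd_glue (k, x) f) = 0 := by
      intro x f
      rw [Set.indicator_of_notMem]
      intro h
      exact hk h.1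
    simp_rw [h1]
    simp

/-- First moment: the expected number of children whose subtree satisfies `f`, when moreover
all children's subtrees belong to `A`: if `f ω > 0` only for `ω ∈ A` this is at most
`(∑ k α(k) k P(A)^(k-1)) E f`. -/
theorem treeLaw_first_moment {A : Set (List ℕ → ℕ × W)} (hA : MeasurableSet A)
    {f : (List ℕ → ℕ × W) → ℝ≥0∞} (hf : Measurable f) (S : Set ℕ) :
    ∫⁻ ω, {ω | (ω []).1 ∈ S ∧ ∀ i < (ω []).1, sub ω i ∈ A}.indicator
        (fun ω => ∑ i ∈ Finset.range (ω []).1, f (sub ω i)) ω ∂(treeLaw α ν I) ≤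
      (∑' k : ℕ, S.indicator (fun k => α {k} * k * treeLaw ν ν I A ^ (k - 1)) k) *
        ∫⁻ ω, f ω ∂(treeLaw ν ν I) := by
  classical
  have hm := gwd_measurableSet_forall (W := W) hA S
  have hms : Measurable fun ω : List ℕ → ℕ × W => ∑ i ∈ Finset.range (ω []).1, f (sub ω i) := by
    have h1 : Measurable fun ω : List ℕ → ℕ × W => (ω []).1 :=
      measurable_fst.comp (measurable_pi_apply ([] : List ℕ))
    have h2 : Measurable fun p : ℕ × (List ℕ → ℕ × W) =>
        ∑ i ∈ Finset.range p.1, f (sub p.2 i) := by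
      refine measurable_from_prod_countable_right fun k => ?_
      exact Finset.measurable_sum (f := fun i (ω : List ℕ → ℕ × W) => f (sub ω i))
        (Finset.range k) fun i _ => hf.comp (measurable_sub i)
    exact h2.comp (h1.prodMk measurable_id)
  rw [gwd_lintegral (hms.indicator hm), lintegral_countable', ← ENNReal.tsum_mul_right]
  refine ENNReal.tsum_le_tsum fun k => ?_
  by_cases hk : k ∈ S
  · rw [Set.indicator_of_mem hk]
    have h1 : ∀ x : W, ∫⁻ g, {ω : List ℕ → ℕ × W | (ω []).1 ∈ S ∧
        ∀ i < (ω []).1, sub ω i ∈ A}.indicator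
          (fun ω => ∑ i ∈ Finset.range (ω []).1, f (sub ω i)) (gwd_glue (k, x) g)
        ∂(Measure.infinitePi fun _ : ℕ => treeLaw ν ν I) ≤
        k * (treeLaw ν ν I A ^ (k - 1) * ∫⁻ ω, f ω ∂(treeLaw ν ν I)) := by
      intro x
      let h : ℕ → ℕ → (List ℕ → ℕ × W) → ℝ≥0∞ := fun i j =>
        if j = i then f else A.indicator 1
      have hh : ∀ i j, Measurable (h i j) := by
        intro i j
        simp only [h]
        split_ifs
        · exact hf
        · exact measurable_one.indicator hA
      have h2 : ∀ g : ℕ → List ℕ → ℕ × W, {ω : List ℕ → ℕ × W | (ω []).1 ∈ S ∧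
          ∀ i < (ω []).1, sub ω i ∈ A}.indicator
          (fun ω => ∑ i ∈ Finset.range (ω []).1, f (sub ω i)) (gwd_glue (k, x) g) ≤
          ∑ i ∈ Finset.range k, ∏ j ∈ Finset.range k, h i j (g j) := by
        intro g
        by_cases hg : ∀ i < k, g i ∈ A
        · rw [Set.indicator_of_mem (s := {ω : List ℕ → ℕ × W | (ω []).1 ∈ S ∧
            ∀ i < (ω []).1, sub ω i ∈ A}) ⟨hk, hg⟩]
          refine Finset.sum_le_sum fun i hi => le_of_eq ?_
          replace hi : i ∈ Finset.range k := hi
          rw [gwd_sub_glue, ← Finset.mul_prod_erase _ _ hi, Finset.prod_eq_one, mul_one]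
          · simp [h]
          · intro j hj
            rw [Finset.mem_erase] at hj
            simp only [h, if_neg hj.1]
            rw [Set.indicator_of_mem (hg j (by simpa using hj.2))]
            rfl
        · rw [Set.indicator_of_notMem]
          · exact zero_le
          · intro h'
            exact hg h'.2
      calc _ ≤ ∫⁻ g, ∑ i ∈ Finset.range k, ∏ j ∈ Finset.range k, h i j (g j)
            ∂(Measure.infinitePi fun _ : ℕ => treeLaw ν ν I) := lintegral_mono h2
        _ = ∑ i ∈ Finset.range k, ∫⁻ g, ∏ j ∈ Finset.range k, h i j (g j)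
            ∂(Measure.infinitePi fun _ : ℕ => treeLaw ν ν I) := by
            rw [lintegral_finsetSum]
            intro i _
            exact Finset.measurable_prod _ fun j _ => (hh i j).comp (measurable_pi_apply j)
        _ = ∑ i ∈ Finset.range k, treeLaw ν ν I A ^ (k - 1) *
            ∫⁻ ω, f ω ∂(treeLaw ν ν I) := by
            refine Finset.sum_congr rfl fun i hi => ?_
            have hind := ProbabilityTheory.iIndepFun_infinitePi
              (P := fun _ : ℕ => treeLaw ν ν I) (X := h i) (hh i)
            rw [ProbabilityTheory.lintegral_prod_eq_prod_lintegral_of_indepFun _ _ hind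
              (fun j => (hh i j).comp (measurable_pi_apply j))]
            have h3 : ∀ j, ∫⁻ g, h i j (g j) ∂(Measure.infinitePi fun _ : ℕ => treeLaw ν ν I) =
                ∫⁻ ω, h i j ω ∂(treeLaw ν ν I) := by
              intro j
              rw [← Measure.infinitePi_map_eval (fun _ : ℕ => treeLaw ν ν I) j,
                lintegral_map (hh i j) (measurable_pi_apply j)]
              rw [Measure.infinitePi_map_eval (fun _ : ℕ => treeLaw ν ν I) j]
            simp_rw [h3]
            rw [← Finset.mul_prod_erase _ _ hi, mul_comm]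
            congr 1
            · rw [Finset.prod_congr rfl (g := fun _ => treeLaw ν ν I A)]
              · rw [Finset.prod_const, Finset.card_erase_of_mem hi, Finset.card_range]
              · intro j hj
                rw [Finset.mem_erase] at hj
                simp only [h, if_neg hj.1]
                exact lintegral_indicator_one hA
            · simp [h]
        _ = _ := by
            rw [Finset.sum_const, Finset.card_range, nsmul_eq_mul]
    calc _ ≤ (∫⁻ _x : W, k * (treeLaw ν ν I A ^ (k - 1) * ∫⁻ ω, f ω ∂(treeLaw ν ν I)) ∂I) *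
          α {k} := by
          gcongr with x
          exact h1 x
      _ = _ := by
          rw [lintegral_const, measure_univ, mul_one]
          ring
  · have h1 : ∀ (x : W) (g : ℕ → List ℕ → ℕ × W), {ω : List ℕ → ℕ × W | (ω []).1 ∈ S ∧
        ∀ i < (ω []).1, sub ω i ∈ A}.indicator
          (fun ω => ∑ i ∈ Finset.range (ω []).1, f (sub ω i)) (gwd_glue (k, x) g) = 0 := by
      intro x f
      rw [Set.indicator_of_notMem]
      intro h
      exact hk h.1
    simp_rw [h1]
    simp

/-- The root weight is independent of everything else. -/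
theorem treeLaw_root_weight {P : W → (List ℕ → ℕ × W) → Prop}
    (hP : MeasurableSet {p : W × (List ℕ → ℕ × W) | P p.1 p.2})
    (hP' : ∀ x ω ω', (∀ u, (ω u).1 = (ω' u).1) → (∀ u, u ≠ [] → ω u = ω' u) →
      (P x ω ↔ P x ω')) :
    treeLaw α ν I {ω | P (ω []).2 ω} = ∫⁻ x, treeLaw α ν I {ω | P x ω} ∂I := by
  have hG : Measurable (({p : W × (List ℕ → ℕ × W) | P p.1 p.2}.indicator 1 :
      W × (List ℕ → ℕ × W) → ℝ≥0∞)) := measurable_one.indicator hP
  have hm1 : Measurable fun ω : List ℕ → ℕ × W => ((ω []).2, ω) :=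
    (measurable_snd.comp (measurable_pi_apply ([] : List ℕ))).prodMk measurable_id
  have hP1 : MeasurableSet {ω : List ℕ → ℕ × W | P (ω []).2 ω} := hm1 hP
  have hP2 : ∀ x, MeasurableSet {ω : List ℕ → ℕ × W | P x ω} := fun x => measurable_prodMk_left hP
  -- the left hand side
  have e1 : treeLaw α ν I {ω | P (ω []).2 ω} = ∫⁻ k, ∫⁻ x, ∫⁻ f,
      ({p : W × (List ℕ → ℕ × W) | P p.1 p.2}.indicator 1 :
        W × (List ℕ → ℕ × W) → ℝ≥0∞) (x, gwd_glue (k, x) f)
      ∂(Measure.infinitePi fun _ : ℕ => treeLaw ν ν I) ∂I ∂α := by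
    rw [← lintegral_indicator_one hP1, gwd_lintegral (measurable_one.indicator hP1)]
    rfl
  have e2 : ∀ x, treeLaw α ν I {ω | P x ω} = ∫⁻ k, ∫⁻ y, ∫⁻ f,
      ({p : W × (List ℕ → ℕ × W) | P p.1 p.2}.indicator 1 :
        W × (List ℕ → ℕ × W) → ℝ≥0∞) (x, gwd_glue (k, y) f)
      ∂(Measure.infinitePi fun _ : ℕ => treeLaw ν ν I) ∂I ∂α := by
    intro x
    rw [← lintegral_indicator_one (hP2 x), gwd_lintegral (measurable_one.indicator (hP2 x))]
    rfl
  have e3 : ∀ (x y : W) (k : ℕ) (f : ℕ → List ℕ → ℕ × W),
      ({p : W × (List ℕ → ℕ × W) | P p.1 p.2}.indicator 1 :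
        W × (List ℕ → ℕ × W) → ℝ≥0∞) (x, gwd_glue (k, y) f) =
      ({p : W × (List ℕ → ℕ × W) | P p.1 p.2}.indicator 1 :
        W × (List ℕ → ℕ × W) → ℝ≥0∞) (x, gwd_glue (k, x) f) := by
    intro x y k f
    have h : P x (gwd_glue (k, y) f) ↔ P x (gwd_glue (k, x) f) := by
      apply hP'
      · intro u
        cases u <;> rfl
      · intro u hu
        cases u with
        | nil => exact absurd rfl hu
        | cons i u => rfl
    by_cases h0 : P x (gwd_glue (k, x) f)
    · rw [Set.indicator_of_mem (s := {p : W × (List ℕ → ℕ × W) | P p.1 p.2})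
          (a := (x, gwd_glue (k, y) f)) (h.2 h0),
        Set.indicator_of_mem (s := {p : W × (List ℕ → ℕ × W) | P p.1 p.2})
          (a := (x, gwd_glue (k, x) f)) h0]
      rfl
    · rw [Set.indicator_of_notMem (s := {p : W × (List ℕ → ℕ × W) | P p.1 p.2})
          (a := (x, gwd_glue (k, y) f)) (fun h1 => h0 (h.1 h1)),
        Set.indicator_of_notMem (s := {p : W × (List ℕ → ℕ × W) | P p.1 p.2})
          (a := (x, gwd_glue (k, x) f)) h0]
  rw [e1]
  simp_rw [e2, e3]
  simp_rw [lintegral_const, measure_univ, mul_one]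
  rw [lintegral_lintegral_swap]
  have hm2 : Measurable fun q : (ℕ × W) × (ℕ → List ℕ → ℕ × W) =>
      (q.1.2, gwd_glue (q.1.1, q.1.2) q.2) :=
    (measurable_snd.comp measurable_fst).prodMk gwd_measurable_glue
  exact ((hG.comp hm2).lintegral_prod_right').aemeasurable

/-! ### Measurability of the basic events -/

theorem measurableSet_alive (u : List ℕ) :
    MeasurableSet {ω : List ℕ → ℕ × W | alive (Kf ω) u} := by
  induction u with
  | nil => simp [alive]
  | cons i u ih =>
    have h1 : {ω : List ℕ → ℕ × W | alive (Kf ω) (i :: u)} =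
        {ω | i < (ω []).1} ∩ (fun ω : List ℕ → ℕ × W => sub ω i) ⁻¹' {ω | alive (Kf ω) u} := rfl
    rw [h1]
    refine MeasurableSet.inter ?_ (measurable_sub i ih)
    exact measurableSet_lt measurable_const
      (measurable_fst.comp (measurable_pi_apply ([] : List ℕ)))

theorem measurableSet_rel (M R : ℕ) (u : List ℕ) :
    MeasurableSet {ω : List ℕ → ℕ × W | rel M R (Kf ω) u} := by
  induction u generalizing R with
  | nil => simp [rel_nil]
  | cons i u ih =>
    cases R with
    | zero => simp [rel]
    | succ R =>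
      have h1 : {ω : List ℕ → ℕ × W | rel M (R + 1) (Kf ω) (i :: u)} =
          {ω | (ω []).1 < M} ∩ ({ω | i < (ω []).1} ∩
            (fun ω : List ℕ → ℕ × W => sub ω i) ⁻¹' {ω | rel M R (Kf ω) u}) := rfl
      rw [h1]
      have h2 : Measurable fun ω : List ℕ → ℕ × W => (ω []).1 :=
        measurable_fst.comp (measurable_pi_apply ([] : List ℕ))
      exact (measurableSet_lt h2 measurable_const).inter
        ((measurableSet_lt measurable_const h2).inter (measurable_sub i (ih R)))

theorem measurable_dist (u : List ℕ) :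
    Measurable (fun X : List ℕ → ℝ≥0 => dist X u) := by
  induction u with
  | nil => exact measurable_const
  | cons i u ih =>
    have h1 : Measurable fun X : List ℕ → ℝ≥0 => sub X i :=
      measurable_pi_iff.2 fun v => measurable_pi_apply _
    exact (measurable_pi_apply [i]).add (ih.comp h1)

/-- Joint measurability of `Near` in the labels and in the time. -/
theorem measurableSet_near (M R : ℕ) :
    MeasurableSet {p : (List ℕ → ℕ × ℝ≥0) × ℝ | Near M R (Kf p.1) (Xf p.1) p.2} := by
  have h1 : {p : (List ℕ → ℕ × ℝ≥0) × ℝ | Near M R (Kf p.1) (Xf p.1) p.2} =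
      ⋃ u : List ℕ, (Prod.fst ⁻¹' {ω : List ℕ → ℕ × ℝ≥0 | rel M R (Kf ω) u}) ∩
        ({p : (List ℕ → ℕ × ℝ≥0) × ℝ | M ≤ (p.1 u).1} ∩
          {p : (List ℕ → ℕ × ℝ≥0) × ℝ | (dist (Xf p.1) u : ℝ) < p.2}) := by
    ext p
    simp only [Near, Set.mem_iUnion, Set.mem_inter_iff, Set.mem_ofPred_eq, Set.mem_preimage]
    rfl
  rw [h1]
  refine MeasurableSet.iUnion fun u => ?_
  refine (measurable_fst (measurableSet_rel M R u)).inter (MeasurableSet.inter ?_ ?_)
  · exact measurableSet_le measurable_const
      (measurable_fst.comp ((measurable_pi_apply u).comp measurable_fst))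
  · refine measurableSet_lt ?_ measurable_snd
    have h2 : Measurable fun p : (List ℕ → ℕ × ℝ≥0) × ℝ => Xf p.1 :=
      measurable_pi_iff.2 fun v =>
        measurable_snd.comp ((measurable_pi_apply v).comp measurable_fst)
    exact measurable_coe_nnreal_real.comp ((measurable_dist u).comp h2)

end Pool.Agent.Helper98.Comp
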