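import Pool.Agent.Helper98.Comp.Explore
import Pool.Agent.Helper98.Comp.RegF
import Pool.Agent.Helper98.Comp.GWdec

/-!
# MODULE Count / Local: local limit of the configuration model
-/

set_option autoImplicit false

namespace Pool.Agent.Helper98.Comp

open MeasureTheory Filter Set
open scoped ENNReal NNReal Topology

/-- Quenched probability of an event. -/
noncomputable def qprob {n : ℕ} (d : Fin n → ℕ) (Ir Ib : Measure ℝ≥0)
    (E : Pairing d → Fin n → Fin n → Set (Sym2 (HE d) → ℝ≥0 × ℝ≥0)) : ℝ≥0∞ :=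
  (∑ σ : Pairing d, ∑ p : {p : Fin n × Fin n // p.1 ≠ p.2},
      (Measure.pi fun _ : Sym2 (HE d) => Ir.prod Ib) (E σ p.1.1 p.1.2)) /
    ((Fintype.card (Pairing d) : ℝ≥0∞) * Fintype.card {p : Fin n × Fin n // p.1 ≠ p.2})

theorem quenched_eq_qprob {n : ℕ} (d : Fin n → ℕ) (Ir Ib : Measure ℝ≥0)
    (Bad : ℕ → ℕ → Prop) :
    quenched d Ir Ib Bad = qprob d Ir Ib fun σ ur ub =>
      {x | ∃ T c, IsOutcome σ x ur ub T c ∧ Bad (painted T c true) (painted T c false)} := rfl

/-- The exploration of the two sources has the shape `k`. -/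
def ShapeEv {n : ℕ} {d : Fin n → ℕ} (M R : ℕ) (k : Bool → List ℕ → ℕ) (σ : Pairing d)
    (ur ub : Fin n) : Prop :=
  EmbOK M R σ ur ub ∧ ∀ b u, rel M R (k b) u → fK σ (rt ur ub b) u = k b u

open Classical in
/-- Proportion of the pairs (pairing, sources) with a property. -/
noncomputable def qfrac {n : ℕ} (d : Fin n → ℕ) (E : Pairing d → Fin n → Fin n → Prop) : ℝ :=
  ((Finset.univ.filter fun z : Pairing d × {p : Fin n × Fin n // p.1 ≠ p.2} =>
      E z.1 z.2.1.1 z.2.1.2).card : ℝ) /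
    ((Fintype.card (Pairing d) : ℝ) * Fintype.card {p : Fin n × Fin n // p.1 ≠ p.2})

/-! ### MODULE Count: auxiliary material -/

section Count

/-- The relevant words of a shape. -/
noncomputable def cnA (M R : ℕ) (k : Bool → List ℕ → ℕ) : Finset (Bool × List ℕ) :=
  Set.Finite.toFinset (s := {a : Bool × List ℕ | rel M R (k a.1) a.2})
    (((Set.finite_univ (α := Bool)).prod (box_finite M R)).subset fun _ ha =>
      ⟨mem_univ _, rel_mem_box ha⟩)

theorem mem_cnA {M R : ℕ} {k : Bool → List ℕ → ℕ} {a : Bool × List ℕ} :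
    a ∈ cnA M R k ↔ rel M R (k a.1) a.2 := by
  simp [cnA]

/-- The root words. -/
noncomputable def cnR (M R : ℕ) (k : Bool → List ℕ → ℕ) (b : Bool) : cnA M R k :=
  ⟨(b, []), mem_cnA.2 (rel_nil _ _ _)⟩

/-- Degree of the vertex at a word of the shape. -/
def cnM (k : Bool → List ℕ → ℕ) (a : Bool × List ℕ) : ℕ :=
  k a.1 a.2 + if a.2 = [] then 0 else 1

/-- Number of possible entries. -/
def cnC (k : Bool → List ℕ → ℕ) (a : Bool × List ℕ) : ℕ :=
  if a.2 = [] then 1 else k a.1 a.2 + 1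

/-- The non-root words. -/
abbrev cnN (M R : ℕ) (k : Bool → List ℕ → ℕ) : Type := {a : cnA M R k // a.1.2 ≠ []}

theorem cn_rel {M R : ℕ} {k : Bool → List ℕ → ℕ} (a : cnN M R k) :
    rel M R (k a.1.1.1) (a.1.1.2.dropLast) ∧
      a.1.1.2.getLast a.2 < k a.1.1.1 (a.1.1.2.dropLast) := by
  have h := mem_cnA.1 a.1.2
  rw [← List.dropLast_append_getLast a.2, rel_snoc] at h
  exact ⟨h.1, h.2.2.2⟩

/-- The parent of a non-root word. -/
noncomputable def cnP {M R : ℕ} {k : Bool → List ℕ → ℕ} (a : cnN M R k) : cnA M R k :=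
  ⟨(a.1.1.1, a.1.1.2.dropLast), mem_cnA.2 (cn_rel a).1⟩

theorem cn_ext {M R : ℕ} {k : Bool → List ℕ → ℕ} {a b : cnN M R k} (h : cnP a = cnP b)
    (h' : a.1.1.2.getLast a.2 = b.1.1.2.getLast b.2) : a = b := by
  have h1 := congrArg (fun x : cnA M R k => x.1.1) h
  have h2 := congrArg (fun x : cnA M R k => x.1.2) h
  simp only [cnP] at h1 h2
  apply Subtype.ext
  apply Subtype.ext
  apply Prod.ext h1
  rw [← List.dropLast_append_getLast a.2, ← List.dropLast_append_getLast b.2, h2, h']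

theorem cn_skip_lt {p : Option ℕ} {i m : ℕ} (h : i < m) : skip p i < m + (if p = none then 0 else 1) := by
  cases p with
  | none => simpa [skip] using h
  | some j =>
    simp only [skip, reduceCtorEq, if_false]
    split_ifs <;> omega

theorem cn_skip_ne {j i : ℕ} : skip (some j) i ≠ j := by
  simp only [skip]
  split_ifs <;> omega

theorem cn_skip_inj {p : Option ℕ} {i i' : ℕ} (h : skip p i = skip p i') : i = i' := by
  cases p with
  | none => simpa [skip] using h
  | some j =>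
    simp only [skip] at h
    split_ifs at h <;> omega

variable {n : ℕ} {d : Fin n → ℕ}

/-- Target position. -/
noncomputable def cnQ {M R : ℕ} {k : Bool → List ℕ → ℕ} (φ : cnA M R k → Fin n)
    (j : cnA M R k → ℕ) (a : cnA M R k) : Fin n × Option ℕ :=
  (φ a, if a.1.2 = [] then none else some (j a))

/-- Valid data. -/
def cnV (d : Fin n → ℕ) {M R : ℕ} {k : Bool → List ℕ → ℕ} (φ : cnA M R k → Fin n)
    (j : cnA M R k → ℕ) : Prop :=
  (Function.Injective φ ∧ ∀ a, d (φ a) = cnM k a.1) ∧ ∀ a, j a < cnC k a.1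

theorem cn_exists_list {M R : ℕ} {k : Bool → List ℕ → ℕ} {φ : cnA M R k → Fin n}
    {j : cnA M R k → ℕ} (hV : cnV d φ j) :
    ∃ η : List (HE d × HE d), Fresh η ∧ η.length = Fintype.card (cnN M R k) ∧
      ∀ σ : Pairing d, σ ∈ Ext η ↔
        ∀ a : cnA M R k, pos σ (φ (cnR M R k a.1.1)) a.1.2 = some (cnQ φ j a) := by
  classical
  obtain ⟨⟨hinj, hdeg⟩, hj⟩ := hV
  have hlt : ∀ a : cnN M R k, skip (cnQ φ j (cnP a)).2 (a.1.1.2.getLast a.2) < d (φ (cnP a)) := by
    intro a
    rw [hdeg]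
    refine (cn_skip_lt (cn_rel a).2).trans_le (le_of_eq ?_)
    simp only [cnM, cnP, cnQ]
    split_ifs <;> simp_all
  have hlt' : ∀ a : cnN M R k, j a.1 < d (φ a.1) := by
    intro a
    rw [hdeg]
    have := hj a.1
    simpa [cnM, cnC, a.2] using this
  let hh : cnN M R k → HE d := fun a => ⟨φ (cnP a), ⟨_, hlt a⟩⟩
  let ee : cnN M R k → HE d := fun a => ⟨φ a.1, ⟨_, hlt' a⟩⟩
  have hslot : ∀ a : cnN M R k, slot (d := d) (cnQ φ j (cnP a)) (a.1.1.2.getLast a.2) = some (hh a) := by
    intro a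
    exact dif_pos (hlt a)
  have hee : Function.Injective ee := by
    intro a b h
    have h1 : φ a.1 = φ b.1 := congrArg Sigma.fst h
    exact Subtype.ext (hinj h1)
  have hval : ∀ g g' : HE d, g = g' → g.1 = g'.1 ∧ g.2.val = g'.2.val := by
    rintro g g' rfl; exact ⟨rfl, rfl⟩
  have hhh : Function.Injective hh := by
    intro a b h
    obtain ⟨h1, h2⟩ := hval _ _ h
    have h3 : cnP a = cnP b := hinj h1
    refine cn_ext h3 ?_
    have h4 : skip (cnQ φ j (cnP a)).2 (a.1.1.2.getLast a.2) =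
      skip (cnQ φ j (cnP b)).2 (b.1.1.2.getLast b.2) := h2
    rw [h3] at h4
    exact cn_skip_inj h4
  have hhe : ∀ a b, hh a ≠ ee b := by
    intro a b h
    obtain ⟨h1, h2⟩ := hval _ _ h
    have h3 : cnP a = b.1 := hinj h1
    have h4 : skip (cnQ φ j (cnP a)).2 (a.1.1.2.getLast a.2) = j b.1 := h2
    rw [h3] at h4
    have h5 : (cnQ φ j b.1).2 = some (j b.1) := by
      simp [cnQ, b.2]
    rw [h5] at h4
    exact cn_skip_ne h4
  refine ⟨(Finset.univ : Finset (cnN M R k)).toList.map fun a => (hh a, ee a), ?_, ?_, ?_⟩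
  · unfold Fresh rev
    rw [List.flatMap_map, List.nodup_flatMap]
    refine ⟨fun a _ => by simp [hhe a a], ?_⟩
    have h1 := (Finset.univ : Finset (cnN M R k)).nodup_toList
    refine h1.imp fun {a b} hab => ?_
    simp only [Function.onFun, List.disjoint_left]
    intro g hg hg'
    simp only [List.mem_cons, List.not_mem_nil, or_false] at hg hg'
    rcases hg with rfl | rfl <;> rcases hg' with h | h
    · exact hab (hhh h)
    · exact hhe _ _ h
    · exact hhe _ _ h.symm
    · exact hab (hee h)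
  · rw [List.length_map, Finset.length_toList, Finset.card_univ]
  · intro σ
    have h1 : σ ∈ Ext ((Finset.univ : Finset (cnN M R k)).toList.map fun a => (hh a, ee a)) ↔
        ∀ a, σ (hh a) = ee a := by
      rw [mem_Ext]
      constructor
      · intro h a
        exact h (hh a, ee a) (List.mem_map.2 ⟨a, by simp, rfl⟩)
      · intro h p hp
        obtain ⟨a, _, rfl⟩ := List.mem_map.1 hp
        exact h a
    rw [h1]
    constructor
    · intro h
      have key : ∀ (b : Bool) (u : List ℕ) (hu : (b, u) ∈ cnA M R k),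
          pos σ (φ (cnR M R k b)) u = some (cnQ φ j ⟨(b, u), hu⟩) := by
        intro b u
        induction u using List.reverseRecOn with
        | nil => intro hu; rw [pos_nil]; simp [cnQ, cnR]
        | append_singleton u i ih =>
          intro hu
          have hne : u ++ [i] ≠ [] := by simp
          let a : cnN M R k := ⟨⟨(b, u ++ [i]), hu⟩, hne⟩
          have hP : cnP a = ⟨(b, u), mem_cnA.2 (rel_snoc.1 (mem_cnA.1 hu)).1⟩ := by
            apply Subtype.ext
            simp [cnP, a]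
          have hg : a.1.1.2.getLast a.2 = i := by simp [a]
          have hs := hslot a
          rw [hP, hg] at hs
          rw [pos_snoc]
          unfold edge
          rw [ih (mem_cnA.2 (rel_snoc.1 (mem_cnA.1 hu)).1)]
          show ((slot (d := d) _ i).map _) = _
          rw [hs]
          simp only [Option.map_some]
          rw [h a]
          simp [cnQ, ee, a]
      intro a
      exact key a.1.1 a.1.2 a.2
    · intro h a
      have h2 := h a.1
      have h3 := h (cnP a)
      have h4 : a.1.1.2 = a.1.1.2.dropLast ++ [a.1.1.2.getLast a.2] :=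
        (List.dropLast_append_getLast a.2).symm
      rw [h4, pos_snoc] at h2
      unfold edge at h2
      have h5 : pos σ (φ (cnR M R k a.1.1.1)) a.1.1.2.dropLast = some (cnQ φ j (cnP a)) := h3
      rw [h5] at h2
      change ((slot (d := d) (cnQ φ j (cnP a)) (a.1.1.2.getLast a.2)).map _) = _ at h2
      rw [hslot a] at h2
      simp only [Option.map_some, cnQ, a.2, if_false, Option.some.injEq, Prod.mk.injEq] at h2
      obtain ⟨h6, h7⟩ := h2
      have h8 : ∀ g g' : HE d, g.1 = g'.1 → g.2.val = g'.2.val → g = g' := by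
        rintro ⟨v, i⟩ ⟨v', i'⟩ h9 h10
        simp only at h9
        subst h9
        have : i = i' := Fin.ext h10
        rw [this]
      exact h8 _ _ h6 h7

/-- Number of extensions of a partial pairing. -/
theorem cn_card_Ext {η : List (HE d × HE d)} (h : Fresh η) :
    ((Ext η).card : ℝ) * ∏ i ∈ Finset.range η.length, (((∑ v, d v : ℕ) : ℝ) - 2 * i - 1) =
      Fintype.card (Pairing d) := by
  induction η with
  | nil => rw [Ext_nil]; simp [Finset.card_univ]
  | cons p η ih =>
    have h2 : Fresh η := by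
      unfold Fresh at h ⊢
      rw [rev_cons] at h
      exact (List.nodup_cons.1 (List.nodup_cons.1 h).2).2
    rw [List.length_cons, Finset.prod_range_succ, ← ih h2]
    have h3 := card_Ext_cons (η := η) (h := p.1) (h' := p.2) h
    have h4 : ((Ext (p :: η)).card : ℝ) * (((∑ v, d v : ℕ) : ℝ) - 2 * η.length - 1) =
      (Ext η).card := h3
    rw [← h4]
    ring

/-- The data of a pairing with two sources. -/
noncomputable def cnF (M R : ℕ) (k : Bool → List ℕ → ℕ) (σ : Pairing d) (ur ub : Fin n) :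
    (cnA M R k → Fin n) × (cnA M R k → ℕ) :=
  (fun a => (pos σ (rt ur ub a.1.1) a.1.2).elim ur Prod.fst,
    fun a => ((pos σ (rt ur ub a.1.1) a.1.2).bind Prod.snd).getD 0)

theorem cn_rel_iff {M R : ℕ} {k : Bool → List ℕ → ℕ} {σ : Pairing d} {ur ub : Fin n}
    (h : ∀ b u, rel M R (k b) u → fK σ (rt ur ub b) u = k b u) (b : Bool) (u : List ℕ) :
    rel M R (k b) u ↔ rel M R (fK σ (rt ur ub b)) u :=
  rel_congr (fun u hu => (h b u hu).symm) u

/-- The positions of the relevant words. -/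
theorem cn_pos {M R : ℕ} {k : Bool → List ℕ → ℕ} {σ : Pairing d} {ur ub : Fin n}
    (h : ShapeEv M R k σ ur ub) (a : cnA M R k) :
    pos σ (rt ur ub a.1.1) a.1.2 =
        some (cnQ (cnF M R k σ ur ub).1 (cnF M R k σ ur ub).2 a) ∧
      d ((cnF M R k σ ur ub).1 a) = cnM k a.1 ∧ (cnF M R k σ ur ub).2 a < cnC k a.1 := by
  obtain ⟨⟨⟨b, u⟩, hu⟩, rfl⟩ : ∃ a', a' = a := ⟨a, rfl⟩
  have hrel := mem_cnA.1 hu
  have hrel' := (cn_rel_iff h.2 b u).1 hrel
  obtain ⟨q, hq⟩ := exists_pos hrel'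
  have hK := h.2 b u hrel
  unfold fK at hK
  rw [hq] at hK
  simp only [Option.elim_some] at hK
  have hF1 : (cnF M R k σ ur ub).1 ⟨(b, u), hu⟩ = q.1 := by
    simp only [cnF]
    rw [hq]
    rfl
  have hF2 : (cnF M R k σ ur ub).2 ⟨(b, u), hu⟩ = q.2.getD 0 := by
    simp only [cnF]
    rw [hq]
    rfl
  rw [hF1, hF2]
  rcases List.eq_nil_or_concat' u with rfl | ⟨w, i, rfl⟩
  · rw [pos_nil] at hq
    obtain rfl : (rt ur ub b, none) = q := by simpa using hq
    refine ⟨?_, ?_, ?_⟩
    · show pos σ (rt ur ub b) [] = some (_, _)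
      rw [pos_nil, hF1]
      simp
    · simpa [cnM, numSlots] using hK
    · simp [cnC]
  · have hne : w ++ [i] ≠ [] := by simp
    have hq' := hq
    rw [pos_snoc] at hq'
    rcases he : edge σ (rt ur ub b) w i with _ | g
    · rw [he] at hq'; simp at hq'
    · rw [he] at hq'
      simp only [Option.map_some, Option.some.injEq] at hq'
      subst hq'
      have hlt : (σ g).2.val < d (σ g).1 := (σ g).2.isLt
      refine ⟨?_, ?_, ?_⟩
      · show pos σ (rt ur ub b) (w ++ [i]) = some (_, _)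
        rw [hq, hF1, hF2]
        simp
      · simp only [numSlots] at hK
        simp only [cnM, hne, if_false]
        omega
      · simp only [numSlots] at hK
        simp only [cnC, hne, if_false, Option.getD_some]
        omega

theorem cn_valid {M R : ℕ} {k : Bool → List ℕ → ℕ} {σ : Pairing d} {ur ub : Fin n}
    (h : ShapeEv M R k σ ur ub) :
    cnV d (cnF M R k σ ur ub).1 (cnF M R k σ ur ub).2 := by
  refine ⟨⟨?_, fun a => (cn_pos h a).2.1⟩, fun a => (cn_pos h a).2.2⟩
  intro a a' haa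
  have h1 := (cn_pos h a).1
  have h2 := (cn_pos h a').1
  have := h.1 a.1.1 a.1.2 a'.1.1 a'.1.2 ((cn_rel_iff h.2 _ _).1 (mem_cnA.1 a.2))
    ((cn_rel_iff h.2 _ _).1 (mem_cnA.1 a'.2)) _ _ h1 h2 haa
  exact Subtype.ext (Prod.ext this.1 this.2)

/-- Conversely, the positions determine the event. -/
theorem cn_conv {M R : ℕ} {k : Bool → List ℕ → ℕ} {σ : Pairing d} {φ : cnA M R k → Fin n}
    {j : cnA M R k → ℕ} (hV : cnV d φ j)
    (h : ∀ a : cnA M R k, pos σ (φ (cnR M R k a.1.1)) a.1.2 = some (cnQ φ j a)) :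
    ShapeEv M R k σ (φ (cnR M R k true)) (φ (cnR M R k false)) ∧
      cnF M R k σ (φ (cnR M R k true)) (φ (cnR M R k false)) = (φ, j) := by
  have hrt : ∀ b, rt (φ (cnR M R k true)) (φ (cnR M R k false)) b = φ (cnR M R k b) := by
    intro b; cases b <;> rfl
  have hK : ∀ b u, rel M R (k b) u →
      fK σ (rt (φ (cnR M R k true)) (φ (cnR M R k false)) b) u = k b u := by
    intro b u hu
    have h1 := h ⟨(b, u), mem_cnA.2 hu⟩
    have h2 := hV.1.2 ⟨(b, u), mem_cnA.2 hu⟩
    unfold fK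
    rw [hrt]
    change (pos σ (φ (cnR M R k b)) u) = _ at h1
    rw [h1]
    simp only [Option.elim_some, cnQ, numSlots]
    by_cases hu0 : u = []
    · subst hu0
      simpa [cnM] using h2
    · simp only [hu0, if_false]
      simp only [cnM, hu0, if_false] at h2
      omega
  refine ⟨⟨?_, hK⟩, ?_⟩
  · intro b u b' u' hu hu' q q' hq hq' hqq
    have hu1 := (cn_rel_iff hK b u).2 hu
    have hu1' := (cn_rel_iff hK b' u').2 hu'
    have h1 := h ⟨(b, u), mem_cnA.2 hu1⟩
    have h1' := h ⟨(b', u'), mem_cnA.2 hu1'⟩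
    rw [hrt] at hq hq'
    change (pos σ (φ (cnR M R k b)) u) = _ at h1
    change (pos σ (φ (cnR M R k b')) u') = _ at h1'
    rw [hq] at h1
    rw [hq'] at h1'
    obtain rfl := Option.some.inj h1
    obtain rfl := Option.some.inj h1'
    have h3 := hV.1.1 hqq
    have h4 := congrArg (fun x : cnA M R k => x.1) h3
    simpa using h4
  · unfold cnF
    refine Prod.ext (funext fun a => ?_) (funext fun a => ?_)
    · simp only [hrt, h a]
      rfl
    · simp only [hrt, h a]
      by_cases ha : a.1.2 = []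
      · have := hV.2 a
        simp only [cnC, ha, if_true] at this
        simp only [Option.bind_some, cnQ, ha, if_true, Option.getD_none]
        omega
      · simp [cnQ, ha]

/-- The set of valid data. -/
noncomputable def cnD (d : Fin n → ℕ) (M R : ℕ) (k : Bool → List ℕ → ℕ) :
    Finset ((cnA M R k → Fin n) × (cnA M R k → ℕ)) := by
  classical
  exact (Finset.univ.filter fun φ : cnA M R k → Fin n =>
    Function.Injective φ ∧ ∀ a, d (φ a) = cnM k a.1) ×ˢ
    Fintype.piFinset fun a : cnA M R k => Finset.range (cnC k a.1)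

theorem mem_cnD {M R : ℕ} {k : Bool → List ℕ → ℕ} {x : (cnA M R k → Fin n) × (cnA M R k → ℕ)} :
    x ∈ cnD d M R k ↔ cnV d x.1 x.2 := by
  classical
  simp [cnD, cnV]

open Classical in
/-- Exact count. -/
theorem cn_count (M R : ℕ) (k : Bool → List ℕ → ℕ) :
    ((Finset.univ.filter fun z : Pairing d × {p : Fin n × Fin n // p.1 ≠ p.2} =>
      ShapeEv M R k z.1 z.2.1.1 z.2.1.2).card : ℝ) *
      ∏ i ∈ Finset.range (Fintype.card (cnN M R k)), (((∑ v, d v : ℕ) : ℝ) - 2 * i - 1) =
    (cnD d M R k).card * Fintype.card (Pairing d) := by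
  set s := Finset.univ.filter fun z : Pairing d × {p : Fin n × Fin n // p.1 ≠ p.2} =>
      ShapeEv M R k z.1 z.2.1.1 z.2.1.2 with hs
  let f : Pairing d × {p : Fin n × Fin n // p.1 ≠ p.2} →
    (cnA M R k → Fin n) × (cnA M R k → ℕ) := fun z => cnF M R k z.1 z.2.1.1 z.2.1.2
  have hmaps : ∀ z ∈ s, f z ∈ cnD d M R k := by
    intro z hz
    rw [mem_cnD]
    exact cn_valid (Finset.mem_filter.1 hz).2
  have hcard := Finset.card_eq_sum_card_fiberwise (f := f) (s := s) (t := cnD d M R k)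
    (fun z hz => hmaps z hz)
  have hfib : ∀ x ∈ cnD d M R k, ((s.filter fun z => f z = x).card : ℝ) *
      ∏ i ∈ Finset.range (Fintype.card (cnN M R k)), (((∑ v, d v : ℕ) : ℝ) - 2 * i - 1) =
      Fintype.card (Pairing d) := by
    rintro ⟨φ, j⟩ hx
    have hV : cnV d φ j := mem_cnD.1 hx
    obtain ⟨η, h1, h2, h3⟩ := cn_exists_list hV
    have hne : φ (cnR M R k true) ≠ φ (cnR M R k false) := by
      intro h
      have := hV.1.1 h
      simp [cnR] at this
    have himg : s.filter (fun z => f z = (φ, j)) =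
        (Ext η).image fun σ => (σ, ⟨(φ (cnR M R k true), φ (cnR M R k false)), hne⟩) := by
      ext ⟨σ, ⟨⟨ur, ub⟩, hp⟩⟩
      simp only [Finset.mem_filter, Finset.mem_image, Prod.mk.injEq, Subtype.mk.injEq, hs,
        Finset.mem_univ, true_and]
      constructor
      · rintro ⟨h4, h5⟩
        have h6 : cnF M R k σ ur ub = (φ, j) := h5
        have h7 : φ (cnR M R k true) = ur := by
          have : (cnF M R k σ ur ub).1 (cnR M R k true) = φ (cnR M R k true) :=
            congrFun (congrArg Prod.fst h6) (cnR M R k true)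
          rw [← this]
          simp [cnF, cnR, pos_nil, rt]
        have h8 : φ (cnR M R k false) = ub := by
          have : (cnF M R k σ ur ub).1 (cnR M R k false) = φ (cnR M R k false) :=
            congrFun (congrArg Prod.fst h6) (cnR M R k false)
          rw [← this]
          simp [cnF, cnR, pos_nil, rt]
        refine ⟨σ, ?_, rfl, h7, h8⟩
        rw [h3]
        intro a
        have h9 := (cn_pos h4 a).1
        rw [h6] at h9
        have h10 : φ (cnR M R k a.1.1) = rt ur ub a.1.1 := by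
          rcases a.1.1 with _ | _
          · rw [h8]; rfl
          · rw [h7]; rfl
        rw [h10]
        exact h9
      · rintro ⟨σ', h4, rfl, rfl, rfl⟩
        exact cn_conv hV ((h3 _).1 h4)
    rw [himg, Finset.card_image_of_injective _ (fun σ σ' h => by simpa using h), ← h2]
    exact cn_card_Ext h1
  rw [hcard, Nat.cast_sum, Finset.sum_mul, Finset.sum_congr rfl hfib, Finset.sum_const,
    nsmul_eq_mul]

theorem cn_card_eq (M R : ℕ) (k : Bool → List ℕ → ℕ) :
    Fintype.card (cnA M R k) = Fintype.card (cnN M R k) + 2 := by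
  classical
  have h1 : Nat.card {a : cnA M R k // a.1.2 ≠ []} + Nat.card {a : cnA M R k // ¬ a.1.2 ≠ []} =
      Nat.card (cnA M R k) := by
    rw [← Nat.card_sum]
    exact Nat.card_congr (Equiv.sumCompl fun a : cnA M R k => a.1.2 ≠ [])
  have h2 : Nat.card {a : cnA M R k // ¬ a.1.2 ≠ []} = 2 := by
    have e : {a : cnA M R k // ¬ a.1.2 ≠ []} ≃ Bool :=
      { toFun := fun a => a.1.1.1
        invFun := fun b => ⟨cnR M R k b, by simp [cnR]⟩
        left_inv := by
          rintro ⟨⟨⟨b, u⟩, hu⟩, h⟩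
          simp only [ne_eq, not_not] at h
          subst h
          rfl
        right_inv := fun b => rfl }
    rw [Nat.card_congr e]; simp
  have h3 : Fintype.card (cnN M R k) = Nat.card {a : cnA M R k // a.1.2 ≠ []} :=
    (Nat.card_eq_fintype_card).symm
  have h4 : Fintype.card (cnA M R k) = Nat.card (cnA M R k) := (Nat.card_eq_fintype_card).symm
  omega

/-- Injective maps with prescribed degrees. -/
noncomputable def cnT {A : Type} [Fintype A] (m : A → ℕ) (d : DegSeq) : ℕ := by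
  classical
  exact (Finset.univ.filter fun φ : A → Fin (d.1 + 2) =>
    Function.Injective φ ∧ ∀ a, d.2 (φ a) = m a).card

theorem cnT_le {A : Type} [Fintype A] (m : A → ℕ) (d : DegSeq) :
    cnT m d ≤ ∏ a, cntDeg (m a) d := by
  classical
  unfold cnT cntDeg
  rw [← Fintype.card_piFinset]
  apply Finset.card_le_card
  intro φ hφ
  rw [Finset.mem_filter] at hφ
  rw [Fintype.mem_piFinset]
  intro a
  rw [Finset.mem_filter]
  exact ⟨Finset.mem_univ _, hφ.2.2 a⟩

theorem le_cnT {A : Type} [Fintype A] (m : A → ℕ) (d : DegSeq) :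
    ∏ a, cntDeg (m a) d ≤ cnT m d + (Fintype.card A) ^ 2 * (d.1 + 2) ^ (Fintype.card A - 1) := by
  classical
  unfold cnT cntDeg
  rw [← Fintype.card_piFinset]
  set B : A × A → Finset (A → Fin (d.1 + 2)) := fun p =>
    if p.1 = p.2 then ∅ else Finset.univ.filter fun φ => φ p.1 = φ p.2 with hB
  have hBcard : ∀ p, (B p).card ≤ (d.1 + 2) ^ (Fintype.card A - 1) := by
    rintro ⟨a, a'⟩
    simp only [hB]
    by_cases h : a = a'
    · simp [h]
    · rw [if_neg h]
      have h1 : Fintype.card ({x : A // x ≠ a} → Fin (d.1 + 2)) =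
          (d.1 + 2) ^ (Fintype.card A - 1) := by
        rw [Fintype.card_fun, Fintype.card_fin]
        congr 1
        rw [Fintype.card_subtype_compl]
        simp
      rw [← h1, ← Finset.card_univ]
      refine Finset.card_le_card_of_injOn (fun φ (x : {x : A // x ≠ a}) => φ x.1)
        (fun _ _ => Finset.mem_coe.2 (Finset.mem_univ _)) ?_
      intro φ hφ ψ hψ hφψ
      have h2 := (Finset.mem_filter.1 (Finset.mem_coe.1 hφ)).2
      have h3 := (Finset.mem_filter.1 (Finset.mem_coe.1 hψ)).2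
      have h4 : ∀ x, x ≠ a → φ x = ψ x := fun x hx => congrFun hφψ ⟨x, hx⟩
      funext x
      by_cases hx : x = a
      · subst hx
        rw [h2, h3]
        exact h4 _ (Ne.symm h)
      · exact h4 x hx
  have hsub : (Fintype.piFinset fun a => Finset.univ.filter fun v => d.2 v = m a) ⊆
      (Finset.univ.filter fun φ : A → Fin (d.1 + 2) =>
        Function.Injective φ ∧ ∀ a, d.2 (φ a) = m a) ∪ Finset.univ.biUnion B := by
    intro φ hφ
    rw [Fintype.mem_piFinset] at hφ
    have hdeg : ∀ a, d.2 (φ a) = m a := fun a => (Finset.mem_filter.1 (hφ a)).2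
    rw [Finset.mem_union]
    by_cases hinj : Function.Injective φ
    · left
      exact Finset.mem_filter.2 ⟨Finset.mem_univ _, hinj, hdeg⟩
    · right
      unfold Function.Injective at hinj
      push Not at hinj
      obtain ⟨a, a', h1, h2⟩ := hinj
      rw [Finset.mem_biUnion]
      refine ⟨(a, a'), Finset.mem_univ _, ?_⟩
      simp only [hB, if_neg h2]
      exact Finset.mem_filter.2 ⟨Finset.mem_univ _, h1⟩
  calc _ ≤ _ := Finset.card_le_card hsub
    _ ≤ _ := Finset.card_union_le _ _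
    _ ≤ _ := by
      apply Nat.add_le_add_left
      calc _ ≤ ∑ p : A × A, (B p).card := Finset.card_biUnion_le
        _ ≤ ∑ p : A × A, (d.1 + 2) ^ (Fintype.card A - 1) := Finset.sum_le_sum fun p _ => hBcard p
        _ = _ := by rw [Finset.sum_const, Finset.card_univ, Fintype.card_prod, smul_eq_mul, sq]

theorem cnT_lim {μ : Measure ℕ} {β γ y0 : ℝ} {A : Type} [Fintype A] (m : A → ℕ) :
    Tendsto (fun d : DegSeq => (cnT m d : ℝ) / ((d.1 : ℝ) + 2) ^ Fintype.card A)
      (regF μ β γ y0) (𝓝 (∏ a, (μ {m a}).toReal)) := by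
  have h1 : Tendsto (fun d : DegSeq => ∏ a, (cntDeg (m a) d : ℝ) / ((d.1 : ℝ) + 2))
      (regF μ β γ y0) (𝓝 (∏ a, (μ {m a}).toReal)) :=
    tendsto_finsetProd _ fun a _ => regF_cntDeg (m a)
  have h0 : Tendsto (fun d : DegSeq => ((d.1 : ℝ) + 2)) (regF μ β γ y0) atTop :=
    tendsto_atTop_add_const_right _ _ (tendsto_natCast_atTop_atTop.comp regF_size)
  have h2 : Tendsto (fun d : DegSeq => ((Fintype.card A : ℝ)) ^ 2 / ((d.1 : ℝ) + 2))
      (regF μ β γ y0) (𝓝 0) := h0.const_div_atTop _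
  have h3 : Tendsto (fun d : DegSeq => ∏ a, (cntDeg (m a) d : ℝ) / ((d.1 : ℝ) + 2) -
      ((Fintype.card A : ℝ)) ^ 2 / ((d.1 : ℝ) + 2)) (regF μ β γ y0)
      (𝓝 (∏ a, (μ {m a}).toReal)) := by
    simpa using h1.sub h2
  refine tendsto_of_tendsto_of_tendsto_of_le_of_le h3 h1 (fun d => ?_) (fun d => ?_)
  · have hpos : (0 : ℝ) < (d.1 : ℝ) + 2 := by positivity
    have h4 : (∏ a, (cntDeg (m a) d : ℝ)) ≤ cnT m d +
        ((Fintype.card A : ℝ)) ^ 2 * ((d.1 : ℝ) + 2) ^ (Fintype.card A - 1) := by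
      exact_mod_cast le_cnT m d
    show ∏ a, (cntDeg (m a) d : ℝ) / ((d.1 : ℝ) + 2) - ((Fintype.card A : ℝ)) ^ 2 / ((d.1 : ℝ) + 2)
      ≤ (cnT m d : ℝ) / ((d.1 : ℝ) + 2) ^ Fintype.card A
    rw [Finset.prod_div_distrib, Finset.prod_const, Finset.card_univ]
    rcases hA : Fintype.card A with _ | N
    · have : IsEmpty A := Fintype.card_eq_zero_iff.1 hA
      rw [hA] at h4
      simp at h4 ⊢
      exact h4
    · rw [hA] at h4
      simp only [Nat.add_sub_cancel] at h4
      have h5 : ((N + 1 : ℕ) : ℝ) ^ 2 / ((d.1 : ℝ) + 2) =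
          ((N + 1 : ℕ) : ℝ) ^ 2 * ((d.1 : ℝ) + 2) ^ N / ((d.1 : ℝ) + 2) ^ (N + 1) := by
        rw [div_eq_div_iff hpos.ne' (by positivity)]
        ring
      rw [h5, ← sub_div]
      apply div_le_div_of_nonneg_right _ (by positivity)
      linarith
  · have hpos : (0 : ℝ) < (d.1 : ℝ) + 2 := by positivity
    show (cnT m d : ℝ) / ((d.1 : ℝ) + 2) ^ Fintype.card A ≤
      ∏ a, (cntDeg (m a) d : ℝ) / ((d.1 : ℝ) + 2)
    rw [Finset.prod_div_distrib, Finset.prod_const, Finset.card_univ]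
    apply div_le_div_of_nonneg_right _ (by positivity)
    exact_mod_cast cnT_le m d

theorem card_cnD (M R : ℕ) (k : Bool → List ℕ → ℕ) (d : DegSeq) :
    (cnD d.2 M R k).card = cnT (fun a : cnA M R k => cnM k a.1) d *
      ∏ a : cnA M R k, cnC k a.1 := by
  classical
  unfold cnD cnT
  rw [Finset.card_product, Fintype.card_piFinset]
  simp only [Finset.card_range]
  have key : ∀ (i1 i2 : Fintype (cnA M R k → Fin (d.1 + 2)))
      (p : (cnA M R k → Fin (d.1 + 2)) → Prop) (j1 j2 : DecidablePred p),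
      (@Finset.filter _ p j1 (@Finset.univ _ i1)).card =
        (@Finset.filter _ p j2 (@Finset.univ _ i2)).card := by
    intro i1 i2 p j1 j2
    rw [Subsingleton.elim i1 i2, Subsingleton.elim j1 j2]
  exact congrArg (fun t => t * ∏ x : cnA M R k, cnC k x.1) (key _ _ _ _ _)

theorem card_pairs (n : ℕ) :
    (Fintype.card {p : Fin n × Fin n // p.1 ≠ p.2} : ℝ) = (n : ℝ) * ((n : ℝ) - 1) := by
  classical
  have h : Fintype.card {p : Fin n × Fin n // p.1 ≠ p.2} = n * n - n := by
    rw [Fintype.card_subtype]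
    have : (Finset.univ.filter fun p : Fin n × Fin n => p.1 ≠ p.2) =
        (Finset.univ : Finset (Fin n)).offDiag := by
      ext p; simp
    rw [this, Finset.offDiag_card]
    simp
  rw [h, Nat.cast_sub (Nat.le_mul_self n)]
  push_cast; ring

/-- Relevant words of one tree. -/
noncomputable def cnB (M R : ℕ) (K : List ℕ → ℕ) : Finset (List ℕ) :=
  Set.Finite.toFinset (s := {u : List ℕ | rel M R K u})
    ((box_finite M R).subset fun _ hu => rel_mem_box hu)

theorem mem_cnB {M R : ℕ} {K : List ℕ → ℕ} {u : List ℕ} : u ∈ cnB M R K ↔ rel M R K u := by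
  simp [cnB]

theorem cn_tree {μ : Measure ℕ} {τ : ℝ} (hμ : IsDegreeLaw μ τ) (hτ : 2 < τ)
    {W : Type*} [MeasurableSpace W] (J : Measure W) [IsProbabilityMeasure J] (M R : ℕ)
    (K : List ℕ → ℕ) :
    (treeLaw μ (sizeBiased μ) J {ω | ∀ u, rel M R K u → (ω u).1 = K u}).toReal =
      ∏ u ∈ cnB M R K, ((if u = [] then μ else sizeBiased μ) {K u}).toReal := by
  have := hμ.prob
  have := sizeBiased_prob hμ hτ
  have hp : ∀ u : List ℕ,
      IsProbabilityMeasure ((if u = [] then μ else sizeBiased μ).prod J) := by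
    intro u
    split_ifs <;> infer_instance
  have hset : {ω : List ℕ → ℕ × W | ∀ u, rel M R K u → (ω u).1 = K u} =
      Set.pi (cnB M R K) (fun u => {K u} ×ˢ (univ : Set W)) := by
    ext ω
    simp [Set.mem_pi, mem_cnB]
  rw [hset, treeLaw, Measure.infinitePi_pi]
  · rw [ENNReal.toReal_prod]
    refine Finset.prod_congr rfl fun u _ => ?_
    congr 1
    have hs : SFinite (if u = [] then μ else sizeBiased μ) := by
      split_ifs <;> infer_instance
    rw [Measure.prod_prod, measure_univ, mul_one]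
  · intro u _
    exact (MeasurableSet.singleton _).prod MeasurableSet.univ

theorem cn_label {μ : Measure ℕ} (k : Bool → List ℕ → ℕ) (a : Bool × List ℕ) :
    ((if a.2 = [] then μ else sizeBiased μ) {k a.1 a.2}).toReal =
      (μ {cnM k a}).toReal * cnC k a * (if a.2 = [] then 1 else (meanDeg μ)⁻¹) := by
  by_cases h : a.2 = []
  · simp [h, cnM, cnC]
  · simp only [h, if_false, cnM, cnC]
    rw [sizeBiased_apply, ENNReal.toReal_div, ENNReal.toReal_mul, meanDeg, div_eq_mul_inv]
    have h1 : ((k a.1 a.2 : ℝ≥0∞) + 1).toReal = (k a.1 a.2 : ℝ) + 1 := by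
      rw [ENNReal.toReal_add (ENNReal.natCast_ne_top _) ENNReal.one_ne_top]
      simp
    rw [h1]
    push_cast
    ring

theorem cn_limit_value {μ : Measure ℕ} {τ : ℝ} (hμ : IsDegreeLaw μ τ) (hτ : 2 < τ)
    {W : Type*} [MeasurableSpace W] (J : Measure W) [IsProbabilityMeasure J] (M R : ℕ)
    (k : Bool → List ℕ → ℕ) :
    (treeLaw μ (sizeBiased μ) J {ω | ∀ u, rel M R (k true) u → (ω u).1 = k true u}).toReal *
      (treeLaw μ (sizeBiased μ) J {ω | ∀ u, rel M R (k false) u → (ω u).1 = k false u}).toReal =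
    (∏ a : cnA M R k, (μ {cnM k a.1}).toReal) * (∏ a : cnA M R k, (cnC k a.1 : ℝ)) *
      (meanDeg μ)⁻¹ ^ Fintype.card (cnN M R k) := by
  classical
  rw [cn_tree hμ hτ J M R (k true), cn_tree hμ hτ J M R (k false)]
  have h1 := Finset.prod_finset_product' (cnA M R k) (Finset.univ : Finset Bool)
    (fun b => cnB M R (k b)) (fun p => by simp [mem_cnA, mem_cnB])
    (f := fun b u => ((if u = [] then μ else sizeBiased μ) {k b u}).toReal)
  rw [Fintype.prod_bool] at h1
  rw [← h1]
  have h2 : ∀ a ∈ cnA M R k, ((if a.2 = [] then μ else sizeBiased μ) {k a.1 a.2}).toReal =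
      (μ {cnM k a}).toReal * cnC k a * (if a.2 = [] then 1 else (meanDeg μ)⁻¹) :=
    fun a _ => cn_label k a
  rw [Finset.prod_congr rfl h2, Finset.prod_mul_distrib, Finset.prod_mul_distrib,
    ← Finset.prod_coe_sort (cnA M R k) (fun a => (μ {cnM k a}).toReal),
    ← Finset.prod_coe_sort (cnA M R k) (fun a => (cnC k a : ℝ)),
    ← Finset.prod_coe_sort (cnA M R k) (fun a => if a.2 = [] then (1 : ℝ) else (meanDeg μ)⁻¹)]
  congr 1
  rw [Finset.prod_ite, Finset.prod_const_one, one_mul, Finset.prod_const]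
  congr 1
  rw [Fintype.card_subtype]

end Count

/-- (MODULE Count) The probability of each shape converges to the probability under two
independent Galton-Watson trees. -/
theorem shape_limit {μ : Measure ℕ} {τ : ℝ} (hμ : IsDegreeLaw μ τ) (hτ : 2 < τ) {β γ y0 : ℝ}
    {W : Type*} [MeasurableSpace W] (J : Measure W) [IsProbabilityMeasure J] (M R : ℕ)
    (k : Bool → List ℕ → ℕ) :
    Tendsto (fun d : DegSeq => qfrac d.2 (ShapeEv M R k)) (regF μ β γ y0)
      (𝓝 ((treeLaw μ (sizeBiased μ) J {ω | ∀ u, rel M R (k true) u → (ω u).1 = k true u}).toReal *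
        (treeLaw μ (sizeBiased μ) J
          {ω | ∀ u, rel M R (k false) u → (ω u).1 = k false u}).toReal)) := by
  rw [cn_limit_value hμ hτ J M R k]
  have hmean : 0 < meanDeg μ := by
    unfold meanDeg
    refine ENNReal.toReal_pos ?_ (mean_ne_top hμ hτ)
    have := two_le_mean hμ
    intro h
    rw [h] at this
    exact absurd this (by norm_num)
  have h0 : Tendsto (fun d : DegSeq => ((d.1 : ℝ) + 2)) (regF μ β γ y0) atTop :=
    tendsto_atTop_add_const_right _ _ (tendsto_natCast_atTop_atTop.comp regF_size)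
  set r := Fintype.card (cnN M R k) with hr
  -- the factors
  have hfac : ∀ i : ℕ, Tendsto (fun d : DegSeq =>
      ((((∑ v, d.2 v : ℕ) : ℝ)) - 2 * i - 1) / ((d.1 : ℝ) + 2)) (regF μ β γ y0)
      (𝓝 (meanDeg μ)) := by
    intro i
    have h1 : Tendsto (fun d : DegSeq => (2 * (i : ℝ) + 1) / ((d.1 : ℝ) + 2)) (regF μ β γ y0)
      (𝓝 0) := h0.const_div_atTop _
    have h2 := (regF_mean (μ := μ) (β := β) (γ := γ) (y0 := y0)).sub h1
    rw [sub_zero] at h2
    refine h2.congr fun d => ?_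
    rw [← sub_div]
    congr 1
    ring
  have hprod : Tendsto (fun d : DegSeq => ∏ i ∈ Finset.range r,
      ((((∑ v, d.2 v : ℕ) : ℝ)) - 2 * i - 1) / ((d.1 : ℝ) + 2)) (regF μ β γ y0)
      (𝓝 (meanDeg μ ^ r)) := by
    have := tendsto_finsetProd (Finset.range r) fun i _ => hfac i
    simpa using this
  have hone : Tendsto (fun d : DegSeq => ((d.1 : ℝ) + 2 - 1) / ((d.1 : ℝ) + 2)) (regF μ β γ y0)
      (𝓝 1) := by
    have h1 : Tendsto (fun d : DegSeq => (1 : ℝ) / ((d.1 : ℝ) + 2)) (regF μ β γ y0)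
      (𝓝 0) := h0.const_div_atTop _
    have h2 := h1.const_sub 1
    rw [sub_zero] at h2
    refine h2.congr fun d => ?_
    have : (d.1 : ℝ) + 2 ≠ 0 := by positivity
    field_simp
  have hT := cnT_lim (μ := μ) (β := β) (γ := γ) (y0 := y0) (fun a : cnA M R k => cnM k a.1)
  have hlim := (hT.mul_const (∏ a : cnA M R k, (cnC k a.1 : ℝ))).div (hprod.mul hone)
    (by rw [mul_one]; positivity)
  rw [mul_one] at hlim
  have hval : (∏ a : cnA M R k, (μ {cnM k a.1}).toReal) * (∏ a : cnA M R k, (cnC k a.1 : ℝ)) *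
      (meanDeg μ)⁻¹ ^ r = (∏ a : cnA M R k, (μ {cnM k a.1}).toReal) *
      (∏ a : cnA M R k, (cnC k a.1 : ℝ)) / meanDeg μ ^ r := by
    rw [inv_pow, div_eq_mul_inv]
  rw [hval]
  refine hlim.congr' ?_
  have hev : ∀ᶠ d : DegSeq in regF μ β γ y0, ∀ i ∈ Finset.range r,
      0 < ((((∑ v, d.2 v : ℕ) : ℝ)) - 2 * i - 1) / ((d.1 : ℝ) + 2) := by
    rw [Filter.eventually_all_finset]
    intro i _
    exact (hfac i).eventually_const_lt hmean
  filter_upwards [hev, regF_even] with d hd heven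
  have hpos : (0 : ℝ) < (d.1 : ℝ) + 2 := by positivity
  have hQ : ∀ i ∈ Finset.range r, 0 < (((∑ v, d.2 v : ℕ) : ℝ)) - 2 * i - 1 := by
    intro i hi
    have := hd i hi
    exact (div_pos_iff_of_pos_right hpos).1 this
  have hQ' : 0 < ∏ i ∈ Finset.range r, ((((∑ v, d.2 v : ℕ) : ℝ)) - 2 * i - 1) :=
    Finset.prod_pos hQ
  have hP : 0 < (Fintype.card (Pairing d.2) : ℝ) := by
    have h1 : (Ext ([] : List (HE d.2 × HE d.2))).Nonempty := Ext_nonempty heven (by
      unfold Fresh; simp [rev])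
    rw [Ext_nil] at h1
    rw [← Finset.card_univ]
    exact_mod_cast Finset.card_pos.2 h1
  have hcount := cn_count (d := d.2) M R k
  rw [card_cnD, ← hr] at hcount
  unfold qfrac
  rw [card_pairs]
  have hn1 : (0 : ℝ) < ((d.1 + 2 : ℕ) : ℝ) - 1 := by
    push_cast
    have : (0 : ℝ) ≤ d.1 := Nat.cast_nonneg _
    linarith
  have hA : Fintype.card (cnA M R k) = r + 2 := cn_card_eq M R k
  show (cnT (fun a : cnA M R k => cnM k a.1) d : ℝ) / ((d.1 : ℝ) + 2) ^ Fintype.card (cnA M R k) *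
      (∏ a : cnA M R k, (cnC k a.1 : ℝ)) /
      ((∏ i ∈ Finset.range r, ((((∑ v, d.2 v : ℕ) : ℝ)) - 2 * i - 1) / ((d.1 : ℝ) + 2)) *
        (((d.1 : ℝ) + 2 - 1) / ((d.1 : ℝ) + 2))) = _
  rw [hA, Finset.prod_div_distrib, Finset.prod_const, Finset.card_range]
  rw [eq_comm, div_eq_div_iff (by positivity) (by
    have h1 : (0 : ℝ) < (d.1 : ℝ) + 2 - 1 := by
      have : (0 : ℝ) ≤ d.1 := Nat.cast_nonneg _
      linarith
    positivity)]
  push_cast at hcount ⊢
  rw [pow_add]
  field_simp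
  linear_combination ((d.1 : ℝ) + 1) * hcount

/-- The set `B` of fields only depends on the labels of the relevant words (and not on the weight
of the root). -/
def RelLocal (M R : ℕ) (B : Set (List ℕ → ℕ × (ℝ≥0 × ℝ≥0))) : Prop :=
  ∀ ω ω' : List ℕ → ℕ × (ℝ≥0 × ℝ≥0), (∀ u, rel M R (Kf ω) u → (ω u).1 = (ω' u).1) →
    (∀ u, rel M R (Kf ω) u → u ≠ [] → (ω u).2 = (ω' u).2) → (ω ∈ B ↔ ω' ∈ B)

/-- The relevant words of a shape. -/
noncomputable def LocRel (M R : ℕ) (k : List ℕ → ℕ) : Finset (List ℕ) := by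
  classical
  exact (box_finite M R).toFinset.filter fun u => rel M R k u

theorem Loc_mem_rel {M R : ℕ} {k : List ℕ → ℕ} {u : List ℕ} :
    u ∈ LocRel M R k ↔ rel M R k u := by
  classical
  simp only [LocRel, Finset.mem_filter, Set.Finite.mem_toFinset]
  exact ⟨fun h => h.2, fun h => ⟨rel_mem_box h, h⟩⟩

/-- The relevant words of a shape except the root. -/
noncomputable def LocNR (M R : ℕ) (k : List ℕ → ℕ) : Finset (List ℕ) := by
  classical
  exact (LocRel M R k).erase []

theorem Loc_mem_NR {M R : ℕ} {k : List ℕ → ℕ} {u : List ℕ} :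
    u ∈ LocNR M R k ↔ rel M R k u ∧ u ≠ [] := by
  classical
  rw [LocNR, Finset.mem_erase, Loc_mem_rel]
  exact and_comm

/-- The field with shape `k` and given weights. -/
noncomputable def LocFill (M R : ℕ) (k : List ℕ → ℕ) (z : LocNR M R k → ℝ≥0 × ℝ≥0) :
    List ℕ → ℕ × (ℝ≥0 × ℝ≥0) := by
  classical
  exact fun u => (k u, if h : u ∈ LocNR M R k then z ⟨u, h⟩ else 0)

theorem Loc_measurable_fill (M R : ℕ) (k : List ℕ → ℕ) : Measurable (LocFill M R k) := by
  classical
  unfold LocFill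
  rw [measurable_pi_iff]
  intro u
  apply Measurable.prodMk measurable_const
  by_cases h : u ∈ LocNR M R k
  · simp only [h, dif_pos]
    exact measurable_pi_apply _
  · simp only [h, dif_neg, not_false_iff]
    exact measurable_const

/-- The conditional probability of `B` given the shape `k`. -/
noncomputable def LocQ (M R : ℕ) (J : Measure (ℝ≥0 × ℝ≥0)) (k : List ℕ → ℕ)
    (B : Set (List ℕ → ℕ × (ℝ≥0 × ℝ≥0))) : ℝ≥0∞ :=
  (Measure.pi fun _ : LocNR M R k => J) {z | LocFill M R k z ∈ B}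

/-- The event that the field has the shape `k`. -/
def LocSh (M R : ℕ) (k : List ℕ → ℕ) : Set (List ℕ → ℕ × (ℝ≥0 × ℝ≥0)) :=
  {ω | ∀ u, rel M R k u → (ω u).1 = k u}

theorem Loc_mem_B {M R : ℕ} {k : List ℕ → ℕ} {B : Set (List ℕ → ℕ × (ℝ≥0 × ℝ≥0))}
    (hB : RelLocal M R B) {ω : List ℕ → ℕ × (ℝ≥0 × ℝ≥0)} (hω : ω ∈ LocSh M R k) :
    ω ∈ B ↔ LocFill M R k (fun u => (ω u.1).2) ∈ B := by
  classical
  have hrel : ∀ u, rel M R (Kf ω) u → rel M R k u := by
    intro u hu
    exact (rel_congr (K := k) (K' := Kf ω) (fun w hw => (hω w hw).symm) u).2 hu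
  apply hB
  · intro u hu
    exact hω u (hrel u hu)
  · intro u hu hne
    have : u ∈ LocNR M R k := Loc_mem_NR.2 ⟨hrel u hu, hne⟩
    simp only [LocFill, this, dif_pos]

/-- Restriction of a product measure to an injective family of coordinates. -/
theorem Loc_pi_comp {ι κ W : Type*} [Fintype ι] [Fintype κ] [MeasurableSpace W] (J : Measure W)
    [IsProbabilityMeasure J] {e : κ → ι} (he : Function.Injective e) :
    (Measure.pi fun _ : ι => J).map (fun x u => x (e u)) = Measure.pi fun _ : κ => J := by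
  classical
  symm
  apply Measure.pi_eq
  intro s hs
  have hm : Measurable (fun (x : ι → W) (u : κ) => x (e u)) :=
    measurable_pi_iff.2 fun u => measurable_pi_apply _
  rw [Measure.map_apply hm (MeasurableSet.univ_pi hs)]
  have h1 : (fun (x : ι → W) (u : κ) => x (e u)) ⁻¹' (Set.univ.pi s) =
      Set.univ.pi (Function.extend e s fun _ => Set.univ) := by
    ext x
    simp only [mem_preimage, mem_univ_pi]
    constructor
    · intro h c
      by_cases hc : ∃ u, e u = c
      · obtain ⟨u, rfl⟩ := hc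
        rw [he.extend_apply]
        exact h u
      · rw [Function.extend_apply' _ _ _ hc]
        exact mem_univ _
    · intro h u
      have := h (e u)
      rwa [he.extend_apply] at this
  rw [h1, Measure.pi_pi]
  symm
  apply Fintype.prod_of_injective e he
  · intro c hc
    rw [Function.extend_apply' _ _ _ (fun ⟨u, hu⟩ => hc ⟨u, hu⟩)]
    exact measure_univ
  · intro u
    rw [he.extend_apply]

/-! ### The graph -/

section
variable {n : ℕ} {d : Fin n → ℕ}

/-- The edge of a word (the edge between the word and its parent). -/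
noncomputable def LocE (σ : Pairing d) (v : Fin n) (g0 : Sym2 (HE d)) (u : List ℕ) :
    Sym2 (HE d) :=
  if h : u = [] then g0
  else (edge σ v u.dropLast (u.getLast h)).elim g0 fun g => s(g, σ g)

theorem Loc_E_snoc {σ : Pairing d} {v : Fin n} {g0 : Sym2 (HE d)} {u : List ℕ} {i : ℕ} {g : HE d}
    (h : edge σ v u i = some g) : LocE σ v g0 (u ++ [i]) = s(g, σ g) := by
  have hne : u ++ [i] ≠ [] := by simp
  rw [LocE, dif_neg hne]
  have h1 : (u ++ [i]).dropLast = u := List.dropLast_concat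
  have h2 : (u ++ [i]).getLast hne = i := List.getLast_concat
  rw [h1, h2, h]
  rfl

theorem Loc_fX_snoc {σ : Pairing d} {x : Sym2 (HE d) → ℝ≥0 × ℝ≥0} {v : Fin n} {u : List ℕ}
    {i : ℕ} {g : HE d} (h : edge σ v u i = some g) : fX σ x v (u ++ [i]) = x s(g, σ g) := by
  rw [fX_snoc, h]
  rfl

theorem Loc_E_inj {M R : ℕ} {σ : Pairing d} {ur ub : Fin n} (hσ : EmbOK M R σ ur ub) (b : Bool)
    {g0 : Sym2 (HE d)} {u w : List ℕ} (hu : rel M R (fK σ (rt ur ub b)) u)
    (hw : rel M R (fK σ (rt ur ub b)) w) (hu0 : u ≠ []) (hw0 : w ≠ [])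
    (h : LocE σ (rt ur ub b) g0 u = LocE σ (rt ur ub b) g0 w) : u = w := by
  obtain ⟨u', i, rfl⟩ : ∃ u' i, u = u' ++ [i] := by
    rcases List.eq_nil_or_concat' u with h | ⟨u', i, h⟩
    · exact absurd h hu0
    · exact ⟨u', i, h⟩
  obtain ⟨w', j, rfl⟩ : ∃ w' j, w = w' ++ [j] := by
    rcases List.eq_nil_or_concat' w with h | ⟨w', j, h⟩
    · exact absurd h hw0
    · exact ⟨w', j, h⟩
  obtain ⟨g, hg, ⟨q, hq, hqg⟩, hp⟩ := exists_edge hu
  obtain ⟨g', hg', ⟨q', hq', hqg'⟩, hp'⟩ := exists_edge hw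
  rw [Loc_E_snoc hg, Loc_E_snoc hg', Sym2.eq_iff] at h
  have hu' := (rel_snoc.1 hu).1
  have hw' := (rel_snoc.1 hw).1
  rcases h with ⟨h1, _⟩ | ⟨h1, h2⟩
  · rw [← h1] at hp'
    exact (hσ b _ b _ hu hw _ _ hp hp' rfl).2
  · -- `g = σ g'`, `σ g = g'`
    have e1 := (hσ b _ b _ hu' hw _ _ hq hp' (by rw [hqg, h1])).2
    have e2 := (hσ b _ b _ hw' hu _ _ hq' hp (by rw [hqg', h2])).2
    have l1 := congrArg List.length e1
    have l2 := congrArg List.length e2
    simp at l1 l2
    omega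

theorem Loc_graph {M R : ℕ} {k : Bool → List ℕ → ℕ} {σ : Pairing d} {ur ub : Fin n}
    (h : ShapeEv M R k σ ur ub) (J : Measure (ℝ≥0 × ℝ≥0)) [IsProbabilityMeasure J] (b : Bool)
    {B : Set (List ℕ → ℕ × (ℝ≥0 × ℝ≥0))} (hB : MeasurableSet B) (hB' : RelLocal M R B) :
    (Measure.pi fun _ : Sym2 (HE d) => J) {x | fld σ x (rt ur ub b) ∈ B} =
      LocQ M R J (k b) B := by
  classical
  set v := rt ur ub b with hv
  have hrel : ∀ u, rel M R (k b) u ↔ rel M R (fK σ v) u := fun u =>
    rel_congr (K := k b) (K' := fK σ v) (fun w hw => (h.2 b w hw).symm) u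
  by_cases hne : Nonempty (LocNR M R (k b))
  · -- a default edge
    obtain ⟨u0, hu0⟩ := hne
    rw [Loc_mem_NR] at hu0
    obtain ⟨u0', i0, rfl⟩ : ∃ u' i, u0 = u' ++ [i] := by
      rcases List.eq_nil_or_concat' u0 with h | ⟨u', i, h⟩
      · exact absurd h hu0.2
      · exact ⟨u', i, h⟩
    obtain ⟨g, -, -, -⟩ := exists_edge ((hrel _).1 hu0.1)
    set g0 : Sym2 (HE d) := s(g, g)
    set e : LocNR M R (k b) → Sym2 (HE d) := fun u => LocE σ v g0 u.1 with he
    have hinj : Function.Injective e := by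
      intro u w huw
      have hu := Loc_mem_NR.1 u.2
      have hw := Loc_mem_NR.1 w.2
      exact Subtype.ext (Loc_E_inj h.1 b ((hrel _).1 hu.1) ((hrel _).1 hw.1) hu.2 hw.2 huw)
    have hpre : {x : Sym2 (HE d) → ℝ≥0 × ℝ≥0 | fld σ x v ∈ B} =
        (fun x u => x (e u)) ⁻¹' {z | LocFill M R (k b) z ∈ B} := by
      ext x
      have hsh : fld σ x v ∈ LocSh M R (k b) := fun u hu => h.2 b u hu
      have hfill : (fun u : LocNR M R (k b) => (fld σ x v u.1).2) = fun u => x (e u) := by
        funext u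
        obtain ⟨u, hu⟩ := u
        have hu2 := Loc_mem_NR.1 hu
        obtain ⟨u', i, rfl⟩ : ∃ u' i, u = u' ++ [i] := by
          rcases List.eq_nil_or_concat' u with h | ⟨u', i, h⟩
          · exact absurd h hu2.2
          · exact ⟨u', i, h⟩
        obtain ⟨g, hg, -, -⟩ := exists_edge ((hrel _).1 hu2.1)
        show fX σ x v (u' ++ [i]) = x (LocE σ v g0 (u' ++ [i]))
        rw [Loc_fX_snoc hg, Loc_E_snoc hg]
      show fld σ x v ∈ B ↔ LocFill M R (k b) (fun u => x (e u)) ∈ B
      rw [Loc_mem_B hB' hsh, hfill]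
    rw [hpre, LocQ, ← Loc_pi_comp J hinj, Measure.map_apply]
    · exact measurable_pi_iff.2 fun u => measurable_pi_apply _
    · exact (Loc_measurable_fill M R (k b)) hB
  · rw [not_nonempty_iff] at hne
    have hpre : ∀ x : Sym2 (HE d) → ℝ≥0 × ℝ≥0, fld σ x v ∈ B ↔
        LocFill M R (k b) (fun u => 0) ∈ B := by
      intro x
      have hsh : fld σ x v ∈ LocSh M R (k b) := fun u hu => h.2 b u hu
      rw [Loc_mem_B hB' hsh]
      have : (fun u : LocNR M R (k b) => (fld σ x v u.1).2) = fun u => 0 := by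
        funext u
        exact (hne.false u).elim
      rw [this]
    have hpre2 : ∀ z : LocNR M R (k b) → ℝ≥0 × ℝ≥0, LocFill M R (k b) z ∈ B ↔
        LocFill M R (k b) (fun u => 0) ∈ B := by
      intro z
      have : z = fun u => 0 := by
        funext u
        exact (hne.false u).elim
      rw [this]
    unfold LocQ
    by_cases hb : LocFill M R (k b) (fun u => 0) ∈ B
    · have e1 : {x : Sym2 (HE d) → ℝ≥0 × ℝ≥0 | fld σ x v ∈ B} = Set.univ := by
        ext x; simp [hpre x, hb]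
      have e2 : {z : LocNR M R (k b) → ℝ≥0 × ℝ≥0 | LocFill M R (k b) z ∈ B} = Set.univ := by
        ext z; simp [hpre2 z, hb]
      rw [e1, e2, measure_univ, measure_univ]
    · have e1 : {x : Sym2 (HE d) → ℝ≥0 × ℝ≥0 | fld σ x v ∈ B} = ∅ := by
        ext x; simp [hpre x, hb]
      have e2 : {z : LocNR M R (k b) → ℝ≥0 × ℝ≥0 | LocFill M R (k b) z ∈ B} = ∅ := by
        ext z; simp [hpre2 z, hb]
      rw [e1, e2, measure_empty, measure_empty]

end

/-! ### The tree -/

theorem Loc_measurableSet_Sh (M R : ℕ) (k : List ℕ → ℕ) : MeasurableSet (LocSh M R k) := by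
  have : LocSh M R k = ⋂ u ∈ LocRel M R k, {ω | (ω u).1 = k u} := by
    ext ω
    simp only [LocSh, mem_ofPred_eq, mem_iInter]
    exact ⟨fun h u hu => h u (Loc_mem_rel.1 hu), fun h u hu => h u (Loc_mem_rel.2 hu)⟩
  rw [this]
  apply Finset.measurableSet_biInter
  intro u _
  exact (measurable_fst.comp (measurable_pi_apply u)) (measurableSet_singleton (k u))

theorem Loc_tree {α ν : Measure ℕ} [IsProbabilityMeasure α] [IsProbabilityMeasure ν]
    (J : Measure (ℝ≥0 × ℝ≥0)) [IsProbabilityMeasure J] {M R : ℕ} (k : List ℕ → ℕ)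
    {B : Set (List ℕ → ℕ × (ℝ≥0 × ℝ≥0))} (hB : MeasurableSet B) (hB' : RelLocal M R B) :
    treeLaw α ν J (LocSh M R k ∩ B) = treeLaw α ν J (LocSh M R k) * LocQ M R J k B := by
  classical
  have hprob : ∀ u : List ℕ, IsProbabilityMeasure ((if u = [] then α else ν).prod J) := by
    intro u
    split_ifs <;> infer_instance
  set P := treeLaw α ν J with hP
  set f : (List ℕ → ℕ × (ℝ≥0 × ℝ≥0)) → (LocNR M R k → ℝ≥0 × ℝ≥0) := fun ω u => (ω u.1).2 with hf
  have hfm : Measurable f := measurable_pi_iff.2 fun u =>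
    measurable_snd.comp (measurable_pi_apply u.1)
  have hint : LocSh M R k ∩ B = LocSh M R k ∩ f ⁻¹' {z | LocFill M R k z ∈ B} := by
    ext ω
    constructor
    · rintro ⟨h1, h2⟩
      exact ⟨h1, (Loc_mem_B hB' h1).1 h2⟩
    · rintro ⟨h1, h2⟩
      exact ⟨h1, (Loc_mem_B hB' h1).2 h2⟩
  -- probability of rectangles
  have hrect : ∀ s : LocNR M R k → Set (ℝ≥0 × ℝ≥0), (∀ u, MeasurableSet (s u)) →
      P (LocSh M R k ∩ f ⁻¹' (Set.univ.pi s)) =
        (∏ u ∈ LocRel M R k, (if u = [] then α else ν) {k u}) * ∏ u, J (s u) := by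
    intro s hs
    set s' : List ℕ → Set (ℝ≥0 × ℝ≥0) := fun u => if h : u ∈ LocNR M R k then s ⟨u, h⟩ else
      Set.univ with hs'
    have hs'm : ∀ u, MeasurableSet (s' u) := by
      intro u
      by_cases h : u ∈ LocNR M R k
      · simp only [hs', h, dif_pos]; exact hs _
      · simp only [hs', h, dif_neg, not_false_iff]; exact MeasurableSet.univ
    have e1 : LocSh M R k ∩ f ⁻¹' (Set.univ.pi s) =
        Set.pi (LocRel M R k : Set (List ℕ)) (fun u => ({k u} : Set ℕ) ×ˢ s' u) := by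
      ext ω
      simp only [mem_inter_iff, mem_preimage, Set.mem_pi, Finset.mem_coe, mem_prod,
        mem_singleton_iff]
      constructor
      · rintro ⟨h1, h2⟩ u hu
        refine ⟨h1 u (Loc_mem_rel.1 hu), ?_⟩
        by_cases h : u ∈ LocNR M R k
        · simp only [hs', h, dif_pos]
          exact h2 ⟨u, h⟩ (mem_univ _)
        · simp only [hs', h, dif_neg, not_false_iff, mem_univ]
      · intro h
        refine ⟨fun u hu => (h u (Loc_mem_rel.2 hu)).1, fun u _ => ?_⟩
        have := (h u.1 (Loc_mem_rel.2 (Loc_mem_NR.1 u.2).1)).2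
        simpa only [hs', u.2, dif_pos] using this
    rw [e1, hP, treeLaw, Measure.infinitePi_pi _ (fun u _ => (measurableSet_singleton _).prod (hs'm u))]
    simp only [Measure.prod_prod]
    rw [Finset.prod_mul_distrib]
    congr 1
    -- the weights
    have e2 : ∏ u ∈ LocRel M R k, J (s' u) = ∏ u ∈ LocNR M R k, J (s' u) := by
      symm
      apply Finset.prod_subset (fun u hu => Loc_mem_rel.2 (Loc_mem_NR.1 hu).1)
      intro u _ hu
      simp only [hs', hu, dif_neg, not_false_iff, measure_univ]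
    rw [e2, ← Finset.prod_coe_sort]
    apply Finset.prod_congr rfl
    intro u _
    simp only [hs', u.2, dif_pos]
  have hSh : P (LocSh M R k) = ∏ u ∈ LocRel M R k, (if u = [] then α else ν) {k u} := by
    have := hrect (fun _ => Set.univ) (fun _ => MeasurableSet.univ)
    rw [Set.pi_univ, preimage_univ, inter_univ] at this
    rw [this]
    simp
  rw [hint]
  have hPp : IsProbabilityMeasure P := by
    rw [hP]; infer_instance
  by_cases h0 : P (LocSh M R k) = 0
  · rw [h0, zero_mul]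
    exact measure_mono_null inter_subset_left h0
  · -- the conditional law of the weights
    have hfin : P (LocSh M R k) ≠ ∞ := measure_ne_top _ _
    have key : Measure.pi (fun _ : LocNR M R k => J) =
        (P (LocSh M R k))⁻¹ • (P.restrict (LocSh M R k)).map f := by
      apply Measure.pi_eq
      intro s hs
      rw [Measure.smul_apply, Measure.map_apply hfm (MeasurableSet.univ_pi hs),
        Measure.restrict_apply (hfm (MeasurableSet.univ_pi hs)), inter_comm, hrect s hs, ← hSh,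
        smul_eq_mul, ← mul_assoc, ENNReal.inv_mul_cancel h0 hfin, one_mul]
    have hBm : MeasurableSet {z | LocFill M R k z ∈ B} := (Loc_measurable_fill M R k) hB
    rw [LocQ, key, Measure.smul_apply, Measure.map_apply hfm hBm,
      Measure.restrict_apply (hfm hBm), smul_eq_mul, ← mul_assoc,
      ENNReal.mul_inv_cancel h0 hfin, one_mul, inter_comm]

/-! ### Canonical shapes -/

/-- Shapes which vanish off the relevant words, with values at most `m`. -/
def LocCanon (M R m : ℕ) : Set (List ℕ → ℕ) :=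
  {k | (∀ u, ¬ rel M R k u → k u = 0) ∧ ∀ u, k u ≤ m}

theorem Loc_canon_finite (M R m : ℕ) : (LocCanon M R m).Finite := by
  classical
  have hbox : Finite (box M R) := (box_finite M R).to_subtype
  have hfin : (Set.range fun (g : box M R → Fin (m + 1)) (u : List ℕ) =>
      if h : u ∈ box M R then (g ⟨u, h⟩ : ℕ) else 0).Finite := Set.finite_range _
  refine hfin.subset ?_
  rintro k ⟨h1, h2⟩
  refine ⟨fun u => ⟨k u.1, Nat.lt_succ_of_le (h2 _)⟩, ?_⟩
  funext u
  by_cases h : u ∈ box M R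
  · simp [h]
  · have : ¬ rel M R k u := fun hr => h (rel_mem_box hr)
    simp [h, h1 u this]

theorem Loc_canon_unique {M R m : ℕ} {k k' f : List ℕ → ℕ} (hk : k ∈ LocCanon M R m)
    (hk' : k' ∈ LocCanon M R m) (h : ∀ u, rel M R k u → f u = k u)
    (h' : ∀ u, rel M R k' u → f u = k' u) : k = k' := by
  funext u
  have e1 := rel_congr (K := k) (K' := f) (fun w hw => (h w hw).symm) u
  have e2 := rel_congr (K := k') (K' := f) (fun w hw => (h' w hw).symm) u
  by_cases hf : rel M R f u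
  · rw [← h u (e1.2 hf), ← h' u (e2.2 hf)]
  · rw [hk.1 u (fun h => hf (e1.1 h)), hk'.1 u (fun h => hf (e2.1 h))]

theorem Loc_exists_canon {M R m : ℕ} {f : List ℕ → ℕ} (hf : ∀ u ∈ box M R, f u ≤ m) :
    ∃ k ∈ LocCanon M R m, ∀ u, rel M R k u → f u = k u := by
  classical
  set k : List ℕ → ℕ := fun u => if rel M R f u then f u else 0 with hk
  have hfk : ∀ u, rel M R f u → f u = k u := by
    intro u hu
    simp only [hk, hu, if_true]
  have hrel : ∀ u, rel M R f u ↔ rel M R k u := fun u => rel_congr hfk u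
  refine ⟨k, ⟨?_, ?_⟩, ?_⟩
  · intro u hu
    have : ¬ rel M R f u := fun h => hu ((hrel u).1 h)
    simp only [hk, this, if_false]
  · intro u
    by_cases h : rel M R f u
    · simp only [hk, h, if_true]
      exact hf u (rel_mem_box h)
    · simp only [hk, h, if_false]
      exact Nat.zero_le _
  · intro u hu
    exact hfk u ((hrel u).2 hu)

theorem Loc_disjoint {M R m : ℕ} {k k' : List ℕ → ℕ} (hk : k ∈ LocCanon M R m)
    (hk' : k' ∈ LocCanon M R m) (hne : k ≠ k') : Disjoint (LocSh M R k) (LocSh M R k') := by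
  rw [Set.disjoint_left]
  intro ω h h'
  exact hne (Loc_canon_unique hk hk' (f := fun u => (ω u).1) h h')

theorem Loc_sum_le {P : Measure (List ℕ → ℕ × (ℝ≥0 × ℝ≥0))} [IsProbabilityMeasure P] {M R m : ℕ}
    {B : Set (List ℕ → ℕ × (ℝ≥0 × ℝ≥0))} (hB : MeasurableSet B) :
    ∑ k ∈ (Loc_canon_finite M R m).toFinset, (P (LocSh M R k ∩ B)).toReal ≤ (P B).toReal := by
  rw [← ENNReal.toReal_sum (fun k _ => measure_ne_top _ _)]
  apply ENNReal.toReal_mono (measure_ne_top _ _)
  rw [← measure_biUnion_finset]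
  · apply measure_mono
    intro ω hω
    simp only [mem_iUnion] at hω
    obtain ⟨k, _, hk⟩ := hω
    exact hk.2
  · intro k hk k' hk' hne
    have h1 : k ∈ LocCanon M R m := by simpa using hk
    have h2 : k' ∈ LocCanon M R m := by simpa using hk'
    exact (Loc_disjoint h1 h2 hne).mono inter_subset_left inter_subset_left
  · intro k _
    exact (Loc_measurableSet_Sh M R k).inter hB

theorem Loc_mass (P : Measure (List ℕ → ℕ × (ℝ≥0 × ℝ≥0))) [IsProbabilityMeasure P] (M R : ℕ)
    {δ : ℝ} (hδ : 0 < δ) :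
    ∃ m, 1 - δ ≤ ∑ k ∈ (Loc_canon_finite M R m).toFinset, (P (LocSh M R k)).toReal := by
  set A : ℕ → Set (List ℕ → ℕ × (ℝ≥0 × ℝ≥0)) := fun m => {ω | ∀ u ∈ box M R, (ω u).1 ≤ m} with hA
  have hmono : Monotone A := by
    intro m m' hm ω hω u hu
    exact (hω u hu).trans hm
  have hun : ⋃ m, A m = Set.univ := by
    rw [Set.eq_univ_iff_forall]
    intro ω
    rw [mem_iUnion]
    refine ⟨∑ u ∈ (box_finite M R).toFinset, (ω u).1, ?_⟩
    intro u hu
    exact Finset.single_le_sum (f := fun u => (ω u).1) (fun _ _ => Nat.zero_le _)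
      ((box_finite M R).mem_toFinset.2 hu)
  have hlim : Tendsto (fun m => (P (A m)).toReal) atTop (𝓝 1) := by
    have h1 := tendsto_measure_iUnion_atTop (μ := P) hmono
    rw [hun, measure_univ] at h1
    have h2 := (ENNReal.tendsto_toReal ENNReal.one_ne_top).comp h1
    rw [ENNReal.toReal_one] at h2
    exact h2
  obtain ⟨m, hm⟩ := (hlim.eventually (lt_mem_nhds (show 1 - δ < 1 by linarith))).exists
  refine ⟨m, hm.le.trans ?_⟩
  rw [← ENNReal.toReal_sum (fun k _ => measure_ne_top _ _)]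
  apply ENNReal.toReal_mono
  · exact ENNReal.sum_ne_top.2 fun k _ => measure_ne_top _ _
  · refine le_trans (measure_mono ?_) (measure_biUnion_finset_le _ _)
    intro ω hω
    obtain ⟨k, hk, hk2⟩ := Loc_exists_canon (f := fun u => (ω u).1) hω
    simp only [mem_iUnion]
    exact ⟨k, by simpa using hk, hk2⟩

/-- The shape of a pair. -/
def LocK (p : (List ℕ → ℕ) × (List ℕ → ℕ)) : Bool → List ℕ → ℕ := fun b => if b then p.1 else p.2

theorem Loc_det {n : ℕ} (d : Fin n → ℕ) (Ir Ib : Measure ℝ≥0) [IsProbabilityMeasure Ir]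
    [IsProbabilityMeasure Ib] (M R m : ℕ)
    {Br Bb : Set (List ℕ → ℕ × (ℝ≥0 × ℝ≥0))} (hBr : MeasurableSet Br) (hBb : MeasurableSet Bb)
    (hBr' : RelLocal M R Br) (hBb' : RelLocal M R Bb) :
    qprob d Ir Ib (fun σ ur ub => {x | ¬ EmbOK M R σ ur ub ∨ fld σ x ur ∈ Br ∨
          fld σ x ub ∈ Bb}) ≤ ENNReal.ofReal
      (1 - ∑ p ∈ (Loc_canon_finite M R m).toFinset ×ˢ (Loc_canon_finite M R m).toFinset,
          qfrac d (ShapeEv M R (LocK p)) +
        ∑ p ∈ (Loc_canon_finite M R m).toFinset ×ˢ (Loc_canon_finite M R m).toFinset,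
          qfrac d (ShapeEv M R (LocK p)) * ((LocQ M R (Ir.prod Ib) p.1 Br).toReal +
            (LocQ M R (Ir.prod Ib) p.2 Bb).toReal)) := by
  classical
  set J := Ir.prod Ib with hJ
  set K := (Loc_canon_finite M R m).toFinset with hK
  have hKm : ∀ k, k ∈ K ↔ k ∈ LocCanon M R m := fun k => by rw [hK, Set.Finite.mem_toFinset]
  set q : (List ℕ → ℕ) × (List ℕ → ℕ) → ℝ := fun p => (LocQ M R J p.1 Br).toReal +
            (LocQ M R J p.2 Bb).toReal with hq
  set E : Pairing d → Fin n → Fin n → Set (Sym2 (HE d) → ℝ≥0 × ℝ≥0) := fun σ ur ub =>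
    {x | ¬ EmbOK M R σ ur ub ∨ fld σ x ur ∈ Br ∨ fld σ x ub ∈ Bb} with hE
  set Z := Pairing d × {p : Fin n × Fin n // p.1 ≠ p.2} with hZ
  set π := (Measure.pi fun _ : Sym2 (HE d) => J) with hπ
  set ind : (List ℕ → ℕ) × (List ℕ → ℕ) → Z → ℝ := fun p z =>
    if ShapeEv M R (LocK p) z.1 z.2.1.1 z.2.1.2 then 1 else 0 with hind
  have hQtop : ∀ k B, LocQ M R J k B ≠ ⊤ := fun k B => measure_ne_top _ _
  -- pointwise bound
  have hpt : ∀ z : Z, (π (E z.1 z.2.1.1 z.2.1.2)).toReal ≤
      1 - ∑ p ∈ K ×ˢ K, ind p z + ∑ p ∈ K ×ˢ K, ind p z * q p := by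
    intro z
    by_cases hz : ∃ p ∈ K ×ˢ K, ShapeEv M R (LocK p) z.1 z.2.1.1 z.2.1.2
    · obtain ⟨p, hp, hpz⟩ := hz
      have hpp := Finset.mem_product.1 hp
      have huniq : ∀ p' ∈ K ×ˢ K, p' ≠ p → ind p' z = 0 := by
        intro p' hp' hne
        have hpp' := Finset.mem_product.1 hp'
        simp only [hind]
        rw [if_neg]
        intro h'
        apply hne
        refine Prod.ext ?_ ?_
        · exact Loc_canon_unique ((hKm _).1 hpp'.1) ((hKm _).1 hpp.1)
            (f := fK z.1 (rt z.2.1.1 z.2.1.2 true)) (h'.2 true) (hpz.2 true)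
        · exact Loc_canon_unique ((hKm _).1 hpp'.2) ((hKm _).1 hpp.2)
            (f := fK z.1 (rt z.2.1.1 z.2.1.2 false)) (h'.2 false) (hpz.2 false)
      have hone : ind p z = 1 := by
        simp only [hind]; rw [if_pos hpz]
      rw [Finset.sum_eq_single p (fun p' hp' hne => huniq p' hp' hne) (fun h => absurd hp h),
        Finset.sum_eq_single p (fun p' hp' hne => by rw [huniq p' hp' hne, zero_mul])
          (fun h => absurd hp h), hone]
      have hsub : E z.1 z.2.1.1 z.2.1.2 ⊆ {x | fld z.1 x (rt z.2.1.1 z.2.1.2 true) ∈ Br} ∪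
          {x | fld z.1 x (rt z.2.1.1 z.2.1.2 false) ∈ Bb} := by
        rintro x (h | h | h)
        · exact absurd hpz.1 h
        · exact Or.inl h
        · exact Or.inr h
      have hle : π (E z.1 z.2.1.1 z.2.1.2) ≤ LocQ M R J p.1 Br + LocQ M R J p.2 Bb := by
        refine (measure_mono hsub).trans ((measure_union_le _ _).trans ?_)
        have e1 := Loc_graph hpz J true hBr hBr'
        have e2 := Loc_graph hpz J false hBb hBb'
        rw [e1, e2]
        exact le_refl _
      have := ENNReal.toReal_mono (ENNReal.add_ne_top.2 ⟨hQtop _ _, hQtop _ _⟩) hle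
      rw [ENNReal.toReal_add (hQtop _ _) (hQtop _ _)] at this
      simp only [hq]
      linarith
    · push Not at hz
      have h0 : ∀ p ∈ K ×ˢ K, ind p z = 0 := by
        intro p hp
        simp only [hind]
        rw [if_neg (hz p hp)]
      rw [Finset.sum_eq_zero h0, Finset.sum_eq_zero (fun p hp => by rw [h0 p hp, zero_mul])]
      have : (π (E z.1 z.2.1.1 z.2.1.2)).toReal ≤ 1 := by
        rw [← ENNReal.toReal_one]
        exact ENNReal.toReal_mono ENNReal.one_ne_top prob_le_one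
      linarith
  -- the sum
  set NN : ℝ := (Fintype.card (Pairing d) : ℝ) * Fintype.card {p : Fin n × Fin n // p.1 ≠ p.2}
    with hNN
  set X : ℝ := 1 - ∑ p ∈ K ×ˢ K, qfrac d (ShapeEv M R (LocK p)) +
        ∑ p ∈ K ×ˢ K, qfrac d (ShapeEv M R (LocK p)) * q p with hX
  have hNNe : ((Fintype.card (Pairing d) : ℝ≥0∞) *
      Fintype.card {p : Fin n × Fin n // p.1 ≠ p.2}) = ENNReal.ofReal NN := by
    rw [hNN, ENNReal.ofReal_mul (by positivity), ENNReal.ofReal_natCast, ENNReal.ofReal_natCast]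
  have hnum : ∑ σ : Pairing d, ∑ p : {p : Fin n × Fin n // p.1 ≠ p.2}, π (E σ p.1.1 p.1.2) =
      ENNReal.ofReal (∑ z : Z, (π (E z.1 z.2.1.1 z.2.1.2)).toReal) := by
    rw [ENNReal.ofReal_sum_of_nonneg (fun _ _ => ENNReal.toReal_nonneg), ← Fintype.sum_prod_type']
    apply Finset.sum_congr rfl
    intro z _
    rw [ENNReal.ofReal_toReal (measure_ne_top _ _)]
  have hcardZ : (Fintype.card Z : ℝ) = NN := by
    have : Fintype.card Z = Fintype.card (Pairing d) *
        Fintype.card {p : Fin n × Fin n // p.1 ≠ p.2} := Fintype.card_prod _ _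
    rw [hNN, this]
    push_cast
    rfl
  have hsum : ∑ z : Z, (π (E z.1 z.2.1.1 z.2.1.2)).toReal ≤ X * NN := by
    refine (Finset.sum_le_sum fun z _ => hpt z).trans ?_
    by_cases hN0 : NN = 0
    · have hemp : IsEmpty Z := by
        rw [← Fintype.card_eq_zero_iff]
        have : (Fintype.card Z : ℝ) = 0 := by rw [hcardZ, hN0]
        exact_mod_cast this
      rw [hN0, mul_zero]
      simp
    · have hq' : ∀ p, qfrac d (ShapeEv M R (LocK p)) * NN = ∑ z : Z, ind p z := by
        intro p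
        simp only [qfrac, hind]
        rw [Finset.sum_ite, Finset.sum_const_zero, add_zero, Finset.sum_const, nsmul_eq_mul, mul_one,
          div_mul_cancel₀ _ hN0]
      have hXN : X * NN = NN - ∑ p ∈ K ×ˢ K, (qfrac d (ShapeEv M R (LocK p)) * NN) +
          ∑ p ∈ K ×ˢ K, (qfrac d (ShapeEv M R (LocK p)) * NN) * q p := by
        rw [hX, add_mul, sub_mul, one_mul, Finset.sum_mul, Finset.sum_mul]
        congr 1
        apply Finset.sum_congr rfl
        intro p _
        ring
      rw [hXN]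
      simp only [hq']
      rw [Finset.sum_add_distrib, Finset.sum_sub_distrib, Finset.sum_const, Finset.card_univ,
        nsmul_eq_mul, mul_one, hcardZ, Finset.sum_comm]
      apply le_of_eq
      congr 1
      rw [Finset.sum_comm]
      apply Finset.sum_congr rfl
      intro p _
      rw [Finset.sum_mul]
  unfold qprob
  rw [hNNe]
  apply ENNReal.div_le_of_le_mul
  rw [hnum, ← ENNReal.ofReal_mul' (by rw [hNN]; positivity)]
  exact ENNReal.ofReal_le_ofReal hsum

/-- (MODULE Local) Local limit. -/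
theorem local_limit {μ : Measure ℕ} {τ : ℝ} (hμ : IsDegreeLaw μ τ) (hτ : 2 < τ) {β γ y0 : ℝ}
    (Ir Ib : Measure ℝ≥0) [IsProbabilityMeasure Ir] [IsProbabilityMeasure Ib] (M R : ℕ)
    {Br Bb : Set (List ℕ → ℕ × (ℝ≥0 × ℝ≥0))} (hBr : MeasurableSet Br) (hBb : MeasurableSet Bb)
    (hBr' : RelLocal M R Br) (hBb' : RelLocal M R Bb) {ε : ℝ≥0∞} (hε : 0 < ε) :
    ∀ᶠ d in regF μ β γ y0,
      qprob d.2 Ir Ib (fun σ ur ub => {x | ¬ EmbOK M R σ ur ub ∨ fld σ x ur ∈ Br ∨
          fld σ x ub ∈ Bb}) ≤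
        treeLaw μ (sizeBiased μ) (Ir.prod Ib) Br + treeLaw μ (sizeBiased μ) (Ir.prod Ib) Bb + ε := by
  classical
  have hp1 : IsProbabilityMeasure μ := hμ.prob
  have hp2 : IsProbabilityMeasure (sizeBiased μ) := sizeBiased_prob hμ hτ
  obtain ⟨ε', hε'0, hε'⟩ := ENNReal.lt_iff_exists_nnreal_btwn.1 hε
  have hε'1 : (0 : ℝ) < ε' := by exact_mod_cast hε'0
  set δ : ℝ := (ε' : ℝ) / 3 with hδ
  have hδ0 : 0 < δ := by positivity
  set J := Ir.prod Ib with hJ
  set P := treeLaw μ (sizeBiased μ) J with hP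
  have hPp : IsProbabilityMeasure P := by rw [hP]; infer_instance
  obtain ⟨m, hm⟩ := Loc_mass P M R hδ0
  set K := (Loc_canon_finite M R m).toFinset with hK
  set F : (List ℕ → ℕ) → ℝ := fun k => (P (LocSh M R k)).toReal with hF
  set q : (List ℕ → ℕ) × (List ℕ → ℕ) → ℝ := fun p => (LocQ M R J p.1 Br).toReal +
            (LocQ M R J p.2 Bb).toReal with hq
  set S : ℝ := ∑ k ∈ K, F k with hS
  have hF0 : ∀ k, 0 ≤ F k := fun k => ENNReal.toReal_nonneg
  have hS0 : 0 ≤ S := Finset.sum_nonneg fun k _ => hF0 k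
  have hS1 : S ≤ 1 := by
    have := Loc_sum_le (P := P) (M := M) (R := R) (m := m) MeasurableSet.univ
    simp only [inter_univ, measure_univ, ENNReal.toReal_one] at this
    exact this
  have hlim : Tendsto (fun d : DegSeq => 1 - ∑ p ∈ K ×ˢ K, qfrac d.2 (ShapeEv M R (LocK p)) +
      ∑ p ∈ K ×ˢ K, qfrac d.2 (ShapeEv M R (LocK p)) * q p) (regF μ β γ y0)
      (𝓝 (1 - ∑ p ∈ K ×ˢ K, F p.1 * F p.2 + ∑ p ∈ K ×ˢ K, F p.1 * F p.2 * q p)) := by
    have hsh : ∀ p : (List ℕ → ℕ) × (List ℕ → ℕ), Tendsto (fun d : DegSeq =>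
        qfrac d.2 (ShapeEv M R (LocK p))) (regF μ β γ y0) (𝓝 (F p.1 * F p.2)) := fun p =>
      shape_limit hμ hτ J M R (LocK p)
    exact (tendsto_const_nhds.sub (tendsto_finsetSum _ fun p _ => hsh p)).add
      (tendsto_finsetSum _ fun p _ => (hsh p).mul tendsto_const_nhds)
  have hprod : ∑ p ∈ K ×ˢ K, F p.1 * F p.2 = S * S := by
    rw [Finset.sum_product, hS, Finset.sum_mul_sum]
  have hQr : ∀ k, F k * (LocQ M R J k Br).toReal = (P (LocSh M R k ∩ Br)).toReal := by
    intro k
    rw [hP, Loc_tree J k hBr hBr', ENNReal.toReal_mul]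
  have hQb : ∀ k, F k * (LocQ M R J k Bb).toReal = (P (LocSh M R k ∩ Bb)).toReal := by
    intro k
    rw [hP, Loc_tree J k hBb hBb', ENNReal.toReal_mul]
  have hL : 1 - ∑ p ∈ K ×ˢ K, F p.1 * F p.2 + ∑ p ∈ K ×ˢ K, F p.1 * F p.2 * q p ≤
      2 * δ + (P Br).toReal + (P Bb).toReal := by
    have h1 : ∑ p ∈ K ×ˢ K, F p.1 * F p.2 * q p =
        S * (∑ k ∈ K, (P (LocSh M R k ∩ Br)).toReal) + S * (∑ k ∈ K, (P (LocSh M R k ∩ Bb)).toReal) := by
      have e : ∀ p ∈ K ×ˢ K, F p.1 * F p.2 * q p =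
          (P (LocSh M R p.1 ∩ Br)).toReal * F p.2 + F p.1 * (P (LocSh M R p.2 ∩ Bb)).toReal := by
        intro p _
        rw [← hQr, ← hQb]
        simp only [hq]
        ring
      rw [Finset.sum_congr rfl e, Finset.sum_add_distrib, Finset.sum_product, Finset.sum_product,
        hS, Finset.sum_mul_sum]
      congr 1
      · rw [Finset.sum_comm]
        exact Finset.sum_congr rfl fun i _ => Finset.sum_congr rfl fun j _ => mul_comm _ _
      · rw [Finset.sum_mul_sum]
    have h2 : S * (∑ k ∈ K, (P (LocSh M R k ∩ Br)).toReal) ≤ (P Br).toReal := by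
      have h3 : ∑ k ∈ K, (P (LocSh M R k ∩ Br)).toReal ≤ (P Br).toReal := Loc_sum_le hBr
      have h4 : 0 ≤ ∑ k ∈ K, (P (LocSh M R k ∩ Br)).toReal :=
        Finset.sum_nonneg fun k _ => ENNReal.toReal_nonneg
      nlinarith
    have h2' : S * (∑ k ∈ K, (P (LocSh M R k ∩ Bb)).toReal) ≤ (P Bb).toReal := by
      have h3 : ∑ k ∈ K, (P (LocSh M R k ∩ Bb)).toReal ≤ (P Bb).toReal := Loc_sum_le hBb
      have h4 : 0 ≤ ∑ k ∈ K, (P (LocSh M R k ∩ Bb)).toReal :=
        Finset.sum_nonneg fun k _ => ENNReal.toReal_nonneg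
      nlinarith
    rw [hprod, h1]
    nlinarith
  have hev := hlim.eventually (gt_mem_nhds (show 1 - ∑ p ∈ K ×ˢ K, F p.1 * F p.2 +
    ∑ p ∈ K ×ˢ K, F p.1 * F p.2 * q p < 3 * δ + (P Br).toReal + (P Bb).toReal by linarith))
  filter_upwards [hev] with d hd
  refine (Loc_det d.2 Ir Ib M R m hBr hBb hBr' hBb').trans ?_
  refine (ENNReal.ofReal_le_ofReal hd.le).trans ?_
  rw [ENNReal.ofReal_add (by positivity) (by positivity), ENNReal.ofReal_add (by positivity)
    (by positivity), ENNReal.ofReal_toReal (measure_ne_top _ _),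
    ENNReal.ofReal_toReal (measure_ne_top _ _)]
  have h3 : ENNReal.ofReal (3 * δ) ≤ ε := by
    have : 3 * δ = (ε' : ℝ) := by rw [hδ]; ring
    rw [this, ENNReal.ofReal_coe_nnreal]
    exact hε'.le
  calc ENNReal.ofReal (3 * δ) + P Br + P Bb ≤ ε + P Br + P Bb := by gcongr
    _ = P Br + P Bb + ε := by ring

end Pool.Agent.Helper98.Comp
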