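import Pool.Agent.Helper98.Comp.Determ
import Pool.Agent.Helper98.Comp.Local
import Pool.Agent.Helper98.Comp.GWsub
import Pool.Agent.Helper98.Comp.Greedy2

/-!
# Final assembly, part A: union bound and the bad sets of fields
-/

set_option autoImplicit false

namespace Pool.Agent.Helper98.Comp

open MeasureTheory Filter Set
open scoped ENNReal NNReal Topology

section qp
variable {n : ℕ} {d : Fin n → ℕ} (Ir Ib : Measure ℝ≥0)

theorem fi_qprob_mono
    {E E' : Pairing d → Fin n → Fin n → Set (Sym2 (HE d) → ℝ≥0 × ℝ≥0)}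
    (h : ∀ σ ur ub, E σ ur ub ⊆ E' σ ur ub) : qprob d Ir Ib E ≤ qprob d Ir Ib E' := by
  unfold qprob
  gcongr
  exact h _ _ _

theorem fi_qprob_union
    (E E' : Pairing d → Fin n → Fin n → Set (Sym2 (HE d) → ℝ≥0 × ℝ≥0)) :
    qprob d Ir Ib (fun σ ur ub => E σ ur ub ∪ E' σ ur ub) ≤
      qprob d Ir Ib E + qprob d Ir Ib E' := by
  unfold qprob
  rw [← ENNReal.add_div]
  gcongr
  rw [← Finset.sum_add_distrib]
  refine Finset.sum_le_sum fun σ _ => ?_
  rw [← Finset.sum_add_distrib]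
  exact Finset.sum_le_sum fun p _ => measure_union_le _ _

theorem fi_qprob_biUnion {ι : Type*} (s : Finset ι)
    (E : ι → Pairing d → Fin n → Fin n → Set (Sym2 (HE d) → ℝ≥0 × ℝ≥0)) :
    qprob d Ir Ib (fun σ ur ub => ⋃ i ∈ s, E i σ ur ub) ≤ ∑ i ∈ s, qprob d Ir Ib (E i) := by
  classical
  induction s using Finset.induction_on with
  | empty => simp [qprob]
  | insert a s ha ih =>
    rw [Finset.sum_insert ha]
    refine le_trans ?_ ((fi_qprob_union Ir Ib (E a) fun σ ur ub => ⋃ i ∈ s, E i σ ur ub).trans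
      (add_le_add le_rfl ih))
    refine fi_qprob_mono Ir Ib fun σ ur ub => ?_
    simp only [Finset.mem_insert, iUnion_iUnion_eq_or_left]
    exact subset_rfl

theorem fi_qprob_le {E : Pairing d → Fin n → Fin n → Set (Sym2 (HE d) → ℝ≥0 × ℝ≥0)} {δ : ℝ≥0∞}
    (h : ∀ ur ub, ∑ σ : Pairing d, (Measure.pi fun _ : Sym2 (HE d) => Ir.prod Ib) (E σ ur ub) ≤
      Fintype.card (Pairing d) * δ) : qprob d Ir Ib E ≤ δ := by
  unfold qprob
  refine ENNReal.div_le_of_le_mul ?_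
  rw [Finset.sum_comm]
  calc ∑ p : {p : Fin n × Fin n // p.1 ≠ p.2}, ∑ σ : Pairing d,
        (Measure.pi fun _ : Sym2 (HE d) => Ir.prod Ib) (E σ p.1.1 p.1.2)
      ≤ ∑ _p : {p : Fin n × Fin n // p.1 ≠ p.2}, Fintype.card (Pairing d) * δ :=
        Finset.sum_le_sum fun p _ => h _ _
    _ = δ * (Fintype.card (Pairing d) * Fintype.card {p : Fin n × Fin n // p.1 ≠ p.2}) := by
        rw [Finset.sum_const, Finset.card_univ, nsmul_eq_mul]
        ring

theorem fi_quenched_le_one [IsProbabilityMeasure Ir] [IsProbabilityMeasure Ib]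
    (Bad : ℕ → ℕ → Prop) : quenched d Ir Ib Bad ≤ 1 := by
  rw [quenched_eq_qprob]
  refine fi_qprob_le Ir Ib fun ur ub => ?_
  calc _ ≤ ∑ _σ : Pairing d, (1 : ℝ≥0∞) := Finset.sum_le_sum fun σ _ => prob_le_one
    _ = _ := by simp

end qp

/-! ### the bad sets -/

/-- Red field. -/
def fiR (ω : List ℕ → ℕ × (ℝ≥0 × ℝ≥0)) : List ℕ → ℕ × ℝ≥0 := fun u => ((ω u).1, (ω u).2.1)

/-- Blue field. -/
def fiB (ω : List ℕ → ℕ × (ℝ≥0 × ℝ≥0)) : List ℕ → ℕ × ℝ≥0 := fun u => ((ω u).1, (ω u).2.2)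

/-- The red source does not see a big individual. -/
def fiBad0 (M R : ℕ) (s1 : ℝ) : Set (List ℕ → ℕ × ℝ≥0) :=
  {ω | ¬ Near M R (Kf ω) (Xf ω) s1}

/-- Early individual of generation `R0`. -/
def fiBad1 (M R R0 : ℕ) (s : ℝ≥0) : Set (List ℕ → ℕ × ℝ≥0) :=
  {ω | ∃ u, rel M R (Kf ω) u ∧ u.length = R0 ∧ dist (Xf ω) u < s}

/-- Individual with many children. -/
def fiBad2 {W : Type*} (M R r M0 : ℕ) : Set (List ℕ → ℕ × W) :=
  {ω | ∃ u, rel M R (Kf ω) u ∧ u.length ≤ r ∧ M0 ≤ Kf ω u}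

/-- Late individual which is not near. -/
def fiBad3 (M R R0 J : ℕ) (s0 : ℝ) : Set (List ℕ → ℕ × ℝ≥0) :=
  {ω | ∃ a, rel M R (Kf ω) a ∧ a.length = R0 + J ∧
        ∀ b, b <+: a → R0 ≤ b.length →
          ¬ Near M (R - b.length) (subAt (Kf ω) b) (subAt (Xf ω) b) s0}

theorem fi_meas_R : Measurable fiR :=
  measurable_pi_iff.2 fun u => ((measurable_pi_apply u).fst).prodMk
    ((measurable_pi_apply u).snd.fst)

theorem fi_meas_B : Measurable fiB :=
  measurable_pi_iff.2 fun u => ((measurable_pi_apply u).fst).prodMk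
    ((measurable_pi_apply u).snd.snd)

theorem fi_meas_near (M R : ℕ) (s : ℝ) (b : List ℕ) :
    MeasurableSet {ω : List ℕ → ℕ × ℝ≥0 |
      Near M R (subAt (Kf ω) b) (subAt (Xf ω) b) s} := by
  have h : Measurable (fun ω : List ℕ → ℕ × ℝ≥0 => ((subAt ω b, s) :
      (List ℕ → ℕ × ℝ≥0) × ℝ)) :=
    (measurable_pi_iff.2 fun u => measurable_pi_apply _).prodMk measurable_const
  exact h (measurableSet_near M R)

theorem fi_meas_bad0 (M R : ℕ) (s1 : ℝ) : MeasurableSet (fiBad0 M R s1) := by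
  have := (fi_meas_near M R s1 []).compl
  exact this

theorem fi_meas_Kf {W : Type*} [MeasurableSpace W] (u : List ℕ) :
    Measurable (fun ω : List ℕ → ℕ × W => Kf ω u) := (measurable_pi_apply u).fst

theorem fi_meas_Xf {W : Type*} [MeasurableSpace W] :
    Measurable (fun ω : List ℕ → ℕ × W => Xf ω) :=
  measurable_pi_iff.2 fun u => (measurable_pi_apply u).snd

theorem fi_meas_bad1 (M R R0 : ℕ) (s : ℝ≥0) : MeasurableSet (fiBad1 M R R0 s) := by
  have : fiBad1 M R R0 s = ⋃ u : List ℕ, {ω | rel M R (Kf ω) u} ∩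
      ({_ω | u.length = R0} ∩ {ω | dist (Xf ω) u < s}) := by
    ext ω; simp [fiBad1]
  rw [this]
  refine MeasurableSet.iUnion fun u => (measurableSet_rel M R u).inter
    ((MeasurableSet.const _).inter ?_)
  exact measurableSet_lt ((measurable_dist u).comp fi_meas_Xf) measurable_const

theorem fi_meas_bad2 {W : Type*} [MeasurableSpace W] (M R r M0 : ℕ) :
    MeasurableSet (fiBad2 (W := W) M R r M0) := by
  have : fiBad2 (W := W) M R r M0 = ⋃ u : List ℕ, {ω | rel M R (Kf ω) u} ∩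
      ({_ω | u.length ≤ r} ∩ {ω | M0 ≤ Kf ω u}) := by
    ext ω; simp [fiBad2]
  rw [this]
  refine MeasurableSet.iUnion fun u => (measurableSet_rel M R u).inter
    ((MeasurableSet.const _).inter ?_)
  exact measurableSet_le measurable_const (fi_meas_Kf u)

theorem fi_meas_bad3 (M R R0 J : ℕ) (s0 : ℝ) : MeasurableSet (fiBad3 M R R0 J s0) := by
  have : fiBad3 M R R0 J s0 = ⋃ a : List ℕ, {ω | rel M R (Kf ω) a} ∩
      ({_ω | a.length = R0 + J} ∩ ⋂ b : List ℕ, {ω | b <+: a → R0 ≤ b.length →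
        ¬ Near M (R - b.length) (subAt (Kf ω) b) (subAt (Xf ω) b) s0}) := by
    ext ω; simp [fiBad3]
  rw [this]
  refine MeasurableSet.iUnion fun a => (measurableSet_rel M R a).inter
    ((MeasurableSet.const _).inter (MeasurableSet.iInter fun b => ?_))
  by_cases h1 : b <+: a
  · by_cases h2 : R0 ≤ b.length
    · simp only [h1, h2, true_imp_iff]
      exact (fi_meas_near M (R - b.length) s0 b).compl
    · simp [h2]
  · simp [h1]

/-! ### locality -/

theorem fi_rel_eq {M R : ℕ} {ω ω' : List ℕ → ℕ × (ℝ≥0 × ℝ≥0)}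
    (h : ∀ u, rel M R (Kf ω) u → (ω u).1 = (ω' u).1) (u : List ℕ) :
    rel M R (Kf ω) u ↔ rel M R (Kf ω') u := rel_congr h u

/-- distances agree on relevant words. -/
theorem fi_dist_eq {M R : ℕ} {K : List ℕ → ℕ} {X X' : List ℕ → ℝ≥0}
    (h : ∀ u, rel M R K u → u ≠ [] → X u = X' u) (b : List ℕ) :
    ∀ u, rel M R K (b ++ u) → dist (subAt X b) u = dist (subAt X' b) u := by
  intro u
  induction u using List.reverseRecOn with
  | nil => intro _; simp [dist]
  | append_singleton u i ih =>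
    intro hu
    rw [← List.append_assoc] at hu
    have h1 := (rel_snoc.1 hu).1
    rw [dist_append, dist_append, ih h1]
    congr 1
    simp only [dist, subAt, add_zero]
    rw [← List.append_assoc]
    exact h _ hu (by simp)

theorem fi_near_imp {M R : ℕ} {K K' : List ℕ → ℕ} {X X' : List ℕ → ℝ≥0}
    (hK : ∀ u, rel M R K u → K u = K' u)
    (h : ∀ u, rel M R K u → u ≠ [] → X u = X' u) {b : List ℕ} (hb : rel M R K b) {s : ℝ}
    (hn : Near M (R - b.length) (subAt K b) (subAt X b) s) :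
    Near M (R - b.length) (subAt K' b) (subAt X' b) s := by
  obtain ⟨u, h1, h2, h3⟩ := hn
  have hbu : rel M R K (b ++ u) := rel_append.2 ⟨hb, h1⟩
  refine ⟨u, (rel_append.1 ((rel_congr hK _).1 hbu)).2, ?_, ?_⟩
  · have := hK _ hbu
    simp only [subAt] at h2 ⊢
    omega
  · rw [← fi_dist_eq h b u hbu]
    exact h3

theorem fi_symm {M R : ℕ} {K K' : List ℕ → ℕ} {β : Type*} {X X' : List ℕ → β}
    (hK : ∀ u, rel M R K u → K u = K' u)
    (h : ∀ u, rel M R K u → u ≠ [] → X u = X' u) :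
    (∀ u, rel M R K' u → K' u = K u) ∧ (∀ u, rel M R K' u → u ≠ [] → X' u = X u) :=
  ⟨fun u hu => (hK u ((rel_congr hK u).2 hu)).symm,
    fun u hu hne => (h u ((rel_congr hK u).2 hu) hne).symm⟩

/-- A property of the numbers of children and weights which is monotone under agreement gives a
local set. -/
theorem fi_local {M R : ℕ} (f : ℝ≥0 × ℝ≥0 → ℝ≥0)
    (P : (List ℕ → ℕ) → (List ℕ → ℝ≥0) → Prop)
    (hP : ∀ K K' X X', (∀ u, rel M R K u → K u = K' u) →
      (∀ u, rel M R K u → u ≠ [] → X u = X' u) → P K X → P K' X') :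
    RelLocal M R {ω | P (Kf ω) (fun u => f (ω u).2)} := by
  intro ω ω' h1 h2
  have h2' : ∀ u, rel M R (Kf ω) u → u ≠ [] → f (ω u).2 = f (ω' u).2 :=
    fun u hu hne => by rw [h2 u hu hne]
  constructor
  · intro h
    exact hP _ _ _ _ h1 h2' h
  · intro h
    have := fi_symm (K := Kf ω) (K' := Kf ω') (X := fun u => f (ω u).2)
      (X' := fun u => f (ω' u).2) h1 h2'
    exact hP _ _ _ _ this.1 this.2 h

theorem fi_local_bad0 (M R : ℕ) (s1 : ℝ) : RelLocal M R (fiR ⁻¹' fiBad0 M R s1) := by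
  refine fi_local Prod.fst (fun K X => ¬ Near M R K X s1) fun K K' X X' h1 h2 h3 h4 => h3 ?_
  have := fi_symm h1 h2
  exact fi_near_imp (b := []) this.1 this.2 (rel_nil _ _ _) h4

theorem fi_local_bad1 (M R R0 : ℕ) (s : ℝ≥0) : RelLocal M R (fiB ⁻¹' fiBad1 M R R0 s) := by
  refine fi_local Prod.snd (fun K X => ∃ u, rel M R K u ∧ u.length = R0 ∧ dist X u < s)
    fun K K' X X' h1 h2 => ?_
  rintro ⟨u, h3, h4, h5⟩
  refine ⟨u, (rel_congr h1 u).1 h3, h4, ?_⟩
  have := fi_dist_eq h2 [] u h3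
  simp only [subAt_nil] at this
  rwa [← this]

theorem fi_local_bad2 (M R r M0 : ℕ) : RelLocal M R (fiBad2 M R r M0) := by
  refine fi_local Prod.snd (fun K X => ∃ u, rel M R K u ∧ u.length ≤ r ∧ M0 ≤ K u)
    fun K K' X X' h1 h2 => ?_
  rintro ⟨u, h3, h4, h5⟩
  exact ⟨u, (rel_congr h1 u).1 h3, h4, h1 u h3 ▸ h5⟩

theorem fi_local_bad3 (M R R0 J : ℕ) (s0 : ℝ) : RelLocal M R (fiR ⁻¹' fiBad3 M R R0 J s0) := by
  refine fi_local Prod.fst (fun K X => ∃ a, rel M R K a ∧ a.length = R0 + J ∧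
        ∀ b, b <+: a → R0 ≤ b.length →
          ¬ Near M (R - b.length) (subAt K b) (subAt X b) s0)
    fun K K' X X' h1 h2 => ?_
  rintro ⟨a, h3, h4, h5⟩
  have ha := (rel_congr h1 a).1 h3
  refine ⟨a, ha, h4, fun b hb hb' hn => h5 b hb hb' ?_⟩
  have := fi_symm h1 h2
  obtain ⟨w, rfl⟩ := hb
  exact fi_near_imp this.1 this.2 (rel_append.1 ha).1 hn

theorem fi_local_union {M R : ℕ} {B B' : Set (List ℕ → ℕ × (ℝ≥0 × ℝ≥0))} (h : RelLocal M R B)
    (h' : RelLocal M R B') : RelLocal M R (B ∪ B') := by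
  intro ω ω' h1 h2
  rw [mem_union, mem_union, h ω ω' h1 h2, h' ω ω' h1 h2]

/-! ### probabilities -/

theorem fi_prob_R {α ν : Measure ℕ} [IsProbabilityMeasure α] [IsProbabilityMeasure ν]
    (Ir Ib : Measure ℝ≥0) [IsProbabilityMeasure Ir] [IsProbabilityMeasure Ib]
    (S : Set (List ℕ → ℕ × ℝ≥0)) :
    treeLaw α ν (Ir.prod Ib) (fiR ⁻¹' S) ≤ treeLaw α ν Ir S := by
  have h := treeLaw_map (α := α) (ν := ν) (I := Ir.prod Ib) (W' := ℝ≥0) measurable_fst
  have h2 : (Ir.prod Ib).map Prod.fst = Ir := by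
    rw [Measure.map_fst_prod]; simp
  rw [h2] at h
  rw [← h]
  exact Measure.le_map_apply fi_meas_R.aemeasurable S

theorem fi_prob_B {α ν : Measure ℕ} [IsProbabilityMeasure α] [IsProbabilityMeasure ν]
    (Ir Ib : Measure ℝ≥0) [IsProbabilityMeasure Ir] [IsProbabilityMeasure Ib]
    (S : Set (List ℕ → ℕ × ℝ≥0)) :
    treeLaw α ν (Ir.prod Ib) (fiB ⁻¹' S) ≤ treeLaw α ν Ib S := by
  have h := treeLaw_map (α := α) (ν := ν) (I := Ir.prod Ib) (W' := ℝ≥0) measurable_snd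
  have h2 : (Ir.prod Ib).map Prod.snd = Ib := by
    rw [Measure.map_snd_prod]; simp
  rw [h2] at h
  rw [← h]
  exact Measure.le_map_apply fi_meas_B.aemeasurable S

end Pool.Agent.Helper98.Comp
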