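import Pool.Agent.Helper98.Comp.FinalA

/-!
# Final assembly, part B: the inclusion of events
-/

set_option autoImplicit false

namespace Pool.Agent.Helper98.Comp

open MeasureTheory Filter Set
open scoped ENNReal NNReal Topology

section
variable {n : ℕ} {d : Fin n → ℕ}

/-- The event of `select_fail`. -/
def fiSel (M R : ℕ) (b : Bool) (vstar : Fin n) (z : List ℕ) (s : ℝ) (σ : Pairing d)
    (ur ub : Fin n) : Set (Sym2 (HE d) → ℝ≥0 × ℝ≥0) :=
  {x | EmbOK M R σ ur ub ∧ rel M R (fK σ (rt ur ub b)) z ∧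
        Near M (R - z.length) (subAt (fK σ (rt ur ub b)) z)
          (subAt (fXr σ x (rt ur ub b)) z) s ∧
        ¬ Linked M R σ x ur ub b vstar z s}

/-- The event of `hub_fail`. -/
def fiHub (M R : ℕ) (vstar y : Fin n) (σ : Pairing d)
    (ur ub : Fin n) : Set (Sym2 (HE d) → ℝ≥0 × ℝ≥0) :=
  {x | EmbOK M R σ ur ub ∧ ¬ FreeWalk σ x (revSet M R σ ur ub)ᶜ y vstar 1}

/-- The bad set of blue fields. -/
def fiBb (M M0 R R0 J : ℕ) (s0 s : ℝ≥0) : Set (List ℕ → ℕ × (ℝ≥0 × ℝ≥0)) :=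
  (fiB ⁻¹' fiBad1 M R R0 s) ∪ fiBad2 M R (R0 + J) M0 ∪ (fiR ⁻¹' fiBad3 M R R0 J s0)

theorem fi_inclusion {M M0 R R0 J : ℕ} {s0 s1 : ℝ≥0} (hM : M0 ≤ M) (hR : R0 + J < R)
    (hJ : 0 < J) {vstar : Fin n} {hubs : Finset (Fin n)} {K : ℕ}
    (hK : ∑ j ∈ Finset.range (R0 + J), M0 ^ j ≤ K) (hcard : K < hubs.card)
    (σ : Pairing d) (ur ub : Fin n) :
    {x | ∃ T c, IsOutcome σ x ur ub T c ∧ ¬ (painted T c false ≤ K ∧ K < painted T c true)} ⊆
      (({x | ¬ EmbOK M R σ ur ub ∨ fld σ x ur ∈ fiR ⁻¹' fiBad0 M R s1 ∨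
          fld σ x ub ∈ fiBb M M0 R R0 J s0 (s1 + 2 + s0)} ∪
        fiSel M R true vstar [] s1 σ ur ub) ∪
        ⋃ z ∈ (box_finite M0 (R0 + J)).toFinset, fiSel M R false vstar z s0 σ ur ub) ∪
        ⋃ y ∈ hubs, fiHub M R vstar y σ ur ub := by
  rintro x ⟨T, c, hT, hbad⟩
  by_contra hx
  simp only [mem_union, mem_iUnion, not_or, not_exists] at hx
  obtain ⟨⟨⟨hx1, hx2⟩, hx3⟩, hx4⟩ := hx
  simp only [mem_setOf_eq, not_or, not_not] at hx1
  obtain ⟨hemb, hred, hblue⟩ := hx1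
  simp only [fiBb, mem_union, not_or] at hblue
  obtain ⟨⟨hb1, hb2⟩, hb3⟩ := hblue
  -- the red source
  have hred' : Near M R (fK σ ur) (fXr σ x ur) s1 := by
    by_contra h
    exact hred h
  -- children
  have hch : ∀ u, rel M R (fK σ ub) u → u.length ≤ R0 + J → fK σ ub u < M0 := by
    intro u hu hl
    by_contra h
    exact hb2 ⟨u, hu, hl, not_lt.1 h⟩
  have hrel : ∀ u, alive (fK σ ub) u → u.length ≤ R0 + J → rel M R (fK σ ub) u := by
    intro u
    induction u using List.reverseRecOn with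
    | nil => intro _ _; exact rel_nil _ _ _
    | append_singleton u i ih =>
      intro hu hl
      simp only [List.length_append, List.length_singleton] at hl
      rw [alive_append] at hu
      have h1 := ih hu.1 (by omega)
      have h2 := hch u h1 (by omega)
      rw [rel_snoc]
      refine ⟨h1, by omega, by omega, ?_⟩
      simpa [alive, subAt] using hu.2.1
  have hchild : ∀ u, alive (fK σ ub) u → u.length ≤ R0 + J → fK σ ub u < M0 :=
    fun u hu hl => hch u (hrel u hu hl) hl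
  have hbox : ∀ u, alive (fK σ ub) u → u.length ≤ R0 + J →
      u ∈ (box_finite M0 (R0 + J)).toFinset := by
    intro u hu hl
    rw [Set.Finite.mem_toFinset]
    exact rel_mem_box (rel_of_alive (le_refl M0) (le_refl (R0 + J))
      (fun v hv hvl => hchild v hv hvl.le) hu hl)
  have hmain := deterministic (σ := σ) (x := x) (ur := ur) (ub := ub) (vstar := vstar)
    (s0 := s0) (s1 := s1) hemb hM hR hJ ?_ hchild ?_ ?_ ?_ hubs ?_ hT
  · exact hbad ⟨hmain.1.trans hK, hcard.trans_le hmain.2⟩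
  · -- h1
    intro u hu hl
    by_contra h
    exact hb1 ⟨u, hrel u hu (by omega), hl, not_le.1 h⟩
  · -- h3
    by_contra h
    exact hx2 ⟨hemb, rel_nil _ _ _, hred', h⟩
  · -- h4
    intro z hz hz1 hz2 hz3
    by_contra h
    exact hx3 z (hbox z hz hz2) ⟨hemb, hrel z hz hz2, hz3, h⟩
  · -- h5
    exact hb3
  · -- h6
    intro y hy
    by_contra h
    exact hx4 y hy ⟨hemb, h⟩

end

end Pool.Agent.Helper98.Comp
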