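import Pool.Agent.Helper98.Comp.GWdec
import Pool.Agent.Helper98.Comp.Potter

/-!
# MODULE GWlim: in an explosive tree a big individual is found in bounded time, uniformly in `M`
-/

set_option autoImplicit false

namespace Pool.Agent.Helper98.Comp

open MeasureTheory Filter Set
open scoped ENNReal NNReal Topology

variable {μ : Measure ℕ} {τ : ℝ} {I : Measure ℝ≥0} [IsProbabilityMeasure I]

/-! ### Deterministic facts -/

theorem gl_dist_congr {X X' : List ℕ → ℝ≥0} (h : ∀ u, u ≠ [] → X u = X' u) (u : List ℕ) :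
    dist X u = dist X' u := by
  induction u generalizing X X' with
  | nil => rfl
  | cons i u ih =>
    simp only [dist]
    rw [h [i] (by simp), ih (X := sub X i) (X' := sub X' i) fun w _ => h (i :: w) (by simp)]

theorem gl_near_congr {M R : ℕ} {K : List ℕ → ℕ} {X X' : List ℕ → ℝ≥0}
    (h : ∀ u, u ≠ [] → X u = X' u) (t : ℝ) : Near M R K X t ↔ Near M R K X' t := by
  unfold Near
  simp only [gl_dist_congr h]

theorem gl_not_near_of_nonpos {M R : ℕ} {K : List ℕ → ℕ} {X : List ℕ → ℝ≥0} {t : ℝ} (h : t ≤ 0) :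
    ¬ Near M R K X t := by
  rintro ⟨u, _, _, h3⟩
  have := (dist X u).2
  linarith [NNReal.coe_nonneg (dist X u)]

theorem gl_near_mono {M R : ℕ} {K : List ℕ → ℕ} {X : List ℕ → ℝ≥0} {t t' : ℝ} (h : t ≤ t')
    (hn : Near M R K X t) : Near M R K X t' := by
  obtain ⟨u, h1, h2, h3⟩ := hn
  exact ⟨u, h1, h2, h3.trans_le h⟩

/-- no alive word of length `k` is born before `t` -/
def glE (k : ℕ) (K : List ℕ → ℕ) (X : List ℕ → ℝ≥0) (t : ℝ) : Prop :=
  ∀ u, alive K u → u.length = k → t ≤ (dist X u : ℝ)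

theorem glE_congr {k : ℕ} {K : List ℕ → ℕ} {X X' : List ℕ → ℝ≥0}
    (h : ∀ u, u ≠ [] → X u = X' u) (t : ℝ) : glE k K X t ↔ glE k K X' t := by
  unfold glE
  simp only [gl_dist_congr h]

theorem glE_succ {k : ℕ} {K : List ℕ → ℕ} {X : List ℕ → ℝ≥0} {t : ℝ} :
    glE (k + 1) K X t ↔ ∀ i < K [], glE k (sub K i) (sub X i) (t - X [i]) := by
  constructor
  · intro h i hi u hu hl
    have := h (i :: u) ⟨hi, hu⟩ (by simp [hl])
    simp only [dist, NNReal.coe_add] at this
    linarith
  · intro h u hu hl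
    cases u with
    | nil => simp at hl
    | cons i u =>
      have := h i hu.1 u hu.2 (by simpa using hl)
      simp only [dist, NNReal.coe_add]
      linarith

theorem glE_zero {K : List ℕ → ℕ} {X : List ℕ → ℝ≥0} {t : ℝ} : glE 0 K X t ↔ t ≤ 0 := by
  constructor
  · intro h
    simpa [dist] using h [] trivial rfl
  · intro h u _ hl
    have : u = [] := by simpa using hl
    subst this
    simpa [dist] using h

theorem glE_of_nonpos {k : ℕ} {K : List ℕ → ℕ} {X : List ℕ → ℝ≥0} {t : ℝ} (h : t ≤ 0) :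
    glE k K X t := fun _ _ _ => h.trans (NNReal.coe_nonneg _)

theorem glE_anti {k : ℕ} {K : List ℕ → ℕ} {X : List ℕ → ℝ≥0} {t t' : ℝ} (h : t ≤ t')
    (hn : glE k K X t') : glE k K X t := fun u hu hl => h.trans (hn u hu hl)

/-- the set of alive words of bounded length is finite -/
theorem gl_finite_alive (K : List ℕ → ℕ) (r : ℕ) : {u | alive K u ∧ u.length < r}.Finite := by
  induction r generalizing K with
  | zero => simp
  | succ r ih =>
    have hsub : {u | alive K u ∧ u.length < r + 1} ⊆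
        {[]} ∪ ⋃ i ∈ Finset.range (K []),
          (fun u => i :: u) '' {u | alive (sub K i) u ∧ u.length < r} := by
      rintro u ⟨h1, h2⟩
      cases u with
      | nil => left; rfl
      | cons i u =>
        right
        simp only [mem_iUnion]
        exact ⟨i, Finset.mem_range.mpr h1.1, u, ⟨h1.2, by simpa using h2⟩, rfl⟩
    refine Set.Finite.subset ((Set.finite_singleton _).union ?_) hsub
    exact Set.Finite.biUnion (Finset.finite_toSet _) fun i _ => (ih (sub K i)).image _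

theorem gl_alive_take {K : List ℕ → ℕ} {X : List ℕ → ℝ≥0} {u : List ℕ} (h : alive K u) (k : ℕ) :
    alive K (u.take k) ∧ dist X (u.take k) ≤ dist X u := by
  have h1 := (alive_append K (u.take k) (u.drop k)).1 (by rwa [List.take_append_drop])
  have h2 := dist_append X (u.take k) (u.drop k)
  rw [List.take_append_drop] at h2
  exact ⟨h1.1, by rw [h2]; exact le_self_add⟩

/-- infinitely many alive words born before `t`: every generation is reached -/
theorem gl_infinite {K : List ℕ → ℕ} {X : List ℕ → ℝ≥0} {t : ℝ≥0}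
    (h : {u : List ℕ | alive K u ∧ dist X u ≤ t}.Infinite) {t' : ℝ} (ht : (t : ℝ) < t') (k : ℕ) :
    ¬ glE k K X t' := by
  intro hE
  apply h
  refine (gl_finite_alive K k).subset ?_
  rintro u ⟨h1, h2⟩
  refine ⟨h1, ?_⟩
  by_contra h3
  rw [not_lt] at h3
  have h4 := gl_alive_take (X := X) h1 k
  have h5 := hE (u.take k) h4.1 (by simp [h3])
  have h6 : (dist X (u.take k) : ℝ) ≤ t := by exact_mod_cast h4.2.trans h2
  linarith

/-! ### Measurability -/

theorem gl_measurable_Xf : Measurable (fun ω : List ℕ → ℕ × ℝ≥0 => Xf ω) :=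
  measurable_pi_lambda _ fun u => measurable_snd.comp (measurable_pi_apply u)

theorem gl_measurableSet_glE (k : ℕ) :
    MeasurableSet {p : (List ℕ → ℕ × ℝ≥0) × ℝ | glE k (Kf p.1) (Xf p.1) p.2} := by
  have h : {p : (List ℕ → ℕ × ℝ≥0) × ℝ | glE k (Kf p.1) (Xf p.1) p.2} =
      ⋂ u : List ℕ, ((Prod.fst ⁻¹' {ω | alive (Kf ω) u})ᶜ ∪ ({_p | u.length ≠ k} ∪
        {p | p.2 ≤ (dist (Xf p.1) u : ℝ)})) := by
    ext p
    simp only [glE, mem_ofPred_eq, mem_iInter, mem_union, mem_compl_iff, mem_preimage]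
    refine forall_congr' fun u => ?_
    tauto
  rw [h]
  refine MeasurableSet.iInter fun u => ?_
  refine ((measurable_fst (measurableSet_alive u)).compl).union ((MeasurableSet.const _).union ?_)
  exact measurableSet_le measurable_snd (measurable_coe_nnreal_real.comp
    ((measurable_dist u).comp (gl_measurable_Xf.comp measurable_fst)))

theorem gl_meas_glE (k : ℕ) (t : ℝ) :
    MeasurableSet {ω : List ℕ → ℕ × ℝ≥0 | glE k (Kf ω) (Xf ω) t} :=
  (measurable_id.prodMk measurable_const : Measurable fun ω : List ℕ → ℕ × ℝ≥0 => (ω, t))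
    (gl_measurableSet_glE k)

theorem gl_meas_near (M R : ℕ) (t : ℝ) :
    MeasurableSet {ω : List ℕ → ℕ × ℝ≥0 | ¬ Near M R (Kf ω) (Xf ω) t} :=
  ((measurable_id.prodMk measurable_const : Measurable fun ω : List ℕ → ℕ × ℝ≥0 => (ω, t))
    (measurableSet_near M R)).compl

theorem gl_meas_shift (t : ℝ) :
    Measurable (fun ω : List ℕ → ℕ × ℝ≥0 => (ω, t - ((ω []).2 : ℝ))) :=
  measurable_id.prodMk (measurable_const.sub
    (measurable_coe_nnreal_real.comp (measurable_snd.comp (measurable_pi_apply []))))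

/-! ### The functions -/

/-- `P(not Near M R t)` for the tree with root law `α` -/
noncomputable def glS (α ν : Measure ℕ) (I : Measure ℝ≥0) (M R : ℕ) (t : ℝ) : ℝ≥0∞ :=
  treeLaw α ν I {ω | ¬ Near M R (Kf ω) (Xf ω) t}

/-- `P(no alive word of length k before t)` for the tree with root law `α` -/
noncomputable def gle (α ν : Measure ℕ) (I : Measure ℝ≥0) (k : ℕ) (t : ℝ) : ℝ≥0∞ :=
  treeLaw α ν I {ω | glE k (Kf ω) (Xf ω) t}

section rec

variable {α ν : Measure ℕ} [IsProbabilityMeasure α] [IsProbabilityMeasure ν]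

theorem glS_shift (M R : ℕ) (t : ℝ) :
    treeLaw α ν I {ω | ¬ Near M R (Kf ω) (Xf ω) (t - (ω []).2)} =
      ∫⁻ x, glS α ν I M R (t - x) ∂I := by
  have h := treeLaw_root_weight (α := α) (ν := ν) (I := I)
    (P := fun x ω => ¬ Near M R (Kf ω) (Xf ω) (t - x)) ?_ ?_
  · exact h
  · have hm : Measurable (fun p : ℝ≥0 × (List ℕ → ℕ × ℝ≥0) => (p.2, t - (p.1 : ℝ))) :=
      measurable_snd.prodMk (measurable_const.sub (measurable_coe_nnreal_real.comp measurable_fst))
    exact (hm (measurableSet_near M R)).compl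
  · intro x ω ω' h1 h2
    have hK : Kf ω = Kf ω' := funext h1
    rw [hK, gl_near_congr (X := Xf ω) (X' := Xf ω') fun u hu => congrArg Prod.snd (h2 u hu)]

theorem gle_shift (k : ℕ) (t : ℝ) :
    treeLaw α ν I {ω | glE k (Kf ω) (Xf ω) (t - (ω []).2)} =
      ∫⁻ x, gle α ν I k (t - x) ∂I := by
  have h := treeLaw_root_weight (α := α) (ν := ν) (I := I)
    (P := fun x ω => glE k (Kf ω) (Xf ω) (t - x)) ?_ ?_
  · exact h
  · have hm : Measurable (fun p : ℝ≥0 × (List ℕ → ℕ × ℝ≥0) => (p.2, t - (p.1 : ℝ))) :=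
      measurable_snd.prodMk (measurable_const.sub (measurable_coe_nnreal_real.comp measurable_fst))
    exact hm (gl_measurableSet_glE k)
  · intro x ω ω' h1 h2
    have hK : Kf ω = Kf ω' := funext h1
    rw [hK, glE_congr (X := Xf ω) (X' := Xf ω') fun u hu => congrArg Prod.snd (h2 u hu)]

theorem glS_succ (M R : ℕ) {t : ℝ} (ht : 0 < t) :
    glS α ν I M (R + 1) t =
      ∑' k : ℕ, (Iio M).indicator (fun k => α {k} * (∫⁻ x, glS ν ν I M R (t - x) ∂I) ^ k) k := by
  have hA : MeasurableSet {ω : List ℕ → ℕ × ℝ≥0 | ¬ Near M R (Kf ω) (Xf ω) (t - (ω []).2)} :=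
    ((gl_meas_shift t) (measurableSet_near M R)).compl
  have h := treeLaw_forall_children (α := α) (ν := ν) (I := I) hA (Iio M)
  rw [glS_shift] at h
  rw [← h]
  unfold glS
  congr 1
  ext ω
  simp only [mem_ofPred_eq, near_succ, mem_Iio]
  constructor
  · intro h1
    push Not at h1
    have h2 : (ω []).1 < M := by
      by_contra h3
      exact absurd (h1.1 (not_lt.mp h3)) (not_le.mpr ht)
    exact ⟨h2, fun i hi => h1.2 h2 i hi⟩
  · rintro ⟨h1, h2⟩ (⟨h3, _⟩ | ⟨_, i, hi, h5⟩)
    · exact absurd h3 (not_le.mpr h1)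
    · exact h2 i hi h5

theorem gle_succ' (k : ℕ) (t : ℝ) :
    gle α ν I (k + 1) t = ∑' j : ℕ, α {j} * (∫⁻ x, gle ν ν I k (t - x) ∂I) ^ j := by
  have hA : MeasurableSet {ω : List ℕ → ℕ × ℝ≥0 | glE k (Kf ω) (Xf ω) (t - (ω []).2)} :=
    (gl_meas_shift t) (gl_measurableSet_glE k)
  have h := treeLaw_forall_children (α := α) (ν := ν) (I := I) hA univ
  rw [gle_shift] at h
  simp only [indicator_univ] at h
  rw [← h]
  unfold gle
  congr 1
  ext ω
  simp only [mem_ofPred_eq, glE_succ, mem_univ, true_and]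
  exact Iff.rfl

theorem gle_succ (k : ℕ) (t : ℝ) :
    gle α ν I (k + 1) t = ∫⁻ j, (∫⁻ x, gle ν ν I k (t - x) ∂I) ^ j ∂α := by
  rw [gle_succ']
  refine Eq.trans ?_ (lintegral_countable' (fun j : ℕ =>
    (∫⁻ x, gle ν ν I k (t - x) ∂I) ^ j)).symm
  exact tsum_congr fun j => mul_comm _ _

theorem gle_le_one (k : ℕ) (t : ℝ) : gle α ν I k t ≤ 1 := prob_le_one
theorem glS_le_one (M R : ℕ) (t : ℝ) : glS α ν I M R t ≤ 1 := prob_le_one

theorem gle_nonpos (k : ℕ) {t : ℝ} (ht : t ≤ 0) : gle α ν I k t = 1 := by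
  unfold gle
  rw [show {ω : List ℕ → ℕ × ℝ≥0 | glE k (Kf ω) (Xf ω) t} = univ from
    eq_univ_of_forall fun ω => glE_of_nonpos ht]
  exact measure_univ

omit [IsProbabilityMeasure I] [IsProbabilityMeasure α] [IsProbabilityMeasure ν] in
theorem gle_zero {t : ℝ} (ht : 0 < t) : gle α ν I 0 t = 0 := by
  unfold gle
  rw [show {ω : List ℕ → ℕ × ℝ≥0 | glE 0 (Kf ω) (Xf ω) t} = ∅ from
    eq_empty_of_forall_notMem fun ω h => absurd (glE_zero.mp h) (not_le.mpr ht)]
  exact measure_empty

theorem glS_nonpos (M R : ℕ) {t : ℝ} (ht : t ≤ 0) : glS α ν I M R t = 1 := by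
  unfold glS
  rw [show {ω : List ℕ → ℕ × ℝ≥0 | ¬ Near M R (Kf ω) (Xf ω) t} = univ from
    eq_univ_of_forall fun ω => gl_not_near_of_nonpos ht]
  exact measure_univ

omit [IsProbabilityMeasure I] [IsProbabilityMeasure α] [IsProbabilityMeasure ν] in
theorem gle_antitone (k : ℕ) : Antitone (gle α ν I k) := fun _ _ h =>
  measure_mono fun _ hω => glE_anti h hω

omit [IsProbabilityMeasure I] [IsProbabilityMeasure α] [IsProbabilityMeasure ν] in
theorem glS_antitone (M R : ℕ) : Antitone (glS α ν I M R) := fun _ _ h =>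
  measure_mono fun _ hω hn => hω (gl_near_mono h hn)

theorem gl_meas_of_antitone {f : ℝ → ℝ≥0∞} (hf : Antitone f) (t : ℝ) :
    Measurable (fun x : ℝ≥0 => f (t - x)) := by
  have : Monotone (fun x : ℝ≥0 => f (t - x)) := fun x y h => hf (by
    have : (x : ℝ) ≤ y := by exact_mod_cast h
    linarith)
  exact this.measurable

theorem gle_mono_k (t : ℝ) : Monotone (fun k => gle ν ν I k t) := by
  refine monotone_nat_of_le_succ fun k => ?_
  induction k generalizing t with
  | zero =>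
    rcases le_or_gt t 0 with h | h
    · rw [gle_nonpos _ h, gle_nonpos _ h]
    · rw [gle_zero h]; exact bot_le
  | succ k ih =>
    rw [gle_succ, gle_succ]
    refine lintegral_mono fun j => ?_
    refine pow_le_pow_left' ?_ j
    exact lintegral_mono fun x => ih _

/-- convexity step -/
theorem gl_convex {a p x y : ℝ≥0∞} (h : a + p = 1) (k : ℕ) :
    (a * x + p * y) ^ k ≤ a * x ^ k + p * y ^ k := by
  rcases Nat.eq_zero_or_pos k with rfl | hk
  · simp [h]
  · have := ENNReal.rpow_arith_mean_le_arith_mean2_rpow a p x y h (p := (k : ℝ))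
      (by exact_mod_cast hk)
    simpa only [ENNReal.rpow_natCast] using this

/-- `S'_k` : `S'_0 = 1`, `S'_(k+1) = glS k` -/
noncomputable def glS' (ν : Measure ℕ) (I : Measure ℝ≥0) (M : ℕ) : ℕ → ℝ → ℝ≥0∞
  | 0, _ => 1
  | k + 1, t => glS ν ν I M k t

omit [IsProbabilityMeasure I] [IsProbabilityMeasure ν] in
theorem glS'_antitone (M k : ℕ) : Antitone (glS' ν I M k) := by
  cases k with
  | zero => exact fun _ _ _ => le_refl _
  | succ k => exact glS_antitone M k

theorem glS'_nonpos (M k : ℕ) {t : ℝ} (ht : t ≤ 0) : glS' ν I M k t = 1 := by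
  cases k with
  | zero => rfl
  | succ k => exact glS_nonpos M k ht

theorem gl_sum_Iio (M : ℕ) (ν : Measure ℕ) :
    ∑' k : ℕ, (Iio M).indicator (fun k => ν {k}) k = ν (Iio M) :=
  Measure.tsum_indicator_apply_singleton ν (Iio M) MeasurableSet.of_discrete

theorem glS'_succ (M k : ℕ) {t : ℝ} (ht : 0 < t) :
    glS' ν I M (k + 1) t = ∑' j : ℕ, (Iio M).indicator
      (fun j => ν {j} * (∫⁻ x, glS' ν I M k (t - x) ∂I) ^ j) j := by
  cases k with
  | zero =>
    have h1 : ∀ j : ℕ, (∫⁻ x, glS' ν I M 0 (t - x) ∂I) ^ j = 1 := by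
      intro j
      simp [glS']
    simp only [h1, mul_one]
    rw [gl_sum_Iio]
    have h := treeLaw_forall_children (α := ν) (ν := ν) (I := I)
      (A := (univ : Set (List ℕ → ℕ × ℝ≥0))) MeasurableSet.univ (Iio M)
    simp only [mem_univ, implies_true, and_true, measure_univ, one_pow, mul_one] at h
    rw [gl_sum_Iio] at h
    rw [← h]
    show glS ν ν I M 0 t = _
    unfold glS
    congr 1
    ext ω
    simp only [mem_ofPred_eq, near_zero, mem_Iio, not_and_or, not_le, not_lt]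
    constructor
    · rintro (h1 | h1)
      · exact h1
      · exact absurd h1 (not_le.mpr ht)
    · exact fun h1 => Or.inl h1
  | succ k => exact glS_succ M k ht

theorem gl_key (M : ℕ) {a p : ℝ≥0∞} (hap : a + p = 1) (ha : ν (Iio M) = a) (k : ℕ) (t : ℝ) :
    glS' ν I M (k + 1) t ≤ a * glS' ν I M k t + p * gle ν ν I k t := by
  induction k generalizing t with
  | zero =>
    rcases le_or_gt t 0 with h | h
    · rw [glS'_nonpos _ _ h, glS'_nonpos _ _ h, gle_nonpos _ h, mul_one, mul_one, hap]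
    · rw [glS'_succ M 0 h, gle_zero h]
      have h1 : ∀ j : ℕ, (∫⁻ x, glS' ν I M 0 (t - x) ∂I) ^ j = 1 := by
        intro j
        simp [glS']
      simp only [h1, mul_one]
      rw [gl_sum_Iio, ha]
      simp [glS']
  | succ k ih =>
    rcases le_or_gt t 0 with h | h
    · rw [glS'_nonpos _ _ h, glS'_nonpos _ _ h, gle_nonpos _ h, mul_one, mul_one, hap]
    · rw [glS'_succ M (k + 1) h, glS'_succ M k h, gle_succ',
        ← ENNReal.tsum_mul_left, ← ENNReal.tsum_mul_left, ← ENNReal.tsum_add]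
      refine ENNReal.tsum_le_tsum fun j => ?_
      by_cases hj : j ∈ Iio M
      · rw [indicator_of_mem hj, indicator_of_mem hj]
        have h2 : ∫⁻ x, glS' ν I M (k + 1) (t - x) ∂I ≤
            a * (∫⁻ x, glS' ν I M k (t - x) ∂I) + p * ∫⁻ x, gle ν ν I k (t - x) ∂I := by
          calc ∫⁻ x, glS' ν I M (k + 1) (t - x) ∂I
              ≤ ∫⁻ x, (a * glS' ν I M k (t - x) + p * gle ν ν I k (t - x)) ∂I :=
                lintegral_mono fun x => ih _
            _ = _ := by
                rw [lintegral_add_left ((gl_meas_of_antitone (glS'_antitone M k) t).const_mul a),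
                  lintegral_const_mul _ (gl_meas_of_antitone (glS'_antitone M k) t),
                  lintegral_const_mul _ (gl_meas_of_antitone (gle_antitone k) t)]
        calc ν {j} * (∫⁻ x, glS' ν I M (k + 1) (t - x) ∂I) ^ j
            ≤ ν {j} * (a * (∫⁻ x, glS' ν I M k (t - x) ∂I) ^ j +
                p * (∫⁻ x, gle ν ν I k (t - x) ∂I) ^ j) := by
              gcongr
              exact (pow_le_pow_left' h2 j).trans (gl_convex hap j)
          _ = _ := by ring
      · rw [indicator_of_notMem hj]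
        exact bot_le

/-- the limit function -/
noncomputable def glL (ν : Measure ℕ) (I : Measure ℝ≥0) (t : ℝ) : ℝ≥0∞ := ⨆ k, gle ν ν I k t

theorem glL_le_one (t : ℝ) : glL ν I t ≤ 1 := iSup_le fun k => gle_le_one k t

omit [IsProbabilityMeasure I] [IsProbabilityMeasure ν] in
theorem glL_antitone : Antitone (glL ν I) := fun _ _ h => iSup_mono fun k => gle_antitone k h

theorem glL_tendsto (t : ℝ) : Tendsto (fun k => gle ν ν I k t) atTop (𝓝 (glL ν I t)) :=
  tendsto_atTop_iSup (gle_mono_k t)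

theorem glS'_le (M : ℕ) {a p : ℝ≥0∞} (hap : a + p = 1) (ha : ν (Iio M) = a) (k : ℕ) (t : ℝ) :
    glS' ν I M k t ≤ glL ν I t + a ^ k := by
  induction k with
  | zero => simp [glS']
  | succ k ih =>
    refine (gl_key M hap ha k t).trans ?_
    calc a * glS' ν I M k t + p * gle ν ν I k t
        ≤ a * (glL ν I t + a ^ k) + p * glL ν I t := by
          gcongr
          exact le_iSup (fun k => gle ν ν I k t) k
      _ = (a + p) * glL ν I t + a ^ (k + 1) := by ring
      _ = _ := by rw [hap, one_mul]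

/-- continuity of the generating function -/
theorem gl_phi_tendsto {y : ℕ → ℝ≥0∞} {z : ℝ≥0∞} (h1 : ∀ k, y k ≤ 1)
    (h : Tendsto y atTop (𝓝 z)) :
    Tendsto (fun k => ∫⁻ j : ℕ, (y k) ^ j ∂α) atTop (𝓝 (∫⁻ j : ℕ, z ^ j ∂α)) := by
  refine tendsto_lintegral_of_dominated_convergence (fun _ => 1) (fun k => measurable_from_nat)
    (fun k => Eventually.of_forall fun j => pow_le_one' (h1 k) j) (by simp) ?_
  exact Eventually.of_forall fun j => (ENNReal.continuous_pow j).continuousAt.tendsto.comp h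

theorem glL_rec (t : ℝ) : glL ν I t = ∫⁻ j : ℕ, (∫⁻ x, glL ν I (t - x) ∂I) ^ j ∂ν := by
  have h1 : Tendsto (fun k => gle ν ν I (k + 1) t) atTop (𝓝 (glL ν I t)) :=
    (glL_tendsto t).comp (tendsto_add_atTop_nat 1)
  have h2 : Tendsto (fun k => ∫⁻ x, gle ν ν I k (t - x) ∂I) atTop
      (𝓝 (∫⁻ x, glL ν I (t - x) ∂I)) := by
    refine tendsto_lintegral_of_dominated_convergence (fun _ => 1)
      (fun k => gl_meas_of_antitone (gle_antitone k) t)
      (fun k => Eventually.of_forall fun x => gle_le_one k _) (by simp) ?_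
    exact Eventually.of_forall fun x => glL_tendsto _
  have h3 := gl_phi_tendsto (α := ν) (y := fun k => ∫⁻ x, gle ν ν I k (t - x) ∂I)
    (fun k => (lintegral_mono fun x => gle_le_one k _).trans (by simp)) h2
  simp only [← gle_succ] at h3
  exact tendsto_nhds_unique h1 h3

/-- the limit as `t → ∞` -/
noncomputable def glq (ν : Measure ℕ) (I : Measure ℝ≥0) : ℝ≥0∞ := ⨅ t : ℝ, glL ν I t

theorem glq_tendsto : Tendsto (glL ν I) atTop (𝓝 (glq ν I)) :=
  tendsto_atTop_iInf glL_antitone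

theorem glq_int_tendsto : Tendsto (fun n : ℕ => ∫⁻ x, glL ν I ((n : ℝ) - x) ∂I) atTop
    (𝓝 (glq ν I)) := by
  have h : Tendsto (fun n : ℕ => ∫⁻ x, glL ν I ((n : ℝ) - x) ∂I) atTop
      (𝓝 (∫⁻ _x, glq ν I ∂I)) := by
    refine tendsto_lintegral_of_dominated_convergence (fun _ => 1)
      (fun k => gl_meas_of_antitone glL_antitone _)
      (fun k => Eventually.of_forall fun x => glL_le_one _) (by simp) ?_
    refine Eventually.of_forall fun x => glq_tendsto.comp ?_
    exact tendsto_atTop_add_const_right _ _ tendsto_natCast_atTop_atTop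
  simpa using h

theorem glq_rec : glq ν I = ∫⁻ j : ℕ, (glq ν I) ^ j ∂ν := by
  have h1 : Tendsto (fun n : ℕ => glL ν I (n : ℝ)) atTop (𝓝 (glq ν I)) :=
    glq_tendsto.comp tendsto_natCast_atTop_atTop
  have h3 := gl_phi_tendsto (α := ν) (y := fun n : ℕ => ∫⁻ x, glL ν I ((n : ℝ) - x) ∂I)
    (fun k => (lintegral_mono fun x => glL_le_one _).trans (by simp)) glq_int_tendsto
  simp only [← glL_rec] at h3
  exact tendsto_nhds_unique h1 h3

theorem glq_le_one : glq ν I ≤ 1 := (iInf_le _ 0).trans (glL_le_one 0)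

theorem glq_zero_or_one (h0 : ν {0} = 0) (h1 : ν {1} < 1) : glq ν I = 0 ∨ glq ν I = 1 := by
  set q := glq ν I with hq
  have hq1 : q ≤ 1 := glq_le_one
  have h2 : q ≤ ν {1} * q + ν {1}ᶜ * q ^ 2 := by
    calc q = ∫⁻ j : ℕ, q ^ j ∂ν := glq_rec
      _ ≤ ∫⁻ j : ℕ, (({1} : Set ℕ).indicator (fun _ => q) j +
          (({1} : Set ℕ)ᶜ).indicator (fun _ => q ^ 2) j) ∂ν := by
          refine lintegral_mono_ae ?_
          have h3 : ∀ᵐ j ∂ν, j ≠ 0 := by
            rw [ae_iff]
            simpa using h0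
          filter_upwards [h3] with j hj
          rcases eq_or_ne j 1 with rfl | hj1
          · simp
          · have h4 : j ∈ (({1} : Set ℕ)ᶜ) := by simpa using hj1
            rw [indicator_of_mem h4, indicator_of_notMem (by simpa using hj1), zero_add]
            exact pow_le_pow_right_of_le_one' hq1 (by omega)
      _ = _ := by
          rw [lintegral_add_left (measurable_from_nat), lintegral_indicator_const
            MeasurableSet.of_discrete, lintegral_indicator_const MeasurableSet.of_discrete]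
          ring
  have h3 : ν {1} + ν {1}ᶜ = 1 := by
    rw [measure_add_measure_compl MeasurableSet.of_discrete, measure_univ]
  have hqt : q ≠ ⊤ := ne_top_of_le_ne_top ENNReal.one_ne_top hq1
  have ha : ν {1} ≠ ⊤ := measure_ne_top _ _
  have hb : ν {1}ᶜ ≠ ⊤ := measure_ne_top _ _
  have h4 := ENNReal.toReal_mono (by finiteness) h2
  rw [ENNReal.toReal_add (by finiteness) (by finiteness), ENNReal.toReal_mul, ENNReal.toReal_mul,
    ENNReal.toReal_pow] at h4
  have h5 : (ν {1}).toReal + (ν {1}ᶜ).toReal = 1 := by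
    rw [← ENNReal.toReal_add ha hb, h3, ENNReal.toReal_one]
  have h6 : (ν {1}).toReal < 1 := by
    have := (ENNReal.toReal_lt_toReal ha ENNReal.one_ne_top).mpr h1
    simpa using this
  have h7 : q.toReal ≤ 1 := by
    have := ENNReal.toReal_mono ENNReal.one_ne_top hq1
    simpa using this
  have h8 : 0 ≤ q.toReal := ENNReal.toReal_nonneg
  have h9 : (1 - (ν {1}).toReal) * (q.toReal * (1 - q.toReal)) ≤ 0 := by
    have : (ν {1}ᶜ).toReal = 1 - (ν {1}).toReal := by linarith
    rw [this] at h4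
    nlinarith
  have h10 : q.toReal * (1 - q.toReal) = 0 := by
    have h11 : 0 ≤ q.toReal * (1 - q.toReal) := mul_nonneg h8 (by linarith)
    have h12 : 0 < 1 - (ν {1}).toReal := by linarith
    nlinarith
  rcases mul_eq_zero.mp h10 with h | h
  · left
    exact (ENNReal.toReal_eq_zero_iff q).mp h |>.resolve_right hqt
  · right
    have : q.toReal = 1 := by linarith
    rw [← ENNReal.ofReal_toReal hqt, this, ENNReal.ofReal_one]

end rec

/-- the explosive case: `q = 0` -/
theorem glq_eq_zero (hμ : IsDegreeLaw μ τ) (hτ : 2 < τ) (hI : Explosive μ I) :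
    glq (sizeBiased μ) I = 0 := by
  have := hμ.prob
  have := sizeBiased_prob hμ hτ
  set ν := sizeBiased μ with hν
  rcases glq_zero_or_one (I := I) (sizeBiased_zero hμ hτ) (sizeBiased_one_lt hμ hτ) with h | h
  · exact h
  exfalso
  rw [← hν] at h
  have hL : ∀ t, glL ν I t = 1 := fun t => le_antisymm (glL_le_one t) (h ▸ iInf_le _ t)
  -- the probability of `glE (k+1)` under the root law `μ` tends to `1`
  have h1 : ∀ t : ℝ, Tendsto (fun k => gle μ ν I (k + 1) t) atTop (𝓝 1) := by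
    intro t
    have h2 : Tendsto (fun k => ∫⁻ x, gle ν ν I k (t - x) ∂I) atTop
        (𝓝 (∫⁻ x, glL ν I (t - x) ∂I)) := by
      refine tendsto_lintegral_of_dominated_convergence (fun _ => 1)
        (fun k => gl_meas_of_antitone (gle_antitone k) t)
        (fun k => Eventually.of_forall fun x => gle_le_one k _) (by simp) ?_
      exact Eventually.of_forall fun x => glL_tendsto _
    have h3 := gl_phi_tendsto (α := μ) (y := fun k => ∫⁻ x, gle ν ν I k (t - x) ∂I)
      (fun k => (lintegral_mono fun x => gle_le_one k _).trans (by simp)) h2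
    simp only [← gle_succ, hL] at h3
    simpa using h3
  have h2 : ∀ n : ℕ, treeLaw μ ν I {ω | ∀ k, ¬ glE (k + 1) (Kf ω) (Xf ω) (n : ℝ)} = 0 := by
    intro n
    have h3 : ∀ k, treeLaw μ ν I {ω | ∀ k, ¬ glE (k + 1) (Kf ω) (Xf ω) (n : ℝ)} ≤
        1 - gle μ ν I (k + 1) n := by
      intro k
      have h4 : treeLaw μ ν I {ω | glE (k + 1) (Kf ω) (Xf ω) (n : ℝ)}ᶜ =
          1 - gle μ ν I (k + 1) n := by
        rw [prob_compl_eq_one_sub (gl_meas_glE (k + 1) n)]
        rfl
      rw [← h4]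
      exact measure_mono fun ω hω => hω k
    have h5 : Tendsto (fun k => 1 - gle μ ν I (k + 1) n) atTop (𝓝 (1 - 1)) :=
      ENNReal.Tendsto.sub tendsto_const_nhds (h1 n) (Or.inl ENNReal.one_ne_top)
    rw [tsub_self] at h5
    exact le_antisymm (ge_of_tendsto' h5 h3) bot_le
  have h3 : {ω : List ℕ → ℕ × ℝ≥0 | ∃ t : ℝ≥0, {u : List ℕ | alive (fun v => (ω v).1) u ∧
      dist (fun v => (ω v).2) u ≤ t}.Infinite} ⊆
      ⋃ n : ℕ, {ω | ∀ k, ¬ glE (k + 1) (Kf ω) (Xf ω) (n : ℝ)} := by
    rintro ω ⟨t, ht⟩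
    obtain ⟨n, hn⟩ := exists_nat_gt (t : ℝ)
    exact mem_iUnion.mpr ⟨n, fun k => gl_infinite ht hn (k + 1)⟩
  have h4 : treeLaw μ ν I (⋃ n : ℕ, {ω | ∀ k, ¬ glE (k + 1) (Kf ω) (Xf ω) (n : ℝ)}) = 0 :=
    measure_iUnion_null h2
  have h5 := measure_mono_null h3 h4
  exact absurd h5 hI.ne'

/-- (T3') For the tree with root law `sizeBiased μ`, when the root weight is subtracted. -/
theorem near_tight' (hμ : IsDegreeLaw μ τ) (hτ : 2 < τ) (hI : Explosive μ I) {ε : ℝ≥0∞}
    (hε : 0 < ε) :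
    ∃ s0 : ℝ≥0, 0 < s0 ∧ ∀ M : ℕ, ∃ R2 : ℕ, ∀ R, R2 ≤ R →
      treeLaw (sizeBiased μ) (sizeBiased μ) I
        {ω | ¬ Near M R (Kf ω) (Xf ω) ((s0 : ℝ) - (ω []).2)} < ε := by
  have := hμ.prob
  have := sizeBiased_prob hμ hτ
  have hq := glq_eq_zero hμ hτ hI
  have h1 := glq_int_tendsto (ν := sizeBiased μ) (I := I)
  rw [hq] at h1
  obtain ⟨n, hn1, hn2⟩ := ((h1.eventually_lt_const hε).and (eventually_gt_atTop 0)).exists
  refine ⟨n, by exact_mod_cast hn2, fun M => ?_⟩
  set a := sizeBiased μ (Iio M) with ha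
  set p := sizeBiased μ {k | M ≤ k} with hp
  have hap : a + p = 1 := by
    have h2 : {k : ℕ | M ≤ k} = (Iio M)ᶜ := by ext k; simp
    rw [ha, hp, h2, measure_add_measure_compl MeasurableSet.of_discrete, measure_univ]
  have hp0 : 0 < p := sizeBiased_ge_pos hμ hτ M
  have ha1 : a < 1 := by
    rw [← hap]
    exact ENNReal.lt_add_right (measure_ne_top _ _) hp0.ne'
  have h3 : Tendsto (fun R : ℕ => ∫⁻ x, glL (sizeBiased μ) I ((n : ℝ) - x) ∂I + a ^ (R + 1)) atTop
      (𝓝 (∫⁻ x, glL (sizeBiased μ) I ((n : ℝ) - x) ∂I + 0)) :=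
    tendsto_const_nhds.add ((ENNReal.tendsto_pow_atTop_nhds_zero_of_lt_one ha1).comp
      (tendsto_add_atTop_nat 1))
  rw [add_zero] at h3
  obtain ⟨R2, hR2⟩ := eventually_atTop.mp (h3.eventually_lt_const hn1)
  refine ⟨R2, fun R hR => lt_of_le_of_lt ?_ (hR2 R hR)⟩
  have h4 : treeLaw (sizeBiased μ) (sizeBiased μ) I
      {ω | ¬ Near M R (Kf ω) (Xf ω) (((n : ℝ≥0) : ℝ) - (ω []).2)} =
      ∫⁻ x, glS (sizeBiased μ) (sizeBiased μ) I M R ((n : ℝ) - x) ∂I := by
    rw [glS_shift]
    simp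
  rw [h4]
  calc ∫⁻ x, glS (sizeBiased μ) (sizeBiased μ) I M R ((n : ℝ) - x) ∂I
      ≤ ∫⁻ x, (glL (sizeBiased μ) I ((n : ℝ) - x) + a ^ (R + 1)) ∂I :=
        lintegral_mono fun x => glS'_le M hap rfl (R + 1) _
    _ = _ := by
        rw [lintegral_add_right _ measurable_const]
        simp

/-- (T3) For the tree with root law `μ`. -/
theorem near_tight (hμ : IsDegreeLaw μ τ) (hτ : 2 < τ) (hI : Explosive μ I) {ε : ℝ≥0∞}
    (hε : 0 < ε) :
    ∃ s1 : ℝ≥0, ∀ M : ℕ, ∃ R2 : ℕ, ∀ R, R2 ≤ R →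
      treeLaw μ (sizeBiased μ) I {ω | ¬ Near M R (Kf ω) (Xf ω) s1} < ε := by
  have := hμ.prob
  have := sizeBiased_prob hμ hτ
  obtain ⟨s0, hs0, h⟩ := near_tight' hμ hτ hI hε
  refine ⟨s0, fun M => ?_⟩
  obtain ⟨R2, hR2⟩ := h M
  refine ⟨R2 + 1, fun R hR => ?_⟩
  obtain ⟨R', rfl⟩ : ∃ R', R = R' + 1 := ⟨R - 1, by omega⟩
  have h1 := hR2 R' (by omega)
  rw [glS_shift] at h1
  refine lt_of_le_of_lt ?_ h1
  have h2 := glS_succ (α := μ) (ν := sizeBiased μ) (I := I) M R' (t := s0) (by exact_mod_cast hs0)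
  unfold glS at h2
  rw [h2]
  set y := ∫⁻ x, glS (sizeBiased μ) (sizeBiased μ) I M R' ((s0 : ℝ) - x) ∂I with hy
  have hy1 : y ≤ 1 := (lintegral_mono fun x => glS_le_one M R' _).trans (by simp)
  have h3 : ∀ k : ℕ, (Iio M).indicator (fun k => μ {k} * y ^ k) k ≤ μ {k} * y := by
    intro k
    by_cases hk : k ∈ Iio M
    · rw [indicator_of_mem hk]
      rcases Nat.eq_zero_or_pos k with rfl | hk0
      · have h4 : μ {0} = 0 := measure_mono_null (by simp) hμ.two_le
        rw [h4, zero_mul, zero_mul]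
      · gcongr
        calc y ^ k ≤ y ^ 1 := pow_le_pow_right_of_le_one' hy1 hk0
          _ = y := pow_one y
    · rw [indicator_of_notMem hk]
      exact bot_le
  calc _ ≤ ∑' k : ℕ, μ {k} * y := ENNReal.tsum_le_tsum h3
    _ = y := by
      rw [ENNReal.tsum_mul_right]
      have h5 := Measure.tsum_indicator_apply_singleton μ univ MeasurableSet.univ
      simp only [indicator_univ] at h5
      rw [h5, measure_univ, one_mul]

end Pool.Agent.Helper98.Comp
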