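import Pool.Agent.Helper98.Comp.Defs

/-!
# MODULE Pair: counting pairings which extend a partial pairing
-/

set_option autoImplicit false

namespace Pool.Agent.Helper98.Comp

open MeasureTheory Filter Set
open scoped ENNReal NNReal Topology

variable {n : ℕ} {d : Fin n → ℕ}

/-- The half-edges of a list of pairs. -/
def rev (η : List (HE d × HE d)) : List (HE d) := η.flatMap fun p => [p.1, p.2]

/-- The pairs are disjoint and consist of two different half-edges. -/
def Fresh (η : List (HE d × HE d)) : Prop := (rev η).Nodup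

/-- The pairings containing all pairs of `η`. -/
noncomputable def Ext (η : List (HE d × HE d)) : Finset (Pairing d) := by
  classical
  exact Finset.univ.filter fun σ => ∀ p ∈ η, σ p.1 = p.2

theorem mem_Ext {η : List (HE d × HE d)} {σ : Pairing d} :
    σ ∈ Ext η ↔ ∀ p ∈ η, σ p.1 = p.2 := by
  classical
  simp [Ext]

theorem rev_cons (p : HE d × HE d) (η : List (HE d × HE d)) :
    rev (p :: η) = p.1 :: p.2 :: rev η := by
  simp [rev]

theorem length_rev (η : List (HE d × HE d)) : (rev η).length = 2 * η.length := by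
  induction η with
  | nil => simp [rev]
  | cons p η ih => rw [rev_cons]; simp [ih]; omega

theorem pr_card_HE : Fintype.card (HE d) = ∑ v, d v := by
  simp [HE]

theorem Fresh.two_mul_le {η : List (HE d × HE d)} (h : Fresh η) : 2 * η.length ≤ ∑ v, d v := by
  rw [← length_rev, ← pr_card_HE]
  exact List.Nodup.length_le_card h

theorem pr_mem_rev {η : List (HE d × HE d)} {h : HE d} :
    h ∈ rev η ↔ ∃ p ∈ η, h = p.1 ∨ h = p.2 := by
  simp [rev]

theorem pr_invol (σ : Pairing d) (h : HE d) : σ (σ h) = h := σ.2.1 h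

theorem pr_ne (σ : Pairing d) (h : HE d) : σ h ≠ h := σ.2.2 h

/-- On `Ext η` the set of revealed half-edges is stable. -/
theorem mem_rev_iff {η : List (HE d × HE d)} {σ : Pairing d} (hσ : σ ∈ Ext η) (h : HE d) :
    σ h ∈ rev η ↔ h ∈ rev η := by
  have key : ∀ h : HE d, h ∈ rev η → σ h ∈ rev η := by
    intro h hh
    rw [pr_mem_rev] at hh ⊢
    obtain ⟨p, hp, h1 | h1⟩ := hh
    · refine ⟨p, hp, Or.inr ?_⟩
      rw [h1]
      exact mem_Ext.1 hσ p hp
    · refine ⟨p, hp, Or.inl ?_⟩
      rw [h1, ← mem_Ext.1 hσ p hp]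
      exact pr_invol σ p.1
  constructor
  · intro h1
    have := key _ h1
    rwa [pr_invol] at this
  · exact key h

/-- Sum over the partner of a free half-edge. -/
theorem sum_Ext {η : List (HE d × HE d)} {h : HE d} (hh : h ∉ rev η) {E : Type*}
    [AddCommMonoid E] (f : Pairing d → E) :
    ∑ σ ∈ Ext η, f σ =
      ∑ h' ∈ (Finset.univ.filter fun h' : HE d => h' ∉ rev η ∧ h' ≠ h),
        ∑ σ ∈ Ext ((h, h') :: η), f σ := by
  classical
  rw [← Finset.sum_fiberwise_of_maps_to (s := Ext η)
    (t := Finset.univ.filter fun h' : HE d => h' ∉ rev η ∧ h' ≠ h)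
    (g := fun σ : Pairing d => σ h) (f := f)]
  · refine Finset.sum_congr rfl fun h' _ => ?_
    refine Finset.sum_congr ?_ fun _ _ => rfl
    ext σ
    simp only [Finset.mem_filter, mem_Ext, List.mem_cons, forall_eq_or_imp]
    tauto
  · intro σ hσ
    simp only [Finset.mem_filter, Finset.mem_univ, true_and]
    refine ⟨?_, pr_ne σ h⟩
    rw [mem_rev_iff hσ]
    exact hh

theorem Fresh.cons {η : List (HE d × HE d)} (hη : Fresh η) {h h' : HE d} (hh : h ∉ rev η)
    (hh' : h' ∉ rev η) (hne : h' ≠ h) : Fresh ((h, h') :: η) := by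
  unfold Fresh
  rw [rev_cons]
  simp only [List.nodup_cons, List.mem_cons, not_or]
  exact ⟨⟨hne.symm, hh⟩, hh', hη⟩

theorem pr_of_cons {η : List (HE d × HE d)} {h h' : HE d} (hf : Fresh ((h, h') :: η)) :
    h ∉ rev η ∧ h' ∉ rev η ∧ h' ≠ h ∧ Fresh η := by
  unfold Fresh at hf
  rw [rev_cons] at hf
  simp only [List.nodup_cons, List.mem_cons, not_or] at hf
  exact ⟨hf.1.2, hf.2.1, fun e => hf.1.1 e.symm, hf.2.2⟩

/-- Conjugation of a pairing by a transposition. -/
noncomputable def pr_conj (a b : HE d) (σ : Pairing d) : Pairing d := by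
  classical
  refine ⟨(Equiv.swap a b).trans (σ.1.trans (Equiv.swap a b)), ?_, ?_⟩
  · intro h
    simp only [Equiv.trans_apply, Equiv.swap_apply_def]
    have h1 := σ.2.1
    have := σ.2.1 (Equiv.swap a b h)
    have h2 : Equiv.swap a b (Equiv.swap a b (σ.1 (Equiv.swap a b h))) =
      σ.1 (Equiv.swap a b h) := Equiv.swap_apply_self _ _ _
    have h3 : Equiv.swap a b (σ.1 (Equiv.swap a b (Equiv.swap a b
        (σ.1 (Equiv.swap a b h))))) = h := by
      rw [h2, this, Equiv.swap_apply_self]
    simpa only [Equiv.swap_apply_def] using h3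
  · intro h h1
    have h2 : Equiv.swap a b (σ.1 (Equiv.swap a b h)) = h := h1
    have h3 : Equiv.swap a b (Equiv.swap a b (σ.1 (Equiv.swap a b h))) =
        Equiv.swap a b h := congrArg (Equiv.swap a b) h2
    have h4 : σ.1 (Equiv.swap a b h) = Equiv.swap a b h :=
      (Equiv.swap_apply_self _ _ _).symm.trans h3
    exact σ.2.2 _ h4

theorem pr_conj_apply0 (a b : HE d) (σ : Pairing d) (h : HE d) :
    pr_conj a b σ h = Equiv.swap a b (σ (Equiv.swap a b h)) := rfl

theorem pr_conj_apply [inst : DecidableEq (HE d)] (a b : HE d) (σ : Pairing d) (h : HE d) :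
    pr_conj a b σ h = Equiv.swap a b (σ (Equiv.swap a b h)) := by
  rw [pr_conj_apply0]
  rw [Subsingleton.elim inst _]

theorem pr_conj_inj (a b : HE d) : Function.Injective (pr_conj (d := d) a b) := by
  classical
  intro σ τ e
  have key : ∀ h, σ h = τ h := by
    intro h
    have h1 := congrArg (fun ρ : Pairing d => ρ (Equiv.swap a b h)) e
    simp only [pr_conj_apply, Equiv.swap_apply_self] at h1
    exact (Equiv.swap a b).injective h1
  apply Subtype.ext
  exact Equiv.ext key

theorem pr_card_le {η : List (HE d × HE d)} {h h' h'' : HE d}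
    (hh' : h' ∉ rev η) (hne : h' ≠ h) (hh'' : h'' ∉ rev η) (hne' : h'' ≠ h) :
    (Ext ((h, h') :: η)).card ≤ (Ext ((h, h'') :: η)).card := by
  classical
  refine Finset.card_le_card_of_injOn (pr_conj h' h'') ?_ (pr_conj_inj h' h'').injOn
  intro σ hσ
  have hσ' := mem_Ext.1 (Finset.mem_coe.1 hσ)
  rw [Finset.mem_coe, mem_Ext]
  have hfix : ∀ x ∈ rev η, Equiv.swap h' h'' x = x := by
    intro x hx
    apply Equiv.swap_apply_of_ne_of_ne
    · rintro rfl; exact hh' hx
    · rintro rfl; exact hh'' hx
  intro p hp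
  rw [pr_conj_apply]
  rcases List.mem_cons.1 hp with rfl | hp'
  · have h1 : Equiv.swap h' h'' h = h :=
      Equiv.swap_apply_of_ne_of_ne hne.symm hne'.symm
    have h2 : σ h = h' := hσ' (h, h') (List.mem_cons_self)
    simp only [h1, h2, Equiv.swap_apply_left]
  · have h1 : p.1 ∈ rev η := pr_mem_rev.2 ⟨p, hp', Or.inl rfl⟩
    have h2 : p.2 ∈ rev η := pr_mem_rev.2 ⟨p, hp', Or.inr rfl⟩
    rw [hfix _ h1, hσ' p (List.mem_cons_of_mem _ hp'), hfix _ h2]

theorem pr_card_free {η : List (HE d × HE d)} (hη : Fresh η) {h : HE d} (hh : h ∉ rev η) :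
    (Finset.univ.filter fun h' : HE d => h' ∉ rev η ∧ h' ≠ h).card + (2 * η.length + 1) =
      ∑ v, d v := by
  classical
  have h1 : (Finset.univ.filter fun h' : HE d => h' ∉ rev η ∧ h' ≠ h) =
      (insert h (rev η).toFinset)ᶜ := by
    ext x
    simp only [Finset.mem_filter, Finset.mem_univ, true_and, Finset.mem_compl,
      Finset.mem_insert, List.mem_toFinset, not_or]
    tauto
  rw [h1, ← pr_card_HE, ← Finset.card_compl_add_card (insert h (rev η).toFinset)]
  congr 1
  rw [Finset.card_insert_of_notMem (by simpa using hh), List.toFinset_card_of_nodup hη,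
    length_rev]

/-- The partner of a free half-edge `h` is uniform on the other free half-edges. -/
theorem card_Ext_cons {η : List (HE d × HE d)} {h h' : HE d} (hf : Fresh ((h, h') :: η)) :
    ((Ext ((h, h') :: η)).card : ℝ) * (((∑ v, d v : ℕ) : ℝ) - 2 * η.length - 1) =
      (Ext η).card := by
  obtain ⟨hh, hh', hne, hη⟩ := pr_of_cons hf
  have h1 : (Ext η).card =
      ∑ h'' ∈ (Finset.univ.filter fun h' : HE d => h' ∉ rev η ∧ h' ≠ h),
        (Ext ((h, h'') :: η)).card := by
    have := sum_Ext hh (fun _ => (1 : ℕ))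
    simpa using this
  have h2 : ∀ h'' ∈ (Finset.univ.filter fun h' : HE d => h' ∉ rev η ∧ h' ≠ h),
      (Ext ((h, h'') :: η)).card = (Ext ((h, h') :: η)).card := by
    intro h'' hm
    simp only [Finset.mem_filter, Finset.mem_univ, true_and] at hm
    exact le_antisymm (pr_card_le hm.1 hm.2 hh' hne) (pr_card_le hh' hne hm.1 hm.2)
  rw [Finset.sum_congr rfl h2, Finset.sum_const, smul_eq_mul] at h1
  have h3 := pr_card_free hη hh
  have h4 : (((∑ v, d v : ℕ) : ℝ) - 2 * η.length - 1) =
      ((Finset.univ.filter fun h' : HE d => h' ∉ rev η ∧ h' ≠ h).card : ℝ) := by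
    rw [← h3]
    push_cast
    ring
  rw [h4, h1]
  push_cast
  ring

/-- The involution which exchanges the two half-edges of every pair of the list. -/
theorem pr_exists_perm {η : List (HE d × HE d)} (hη : Fresh η) :
    ∃ σ : Equiv.Perm (HE d), (∀ p ∈ η, σ p.1 = p.2) ∧ (∀ h, σ (σ h) = h) ∧
      (∀ h, h ∉ rev η → σ h = h) ∧ ∀ h ∈ rev η, σ h ≠ h := by
  classical
  induction η with
  | nil =>
    refine ⟨1, ?_, ?_, ?_, ?_⟩ <;> simp [rev]
  | cons p η ih =>
    obtain ⟨a, b⟩ := p
    obtain ⟨ha, hb, hne, hη'⟩ := pr_of_cons hη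
    obtain ⟨σ, h1, h2, h3, h4⟩ := ih hη'
    have hσa : σ a = a := h3 a ha
    have hσb : σ b = b := h3 b hb
    have e1 : ∀ x, x ≠ a → x ≠ b → σ x ≠ a ∧ σ x ≠ b := by
      intro x hxa hxb
      constructor
      · intro e
        apply hxa
        have := h2 x
        rw [e, hσa] at this
        exact this.symm
      · intro e
        apply hxb
        have := h2 x
        rw [e, hσb] at this
        exact this.symm
    refine ⟨(Equiv.swap a b).trans σ, ?_, ?_, ?_, ?_⟩
    · intro p hp
      rcases List.mem_cons.1 hp with rfl | hp'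
      · simp [hσb]
      · have hpa : p.1 ≠ a := by
          rintro rfl; exact ha (pr_mem_rev.2 ⟨p, hp', Or.inl rfl⟩)
        have hpb : p.1 ≠ b := by
          rintro rfl; exact hb (pr_mem_rev.2 ⟨p, hp', Or.inl rfl⟩)
        simp only [Equiv.trans_apply]
        rw [Equiv.swap_apply_of_ne_of_ne hpa hpb]
        exact h1 p hp'
    · intro x
      simp only [Equiv.trans_apply]
      by_cases hxa : x = a
      · subst hxa
        rw [Equiv.swap_apply_left, hσb, Equiv.swap_apply_right, hσa]
      · by_cases hxb : x = b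
        · subst hxb
          rw [Equiv.swap_apply_right, hσa, Equiv.swap_apply_left, hσb]
        · rw [Equiv.swap_apply_of_ne_of_ne hxa hxb,
            Equiv.swap_apply_of_ne_of_ne (e1 x hxa hxb).1 (e1 x hxa hxb).2]
          exact h2 x
    · intro x hx
      rw [rev_cons] at hx
      simp only [List.mem_cons, not_or] at hx
      simp only [Equiv.trans_apply]
      rw [Equiv.swap_apply_of_ne_of_ne hx.1 hx.2.1]
      exact h3 x hx.2.2
    · intro x hx
      rw [rev_cons] at hx
      simp only [List.mem_cons] at hx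
      simp only [Equiv.trans_apply]
      by_cases hxa : x = a
      · subst hxa
        rw [Equiv.swap_apply_left, hσb]
        exact hne
      · by_cases hxb : x = b
        · subst hxb
          rw [Equiv.swap_apply_right, hσa]
          exact hne.symm
        · rw [Equiv.swap_apply_of_ne_of_ne hxa hxb]
          rcases hx with h | h | h
          · exact absurd h hxa
          · exact absurd h hxb
          · exact h4 x h

theorem Ext_nonempty (hd : Even (∑ v, d v)) {η : List (HE d × HE d)} (hη : Fresh η) :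
    (Ext η).Nonempty := by
  classical
  obtain ⟨m, hm⟩ : ∃ m, m = (∑ v, d v) - 2 * η.length := ⟨_, rfl⟩
  induction m using Nat.strong_induction_on generalizing η with
  | _ m ih =>
    by_cases hall : ∀ h : HE d, h ∈ rev η
    · obtain ⟨σ, h1, h2, -, h4⟩ := pr_exists_perm hη
      exact ⟨⟨σ, h2, fun h => h4 h (hall h)⟩, mem_Ext.2 h1⟩
    · push Not at hall
      obtain ⟨h, hh⟩ := hall
      have h3 := pr_card_free hη hh
      have h5 : (Finset.univ.filter fun h' : HE d => h' ∉ rev η ∧ h' ≠ h).Nonempty := by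
        rw [← Finset.card_pos]
        rcases Nat.eq_zero_or_pos
          (Finset.univ.filter fun h' : HE d => h' ∉ rev η ∧ h' ≠ h).card with h0 | h0
        · exfalso
          rw [h0] at h3
          obtain ⟨k, hk⟩ := hd
          omega
        · exact h0
      obtain ⟨h', hm'⟩ := h5
      simp only [Finset.mem_filter, Finset.mem_univ, true_and] at hm'
      have hf := hη.cons hh hm'.1 hm'.2
      have h6 := hf.two_mul_le
      simp only [List.length_cons] at h6
      obtain ⟨σ, hσ⟩ := ih ((∑ v, d v) - 2 * ((h, h') :: η).length)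
        (by simp only [List.length_cons]; omega) hf rfl
      exact ⟨σ, mem_Ext.2 fun p hp => mem_Ext.1 hσ p (List.mem_cons_of_mem _ hp)⟩

theorem Ext_nil : (Ext ([] : List (HE d × HE d))) = Finset.univ := by
  ext σ
  simp [mem_Ext]

end Pool.Agent.Helper98.Comp
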