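import Pool.Agent.Helper98.Comp.ExploreB
import Pool.Agent.Helper98.Comp.GWdec

/-!
# MODULE Select: the greedy path from a selected big individual of the explored trees
-/

set_option autoImplicit false

namespace Pool.Agent.Helper98.Comp

open MeasureTheory Filter Set
open scoped ENNReal NNReal Topology

variable {n : ℕ} {d : Fin n → ℕ}

/-- Red weights of the explored field. -/
noncomputable def fXr (σ : Pairing d) (x : Sym2 (HE d) → ℝ≥0 × ℝ≥0) (v : Fin n) :
    List ℕ → ℝ≥0 := fun u => (fX σ x v u).1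

/-- Blue weights of the explored field. -/
noncomputable def fXb (σ : Pairing d) (x : Sym2 (HE d) → ℝ≥0 × ℝ≥0) (v : Fin n) :
    List ℕ → ℝ≥0 := fun u => (fX σ x v u).2

/-- There is a big individual `z ++ ℓ` at red distance less than `s` from `z`, from which the hub
`vstar` is reached by a free red path of length at most `1`. -/
def Linked (M R : ℕ) (σ : Pairing d) (x : Sym2 (HE d) → ℝ≥0 × ℝ≥0) (ur ub : Fin n) (b : Bool)
    (vstar : Fin n) (z : List ℕ) (s : ℝ) : Prop :=
  ∃ ℓ q, rel M R (fK σ (rt ur ub b)) (z ++ ℓ) ∧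
    (dist (subAt (fXr σ x (rt ur ub b)) z) ℓ : ℝ) < s ∧
    pos σ (rt ur ub b) (z ++ ℓ) = some q ∧
    FreeWalk σ x (revSet M R σ ur ub)ᶜ q.1 vstar 1

/-! ### Auxiliary facts about product measures -/

/-- `A` is measurable and depends only on the coordinates in `S`. -/
def sl_Dep {ι α : Type*} [MeasurableSpace α] (S : Set ι) (A : Set (ι → α)) : Prop :=
  MeasurableSet A ∧ ∀ x y : ι → α, (∀ i ∈ S, x i = y i) → x ∈ A → y ∈ A

theorem sl_Dep.compl {ι α : Type*} [MeasurableSpace α] {S : Set ι} {A : Set (ι → α)}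
    (h : sl_Dep S A) : sl_Dep S Aᶜ :=
  ⟨h.1.compl, fun x y hxy hx hy => hx (h.2 y x (fun i hi => (hxy i hi).symm) hy)⟩

theorem sl_Dep.inter {ι α : Type*} [MeasurableSpace α] {S : Set ι} {A B : Set (ι → α)}
    (h : sl_Dep S A) (h' : sl_Dep S B) : sl_Dep S (A ∩ B) :=
  ⟨h.1.inter h'.1, fun x y hxy hx => ⟨h.2 x y hxy hx.1, h'.2 x y hxy hx.2⟩⟩

theorem sl_Dep.union {ι α : Type*} [MeasurableSpace α] {S : Set ι} {A B : Set (ι → α)}
    (h : sl_Dep S A) (h' : sl_Dep S B) : sl_Dep S (A ∪ B) :=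
  ⟨h.1.union h'.1, fun x y hxy hx => hx.imp (h.2 x y hxy) (h'.2 x y hxy)⟩

theorem sl_Dep.empty {ι α : Type*} [MeasurableSpace α] (S : Set ι) :
    sl_Dep S (∅ : Set (ι → α)) :=
  ⟨MeasurableSet.empty, fun _ _ _ h => h⟩

theorem sl_Dep.univ {ι α : Type*} [MeasurableSpace α] (S : Set ι) :
    sl_Dep S (Set.univ : Set (ι → α)) :=
  ⟨MeasurableSet.univ, fun _ _ _ _ => trivial⟩

/-- Independence of events which depend on disjoint sets of coordinates. -/
theorem sl_indep {ι α : Type*} [Fintype ι] [MeasurableSpace α] (μ : Measure α)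
    [IsProbabilityMeasure μ] {S : Set ι} {A B : Set (ι → α)} (hA : sl_Dep S A)
    (hB : sl_Dep Sᶜ B) :
    (Measure.pi fun _ : ι => μ) (A ∩ B) =
      (Measure.pi fun _ : ι => μ) A * (Measure.pi fun _ : ι => μ) B := by
  classical
  obtain ⟨c⟩ : Nonempty α := by
    by_contra h
    rw [not_nonempty_iff] at h
    have := measure_univ (μ := μ)
    rw [Set.univ_eq_empty_iff.2 h, measure_empty] at this
    exact zero_ne_one this
  have hmp := measurePreserving_piEquivPiSubtypeProd (fun _ : ι => μ) (fun i => i ∈ S)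
  set e := MeasurableEquiv.piEquivPiSubtypeProd (fun _ : ι => α) (fun i => i ∈ S) with he
  let gA : ({i // i ∈ S} → α) → ι → α := fun y i => if h : i ∈ S then y ⟨i, h⟩ else c
  let gB : ({i // i ∉ S} → α) → ι → α := fun y i => if h : i ∈ S then c else y ⟨i, h⟩
  have hgA : Measurable gA := by
    refine measurable_pi_iff.2 fun i => ?_
    by_cases h : i ∈ S
    · simp only [gA, h, dif_pos]
      exact measurable_pi_apply _
    · simp only [gA, h, dif_neg, not_false_eq_true]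
      exact measurable_const
  have hgB : Measurable gB := by
    refine measurable_pi_iff.2 fun i => ?_
    by_cases h : i ∈ S
    · simp only [gB, h, dif_pos]
      exact measurable_const
    · simp only [gB, h, dif_neg, not_false_eq_true]
      exact measurable_pi_apply _
  have hA' : A = e ⁻¹' ((gA ⁻¹' A) ×ˢ Set.univ) := by
    ext x
    simp only [mem_preimage, mem_prod, mem_univ, and_true]
    constructor
    · intro hx
      refine hA.2 x _ (fun i hi => ?_) hx
      simp [gA, he, hi]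
    · intro hx
      refine hA.2 _ x (fun i hi => ?_) hx
      simp [gA, he, hi]
  have hB' : B = e ⁻¹' (Set.univ ×ˢ (gB ⁻¹' B)) := by
    ext x
    simp only [mem_preimage, mem_prod, mem_univ, true_and]
    constructor
    · intro hx
      refine hB.2 x _ (fun i hi => ?_) hx
      have hi' : i ∉ S := hi
      simp [gB, he, hi']
    · intro hx
      refine hB.2 _ x (fun i hi => ?_) hx
      have hi' : i ∉ S := hi
      simp [gB, he, hi']
  have hmA : MeasurableSet (gA ⁻¹' A) := hgA hA.1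
  have hmB : MeasurableSet (gB ⁻¹' B) := hgB hB.1
  have h1 : (Measure.pi fun _ : ι => μ) A =
      (Measure.pi fun _ : {i // i ∈ S} => μ) (gA ⁻¹' A) := by
    conv_lhs => rw [hA']
    rw [hmp.measure_preimage (hmA.prod MeasurableSet.univ).nullMeasurableSet, Measure.prod_prod]
    simp
  have h2 : (Measure.pi fun _ : ι => μ) B =
      (Measure.pi fun _ : {i // i ∉ S} => μ) (gB ⁻¹' B) := by
    conv_lhs => rw [hB']
    rw [hmp.measure_preimage (MeasurableSet.univ.prod hmB).nullMeasurableSet, Measure.prod_prod]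
    simp
  have h3 : A ∩ B = e ⁻¹' ((gA ⁻¹' A) ×ˢ (gB ⁻¹' B)) := by
    conv_lhs => rw [hA', hB']
    rw [← Set.preimage_inter, Set.prod_inter_prod]
    simp
  rw [h1, h2, h3, hmp.measure_preimage (hmA.prod hmB).nullMeasurableSet, Measure.prod_prod]

/-- Selection of the first event which occurs. -/
theorem sl_select {ι α κ β : Type*} [Fintype ι] [MeasurableSpace α] (μ : Measure α)
    [IsProbabilityMeasure μ] {S : Set ι} (T : Finset κ) (C : ℝ≥0∞)
    (D : β → Set (ι → α)) (F : κ → β → Set (ι → α)) (B : Finset β)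
    (hD : ∀ l ∈ B, sl_Dep S (D l)) (hF : ∀ k ∈ T, ∀ l ∈ B, sl_Dep Sᶜ (F k l))
    (hC : ∀ l ∈ B, ∑ k ∈ T, (Measure.pi fun _ : ι => μ) (F k l) ≤ C)
    (G : Set (ι → α)) (hG : sl_Dep S G) :
    ∑ k ∈ T, (Measure.pi fun _ : ι => μ)
        (G ∩ {x | (∃ l ∈ B, x ∈ D l) ∧ ∀ l ∈ B, x ∈ D l → x ∈ F k l}) ≤
      (Measure.pi fun _ : ι => μ) (G ∩ {x | ∃ l ∈ B, x ∈ D l}) * C := by
  classical
  induction B using Finset.induction_on generalizing G with
  | empty => simp
  | insert l B hl ih =>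
    have hD' : ∀ l ∈ B, sl_Dep S (D l) := fun l' h => hD l' (Finset.mem_insert_of_mem h)
    have hF' : ∀ k ∈ T, ∀ l ∈ B, sl_Dep Sᶜ (F k l) :=
      fun k hk l' h => hF k hk l' (Finset.mem_insert_of_mem h)
    have hC' : ∀ l ∈ B, ∑ k ∈ T, (Measure.pi fun _ : ι => μ) (F k l) ≤ C :=
      fun l' h => hC l' (Finset.mem_insert_of_mem h)
    have hDl := hD l (Finset.mem_insert_self _ _)
    have hB := ih hD' hF' hC' (G ∩ (D l)ᶜ) (hG.inter hDl.compl)
    have h1 : ∀ k ∈ T, (Measure.pi fun _ : ι => μ)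
        (G ∩ {x | (∃ l' ∈ insert l B, x ∈ D l') ∧ ∀ l' ∈ insert l B, x ∈ D l' → x ∈ F k l'}) ≤
        (Measure.pi fun _ : ι => μ) (G ∩ D l) * (Measure.pi fun _ : ι => μ) (F k l) +
        (Measure.pi fun _ : ι => μ)
          ((G ∩ (D l)ᶜ) ∩ {x | (∃ l ∈ B, x ∈ D l) ∧ ∀ l ∈ B, x ∈ D l → x ∈ F k l}) := by
      intro k hk
      rw [← sl_indep μ (hG.inter hDl) (hF k hk l (Finset.mem_insert_self _ _))]
      refine (measure_mono ?_).trans (measure_union_le _ _)
      rintro x ⟨hx, ⟨l', hl', hxl'⟩, hall⟩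
      by_cases hxl : x ∈ D l
      · left
        exact ⟨⟨hx, hxl⟩, hall l (Finset.mem_insert_self _ _) hxl⟩
      · right
        refine ⟨⟨hx, hxl⟩, ⟨l', ?_, hxl'⟩, fun l'' h'' => hall l'' (Finset.mem_insert_of_mem h'')⟩
        rcases Finset.mem_insert.1 hl' with rfl | h
        · exact absurd hxl' hxl
        · exact h
    calc _ ≤ ∑ k ∈ T, ((Measure.pi fun _ : ι => μ) (G ∩ D l) *
          (Measure.pi fun _ : ι => μ) (F k l) + _) := Finset.sum_le_sum h1
      _ = (Measure.pi fun _ : ι => μ) (G ∩ D l) * ∑ k ∈ T, (Measure.pi fun _ : ι => μ) (F k l)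
          + _ := by rw [Finset.sum_add_distrib, Finset.mul_sum]
      _ ≤ (Measure.pi fun _ : ι => μ) (G ∩ D l) * C +
          (Measure.pi fun _ : ι => μ) ((G ∩ (D l)ᶜ) ∩ {x | ∃ l ∈ B, x ∈ D l}) * C := by
          gcongr
          exact hC l (Finset.mem_insert_self _ _)
      _ = (Measure.pi fun _ : ι => μ) (G ∩ {x | ∃ l' ∈ insert l B, x ∈ D l'}) * C := by
          rw [← add_mul]
          congr 1
          rw [← measure_union₀' (hG.inter hDl).1.nullMeasurableSet]
          · congr 1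
            ext x
            simp only [mem_union, mem_inter_iff, mem_compl_iff, mem_ofPred_eq, Finset.mem_insert,
              exists_eq_or_imp]
            tauto
          · refine Disjoint.aedisjoint ?_
            rw [Set.disjoint_left]
            rintro x ⟨_, hx⟩ ⟨⟨_, hx'⟩, _⟩
            exact hx' hx


/-! ### Auxiliary facts about the exploration -/

/-- Sum over the classes of pairings without collisions. -/
theorem sl_class_sum {M R : ℕ} {ur ub : Fin n} {δ : ℝ≥0∞}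
    {cls : Pairing d → List (HE d × HE d)}
    (hcls : ∀ σ, EmbOK M R σ ur ub → σ ∈ Ext (cls σ) ∧
      ∀ τ ∈ Ext (cls σ), EmbOK M R τ ur ub ∧ cls τ = cls σ)
    (f : Pairing d → ℝ≥0∞) (hf : ∀ σ, ¬ EmbOK M R σ ur ub → f σ = 0)
    (h : ∀ σ, EmbOK M R σ ur ub → ∑ τ ∈ Ext (cls σ), f τ ≤ (Ext (cls σ)).card * δ) :
    ∑ σ : Pairing d, f σ ≤ Fintype.card (Pairing d) * δ := by
  classical
  set G : Finset (Pairing d) := Finset.univ.filter fun σ => EmbOK M R σ ur ub with hG
  have h0 : ∑ σ : Pairing d, f σ = ∑ σ ∈ G, f σ := by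
    rw [hG, Finset.sum_filter]
    refine Finset.sum_congr rfl fun σ _ => ?_
    split_ifs with hσ
    · rfl
    · exact hf σ hσ
  have hfib : ∀ σ ∈ G, G.filter (fun τ => cls τ = cls σ) = Ext (cls σ) := by
    intro σ hσ
    have hσ' : EmbOK M R σ ur ub := (Finset.mem_filter.1 hσ).2
    ext τ
    simp only [Finset.mem_filter]
    constructor
    · rintro ⟨hτ, he⟩
      have hτ' : EmbOK M R τ ur ub := (Finset.mem_filter.1 hτ).2
      rw [← he]
      exact (hcls τ hτ').1
    · intro hτ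
      obtain ⟨h1, h2⟩ := (hcls σ hσ').2 τ hτ
      exact ⟨Finset.mem_filter.2 ⟨Finset.mem_univ _, h1⟩, h2⟩
  have h1 : ∑ σ ∈ G, f σ = ∑ η ∈ G.image cls, ∑ σ ∈ G.filter (fun τ => cls τ = η), f σ :=
    (Finset.sum_fiberwise_of_maps_to (fun σ hσ => Finset.mem_image_of_mem cls hσ) f).symm
  have h2 : (G.card : ℝ≥0∞) = ∑ η ∈ G.image cls, ((G.filter (fun τ => cls τ = η)).card : ℝ≥0∞) := by
    rw [← Nat.cast_sum]
    congr 1
    exact Finset.card_eq_sum_card_fiberwise fun σ hσ => Finset.mem_image_of_mem cls hσ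
  calc ∑ σ : Pairing d, f σ = ∑ η ∈ G.image cls, ∑ σ ∈ G.filter (fun τ => cls τ = η), f σ := by
        rw [h0, h1]
    _ ≤ ∑ η ∈ G.image cls, ((G.filter (fun τ => cls τ = η)).card : ℝ≥0∞) * δ := by
        refine Finset.sum_le_sum fun η hη => ?_
        obtain ⟨σ, hσ, rfl⟩ := Finset.mem_image.1 hη
        rw [hfib σ hσ]
        exact h σ (Finset.mem_filter.1 hσ).2
    _ = (G.card : ℝ≥0∞) * δ := by rw [h2, Finset.sum_mul]
    _ ≤ Fintype.card (Pairing d) * δ := by
        gcongr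
        exact Finset.card_le_univ _

theorem sl_dist_congr {X X' : List ℕ → ℝ≥0} {l : List ℕ}
    (h : ∀ p t, l = p ++ t → p ≠ [] → X p = X' p) : dist X l = dist X' l := by
  induction l generalizing X X' with
  | nil => rfl
  | cons i u ih =>
    show X [i] + dist (sub X i) u = X' [i] + dist (sub X' i) u
    rw [h [i] u rfl (by simp), ih (X := sub X i) (X' := sub X' i)]
    intro p t hp _
    exact h (i :: p) t (by simp [hp]) (by simp)

theorem sl_edge_of_pos {σ τ : Pairing d} {v : Fin n} {w : List ℕ} {i : ℕ}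
    (h : pos τ v w = pos σ v w) : edge τ v w i = edge σ v w i := by
  unfold edge
  rw [h]

theorem sl_he_ext {g g' : HE d} (h1 : g.1 = g'.1) (h2 : g.2.val = g'.2.val) : g = g' := by
  obtain ⟨a, x⟩ := g
  obtain ⟨a', x'⟩ := g'
  dsimp only at h1 h2
  subst h1
  congr 1
  exact Fin.ext h2

/-- In a class the weights of the relevant words are the same function of the weights of the
edges. -/
theorem sl_fX_eq {M R : ℕ} {σ τ : Pairing d} {v : Fin n}
    (hp : ∀ u, rel M R (fK σ v) u → pos τ v u = pos σ v u) (x : Sym2 (HE d) → ℝ≥0 × ℝ≥0)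
    {u : List ℕ} (hu : rel M R (fK σ v) u) : fX τ x v u = fX σ x v u := by
  rcases List.eq_nil_or_concat u with rfl | ⟨w, i, rfl⟩
  · simp [fX]
  · rw [List.concat_eq_append] at hu ⊢
    have hw : rel M R (fK σ v) w := (rel_append.1 hu).1
    obtain ⟨g, hg, _, hpos⟩ := exists_edge hu
    have he : edge τ v w i = some g := (sl_edge_of_pos (hp w hw)).trans hg
    have hτ := hp _ hu
    rw [hpos, pos_snoc, he] at hτ
    simp only [Option.map_some, Option.some.injEq, Prod.mk.injEq] at hτ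
    have hgg : τ g = σ g := sl_he_ext hτ.1 hτ.2
    rw [fX_snoc, fX_snoc, he, hg]
    simp [hgg]

theorem sl_fX_dep {M R : ℕ} {σ : Pairing d} {ur ub : Fin n} {b : Bool}
    {x y : Sym2 (HE d) → ℝ≥0 × ℝ≥0}
    (hxy : ∀ e ∈ {e | ∃ g ∈ revSet M R σ ur ub, e = s(g, σ g)}, x e = y e)
    {u : List ℕ} (hu : rel M R (fK σ (rt ur ub b)) u) :
    fX σ x (rt ur ub b) u = fX σ y (rt ur ub b) u := by
  rcases List.eq_nil_or_concat u with rfl | ⟨w, i, rfl⟩
  · simp [fX]
  · rw [List.concat_eq_append] at hu ⊢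
    obtain ⟨g, hg, _, _⟩ := exists_edge hu
    rw [fX_snoc, fX_snoc, hg]
    exact hxy _ ⟨g, ⟨b, w, i, g, hu, hg, Or.inl rfl⟩, rfl⟩

theorem sl_measurable_fXr (σ : Pairing d) (v : Fin n) (z : List ℕ) :
    Measurable fun x : Sym2 (HE d) → ℝ≥0 × ℝ≥0 => subAt (fXr σ x v) z := by
  refine measurable_pi_iff.2 fun u => ?_
  show Measurable fun x : Sym2 (HE d) → ℝ≥0 × ℝ≥0 => (fX σ x v (z ++ u)).1
  unfold fX
  by_cases h : z ++ u = []
  · simp only [h, dif_pos]
    exact measurable_const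
  · simp only [h, dif_neg, not_false_eq_true]
    cases edge σ v (z ++ u).dropLast ((z ++ u).getLast h) with
    | none => exact measurable_const
    | some g => exact (measurable_pi_apply _).fst

theorem sl_measurable_dist (σ : Pairing d) (v : Fin n) (z l : List ℕ) (s : ℝ) :
    MeasurableSet {x : Sym2 (HE d) → ℝ≥0 × ℝ≥0 | (dist (subAt (fXr σ x v) z) l : ℝ) < s} :=
  measurableSet_lt (measurable_coe_nnreal_real.comp
    ((measurable_dist l).comp (sl_measurable_fXr σ v z))) measurable_const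

theorem sl_freeOf {M R : ℕ} {σ : Pairing d} {ur ub : Fin n} {η : List (HE d × HE d)}
    (h : ∀ g, g ∈ rev η ↔ g ∈ revSet M R σ ur ub) : freeOf η = (revSet M R σ ur ub)ᶜ := by
  ext g
  simp [freeOf, h g]

theorem select_fail (Ir Ib : Measure ℝ≥0) [IsProbabilityMeasure Ir] [IsProbabilityMeasure Ib]
    {M M1 R r0 : ℕ} {δ : ℝ≥0∞} {vstar : Fin n} (hM : M1 ≤ M)
    (hr0 : 2 * ∑ j ∈ Finset.range R, M ^ (j + 1) ≤ r0)
    (hg : ∀ η : List (HE d × HE d), Fresh η → η.length ≤ r0 → ∀ v, M1 ≤ fr η v →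
      failure Ir Ib η v vstar 1 ≤ (Ext η).card * δ)
    (ur ub : Fin n) (b : Bool) (z : List ℕ) (s : ℝ) :
    ∑ σ : Pairing d, (Measure.pi fun _ : Sym2 (HE d) => Ir.prod Ib)
      {x | EmbOK M R σ ur ub ∧ rel M R (fK σ (rt ur ub b)) z ∧
        Near M (R - z.length) (subAt (fK σ (rt ur ub b)) z)
          (subAt (fXr σ x (rt ur ub b)) z) s ∧
        ¬ Linked M R σ x ur ub b vstar z s} ≤ Fintype.card (Pairing d) * δ := by
  classical
  obtain ⟨cls, hcls⟩ := exists_cls (d := d) M R ur ub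
  refine sl_class_sum (M := M) (R := R) (ur := ur) (ub := ub) (cls := cls)
    (fun σ hσ => ⟨(hcls σ hσ).2.1, fun τ hτ => ⟨((hcls σ hσ).2.2.2.2 τ hτ).1,
      ((hcls σ hσ).2.2.2.2 τ hτ).2.1⟩⟩) _ ?_ ?_
  · intro σ hσ
    have : {x | EmbOK M R σ ur ub ∧ rel M R (fK σ (rt ur ub b)) z ∧
        Near M (R - z.length) (subAt (fK σ (rt ur ub b)) z)
          (subAt (fXr σ x (rt ur ub b)) z) s ∧
        ¬ Linked M R σ x ur ub b vstar z s} = ∅ := by
      ext x
      simp [hσ]
    rw [this, measure_empty]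
  intro σ hσ
  obtain ⟨hfresh, _, hlen, hrev, hall⟩ := hcls σ hσ
  set η := cls σ with hη
  set v := rt ur ub b with hv
  have hpos : ∀ τ ∈ Ext η, ∀ u, rel M R (fK σ v) u → pos τ v u = pos σ v u :=
    fun τ hτ u hu => (hall τ hτ).2.2.2 b u hu
  have hK : ∀ τ ∈ Ext η, ∀ u, rel M R (fK σ v) u → fK σ v u = fK τ v u := by
    intro τ hτ u hu
    unfold fK
    rw [hpos τ hτ u hu]
  have hrel : ∀ τ ∈ Ext η, ∀ u, rel M R (fK σ v) u ↔ rel M R (fK τ v) u :=
    fun τ hτ u => rel_congr (hK τ hτ) u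
  have hBfin : {l : List ℕ | rel M R (fK σ v) (z ++ l) ∧ M ≤ fK σ v (z ++ l)}.Finite := by
    refine ((box_finite M R).preimage (f := fun l => z ++ l) ?_).subset ?_
    · intro a _ a' _ h
      exact List.append_cancel_left h
    · rintro l ⟨hl, _⟩
      exact rel_mem_box hl
  set B : Finset (List ℕ) := hBfin.toFinset with hB
  have hmemB : ∀ l, l ∈ B ↔ rel M R (fK σ v) (z ++ l) ∧ M ≤ fK σ v (z ++ l) := by
    intro l
    simp [hB]
  have hq : ∀ l, ∃ q, l ∈ B → pos σ v (z ++ l) = some q := by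
    intro l
    by_cases hl : l ∈ B
    · obtain ⟨q, hq⟩ := exists_pos ((hmemB l).1 hl).1
      exact ⟨q, fun _ => hq⟩
    · exact ⟨(ur, none), fun h => absurd h hl⟩
  choose qf hqf using hq
  set S : Set (Sym2 (HE d)) := {e | ∃ g ∈ revSet M R σ ur ub, e = s(g, σ g)} with hS
  have hdist : ∀ τ ∈ Ext η, ∀ (x : Sym2 (HE d) → ℝ≥0 × ℝ≥0) (l : List ℕ),
      rel M R (fK σ v) (z ++ l) →
      dist (subAt (fXr τ x v) z) l = dist (subAt (fXr σ x v) z) l := by
    intro τ hτ x l hl
    refine sl_dist_congr fun p t hpt _ => ?_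
    show (fX τ x v (z ++ p)).1 = (fX σ x v (z ++ p)).1
    rw [sl_fX_eq (hpos τ hτ) x]
    rw [hpt, ← List.append_assoc] at hl
    exact (rel_append.1 hl).1
  have hsel := sl_select (Ir.prod Ib) (S := S) (Ext η) ((Ext η).card * δ)
    (fun l => {x | (dist (subAt (fXr σ x v) z) l : ℝ) < s})
    (fun τ l => {x | ¬ FreeWalk τ x (revSet M R σ ur ub)ᶜ (qf l).1 vstar 1}) B
    (by
      intro l hl
      refine ⟨sl_measurable_dist σ v z l s, fun x y hxy hx => ?_⟩
      have : dist (subAt (fXr σ y v) z) l = dist (subAt (fXr σ x v) z) l := by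
        refine sl_dist_congr fun p t hpt _ => ?_
        show (fX σ y v (z ++ p)).1 = (fX σ x v (z ++ p)).1
        rw [sl_fX_dep (b := b) hxy]
        have := ((hmemB l).1 hl).1
        rw [hpt, ← List.append_assoc] at this
        exact (rel_append.1 this).1
      show (dist (subAt (fXr σ y v) z) l : ℝ) < s
      rw [this]
      exact hx)
    (by
      intro τ _ l _
      refine ⟨(measurableSet_freeWalk τ _ _ _ _).compl, fun x y hxy hx hy => hx ?_⟩
      refine (freeWalk_congr fun g g' hgA _ => ?_).1 hy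
      refine (hxy _ ?_).symm
      rintro ⟨h, hh, he⟩
      rcases Sym2.eq_iff.1 he with ⟨h1, _⟩ | ⟨h1, _⟩
      · exact hgA (h1 ▸ hh)
      · exact hgA (h1 ▸ revSet_stable hh))
    (by
      intro l hl
      have h1 := hg η hfresh (hlen.trans hr0) (qf l).1 (by
        refine hM.trans ((le_free hσ ((hmemB l).1 hl).1 ((hmemB l).1 hl).2 (hqf l hl)).trans
          (le_of_eq ?_))
        unfold fr
        congr 1
        ext g
        simp [hrev g])
      unfold failure at h1
      rw [sl_freeOf hrev] at h1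
      exact h1)
    Set.univ (sl_Dep.univ _)
  refine le_trans (Finset.sum_le_sum fun τ hτ => measure_mono ?_)
    (hsel.trans ((mul_le_mul_left (prob_le_one) _).trans (le_of_eq (one_mul _))))
  rintro x ⟨_, hz, ⟨l, hl1, hl2, hl3⟩, hnl⟩
  have hrl : rel M R (fK σ v) (z ++ l) := (hrel τ hτ _).2 (rel_append.2 ⟨hz, hl1⟩)
  refine ⟨trivial, ⟨l, ?_, ?_⟩, fun l' hl' hd hw => hnl ?_⟩
  · refine (hmemB l).2 ⟨hrl, ?_⟩
    rw [hK τ hτ _ hrl]
    exact hl2
  · show (dist (subAt (fXr σ x v) z) l : ℝ) < s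
    rw [← hdist τ hτ x l hrl]
    exact hl3
  · have hrl' := ((hmemB l').1 hl').1
    refine ⟨l', qf l', (hrel τ hτ _).1 hrl', ?_, ?_, ?_⟩
    · rw [hdist τ hτ x l' hrl']
      exact hd
    · rw [hpos τ hτ _ hrl']
      exact hqf l' hl'
    · rw [(hall τ hτ).2.2.1]
      exact hw

theorem sl_card_vertex (y : Fin n) : Set.ncard {h : HE d | h.1 = y} = d y := by
  have h : {h : HE d | h.1 = y} = Set.range fun i : Fin (d y) => (⟨y, i⟩ : HE d) := by
    ext g
    constructor
    · intro hg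
      obtain ⟨a, i⟩ := g
      have ha : a = y := hg
      subst ha
      exact ⟨i, rfl⟩
    · rintro ⟨i, rfl⟩
      rfl
  rw [h, ← Set.image_univ, Set.ncard_image_of_injective _ (fun i j hij => by simpa using hij),
    Set.ncard_univ, Nat.card_fin]

theorem sl_fr_le {η : List (HE d × HE d)} (y : Fin n) : d y ≤ fr η y + 2 * η.length := by
  classical
  have hc := sl_card_vertex (d := d) y
  rw [← length_rev, ← hc]
  unfold fr
  have hsub : {h : HE d | h.1 = y} ⊆ {h : HE d | h ∉ rev η ∧ h.1 = y} ∪ {h : HE d | h ∈ rev η} := by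
    intro h hh
    by_cases hr : h ∈ rev η
    · right; exact hr
    · left; exact ⟨hr, hh⟩
  refine (Set.ncard_le_ncard hsub (Set.toFinite _)).trans ((Set.ncard_union_le _ _).trans ?_)
  gcongr
  have h2 : {h : HE d | h ∈ rev η} = ((rev η).toFinset : Set (HE d)) := by
    ext h
    simp
  rw [h2, Set.ncard_coe_finset]
  exact List.toFinset_card_le _

theorem hub_fail (Ir Ib : Measure ℝ≥0) [IsProbabilityMeasure Ir] [IsProbabilityMeasure Ib]
    {M M1 R r0 : ℕ} {δ : ℝ≥0∞} {vstar y : Fin n} (hy : M1 + 2 * r0 ≤ d y)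
    (hr0 : 2 * ∑ j ∈ Finset.range R, M ^ (j + 1) ≤ r0)
    (hg : ∀ η : List (HE d × HE d), Fresh η → η.length ≤ r0 → ∀ v, M1 ≤ fr η v →
      failure Ir Ib η v vstar 1 ≤ (Ext η).card * δ)
    (ur ub : Fin n) :
    ∑ σ : Pairing d, (Measure.pi fun _ : Sym2 (HE d) => Ir.prod Ib)
      {x | EmbOK M R σ ur ub ∧ ¬ FreeWalk σ x (revSet M R σ ur ub)ᶜ y vstar 1} ≤
        Fintype.card (Pairing d) * δ := by
  classical
  obtain ⟨cls, hcls⟩ := exists_cls (d := d) M R ur ub
  refine sl_class_sum (M := M) (R := R) (ur := ur) (ub := ub) (cls := cls)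
    (fun σ hσ => ⟨(hcls σ hσ).2.1, fun τ hτ => ⟨((hcls σ hσ).2.2.2.2 τ hτ).1,
      ((hcls σ hσ).2.2.2.2 τ hτ).2.1⟩⟩) _ ?_ ?_
  · intro σ hσ
    have : {x | EmbOK M R σ ur ub ∧ ¬ FreeWalk σ x (revSet M R σ ur ub)ᶜ y vstar 1} =
        (∅ : Set (Sym2 (HE d) → ℝ≥0 × ℝ≥0)) := by
      ext x
      simp [hσ]
    rw [this, measure_empty]
  intro σ hσ
  obtain ⟨hfresh, _, hlen, hrev, hall⟩ := hcls σ hσ
  have h1 := hg (cls σ) hfresh (hlen.trans hr0) y (by
    have := sl_fr_le (η := cls σ) y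
    have := hlen.trans hr0
    omega)
  refine le_trans (Finset.sum_le_sum fun τ hτ => measure_mono ?_) h1
  rintro x ⟨_, hx⟩ hw
  apply hx
  rw [(hall τ hτ).2.2.1, ← sl_freeOf hrev]
  exact hw

end Pool.Agent.Helper98.Comp
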