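import Pool.Agent.Helper98.Comp.Defs

/-!
# Words, relevant words, big individuals (statements)
-/

set_option autoImplicit false

namespace Pool.Agent.Helper98.Comp

open MeasureTheory Filter Set
open scoped ENNReal NNReal Topology

/-- The labels of the subtree rooted at `u`. -/
def subAt {α : Type*} (f : List ℕ → α) (u : List ℕ) : List ℕ → α := fun w => f (u ++ w)

/-- The relevant words: words of the tree of length at most `R` such that no proper ancestor has
`M` or more children.  (The exploration stops at individuals with at least `M` children and at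
depth `R`.) -/
def rel (M : ℕ) : ℕ → (List ℕ → ℕ) → List ℕ → Prop
  | _, _, [] => True
  | 0, _, _ :: _ => False
  | R + 1, K, i :: u => K [] < M ∧ i < K [] ∧ rel M R (sub K i) u

/-- Some relevant individual with at least `M` children is born before time `s`. -/
def Near (M R : ℕ) (K : List ℕ → ℕ) (X : List ℕ → ℝ≥0) (s : ℝ) : Prop :=
  ∃ u, rel M R K u ∧ M ≤ K u ∧ (dist X u : ℝ) < s

/-- First components. -/
def Kf {W : Type*} (ω : List ℕ → ℕ × W) : List ℕ → ℕ := fun u => (ω u).1

/-- Second components. -/
def Xf {W : Type*} (ω : List ℕ → ℕ × W) : List ℕ → W := fun u => (ω u).2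

/-! ### Basic facts -/

theorem subAt_nil {α : Type*} (f : List ℕ → α) : subAt f [] = f := rfl

theorem subAt_cons {α : Type*} (f : List ℕ → α) (i : ℕ) (u : List ℕ) :
    subAt f (i :: u) = subAt (sub f i) u := rfl

theorem subAt_append {α : Type*} (f : List ℕ → α) (u w : List ℕ) :
    subAt f (u ++ w) = subAt (subAt f u) w := by
  funext z
  simp [subAt, List.append_assoc]

theorem alive_append (K : List ℕ → ℕ) (u w : List ℕ) :
    alive K (u ++ w) ↔ alive K u ∧ alive (subAt K u) w := by
  induction u generalizing K with
  | nil => simp [alive, subAt_nil]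
  | cons i u ih => simp [alive, subAt_cons, ih, and_assoc]

theorem dist_append (X : List ℕ → ℝ≥0) (u w : List ℕ) :
    dist X (u ++ w) = dist X u + dist (subAt X u) w := by
  induction u generalizing X with
  | nil => simp [dist, subAt_nil]
  | cons i u ih => simp [dist, subAt_cons, ih, add_assoc]

theorem rel_nil (M R : ℕ) (K : List ℕ → ℕ) : rel M R K [] := by
  cases R <;> trivial

theorem rel_length {M R : ℕ} {K : List ℕ → ℕ} {u : List ℕ} (h : rel M R K u) :
    u.length ≤ R := by
  induction u generalizing R K with
  | nil => simp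
  | cons i u ih =>
    cases R with
    | zero => exact absurd h (by simp [rel])
    | succ R =>
      have := ih h.2.2
      simp; omega

theorem rel_append {M R : ℕ} {K : List ℕ → ℕ} {u w : List ℕ} :
    rel M R K (u ++ w) ↔ rel M R K u ∧ rel M (R - u.length) (subAt K u) w := by
  induction u generalizing R K with
  | nil => simp [rel_nil, subAt_nil]
  | cons i u ih =>
    cases R with
    | zero => simp [rel]
    | succ R => simp [rel, ih, subAt_cons, and_assoc]

theorem rel_snoc {M R : ℕ} {K : List ℕ → ℕ} {u : List ℕ} {i : ℕ} :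
    rel M R K (u ++ [i]) ↔ rel M R K u ∧ u.length < R ∧ K u < M ∧ i < K u := by
  rw [rel_append]
  constructor
  · rintro ⟨h1, h2⟩
    rcases hR : R - u.length with _ | r
    · rw [hR] at h2; exact absurd h2 (by simp [rel])
    · rw [hR] at h2
      refine ⟨h1, by omega, ?_, ?_⟩
      · simpa [rel, subAt] using h2.1
      · simpa [rel, subAt] using h2.2.1
  · rintro ⟨h1, h2, h3, h4⟩
    refine ⟨h1, ?_⟩
    rcases hR : R - u.length with _ | r
    · omega
    · refine ⟨by simpa [subAt] using h3, by simpa [subAt] using h4, rel_nil _ _ _⟩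

theorem rel_alive {M R : ℕ} {K : List ℕ → ℕ} {u : List ℕ} (h : rel M R K u) : alive K u := by
  induction u generalizing R K with
  | nil => trivial
  | cons i u ih =>
    cases R with
    | zero => exact absurd h (by simp [rel])
    | succ R => exact ⟨h.2.1, ih h.2.2⟩

/-- Relevance only depends on the labels of the relevant words. -/
theorem rel_congr {M R : ℕ} {K K' : List ℕ → ℕ} (h : ∀ u, rel M R K u → K u = K' u) (u : List ℕ) :
    rel M R K u ↔ rel M R K' u := by
  induction u using List.reverseRecOn with
  | nil => simp [rel_nil]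
  | append_singleton u i ih =>
    rw [rel_snoc, rel_snoc]
    constructor
    · rintro ⟨h1, h2, h3, h4⟩
      exact ⟨ih.1 h1, h2, h u h1 ▸ h3, h u h1 ▸ h4⟩
    · rintro ⟨h1, h2, h3, h4⟩
      have h1' := ih.2 h1
      exact ⟨h1', h2, (h u h1').symm ▸ h3, (h u h1').symm ▸ h4⟩

/-- Below a bound `m ≤ M` on the numbers of children, alive words are relevant. -/
theorem rel_of_alive {M R m r : ℕ} {K : List ℕ → ℕ} (hm : m ≤ M) (hr : r ≤ R)
    (hK : ∀ u, alive K u → u.length < r → K u < m) {u : List ℕ} (hu : alive K u)
    (hl : u.length ≤ r) : rel M R K u := by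
  induction u using List.reverseRecOn with
  | nil => exact rel_nil _ _ _
  | append_singleton u i ih =>
    rw [alive_append] at hu
    simp only [List.length_append, List.length_singleton] at hl
    have h1 := ih hu.1 (by omega)
    have h2 := hK u hu.1 (by omega)
    rw [rel_snoc]
    refine ⟨h1, by omega, by omega, ?_⟩
    simpa [alive, subAt] using hu.2.1

/-- The number of alive words of length less than `r`, if each of them has less than `m`
children. -/
theorem ncard_alive_le {m r : ℕ} {K : List ℕ → ℕ}
    (hK : ∀ u, alive K u → u.length < r → K u < m) :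
    {u | alive K u ∧ u.length < r}.Finite ∧
      {u | alive K u ∧ u.length < r}.ncard ≤ ∑ j ∈ Finset.range r, m ^ j := by
  induction r generalizing K with
  | zero => simp
  | succ r ih =>
    have hsplit : {u | alive K u ∧ u.length < r + 1} =
        {[]} ∪ ⋃ i ∈ Finset.range (K []),
          (fun u => i :: u) '' {u | alive (sub K i) u ∧ u.length < r} := by
      ext u
      cases u with
      | nil => simp [alive]
      | cons i u =>
        simp only [mem_setOf_eq, alive, List.length_cons, Order.lt_add_one_iff, Order.add_one_le_iff,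
          singleton_union, mem_insert_iff, reduceCtorEq, Finset.mem_range, mem_iUnion, mem_image,
          List.cons.injEq, false_or]
        constructor
        · rintro ⟨⟨h1, h2⟩, h3⟩
          exact ⟨i, h1, u, ⟨h2, h3⟩, rfl, rfl⟩
        · rintro ⟨j, h1, v, ⟨h2, h3⟩, rfl, rfl⟩
          exact ⟨⟨h1, h2⟩, h3⟩
    have hi : ∀ i < K [], {u | alive (sub K i) u ∧ u.length < r}.Finite ∧
        {u | alive (sub K i) u ∧ u.length < r}.ncard ≤ ∑ j ∈ Finset.range r, m ^ j := by
      intro i hi
      apply ih
      intro u hu hr
      exact hK (i :: u) ⟨hi, hu⟩ (by simpa using hr)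
    have hfin : (⋃ i ∈ Finset.range (K []),
          (fun u => i :: u) '' {u | alive (sub K i) u ∧ u.length < r}).Finite := by
      apply Set.Finite.biUnion (Finset.finite_toSet _)
      intro i hi'
      exact (hi i (by simpa using hi')).1.image _
    rw [hsplit]
    refine ⟨(Set.finite_singleton _).union hfin, ?_⟩
    have h0 : K [] < m := hK [] trivial (by simp)
    calc _ ≤ ({[]} : Set (List ℕ)).ncard + (⋃ i ∈ Finset.range (K []),
          (fun u => i :: u) '' {u | alive (sub K i) u ∧ u.length < r}).ncard :=
          Set.ncard_union_le _ _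
      _ ≤ 1 + ∑ i ∈ Finset.range (K []), ((fun u => i :: u) ''
            {u | alive (sub K i) u ∧ u.length < r}).ncard := by
          gcongr
          · simp
          · exact Finset.set_ncard_biUnion_le _ _
      _ ≤ 1 + ∑ i ∈ Finset.range (K []), ∑ j ∈ Finset.range r, m ^ j := by
          gcongr with i hi'
          exact (Set.ncard_image_le (hi i (by simpa using hi')).1).trans
            (hi i (by simpa using hi')).2
      _ ≤ 1 + m * ∑ j ∈ Finset.range r, m ^ j := by
          rw [Finset.sum_const, Finset.card_range, smul_eq_mul]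
          gcongr
      _ = ∑ j ∈ Finset.range (r + 1), m ^ j := by
          rw [Finset.sum_range_succ', Finset.mul_sum, add_comm]
          simp [pow_succ, mul_comm]

/-- The finite box containing all relevant words. -/
def box (M R : ℕ) : Set (List ℕ) := {u | u.length ≤ R ∧ ∀ i ∈ u, i < M}

theorem box_finite (M R : ℕ) : (box M R).Finite := by
  have h : box M R ⊆ (List.map (Fin.val : Fin M → ℕ)) '' {v : List (Fin M) | v.length ≤ R} := by
    rintro u ⟨h1, h2⟩
    refine ⟨u.pmap (fun i hi => ⟨i, hi⟩) h2, by simpa using h1, ?_⟩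
    rw [List.map_pmap]
    simp
  exact (List.finite_length_le _ _ |>.image _).subset h

theorem rel_mem_box {M R : ℕ} {K : List ℕ → ℕ} {u : List ℕ} (h : rel M R K u) : u ∈ box M R := by
  refine ⟨rel_length h, ?_⟩
  induction u generalizing R K with
  | nil => simp
  | cons i u ih =>
    cases R with
    | zero => exact absurd h (by simp [rel])
    | succ R =>
      intro j hj
      rcases List.mem_cons.1 hj with rfl | hj
      · have := h.1; have := h.2.1; omega
      · exact ih h.2.2 j hj

/-- Recursion for `Near`. -/
theorem near_succ {M R : ℕ} {K : List ℕ → ℕ} {X : List ℕ → ℝ≥0} {s : ℝ} :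
    Near M (R + 1) K X s ↔ (M ≤ K [] ∧ 0 < s) ∨
      (K [] < M ∧ ∃ i < K [], Near M R (sub K i) (sub X i) (s - X [i])) := by
  constructor
  · rintro ⟨u, h1, h2, h3⟩
    cases u with
    | nil => left; exact ⟨h2, by simpa [dist] using h3⟩
    | cons i u =>
      right
      refine ⟨h1.1, i, h1.2.1, u, h1.2.2, h2, ?_⟩
      simp only [dist, NNReal.coe_add] at h3
      linarith
  · rintro (⟨h1, h2⟩ | ⟨h1, i, h2, u, h3, h4, h5⟩)
    · exact ⟨[], rel_nil _ _ _, h1, by simpa [dist] using h2⟩
    · refine ⟨i :: u, ⟨h1, h2, h3⟩, h4, ?_⟩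
      simp only [dist, NNReal.coe_add]
      linarith

theorem near_zero {M : ℕ} {K : List ℕ → ℕ} {X : List ℕ → ℝ≥0} {s : ℝ} :
    Near M 0 K X s ↔ (M ≤ K [] ∧ 0 < s) := by
  constructor
  · rintro ⟨u, h1, h2, h3⟩
    cases u with
    | nil => exact ⟨h2, by simpa [dist] using h3⟩
    | cons i u => exact absurd h1 (by simp [rel])
  · rintro ⟨h1, h2⟩
    exact ⟨[], rel_nil _ _ _, h1, by simpa [dist] using h2⟩

end Pool.Agent.Helper98.Comp
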